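import Pool.Agent.Q283.T3.Wk
import Pool.Agent.Q283.T3.Lln
import Pool.Agent.Q283.T3.LB

/-! Binomial laws and laws of large numbers from joint laws -/

set_option autoImplicit false

open scoped Classical

namespace Q283.Bin

open Finset Filter
open Q283.T3B (scheffe hasSum_pi)
open Q283.T3 (fcc2)

variable {α : Type} {S : ℕ → Finset α} {P : ℕ → α → Prop} {p : ℝ}

theorem fcc {s : Finset α} {p q : α → Prop} {i1 : DecidablePred p} {i2 : DecidablePred q}
    (h : ∀ a ∈ s, p a ↔ q a) : (s.filter p).card = (s.filter q).card := by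
  congr 1
  exact Finset.filter_congr h

/-- the law of the patterns -/
def Pat (S : ℕ → Finset α) (P : ℕ → α → Prop) (p : ℝ) : Prop :=
  ∀ (n : ℕ) (A : Finset (Fin n)), Tendsto (fun X : ℕ =>
    (((S X).filter fun a => ∀ k : Fin n, (P k a ↔ k ∈ A)).card : ℝ) / ((S X).card : ℝ)) atTop
    (nhds (p ^ A.card * (1 - p) ^ (n - A.card)))

theorem cnt_eq (n : ℕ) (a : α) : (univ.filter fun k : Fin n => P k a).card =
    ((range n).filter fun k => P k a).card := by
  refine card_bij (fun k _ => (k : ℕ)) ?_ ?_ ?_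
  · intro k hk
    rw [mem_filter] at hk ⊢
    exact ⟨mem_range.2 k.2, hk.2⟩
  · intro a _ b _ hab
    exact Fin.ext hab
  · intro b hb
    rw [mem_filter, mem_range] at hb
    exact ⟨⟨b, hb.1⟩, mem_filter.2 ⟨mem_univ _, hb.2⟩, rfl⟩

theorem pat' (h : Pat S P p) (n : ℕ) (A : Finset (Fin n)) :
    Tendsto (fun X : ℕ =>
      (((S X).filter fun a => (univ.filter fun k : Fin n => P k a) = A).card : ℝ) /
        ((S X).card : ℝ)) atTop (nhds (p ^ A.card * (1 - p) ^ (n - A.card))) := by
  refine (h n A).congr fun X => ?_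
  congr 2
  refine fcc fun a _ => ?_
  rw [Finset.ext_iff]
  refine forall_congr' fun k => ?_
  rw [mem_filter, and_iff_right (mem_univ k)]

/-- the law of the number of the events -/
theorem cnt (h : Pat S P p) (n : ℕ) (J : ℕ → Prop) :
    Tendsto (fun X : ℕ =>
      (((S X).filter fun a => J ((range n).filter fun k => P k a).card).card : ℝ) /
        ((S X).card : ℝ)) atTop (nhds (∑ A : Finset (Fin n),
          if J A.card then p ^ A.card * (1 - p) ^ (n - A.card) else 0)) := by
  have h1 : Tendsto (fun X : ℕ => ∑ A : Finset (Fin n), if J A.card then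
      (((S X).filter fun a => (univ.filter fun k : Fin n => P k a) = A).card : ℝ) /
        ((S X).card : ℝ) else 0) atTop (nhds (∑ A : Finset (Fin n),
          if J A.card then p ^ A.card * (1 - p) ^ (n - A.card) else 0)) := by
    refine tendsto_finsetSum _ fun A _ => ?_
    by_cases hJ : J A.card
    · simp only [if_pos hJ]
      exact pat' h n A
    · simp only [if_neg hJ]
      exact tendsto_const_nhds
  refine h1.congr fun X => ?_
  rw [← sum_filter, ← sum_div, ← Nat.cast_sum]
  congr 2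
  rw [← card_biUnion]
  · congr 1
    ext D
    rw [mem_biUnion, mem_filter]
    constructor
    · rintro ⟨A, hA, hD⟩
      rw [mem_filter] at hA hD
      refine ⟨hD.1, ?_⟩
      rw [← cnt_eq, hD.2]
      exact hA.2
    · rintro ⟨h2, h3⟩
      rw [← cnt_eq] at h3
      exact ⟨_, mem_filter.2 ⟨mem_univ _, h3⟩, mem_filter.2 ⟨h2, rfl⟩⟩
  · intro A _ B _ hAB
    rw [Function.onFun, disjoint_left]
    intro D hA hB
    rw [mem_filter] at hA hB
    exact hAB (hA.2.symm.trans hB.2)

theorem binom (h : Pat S P p) (n j : ℕ) :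
    Tendsto (fun X : ℕ =>
      (((S X).filter fun a => ((range n).filter fun k => P k a).card = j).card : ℝ) /
        ((S X).card : ℝ)) atTop (nhds (n.choose j * p ^ j * (1 - p) ^ (n - j))) := by
  have h0 := cnt h n fun i => i = j
  have h1 : Tendsto (fun X : ℕ =>
      (((S X).filter fun a => ((range n).filter fun k => P k a).card = j).card : ℝ) /
        ((S X).card : ℝ)) atTop (nhds (∑ A : Finset (Fin n),
          if A.card = j then p ^ A.card * (1 - p) ^ (n - A.card) else 0)) := by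
    have e0 : (∑ A : Finset (Fin n), if A.card = j then p ^ A.card * (1 - p) ^ (n - A.card) else 0) =
        ∑ A : Finset (Fin n), @ite _ (A.card = j) (Classical.propDecidable _)
          (p ^ A.card * (1 - p) ^ (n - A.card)) 0 := by
      refine sum_congr rfl fun A _ => ?_
      split_ifs <;> rfl
    rw [e0]
    refine h0.congr fun X => ?_
    congr 2
    exact fcc2 _ _
  have e : (∑ A : Finset (Fin n), if A.card = j then p ^ A.card * (1 - p) ^ (n - A.card) else 0) =
      n.choose j * p ^ j * (1 - p) ^ (n - j) := by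
    rw [← sum_filter]
    have e1 : (univ : Finset (Finset (Fin n))).filter (fun A => A.card = j) =
        powersetCard j (univ : Finset (Fin n)) := by
      ext A
      rw [mem_filter, mem_powersetCard]
      exact ⟨fun h => ⟨subset_univ _, h.2⟩, fun h => ⟨mem_univ _, h.2⟩⟩
    rw [e1, sum_congr rfl (g := fun _ => p ^ j * (1 - p) ^ (n - j)) fun A hA => by
      rw [(mem_powersetCard.1 hA).2], sum_const, card_powersetCard, card_univ, Fintype.card_fin,
      nsmul_eq_mul, mul_assoc]
  rw [e] at h1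
  exact h1

/-- the exponential moment -/
theorem mom (n : ℕ) (p t : ℝ) :
    ∑ A : Finset (Fin n), Real.exp (t * A.card) * (p ^ A.card * (1 - p) ^ (n - A.card)) =
      (p * Real.exp t + (1 - p)) ^ n := by
  have h := Finset.sum_pow_mul_eq_add_pow (p * Real.exp t) (1 - p) (univ : Finset (Fin n))
  rw [card_univ, Fintype.card_fin, powerset_univ] at h
  rw [← h]
  refine sum_congr rfl fun A _ => ?_
  rw [mul_pow, ← Real.exp_nat_mul]
  have : (A.card : ℝ) * t = t * A.card := mul_comm _ _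
  rw [this]
  ring

theorem tail (hp0 : 0 ≤ p) (hp1 : p ≤ 1) (n : ℕ) {ε : ℝ} (hε : 0 < ε) (hε1 : ε ≤ 1) (s : ℝ)
    (hs : s = 1 ∨ s = -1) :
    ∑ A : Finset (Fin n), (if ε * n ≤ s * (A.card - p * n) then
      p ^ A.card * (1 - p) ^ (n - A.card) else 0) ≤ Real.exp (-(ε ^ 2 * n / 4)) := by
  set t : ℝ := s * (ε / 2) with ht
  have hw : ∀ A : Finset (Fin n), 0 ≤ p ^ A.card * (1 - p) ^ (n - A.card) := fun A =>
    mul_nonneg (pow_nonneg hp0 _) (pow_nonneg (by linarith) _)
  have hs2 : s * s = 1 := by rcases hs with rfl | rfl <;> norm_num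
  have h1 : ∑ A : Finset (Fin n), (if ε * n ≤ s * (A.card - p * n) then
      p ^ A.card * (1 - p) ^ (n - A.card) else 0) ≤
      ∑ A : Finset (Fin n), Real.exp (-(t * (p * n)) - ε / 2 * (ε * n)) *
        (Real.exp (t * A.card) * (p ^ A.card * (1 - p) ^ (n - A.card))) := by
    refine sum_le_sum fun A _ => ?_
    split_ifs with hA
    · rw [← mul_assoc, ← Real.exp_add]
      refine le_mul_of_one_le_left (hw A) (Real.one_le_exp ?_)
      have h2 : ε / 2 * (ε * n) ≤ ε / 2 * (s * (A.card - p * n)) :=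
        mul_le_mul_of_nonneg_left hA (by positivity)
      rw [ht]
      linarith
    · exact mul_nonneg (Real.exp_pos _).le (mul_nonneg (Real.exp_pos _).le (hw A))
  refine h1.trans ?_
  rw [← mul_sum, mom]
  have ht1 : |t| ≤ 1 := by
    rw [ht]
    rcases hs with rfl | rfl <;> rw [abs_le] <;> constructor <;> linarith
  have h2 : Real.exp t ≤ 1 + t + t ^ 2 := by
    have h3 := (abs_le.1 (Real.abs_exp_sub_one_sub_id_le ht1)).2
    linarith
  have h3 : p * Real.exp t + (1 - p) ≤ Real.exp (p * (t + t ^ 2)) := by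
    have h4 := Real.add_one_le_exp (p * (t + t ^ 2))
    have h5 : p * Real.exp t ≤ p * (1 + t + t ^ 2) := mul_le_mul_of_nonneg_left h2 hp0
    linarith
  have h4 : (p * Real.exp t + (1 - p)) ^ n ≤ Real.exp (n * (p * (t + t ^ 2))) := by
    rw [Real.exp_nat_mul]
    refine pow_le_pow_left₀ ?_ h3 n
    have := mul_nonneg hp0 (Real.exp_pos t).le
    linarith
  calc Real.exp (-(t * (p * n)) - ε / 2 * (ε * n)) * (p * Real.exp t + (1 - p)) ^ n
      ≤ Real.exp (-(t * (p * n)) - ε / 2 * (ε * n)) * Real.exp (n * (p * (t + t ^ 2))) :=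
        mul_le_mul_of_nonneg_left h4 (Real.exp_pos _).le
    _ = Real.exp (-(t * (p * n)) - ε / 2 * (ε * n) + n * (p * (t + t ^ 2))) :=
        (Real.exp_add _ _).symm
    _ ≤ Real.exp (-(ε ^ 2 * n / 4)) := by
        refine Real.exp_le_exp.2 ?_
        have h5 : t ^ 2 = (ε / 2) ^ 2 := by
          rw [ht, mul_pow, pow_two s, hs2, one_mul]
        have h6 : p * ((n : ℝ) * (ε / 2) ^ 2) ≤ 1 * ((n : ℝ) * (ε / 2) ^ 2) :=
          mul_le_mul_of_nonneg_right hp1 (by positivity)
        rw [h5]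
        nlinarith

/-- **The law of large numbers with exponential rate.** -/
theorem lln_exp (hp0 : 0 ≤ p) (hp1 : p ≤ 1) (h : Pat S P p) (n : ℕ) (hn : 0 < n) (ε : ℝ)
    (hε : 0 < ε) :
    ∃ l : ℝ, l ≤ 2 * Real.exp (-(ε ^ 2 * n / 4)) ∧ Tendsto (fun X : ℕ =>
      (((S X).filter fun a =>
        ε ≤ |(((range n).filter fun k => P k a).card : ℝ) / n - p|).card : ℝ) /
        ((S X).card : ℝ)) atTop (nhds l) := by
  have hn' : (0 : ℝ) < n := by exact_mod_cast hn
  refine ⟨_, ?_, cnt h n fun i => ε ≤ |(i : ℝ) / n - p|⟩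
  have hw : ∀ A : Finset (Fin n), 0 ≤ p ^ A.card * (1 - p) ^ (n - A.card) := fun A =>
    mul_nonneg (pow_nonneg hp0 _) (pow_nonneg (by linarith) _)
  by_cases hε1 : ε ≤ 1
  · have h1 := tail hp0 hp1 n hε hε1 1 (Or.inl rfl)
    have h2 := tail hp0 hp1 n hε hε1 (-1) (Or.inr rfl)
    refine le_trans ?_ (le_of_le_of_eq (add_le_add h1 h2) (two_mul _).symm)
    rw [← sum_add_distrib]
    refine sum_le_sum fun A _ => ?_
    have hA := hw A
    by_cases hJ : ε ≤ |(A.card : ℝ) / n - p|
    · rw [if_pos hJ]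
      rcases le_abs.1 hJ with h3 | h3
      · have h4 : ε * n ≤ 1 * (A.card - p * n) := by
          have h5 := mul_le_mul_of_nonneg_right h3 hn'.le
          rw [sub_mul, div_mul_cancel₀ _ hn'.ne'] at h5
          linarith
        rw [if_pos h4]
        split_ifs <;> linarith
      · have h4 : ε * n ≤ -1 * (A.card - p * n) := by
          have h5 := mul_le_mul_of_nonneg_right h3 hn'.le
          rw [neg_mul, sub_mul, div_mul_cancel₀ _ hn'.ne'] at h5
          linarith
        rw [if_pos h4]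
        split_ifs <;> linarith
    · rw [if_neg hJ]
      split_ifs <;> linarith
  · have h3 : ∀ A : Finset (Fin n), ¬ ε ≤ |(A.card : ℝ) / n - p| := by
      intro A hA
      have h4 : (A.card : ℝ) / n ≤ 1 := by
        rw [div_le_one hn']
        have := card_le_univ A
        rw [Fintype.card_fin] at this
        exact_mod_cast this
      have h5 : 0 ≤ (A.card : ℝ) / n := by positivity
      have h8 : |(A.card : ℝ) / n - p| ≤ 1 := abs_le.2 ⟨by linarith, by linarith⟩
      exact hε1 (hA.trans h8)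
    rw [sum_eq_zero fun A _ => if_neg (h3 A)]
    positivity

/-- the laws of pairs from the laws of patterns of a subsequence-invariant family -/
theorem many (hp : 0 < p) (hne : ∀ᶠ X in atTop, (S X).Nonempty)
    (h1 : ∀ k, Tendsto (fun X => (((S X).filter fun a => P k a).card : ℝ) / ((S X).card : ℝ))
      atTop (nhds p))
    (h2 : ∀ k l, k ≠ l → Tendsto (fun X => (((S X).filter fun a => P k a ∧ P l a).card : ℝ) /
      ((S X).card : ℝ)) atTop (nhds (p * p))) (N : ℕ) :
    Tendsto (fun X => (((S X).filter fun a =>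
        ∃ F : Finset ℕ, F.card = N ∧ ∀ k ∈ F, P k a).card : ℝ) / ((S X).card : ℝ))
      atTop (nhds 1) :=
  Q283.T3N.many S P p hp hne h1 h2 N

/-- the joint law of numbers -/
def Law (S : ℕ → Finset α) (ρ : ℕ → α → ℕ) (g : ℕ → ℝ) : Prop :=
  ∀ (M : ℕ) (m : Fin M → ℕ), Function.Injective m → ∀ b : Fin M → ℕ, Tendsto (fun X : ℕ =>
    (((S X).filter fun a => ∀ k, ρ (m k) a = b k).card : ℝ) / ((S X).card : ℝ)) atTop
    (nhds (∏ k, g (b k)))

variable {ρ : ℕ → α → ℕ} {g : ℕ → ℝ}

theorem law_T (hg : HasSum g 1) (hg0 : ∀ r, 0 ≤ g r) (hne : ∀ᶠ X in atTop, (S X).Nonempty)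
    (h : Law S ρ g) (T : Set ℕ) {M : ℕ} (m : Fin M → ℕ) (hm : Function.Injective m)
    (A : Finset (Fin M)) :
    Tendsto (fun X : ℕ =>
      (((S X).filter fun a => ∀ k, (ρ (m k) a ∈ T ↔ k ∈ A)).card : ℝ) / ((S X).card : ℝ)) atTop
      (nhds ((∑' r : T, g r) ^ A.card * (1 - ∑' r : T, g r) ^ (M - A.card))) := by
  have hs : HasSum (fun r : Fin M → ℕ => ∏ k, g (r k)) 1 := by
    have h := hasSum_pi (M := M) (fun _ => g) (fun _ => 1) (fun _ => hg0) (fun _ => hg)
    rwa [prod_const_one] at h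
  have h1 := scheffe S (fun a k => ρ (m k) a) (fun r => ∏ k, g (r k)) hs hne (fun r => by
    refine (h M m hm r).congr fun X => ?_
    congr 2
    exact fcc fun a _ => ⟨fun h => funext h, fun h k => congrFun h k⟩)
    {r | ∀ k, (r k ∈ T ↔ k ∈ A)}
  -- the measure
  set p : ℝ := ∑' r : T, g r with hp
  have hT : HasSum (fun r : ℕ => if r ∈ T then g r else 0) p := by
    rw [hp, tsum_subtype T g]
    have e : T.indicator g = fun r : ℕ => if r ∈ T then g r else 0 := by
      funext r
      by_cases hr : r ∈ T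
      · rw [Set.indicator_of_mem hr, if_pos hr]
      · rw [Set.indicator_of_notMem hr, if_neg hr]
    rw [← e]
    exact (hg.summable.indicator T).hasSum
  have h3 : ∀ k : Fin M, HasSum (fun r : ℕ => if (r ∈ T ↔ k ∈ A) then g r else 0)
      (if k ∈ A then p else 1 - p) := by
    intro k
    by_cases hk : k ∈ A
    · rw [if_pos hk]
      refine hT.congr_fun ?_
      intro r
      by_cases hr : r ∈ T <;> simp [hr, hk]
    · rw [if_neg hk]
      refine (hg.sub hT).congr_fun ?_
      intro r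
      by_cases hr : r ∈ T <;> simp [hr, hk]
  have h4 := hasSum_pi (M := M) (fun k r => if (r ∈ T ↔ k ∈ A) then g r else 0) _
    (fun k r => by
      show 0 ≤ if (r ∈ T ↔ k ∈ A) then g r else 0
      split_ifs
      · exact hg0 r
      · exact le_rfl) h3
  have e : ∑' r : {r : Fin M → ℕ | ∀ k, (r k ∈ T ↔ k ∈ A)}, ∏ k, g (r.1 k) =
      p ^ A.card * (1 - p) ^ (M - A.card) := by
    rw [tsum_subtype {r : Fin M → ℕ | ∀ k, (r k ∈ T ↔ k ∈ A)} fun r => ∏ k, g (r k)]
    have h5 : (fun r : Fin M → ℕ => ({r : Fin M → ℕ | ∀ k, (r k ∈ T ↔ k ∈ A)}.indicator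
        fun r => ∏ k, g (r k)) r) =
        fun r => ∏ k, if (r k ∈ T ↔ k ∈ A) then g (r k) else 0 := by
      funext r
      by_cases hr : ∀ k, (r k ∈ T ↔ k ∈ A)
      · rw [Set.indicator_of_mem (show r ∈ {r : Fin M → ℕ | ∀ k, (r k ∈ T ↔ k ∈ A)} from hr)]
        exact prod_congr rfl fun k _ => (if_pos (hr k)).symm
      · rw [Set.indicator_of_notMem (show r ∉ {r : Fin M → ℕ | ∀ k, (r k ∈ T ↔ k ∈ A)} from hr)]
        obtain ⟨k, hk⟩ := not_forall.1 hr
        exact (prod_eq_zero (mem_univ k) (if_neg hk)).symm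
    rw [h5, h4.tsum_eq, prod_ite, prod_const, prod_const]
    congr 2
    · congr 1
      ext k
      simp
    · have e : (univ.filter fun k : Fin M => k ∉ A) = univ \ A := by
        ext k
        simp
      rw [e, card_sdiff_of_subset (subset_univ A), card_univ, Fintype.card_fin]
  rw [e] at h1
  refine h1.congr fun X => ?_
  congr 2
  exact fcc fun a _ => Iff.rfl

/-- the patterns of the first `n` numbers -/
theorem pat_T (hg : HasSum g 1) (hg0 : ∀ r, 0 ≤ g r) (hne : ∀ᶠ X in atTop, (S X).Nonempty)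
    (h : Law S ρ g) (T : Set ℕ) : Pat S (fun k a => ρ k a ∈ T) (∑' r : T, g r) := by
  intro n A
  exact law_T hg hg0 hne h T (fun k : Fin n => (k : ℕ)) (fun a b hab => Fin.ext hab) A

theorem one_T (hg : HasSum g 1) (hg0 : ∀ r, 0 ≤ g r) (hne : ∀ᶠ X in atTop, (S X).Nonempty)
    (h : Law S ρ g) (T : Set ℕ) (k : ℕ) :
    Tendsto (fun X => (((S X).filter fun a => ρ k a ∈ T).card : ℝ) / ((S X).card : ℝ))
      atTop (nhds (∑' r : T, g r)) := by
  have h1 := law_T hg hg0 hne h T (fun _ : Fin 1 => k) (fun a b _ => Subsingleton.elim a b) univ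
  rw [card_univ, Fintype.card_fin, Nat.sub_self, pow_zero, mul_one, pow_one] at h1
  refine h1.congr fun X => ?_
  congr 2
  exact fcc fun a _ => ⟨fun h => (h 0).2 (mem_univ _), fun h _ => ⟨fun _ => mem_univ _, fun _ => h⟩⟩

theorem two_T (hg : HasSum g 1) (hg0 : ∀ r, 0 ≤ g r) (hne : ∀ᶠ X in atTop, (S X).Nonempty)
    (h : Law S ρ g) (T : Set ℕ) (k l : ℕ) (hkl : k ≠ l) :
    Tendsto (fun X => (((S X).filter fun a => ρ k a ∈ T ∧ ρ l a ∈ T).card : ℝ) /
      ((S X).card : ℝ)) atTop (nhds ((∑' r : T, g r) * ∑' r : T, g r)) := by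
  have hinj : Function.Injective ![k, l] := by
    intro a b hab
    fin_cases a <;> fin_cases b
    · rfl
    · exact absurd hab hkl
    · exact absurd hab hkl.symm
    · rfl
  have h1 := law_T hg hg0 hne h T ![k, l] hinj univ
  rw [card_univ, Fintype.card_fin, Nat.sub_self, pow_zero, mul_one, pow_two] at h1
  refine h1.congr fun X => ?_
  congr 2
  refine fcc fun a _ => ⟨fun h => ⟨(h 0).2 (mem_univ _), (h 1).2 (mem_univ _)⟩, fun h i => ?_⟩
  refine ⟨fun _ => mem_univ _, fun _ => ?_⟩
  fin_cases i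
  · exact h.1
  · exact h.2

/-- **Almost all elements.** -/
theorem many_T (hg : HasSum g 1) (hg0 : ∀ r, 0 ≤ g r) (hne : ∀ᶠ X in atTop, (S X).Nonempty)
    (h : Law S ρ g) (T : Set ℕ) (hT : 0 < ∑' r : T, g r) (N : ℕ) :
    Tendsto (fun X => (((S X).filter fun a =>
        ∃ F : Finset ℕ, F.card = N ∧ ∀ k ∈ F, ρ k a ∈ T).card : ℝ) / ((S X).card : ℝ))
      atTop (nhds 1) :=
  Q283.T3N.many S (fun k a => ρ k a ∈ T) _ hT hne (one_T hg hg0 hne h T) (two_T hg hg0 hne h T) N

end Q283.Bin
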