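import Pool.Agent.Q283.Q3.Cfq
import Pool.Agent.Q283.MS.Main

/-! The fields generated by cube roots, for all `D` -/

set_option autoImplicit false

open scoped Classical

namespace Q283.Q3N

open Finset Module Filter
open Pool.Agent.Y703.CX (lam LamP SS Cl c3)
open Pool.Agent.Y703.CT (Cls NoSplit Base Triv3 fin_all EQ WD)
open Q283.MC (exists_cf cf_bs tw Rd RankZero tf Ind rd_of deg_dvd)

/-- the products -/
def RR {k : ℕ} (d : Fin k → ℕ) (e : Fin k → ZMod 3) : ℕ := ∏ j, d j ^ (e j).val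

/-- all the twists are good -/
def AllG {k : ℕ} (d : Fin k → ℕ) (D : ℕ) : Prop := ∀ e : Fin k → ZMod 3, G3 (D * RR d e)

/-- **The exact proportion.** -/
theorem law_all {k : ℕ} {d : Fin k → ℕ} (hd : ∀ j, Mul3 (d j)) (hind : Ind d) :
    Tendsto (fun X : ℕ =>
      (((SN X).filter fun D => AllG d D).card : ℝ) / ((SN X).card : ℝ))
      atTop (nhds (c3 ^ (3 ^ k))) := by
  have h := law_fam (fun e : Fin k → ZMod 3 => RR d e) (fun e => mul3_prod hd e)
    fun e e' hne => fe_ne_of_ind hd hind hne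
  rw [Fintype.card_fun, ZMod.card, Fintype.card_fin] at h
  refine h.congr fun X => ?_
  congr 2
  exact Pool.Agent.XLK.fcc fun D _ => Iff.rfl

/-- the theorem for one field -/
theorem fld {k : ℕ} {d : Fin k → ℕ} (hd : ∀ j, Mul3 (d j)) (hind : Ind d) {D : ℕ} (hD : D ≠ 0)
    (hG : AllG d D) {F : Type} [Field F] [NumberField F] {θ : Fin k → F}
    (hθ : ∀ j, θ j ^ 3 = (d j : F))
    (hgen : IntermediateField.adjoin ℚ ({x : F | x ^ 3 = 1} ∪ Set.range θ) = ⊤) :
    3 ^ k ∣ finrank ℚ F ∧ RankZero D d F ∧ Q283.MS.Kl k D F := by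
  choose N c hN hC hS using hG
  have hd0 : ∀ j, d j ≠ 0 := fun j => (hd j).ne
  obtain ⟨r, hr⟩ := rd_of hθ hind hgen
  have hDc : ∀ e, tw D d e = N e * (c e) ^ 3 := hN
  exact ⟨deg_dvd hθ hind, tf hr hD hd0 hDc hC hS,
    fun n x hx => Q283.MS.sha_all hθ hgen hD hd0 hDc hC hS n x hx⟩

/-- the cube-free part is unique -/
theorem cf_unique {N N' c c' : ℕ} (h : N * c ^ 3 = N' * c' ^ 3) (h0 : N * c ^ 3 ≠ 0)
    (hN : ∀ p : ℕ, p.Prime → ¬ p ^ 3 ∣ N) (hN' : ∀ p : ℕ, p.Prime → ¬ p ^ 3 ∣ N') : N = N' := by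
  have h0' : N' * c' ^ 3 ≠ 0 := h ▸ h0
  have n1 : N ≠ 0 := left_ne_zero_of_mul h0
  have n2 : N' ≠ 0 := left_ne_zero_of_mul h0'
  have c1 : c ^ 3 ≠ 0 := right_ne_zero_of_mul h0
  have c2 : c' ^ 3 ≠ 0 := right_ne_zero_of_mul h0'
  have hle : ∀ {n : ℕ}, n ≠ 0 → (∀ p : ℕ, p.Prime → ¬ p ^ 3 ∣ n) → ∀ p, n.factorization p ≤ 2 := by
    intro n _ hn p
    by_contra h3
    by_cases hp : p.Prime
    · exact hn p hp ((pow_dvd_pow p (by omega)).trans (Nat.ordProj_dvd n p))
    · rw [Nat.factorization_eq_zero_of_not_prime _ hp] at h3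
      omega
  refine Nat.eq_of_factorization_eq n1 n2 fun p => ?_
  have h1 : fe N p = fe N' p := by
    have h2 : fe (N * c ^ 3) p = fe (N' * c' ^ 3) p := congrArg (fun n => fe n p) h
    rw [fe_mul n1 c1, fe_mul n2 c2, fe_cube, fe_cube, add_zero, add_zero] at h2
    exact h2
  unfold fe at h1
  have h2 := hle n1 hN p
  have h3 := hle n2 hN' p
  generalize N.factorization p = a at *
  generalize N'.factorization p = b at *
  interval_cases a <;> interval_cases b <;> first | rfl | exact absurd h1 (by decide)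

/-- the criterion with the Tate-Shafarevich group -/
theorem g3_triv {D R : ℕ} (hC : Cls D) (hR : Mul3 R) :
    G3 (D * R) ↔ ∃ N c : ℕ, D * R = N * c ^ 3 ∧ (∀ p : ℕ, p.Prime → ¬ p ^ 3 ∣ N) ∧ Triv3 N := by
  constructor
  · rintro ⟨N, c, h1, h2, h3⟩
    exact ⟨N, c, h1, h2.1.2.2, (triv_iff h2).2 h3⟩
  · rintro ⟨N, c, h1, h2, h3⟩
    obtain ⟨N', c', h4, h5⟩ := exists_cls hC hR
    have h6 : N = N' := cf_unique (h1.symm.trans h4)
      (by rw [← h1]; exact mul_ne_zero hC.1.1 hR.ne) h2 h5.1.2.2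
    subst h6
    exact ⟨N, c, h1, h5, (triv_iff h5).1 h3⟩

theorem g3_one {D : ℕ} (hC : Cls D) : G3 D ↔ Triv3 D := by
  have h1 : Mul3 1 := ⟨by norm_num, fun p hp h => absurd (Nat.dvd_one.1 h) hp.one_lt.ne'⟩
  have h := g3_triv hC h1
  rw [mul_one] at h
  rw [h]
  constructor
  · rintro ⟨N, c, h2, h3, h4⟩
    have h6 : N = D := cf_unique (N := N) (N' := D) (c := c) (c' := 1)
      (by rw [← h2]; ring) (by rw [← h2]; exact hC.1.1) h3 hC.1.2.2
    rwa [h6] at h4
  · intro h
    exact ⟨D, 1, by ring, hC.1.2.2, h⟩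

/-! ## Infinite sequences -/

/-- no nontrivial product of powers is a cube -/
def Indep (d : ℕ → ℕ) : Prop := ∀ (s : Finset ℕ) (e : ℕ → ℕ), (∃ j ∈ s, ¬ 3 ∣ e j) →
  ∀ c : ℕ, ∏ j ∈ s, d j ^ e j ≠ c ^ 3

theorem fe_fprod {d : ℕ → ℕ} (hd : ∀ j, d j ≠ 0) (s : Finset ℕ) (e : ℕ → ℕ) (p : ℕ) :
    fe (∏ j ∈ s, d j ^ e j) p = ∑ j ∈ s, (e j : ZMod 3) * fe (d j) p := by
  induction s using Finset.induction_on with
  | empty => rw [prod_empty, sum_empty, fe_one]
  | insert a s ha ih =>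
    rw [prod_insert ha, sum_insert ha, fe_mul (pow_ne_zero _ (hd a))
      (prod_ne_zero_iff.2 fun j _ => pow_ne_zero _ (hd j)), ih, fe_pow]

theorem lin {d : ℕ → ℕ} (hd : ∀ j, Mul3 (d j)) (h : Indep d) :
    LinearIndependent (ZMod 3) fun j => fe (d j) := by
  rw [linearIndependent_iff']
  intro s g hg j hj
  by_contra hne
  have h1 : ∀ p, fe (∏ j ∈ s, d j ^ (g j).val) p = 0 := by
    intro p
    rw [fe_fprod (fun j => (hd j).ne)]
    have h2 := congrFun hg p
    rw [Finset.sum_apply, Pi.zero_apply] at h2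
    rw [← h2]
    refine sum_congr rfl fun i _ => ?_
    rw [ZMod.natCast_zmod_val, Pi.smul_apply, smul_eq_mul]
  obtain ⟨c, hc⟩ := cube_of_fe (prod_ne_zero_iff.2 fun j _ => pow_ne_zero _ (hd j).ne) h1
  refine h s (fun j => (g j).val) ⟨j, hj, ?_⟩ c hc
  intro h3
  have h4 := ZMod.val_lt (g j)
  have h5 : (g j).val ≠ 0 := fun h => hne ((ZMod.val_eq_zero _).1 h)
  have := Nat.le_of_dvd (Nat.pos_of_ne_zero h5) h3
  omega

theorem fe_RR {k : ℕ} {d : Fin k → ℕ} (hd : ∀ j, Mul3 (d j)) (e : Fin k → ZMod 3) :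
    fe (RR d e) = ∑ j, e j • fe (d j) := by
  funext p
  unfold RR
  rw [fe_prod d (fun j => (hd j).ne), Finset.sum_apply]
  exact sum_congr rfl fun j _ => by rw [Pi.smul_apply, smul_eq_mul]

/-- independence of the members of a subfamily -/
theorem ind_sub {d : ℕ → ℕ} (hd : ∀ j, Mul3 (d j)) (h : Indep d) {k : ℕ} {J : Fin k → ℕ}
    (hJ : Function.Injective J) : Ind fun i => d (J i) := by
  intro e he c hc
  have h1 := (lin hd h).comp J hJ
  rw [Fintype.linearIndependent_iff] at h1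
  refine he (funext fun i => h1 e ?_ i)
  have h2 := fe_RR (d := fun i => d (J i)) (fun i => hd _) e
  unfold RR at h2
  rw [hc] at h2
  have h3 : fe (c ^ 3) = 0 := funext fun p => fe_cube c p
  rw [h3] at h2
  exact h2.symm

/-- the block with the number `b` -/
def bl (N b : ℕ) (i : Fin N) : ℕ := b * N + i

theorem bl_inj2 {N b b' : ℕ} {i i' : Fin N} (h : bl N b i = bl N b' i') : b = b' ∧ i = i' := by
  unfold bl at h
  have h1 := i.2
  have h2 := i'.2
  have hN : 0 < N := by omega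
  have h3 : (b * N + i) / N = b := by
    rw [add_comm, Nat.add_mul_div_right _ _ hN, Nat.div_eq_of_lt h1, zero_add]
  have h4 : (b' * N + i') / N = b' := by
    rw [add_comm, Nat.add_mul_div_right _ _ hN, Nat.div_eq_of_lt h2, zero_add]
  have h5 : b = b' := by rw [← h3, h, h4]
  subst h5
  exact ⟨rfl, Fin.ext (by omega)⟩

theorem bl_inj (N b : ℕ) : Function.Injective (bl N b) := fun _ _ h => (bl_inj2 h).2

/-- one block -/
theorem law_b {d : ℕ → ℕ} (hd : ∀ j, Mul3 (d j)) (h : Indep d) (N b : ℕ) :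
    Tendsto (fun X : ℕ =>
      (((SN X).filter fun D => AllG (fun i => d (bl N b i)) D).card : ℝ) / ((SN X).card : ℝ))
      atTop (nhds (c3 ^ (3 ^ N))) :=
  law_all (fun _ => hd _) (ind_sub hd h (bl_inj N b))

theorem RR_zero {k : ℕ} (d : Fin k → ℕ) : RR d 0 = 1 := by
  unfold RR
  refine prod_eq_one fun j _ => ?_
  rw [Pi.zero_apply, ZMod.val_zero, pow_zero]

/-- two blocks -/
theorem law_bb {d : ℕ → ℕ} (hd : ∀ j, Mul3 (d j)) (h : Indep d) (N b b' : ℕ) (hb : b ≠ b') :
    Tendsto (fun X : ℕ =>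
      (((SN X).filter fun D => AllG (fun i => d (bl N b i)) D ∧
        AllG (fun i => d (bl N b' i)) D).card : ℝ) / ((SN X).card : ℝ))
      atTop (nhds (c3 ^ (3 ^ N + (3 ^ N - 1)))) := by
  set J : Fin N ⊕ Fin N → ℕ := Sum.elim (bl N b) (bl N b') with hJ
  have hJi : Function.Injective J := by
    rintro (i | i) (j | j) hij
    · exact congrArg _ ((bl_inj2 hij).2)
    · exact absurd (bl_inj2 hij).1 hb
    · exact absurd (bl_inj2 hij).1 hb.symm
    · exact congrArg _ ((bl_inj2 hij).2)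
  have hl := (lin hd h).comp J hJi
  rw [Fintype.linearIndependent_iff] at hl
  -- the family
  set R : (Fin N → ZMod 3) ⊕ {e : Fin N → ZMod 3 // e ≠ 0} → ℕ :=
    Sum.elim (fun e => RR (fun i => d (bl N b i)) e) (fun e => RR (fun i => d (bl N b' i)) e.1) with hR
  have key : ∀ e e' : Fin N → ZMod 3,
      ∑ i, e i • fe (d (bl N b i)) + ∑ i, e' i • fe (d (bl N b' i)) = 0 → e = 0 ∧ e' = 0 := by
    intro e e' h0
    have h1 := hl (Sum.elim e e') (by
      rw [Fintype.sum_sum_type]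
      exact h0)
    exact ⟨funext fun i => h1 (Sum.inl i), funext fun i => h1 (Sum.inr i)⟩
  have hne : ∀ i j, i ≠ j → fe (R i) ≠ fe (R j) := by
    rintro (e | e) (e' | e') hij hf
    · have hf' : fe (RR (fun i => d (bl N b i)) e) = fe (RR (fun i => d (bl N b i)) e') := hf
      rw [fe_RR (fun _ => hd _), fe_RR (fun _ => hd _)] at hf'
      have h1 := key (e - e') 0 (by
        simp only [Pi.sub_apply, Pi.zero_apply, zero_smul, sum_const_zero, add_zero, sub_smul]
        rw [sum_sub_distrib, hf', sub_self])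
      exact hij (congrArg _ (sub_eq_zero.1 h1.1))
    · have hf' : fe (RR (fun i => d (bl N b i)) e) = fe (RR (fun i => d (bl N b' i)) e'.1) := hf
      rw [fe_RR (fun _ => hd _), fe_RR (fun _ => hd _)] at hf'
      have h1 := key e (-e'.1) (by
        simp only [Pi.neg_apply, neg_smul]
        rw [sum_neg_distrib, hf', add_neg_cancel])
      exact e'.2 (neg_eq_zero.1 h1.2)
    · have hf' : fe (RR (fun i => d (bl N b' i)) e.1) = fe (RR (fun i => d (bl N b i)) e') := hf
      rw [fe_RR (fun _ => hd _), fe_RR (fun _ => hd _)] at hf'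
      have h1 := key (-e') e.1 (by
        simp only [Pi.neg_apply, neg_smul]
        rw [sum_neg_distrib, hf', neg_add_cancel])
      exact e.2 h1.2
    · have hf' : fe (RR (fun i => d (bl N b' i)) e.1) = fe (RR (fun i => d (bl N b' i)) e'.1) := hf
      rw [fe_RR (fun _ => hd _), fe_RR (fun _ => hd _)] at hf'
      have h1 := key 0 (e.1 - e'.1) (by
        simp only [Pi.sub_apply, Pi.zero_apply, zero_smul, sum_const_zero, zero_add, sub_smul]
        rw [sum_sub_distrib, hf', sub_self])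
      exact hij (congrArg _ (Subtype.ext (sub_eq_zero.1 h1.2)))
  have hlaw := law_fam R (by
    rintro (e | e)
    · exact mul3_prod (fun _ => hd _) e
    · exact mul3_prod (fun _ => hd _) e.1) hne
  have hcard : Fintype.card ((Fin N → ZMod 3) ⊕ {e : Fin N → ZMod 3 // e ≠ 0}) =
      3 ^ N + (3 ^ N - 1) := by
    rw [Fintype.card_sum, Fintype.card_subtype_compl, Fintype.card_subtype_eq, Fintype.card_fun,
      ZMod.card, Fintype.card_fin]
  rw [hcard] at hlaw
  refine hlaw.congr fun X => ?_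
  congr 2
  refine Pool.Agent.XLK.fcc fun D _ => ?_
  constructor
  · intro h1
    refine ⟨fun e => h1 (Sum.inl e), fun e => ?_⟩
    by_cases he : e = 0
    · have h2 := h1 (Sum.inl 0)
      have h3 : G3 (D * RR (fun i => d (bl N b i)) 0) := h2
      rw [RR_zero] at h3
      rw [he, RR_zero]
      exact h3
    · exact h1 (Sum.inr ⟨e, he⟩)
  · rintro ⟨h1, h2⟩ (e | e)
    · exact h1 e
    · exact h2 e.1

/-- one number -/
theorem law_one : Tendsto (fun X : ℕ =>
      (((SN X).filter fun D => G3 D).card : ℝ) / ((SN X).card : ℝ)) atTop (nhds c3) := by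
  have h := law_fam (fun _ : Unit => 1)
    (fun _ => ⟨by norm_num, fun p hp h => absurd (Nat.dvd_one.1 h) hp.one_lt.ne'⟩)
    fun i j hij => absurd (Subsingleton.elim i j) hij
  rw [Fintype.card_unit, pow_one] at h
  refine h.congr fun X => ?_
  congr 2
  exact Pool.Agent.XLK.fcc fun D _ => ⟨fun h => by simpa using h (), fun h _ => by simpa using h⟩

/-- the good numbers up to `X` -/
noncomputable def GS (X : ℕ) : Finset ℕ := (SN X).filter fun D => G3 D

theorem allG_G3 {k : ℕ} {d : Fin k → ℕ} {D : ℕ} (h : AllG d D) : G3 D := by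
  have h1 := h 0
  rwa [RR_zero, mul_one] at h1

/-- **Almost all good numbers.** -/
theorem many_fields {d : ℕ → ℕ} (hd : ∀ j, Mul3 (d j)) (h : Indep d) (N T : ℕ) :
    Tendsto (fun X => (((GS X).filter fun D =>
        ∃ B : Finset ℕ, B.card = T ∧ ∀ b ∈ B, AllG (fun i => d (bl N b i)) D).card : ℝ) /
          ((GS X).card : ℝ)) atTop (nhds 1) := by
  have hc0 := c3_pos'
  have hgs : ∀ P : ℕ → Prop, (∀ D, P D → G3 D) → ∀ X, ((GS X).filter fun D => P D).card =
      ((SN X).filter fun D => P D).card := by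
    intro P hP X
    unfold GS
    rw [filter_filter]
    exact Pool.Agent.XLK.fcc fun D _ => ⟨fun h => h.2, fun h => ⟨hP D h, h⟩⟩
  have hdiv : ∀ (P : ℕ → Prop) (a : ℝ), (∀ D, P D → G3 D) →
      Tendsto (fun X : ℕ => (((SN X).filter fun D => P D).card : ℝ) / ((SN X).card : ℝ)) atTop
        (nhds a) →
      Tendsto (fun X : ℕ => (((GS X).filter fun D => P D).card : ℝ) / ((GS X).card : ℝ)) atTop
        (nhds (a / c3)) := by
    intro P a hP hP2
    refine (hP2.div law_one hc0.ne').congr' ?_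
    filter_upwards [ne_SN] with X hX
    have h1 : ((SN X).card : ℝ) ≠ 0 := by exact_mod_cast hX.card_pos.ne'
    rw [hgs P hP X, Pi.div_apply, div_div_div_cancel_right₀ h1]
    rfl
  refine Q283.T3N.many GS (fun b D => AllG (fun i => d (bl N b i)) D) (c3 ^ (3 ^ N - 1))
    (pow_pos hc0 _) ?_ (fun b => ?_) (fun b b' hb => ?_) T
  · have h1 := (tendsto_order.1 law_one).1 0 hc0
    filter_upwards [h1] with X hX
    rw [← card_pos]
    by_contra h2
    have h3 : ((SN X).filter fun D => G3 D).card = 0 := by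
      unfold GS at h2
      omega
    rw [h3, Nat.cast_zero, zero_div] at hX
    exact lt_irrefl _ hX
  · have h1 := hdiv (fun D => AllG (fun i => d (bl N b i)) D) _
      (fun D (hD : AllG (fun i => d (bl N b i)) D) => allG_G3 hD) (law_b hd h N b)
    have h2 : c3 ^ 3 ^ N / c3 = c3 ^ (3 ^ N - 1) := by
      have h3 : 3 ^ N = 3 ^ N - 1 + 1 := by
        have := Nat.pos_of_ne_zero (pow_ne_zero N (show (3 : ℕ) ≠ 0 by norm_num))
        omega
      rw [div_eq_iff hc0.ne', ← pow_succ, ← h3]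
    rw [h2] at h1
    exact h1
  · have h1 := hdiv (fun D => AllG (fun i => d (bl N b i)) D ∧ AllG (fun i => d (bl N b' i)) D) _
      (fun D (hD : AllG (fun i => d (bl N b i)) D ∧ AllG (fun i => d (bl N b' i)) D) =>
        allG_G3 hD.1) ((law_bb hd h N b b' hb).congr fun X =>
          congrArg (fun n : ℕ => (n : ℝ) / ((SN X).card : ℝ)) (Q283.T3.fcc2 _ _))
    have h2 : c3 ^ (3 ^ N + (3 ^ N - 1)) / c3 = c3 ^ (3 ^ N - 1) * c3 ^ (3 ^ N - 1) := by
      have h3 : 3 ^ N = 3 ^ N - 1 + 1 := by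
        have := Nat.pos_of_ne_zero (pow_ne_zero N (show (3 : ℕ) ≠ 0 by norm_num))
        omega
      have h4 : 3 ^ N + (3 ^ N - 1) = (3 ^ N - 1) + (3 ^ N - 1) + 1 := by omega
      rw [div_eq_iff hc0.ne', h4, pow_succ, pow_add]
    rw [h2] at h1
    exact h1.congr fun X => congrArg (fun n : ℕ => (n : ℝ) / ((GS X).card : ℝ)) (Q283.T3.fcc2 _ _)

end Q283.Q3N
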