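import Pool.Agent.Q283.Q3.Natq
import Pool.Agent.Q283.T3.Lln

/-! The law of large numbers over `ℚ` -/

set_option autoImplicit false

open scoped Classical

namespace Q283.Q3N

open Finset Module Filter
open Pool.Agent.Y703.CX (lam LamP SS Cl c3)
open Pool.Agent.Y703.CT (Cls NoSplit Base Triv3 fin_all)
open Pool.Agent.Y710.CX (card_eq cls_iff)
open Q283.Q3 (KT mem_KT ex AV mem_SS cq cq_zero low_V)
open Q283.Q3A (rv law_S meas_A finrank_ge ex_ne)

/-- for squarefree multipliers no condition of coprimality is needed -/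
theorem cls_mul' {D m : ℕ} (hD : Squarefree D) (hC : Cls D) (hm : Adm m) (hs : Squarefree m) :
    Cls (D * m) := by
  obtain ⟨⟨h0, h3, -⟩, h91, h98, q, hq, hq2, hqD, hqu⟩ := hC
  have h9 : (D * m) % 9 = D % 9 := by
    rw [Nat.mul_mod, hm.1, mul_one, Nat.mod_mod]
  refine ⟨⟨mul_ne_zero h0 hm.ne, ?_, ?_⟩, by rw [h9]; exact h91, by rw [h9]; exact h98,
    q, hq, hq2, hqD.trans (dvd_mul_right _ _), ?_⟩
  · intro h
    rcases (Nat.Prime.dvd_mul Nat.prime_three).1 h with h | h
    · exact h3 h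
    · have := hm.1
      omega
  · intro p hp h
    have h1 := (hp.pow_dvd_iff_le_factorization (mul_ne_zero h0 hm.ne)).1 h
    rw [Nat.factorization_mul h0 hm.ne, Finsupp.add_apply] at h1
    have h2 := hD.natFactorization_le_one p
    have h3 := hs.natFactorization_le_one p
    omega
  · intro p hp h hne
    rcases (Nat.Prime.dvd_mul hp).1 h with h | h
    · exact hqu p hp h hne
    · exact (hm.2 p hp h).1

/-- the class up to `X` -/
noncomputable def SN (X : ℕ) : Finset ℕ := (Icc 1 X).filter fun D => Squarefree D ∧ Cls D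

theorem mem_SN {X D : ℕ} : D ∈ SN X ↔ D ≤ X ∧ Squarefree D ∧ Cls D := by
  unfold SN
  rw [mem_filter, mem_Icc]
  refine ⟨fun h => ⟨h.1.2, h.2⟩, fun h => ⟨⟨?_, h.1⟩, h.2⟩⟩
  exact Nat.one_le_iff_ne_zero.2 h.2.1.ne_zero

theorem SN_card (X : ℕ) (P : ℕ → Prop) (Q : Finset ℕ → Prop)
    (hPQ : ∀ D, Squarefree D → Cl D.primeFactors → (P D ↔ Q D.primeFactors)) :
    ((SN X).filter fun D => P D).card = ((SS X).filter fun S => Q S).card := by
  have h := card_eq X P Q hPQ
  refine Eq.trans ?_ (h.trans (Q283.T3.fcc2 _ _))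
  unfold SN
  rw [filter_filter]
  exact Pool.Agent.XLK.fcc fun D _ => and_assoc

theorem SN_card' (X : ℕ) : (SN X).card = (SS X).card := by
  have h := SN_card X (fun _ => True) (fun _ => True) fun _ _ _ => Iff.rfl
  rwa [filter_true, filter_true] at h

/-- **The joint law for squarefree multipliers.** -/
theorem law_sq {M : ℕ} (m : Fin M → ℕ) (hm : ∀ k, Adm (m k)) (hs : ∀ k, Squarefree (m k))
    (hi : Function.Injective m) (A : Finset (Fin M)) :
    Tendsto (fun X : ℕ =>
      (((SN X).filter fun D => ∀ k, NoSplit (D * m k) ↔ k ∈ A).card : ℝ) / ((SN X).card : ℝ))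
      atTop (nhds (c3 ^ A.card * (1 - c3) ^ (M - A.card))) := by
  have hlam := Pool.Agent.Y333.CX.t_LAM
  have h := law_S ∅ (WW m) (empty_subset _) (fun k => fe (m k))
    (fun u hu => mem_WW hm hu) (fun k u hu => fe_WW m k u hu)
    (fun k l hkl he => hkl (hi (fe_inj (hm k) (hm l) he))) {r | ∀ k, (r k = 0 ↔ k ∈ A)}
  have h2 := meas_A A
  rw [cq_zero] at h2
  rw [h2] at h
  refine h.congr fun X => ?_
  have e1 := SN_card X (fun D => ∀ k, NoSplit (D * m k) ↔ k ∈ A)
    (fun S => AV ∅ S ∧ rv (WW m) (fun k => fe (m k)) S ∈ {r : Fin M → ℕ | ∀ k, (r k = 0 ↔ k ∈ A)})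
    fun D hD hcl => by
      show (_ ↔ AV ∅ D.primeFactors ∧ ∀ k, (rv (WW m) (fun k => fe (m k)) D.primeFactors k = 0 ↔ k ∈ A))
      rw [and_iff_right (show AV ∅ D.primeFactors from disjoint_empty_right _)]
      refine forall_congr' fun k => ?_
      have hC : Cls D := (cls_iff hD).2 hcl
      rw [← ns_iff hlam hD (hm k).ne (cls_mul' hD hC (hm k) (hs k)) (sub_WW m k)]
      have hge := finrank_ge (ex_ne (W := WW m) (fun u hu => mem_WW hm hu) (fe_WW m k) hcl)
      unfold rv
      have e : finrank (ZMod 3) (KT (D.primeFactors ∪ WW m) (ex (fe (m k)) D.primeFactors)) = 1 ↔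
          finrank (ZMod 3) (KT (D.primeFactors ∪ WW m) (ex (fe (m k)) D.primeFactors)) - 1 = 0 := by
        omega
      rw [e]
  have e2 : (SN X).card = ((SS X).filter (AV ∅)).card := by
    rw [SN_card', filter_true_of_mem fun S _ => show AV ∅ S from disjoint_empty_right _]
  rw [e2]
  exact congrArg₂ (fun a b : ℕ => (a : ℝ) / (b : ℝ)) ((Q283.T3.fcc2 _ _).trans (e1.symm.trans
    (Q283.T3.fcc2 _ _))) rfl

theorem low_SN : ∃ (c : ℝ) (X₀ : ℕ), 0 < c ∧
    ∀ X : ℕ, X₀ ≤ X → c * (X / Real.sqrt (Real.log X)) ≤ ((SN X).card : ℝ) := by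
  obtain ⟨c, X₀, hc, h⟩ := low_N (M := 0) (fun k => 1) fun k => k.elim0
  refine ⟨c, X₀, hc, fun X hX => (h X hX).trans (le_of_eq ?_)⟩
  congr 1
  exact Pool.Agent.XLK.fcc fun D _ => ⟨fun h => ⟨h.1, h.2.1⟩, fun h => ⟨h.1, h.2, fun k => k.elim0⟩⟩

theorem ne_SN : ∀ᶠ X : ℕ in atTop, (SN X).Nonempty := by
  obtain ⟨c, X₀, hc, h⟩ := low_SN
  filter_upwards [eventually_ge_atTop X₀, eventually_ge_atTop 3] with X h1 h2
  rw [← card_pos]
  have h5 : (0 : ℝ) < X := by exact_mod_cast (by omega : 0 < X)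
  have h6 : 0 < Real.log X := Real.log_pos (by exact_mod_cast (by omega : 1 < X))
  have h4 : (0 : ℝ) < c * (X / Real.sqrt (Real.log X)) := by
    have := Real.sqrt_pos.2 h6
    positivity
  exact_mod_cast lt_of_lt_of_le h4 (h X h1)

/-- an infinite sequence of multipliers -/
structure Seq (m : ℕ → ℕ) : Prop where
  inj : Function.Injective m
  adm : ∀ k, Adm (m k)
  sqf : ∀ k, Squarefree (m k)

/-- the law of the patterns of the first `n` curves -/
theorem pat {m : ℕ → ℕ} (h : Seq m) (n : ℕ) (A : Finset (Fin n)) :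
    Tendsto (fun X : ℕ =>
      (((SN X).filter fun D => (univ.filter fun k : Fin n => NoSplit (D * m k)) = A).card : ℝ) /
        ((SN X).card : ℝ)) atTop (nhds (c3 ^ A.card * (1 - c3) ^ (n - A.card))) := by
  refine (law_sq (fun k : Fin n => m k) (fun k => h.adm k) (fun k => h.sqf k)
    (fun a b hab => Fin.ext (h.inj hab)) A).congr fun X => ?_
  congr 2
  refine Pool.Agent.XLK.fcc fun D _ => ?_
  rw [Finset.ext_iff]
  refine forall_congr' fun k => ?_
  rw [mem_filter, and_iff_right (mem_univ k)]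

theorem cnt_eq {m : ℕ → ℕ} (n D : ℕ) : (univ.filter fun k : Fin n => NoSplit (D * m k)).card =
    ((range n).filter fun k => NoSplit (D * m k)).card := by
  refine card_bij (fun k _ => (k : ℕ)) ?_ ?_ ?_
  · intro k hk
    rw [mem_filter] at hk ⊢
    exact ⟨mem_range.2 k.2, hk.2⟩
  · intro a _ b _ hab
    exact Fin.ext hab
  · intro b hb
    rw [mem_filter, mem_range] at hb
    exact ⟨⟨b, hb.1⟩, mem_filter.2 ⟨mem_univ _, hb.2⟩, rfl⟩

/-- the law of the number of the good curves -/
theorem cnt {m : ℕ → ℕ} (h : Seq m) (n : ℕ) (J : ℕ → Prop) :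
    Tendsto (fun X : ℕ =>
      (((SN X).filter fun D => J ((range n).filter fun k => NoSplit (D * m k)).card).card : ℝ) /
        ((SN X).card : ℝ)) atTop (nhds (∑ A : Finset (Fin n),
          if J A.card then c3 ^ A.card * (1 - c3) ^ (n - A.card) else 0)) := by
  have h1 : Tendsto (fun X : ℕ => ∑ A : Finset (Fin n), if J A.card then
      (((SN X).filter fun D => (univ.filter fun k : Fin n => NoSplit (D * m k)) = A).card : ℝ) /
        ((SN X).card : ℝ) else 0) atTop (nhds (∑ A : Finset (Fin n),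
          if J A.card then c3 ^ A.card * (1 - c3) ^ (n - A.card) else 0)) := by
    refine tendsto_finsetSum _ fun A _ => ?_
    by_cases hJ : J A.card
    · simp only [if_pos hJ]
      exact pat h n A
    · simp only [if_neg hJ]
      exact tendsto_const_nhds
  refine h1.congr fun X => ?_
  rw [← sum_filter, ← sum_div, ← Nat.cast_sum]
  congr 2
  rw [← card_biUnion]
  · congr 1
    ext D
    rw [mem_biUnion, mem_filter]
    constructor
    · rintro ⟨A, hA, hD⟩
      rw [mem_filter] at hA hD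
      refine ⟨hD.1, ?_⟩
      rw [← cnt_eq, hD.2]
      exact hA.2
    · rintro ⟨h2, h3⟩
      rw [← cnt_eq] at h3
      exact ⟨_, mem_filter.2 ⟨mem_univ _, h3⟩, mem_filter.2 ⟨h2, rfl⟩⟩
  · intro A _ B _ hAB
    rw [Function.onFun, disjoint_left]
    intro D hA hB
    rw [mem_filter] at hA hB
    exact hAB (hA.2.symm.trans hB.2)

theorem binom {m : ℕ → ℕ} (h : Seq m) (n j : ℕ) :
    Tendsto (fun X : ℕ =>
      (((SN X).filter fun D => ((range n).filter fun k => NoSplit (D * m k)).card = j).card : ℝ) /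
        ((SN X).card : ℝ)) atTop (nhds (n.choose j * c3 ^ j * (1 - c3) ^ (n - j))) := by
  have h0 := cnt h n fun i => i = j
  have h1 : Tendsto (fun X : ℕ =>
      (((SN X).filter fun D => ((range n).filter fun k => NoSplit (D * m k)).card = j).card : ℝ) /
        ((SN X).card : ℝ)) atTop (nhds (∑ A : Finset (Fin n),
          if A.card = j then c3 ^ A.card * (1 - c3) ^ (n - A.card) else 0)) := by
    have e0 : (∑ A : Finset (Fin n), if A.card = j then c3 ^ A.card * (1 - c3) ^ (n - A.card) else 0) =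
        ∑ A : Finset (Fin n), @ite _ (A.card = j) (Classical.propDecidable _)
          (c3 ^ A.card * (1 - c3) ^ (n - A.card)) 0 := by
      refine sum_congr rfl fun A _ => ?_
      split_ifs <;> rfl
    rw [e0]
    refine h0.congr fun X => ?_
    congr 2
    exact Q283.T3.fcc2 _ _
  have e : (∑ A : Finset (Fin n), if A.card = j then c3 ^ A.card * (1 - c3) ^ (n - A.card) else 0) =
      n.choose j * c3 ^ j * (1 - c3) ^ (n - j) := by
    rw [← sum_filter]
    have e1 : (univ : Finset (Finset (Fin n))).filter (fun A => A.card = j) =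
        powersetCard j (univ : Finset (Fin n)) := by
      ext A
      rw [mem_filter, mem_powersetCard]
      exact ⟨fun h => ⟨subset_univ _, h.2⟩, fun h => ⟨mem_univ _, h.2⟩⟩
    rw [e1, sum_congr rfl (g := fun _ => c3 ^ j * (1 - c3) ^ (n - j)) fun A hA => by
      rw [(mem_powersetCard.1 hA).2], sum_const, card_powersetCard, card_univ, Fintype.card_fin,
      nsmul_eq_mul, mul_assoc]
  rw [e] at h1
  exact h1

theorem c3_lt : c3 < 1 := Pool.Agent.Y461.CX.t_C3.2.2.1

theorem c3_pos' : 0 < c3 := Pool.Agent.Y461.CX.t_C3.2.1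

/-- the exponential moment -/
theorem mom (n : ℕ) (t : ℝ) :
    ∑ A : Finset (Fin n), Real.exp (t * A.card) * (c3 ^ A.card * (1 - c3) ^ (n - A.card)) =
      (c3 * Real.exp t + (1 - c3)) ^ n := by
  have h := Finset.sum_pow_mul_eq_add_pow (c3 * Real.exp t) (1 - c3) (univ : Finset (Fin n))
  rw [card_univ, Fintype.card_fin, powerset_univ] at h
  rw [← h]
  refine sum_congr rfl fun A _ => ?_
  rw [mul_pow, ← Real.exp_nat_mul]
  have : (A.card : ℝ) * t = t * A.card := mul_comm _ _
  rw [this]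
  ring

theorem tail (n : ℕ) {ε : ℝ} (hε : 0 < ε) (hε1 : ε ≤ 1) (s : ℝ) (hs : s = 1 ∨ s = -1) :
    ∑ A : Finset (Fin n), (if ε * n ≤ s * (A.card - c3 * n) then
      c3 ^ A.card * (1 - c3) ^ (n - A.card) else 0) ≤ Real.exp (-(ε ^ 2 * n / 4)) := by
  set t : ℝ := s * (ε / 2) with ht
  have hw : ∀ A : Finset (Fin n), 0 ≤ c3 ^ A.card * (1 - c3) ^ (n - A.card) := fun A =>
    mul_nonneg (pow_nonneg c3_pos'.le _) (pow_nonneg (by linarith [c3_lt]) _)
  have hs2 : s * s = 1 := by rcases hs with rfl | rfl <;> norm_num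
  have h1 : ∑ A : Finset (Fin n), (if ε * n ≤ s * (A.card - c3 * n) then
      c3 ^ A.card * (1 - c3) ^ (n - A.card) else 0) ≤
      ∑ A : Finset (Fin n), Real.exp (-(t * (c3 * n)) - ε / 2 * (ε * n)) *
        (Real.exp (t * A.card) * (c3 ^ A.card * (1 - c3) ^ (n - A.card))) := by
    refine sum_le_sum fun A _ => ?_
    split_ifs with hA
    · rw [← mul_assoc, ← Real.exp_add]
      refine le_mul_of_one_le_left (hw A) (Real.one_le_exp ?_)
      have h2 : ε / 2 * (ε * n) ≤ ε / 2 * (s * (A.card - c3 * n)) :=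
        mul_le_mul_of_nonneg_left hA (by positivity)
      rw [ht]
      linarith
    · exact mul_nonneg (Real.exp_pos _).le (mul_nonneg (Real.exp_pos _).le (hw A))
  refine h1.trans ?_
  rw [← mul_sum, mom]
  have ht1 : |t| ≤ 1 := by
    rw [ht]
    rcases hs with rfl | rfl <;> rw [abs_le] <;> constructor <;> linarith
  have h2 : Real.exp t ≤ 1 + t + t ^ 2 := by
    have h3 := (abs_le.1 (Real.abs_exp_sub_one_sub_id_le ht1)).2
    linarith
  have h3 : c3 * Real.exp t + (1 - c3) ≤ Real.exp (c3 * (t + t ^ 2)) := by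
    have h4 := Real.add_one_le_exp (c3 * (t + t ^ 2))
    have h5 : c3 * Real.exp t ≤ c3 * (1 + t + t ^ 2) := mul_le_mul_of_nonneg_left h2 c3_pos'.le
    linarith
  have h4 : (c3 * Real.exp t + (1 - c3)) ^ n ≤ Real.exp (n * (c3 * (t + t ^ 2))) := by
    rw [Real.exp_nat_mul]
    refine pow_le_pow_left₀ ?_ h3 n
    have := mul_pos c3_pos' (Real.exp_pos t)
    linarith [c3_lt]
  calc Real.exp (-(t * (c3 * n)) - ε / 2 * (ε * n)) * (c3 * Real.exp t + (1 - c3)) ^ n
      ≤ Real.exp (-(t * (c3 * n)) - ε / 2 * (ε * n)) * Real.exp (n * (c3 * (t + t ^ 2))) :=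
        mul_le_mul_of_nonneg_left h4 (Real.exp_pos _).le
    _ = Real.exp (-(t * (c3 * n)) - ε / 2 * (ε * n) + n * (c3 * (t + t ^ 2))) :=
        (Real.exp_add _ _).symm
    _ ≤ Real.exp (-(ε ^ 2 * n / 4)) := by
        refine Real.exp_le_exp.2 ?_
        have h5 : t ^ 2 = (ε / 2) ^ 2 := by
          rw [ht, mul_pow, pow_two s, hs2, one_mul]
        have h6 : c3 * ((n : ℝ) * (ε / 2) ^ 2) ≤ 1 * ((n : ℝ) * (ε / 2) ^ 2) :=
          mul_le_mul_of_nonneg_right c3_lt.le (by positivity)
        rw [h5]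
        nlinarith

/-- **The law of large numbers with exponential rate.** -/
theorem lln_exp {m : ℕ → ℕ} (h : Seq m) (n : ℕ) (hn : 0 < n) (ε : ℝ) (hε : 0 < ε) :
    ∃ l : ℝ, l ≤ 2 * Real.exp (-(ε ^ 2 * n / 4)) ∧ Tendsto (fun X : ℕ =>
      (((SN X).filter fun D =>
        ε ≤ |(((range n).filter fun k => NoSplit (D * m k)).card : ℝ) / n - c3|).card : ℝ) /
        ((SN X).card : ℝ)) atTop (nhds l) := by
  have hn' : (0 : ℝ) < n := by exact_mod_cast hn
  refine ⟨_, ?_, cnt h n fun i => ε ≤ |(i : ℝ) / n - c3|⟩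
  have hw : ∀ A : Finset (Fin n), 0 ≤ c3 ^ A.card * (1 - c3) ^ (n - A.card) := fun A =>
    mul_nonneg (pow_nonneg c3_pos'.le _) (pow_nonneg (by linarith [c3_lt]) _)
  by_cases hε1 : ε ≤ 1
  · have h1 := tail n hε hε1 1 (Or.inl rfl)
    have h2 := tail n hε hε1 (-1) (Or.inr rfl)
    refine le_trans ?_ (le_of_le_of_eq (add_le_add h1 h2) (two_mul _).symm)
    rw [← sum_add_distrib]
    refine sum_le_sum fun A _ => ?_
    have hA := hw A
    by_cases hJ : ε ≤ |(A.card : ℝ) / n - c3|
    · rw [if_pos hJ]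
      rcases le_abs.1 hJ with h3 | h3
      · have h4 : ε * n ≤ 1 * (A.card - c3 * n) := by
          have h5 := mul_le_mul_of_nonneg_right h3 hn'.le
          rw [sub_mul, div_mul_cancel₀ _ hn'.ne'] at h5
          linarith
        rw [if_pos h4]
        split_ifs <;> linarith
      · have h4 : ε * n ≤ -1 * (A.card - c3 * n) := by
          have h5 := mul_le_mul_of_nonneg_right h3 hn'.le
          rw [neg_mul, sub_mul, div_mul_cancel₀ _ hn'.ne'] at h5
          linarith
        rw [if_pos h4]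
        split_ifs <;> linarith
    · rw [if_neg hJ]
      split_ifs <;> linarith
  · have h3 : ∀ A : Finset (Fin n), ¬ ε ≤ |(A.card : ℝ) / n - c3| := by
      intro A hA
      have h4 : (A.card : ℝ) / n ≤ 1 := by
        rw [div_le_one hn']
        have := card_le_univ A
        rw [Fintype.card_fin] at this
        exact_mod_cast this
      have h5 : 0 ≤ (A.card : ℝ) / n := by positivity
      have h6 := c3_pos'
      have h7 := c3_lt
      have h8 : |(A.card : ℝ) / n - c3| ≤ 1 := abs_le.2 ⟨by linarith, by linarith⟩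
      exact hε1 (hA.trans h8)
    rw [sum_eq_zero fun A _ => if_neg (h3 A)]
    positivity

theorem one_law {m : ℕ → ℕ} (h : Seq m) (k : ℕ) :
    Tendsto (fun X : ℕ => (((SN X).filter fun D => NoSplit (D * m k)).card : ℝ) /
      ((SN X).card : ℝ)) atTop (nhds c3) := by
  have h1 := law_sq (fun _ : Fin 1 => m k) (fun _ => h.adm k) (fun _ => h.sqf k)
    (fun a b _ => Subsingleton.elim a b) univ
  rw [card_univ, Fintype.card_fin, pow_one, Nat.sub_self, pow_zero, mul_one] at h1
  refine h1.congr fun X => ?_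
  congr 2
  exact Pool.Agent.XLK.fcc fun D _ => ⟨fun h => (h 0).2 (mem_univ _), fun h _ => ⟨fun _ => mem_univ _, fun _ => h⟩⟩

theorem two_law {m : ℕ → ℕ} (h : Seq m) (k l : ℕ) (hkl : k ≠ l) :
    Tendsto (fun X : ℕ => (((SN X).filter fun D => NoSplit (D * m k) ∧ NoSplit (D * m l)).card : ℝ) /
      ((SN X).card : ℝ)) atTop (nhds (c3 * c3)) := by
  have hinj : Function.Injective ![m k, m l] := by
    intro a b hab
    fin_cases a <;> fin_cases b
    · rfl
    · exact absurd (h.inj hab) hkl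
    · exact absurd (h.inj hab) hkl.symm
    · rfl
  have h1 := law_sq ![m k, m l] (fun a => by fin_cases a; exacts [h.adm k, h.adm l])
    (fun a => by fin_cases a; exacts [h.sqf k, h.sqf l]) hinj univ
  rw [card_univ, Fintype.card_fin, Nat.sub_self, pow_zero, mul_one, pow_two] at h1
  refine h1.congr fun X => ?_
  congr 2
  refine Pool.Agent.XLK.fcc fun D _ => ⟨fun h => ⟨(h 0).2 (mem_univ _), (h 1).2 (mem_univ _)⟩, fun h a => ?_⟩
  refine ⟨fun _ => mem_univ _, fun _ => ?_⟩
  fin_cases a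
  · exact h.1
  · exact h.2

/-- for almost all `D` at least `N` of the curves are good -/
theorem manyQ {m : ℕ → ℕ} (h : Seq m) (N : ℕ) :
    Tendsto (fun X => (((SN X).filter fun D =>
        ∃ F : Finset ℕ, F.card = N ∧ ∀ k ∈ F, NoSplit (D * m k)).card : ℝ) / ((SN X).card : ℝ))
      atTop (nhds 1) :=
  Q283.T3N.many SN (fun k D => NoSplit (D * m k)) c3 c3_pos' ne_SN (one_law h) (two_law h) N

end Q283.Q3N
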