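import Pool.Agent.Q283.Q3.Ks
import Pool.Agent.Q283.Q3.Bin
import Pool.Agent.Q283.Q3.Lnq

/-! The law of the Selmer groups in sequences of twists -/

set_option autoImplicit false
set_option linter.unusedSectionVars false

open scoped Classical

namespace Q283.Q3B

open Finset Module NumberField Filter
open Pool.Agent.Y692.QS (Ei nr w)
open Pool.Agent.Y715.T.RecG (Pq)
open Pool.Agent.Y703.CT (Cls NoSplit Triv3 Base)
open Pool.Agent.XL6 (SelK)
open Pool.Agent.Y696.CTK (ED Tri Parts TrfData parts)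
open Pool.Agent.Y703.CX (lam LamP pp SS Cl c3)
open Pool.Agent.Y37.CX (QQ pp_facts QQ_dvd)
open Q283.Q3N (Adm fe ex_fe ns_iff cls_mul triv_iff fe_ne rk_iff gx_congr nosplit_of_gx gx_of_nosplit
  SN SN_card SN_card' ne_SN Seq cls_mul' WW mem_WW fe_WW fe_inj sub_WW)
open Q283.Q3 (KT cq cq_ge cq_le cq_zero AV cq_eq sum_cq)
open Q283.Q3A (rv law_S)

/-- **The Selmer group and the rank**, on any set of primes. -/
theorem sel_T (K : Type) [Field K] [NumberField K] (j : Ei ≃+* 𝓞 K) {N : ℕ} (hC : Cls N)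
    {T : Finset ℕ} (hsub : N.primeFactors ⊆ T)
    (hT1 : ∀ u ∈ T, u ∉ N.primeFactors → u.Prime ∧ u % 3 = 1) :
    (SelK ((N : ℕ) : K)).ncard = 3 ^ (2 * (finrank (ZMod 3) (KT T (fe N)) - 1) + 1) ∧
    finrank ℤ (ED ((N : ℕ) : ℚ)).toAffine.Point ≤ 2 * (finrank (ZMod 3) (KT T (fe N)) - 1) ∧
    (finrank (ZMod 3) (KT T (fe N)) - 1 = 0 ↔ Triv3 N) := by
  have hL := Pool.Agent.Y333.CX.t_LAM
  have htriv := triv_iff hC
  obtain ⟨⟨h0, h3, hcub⟩, h91, h98, q, hq, hq2, hqD, hqu⟩ := hC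
  have hb : Base N := ⟨h0, h3, hcub⟩
  have hT : ∀ u ∈ T, u.Prime ∧ u ≠ 3 := by
    intro u hu
    by_cases h : u ∈ N.primeFactors
    · refine ⟨Nat.prime_of_mem_primeFactors h, ?_⟩
      rintro rfl
      exact h3 (Nat.dvd_of_mem_primeFactors h)
    · refine ⟨(hT1 u hu h).1, ?_⟩
      rintro rfl
      have := (hT1 3 hu h).2
      omega
  have hqN : q ∈ N.primeFactors := Nat.mem_primeFactors.2 ⟨hq, hqD, h0⟩
  have hqT : q ∈ T := hsub hqN
  have hqu' : ∀ u ∈ T, u % 3 = 2 → u = q := by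
    intro u hu h2
    by_contra hne
    by_cases h : u ∈ N.primeFactors
    · have := hqu u (Nat.prime_of_mem_primeFactors h) (Nat.dvd_of_mem_primeFactors h) hne
      omega
    · have := (hT1 u hu h).2
      omega
  have heq : fe N q ≠ 0 := (fe_ne hb).2 hqN
  have hns : finrank (ZMod 3) (KT T (fe N)) = 1 ↔ NoSplit N := by
    have hs : ∀ p, fe N p ≠ 0 → (p ∈ T ↔ p ∈ N.primeFactors) := by
      intro p hp
      rw [fe_ne hb] at hp
      exact ⟨fun _ => hp, fun _ => hsub hp⟩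
    rw [rk_iff ⟨q, hqT, heq⟩, gx_congr hs]
    exact ⟨nosplit_of_gx hL hb ⟨q, hqN⟩, gx_of_nosplit hL hb⟩
  obtain ⟨x, hx, hdec⟩ := dec_N hL h0 hT hsub
  have hk := finrank_K hL hT hqT hq2 hqu' (E := EE T (fe N)) (e := fe N)
    (fun u hu π hπ => EE_eq hL hT _ hu hπ) heq
  have hTq : ∀ π ∈ TT T, Pq π := by
    intro π hπ
    obtain ⟨u, hu, h⟩ := mem_biUnion.1 hπ
    exact (QQ_dvd hL (hT u hu).1 (hT u hu).2 π h).1
  have hz : ((N : ℕ) : Ei) ≠ 0 := by
    intro h
    have h3 : nr ((N : ℕ) : Ei) = 0 := by rw [h]; decide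
    rw [Pool.Agent.Y692.QS.nr_nat] at h3
    have h4 : (0 : ℤ) < (N : ℕ) := by exact_mod_cast Nat.pos_of_ne_zero h0
    nlinarith
  obtain ⟨g1, g2, g3, g4⟩ := main_E (K := K) parts j hz hTq hx hdec (nr9 h3 h91 h98 hdec)
  have hjz : ((j ((N : ℕ) : Ei) : 𝓞 K) : K) = ((N : ℕ) : K) := by
    rw [map_natCast]
    exact map_natCast (algebraMap (𝓞 K) K) _
  rw [hjz] at g1 g3
  obtain ⟨r, hr⟩ : ∃ r, finrank (ZMod 3) (KT T (fe N)) = r + 1 :=
    ⟨finrank (ZMod 3) (KT T (fe N)) - 1, by omega⟩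
  have hr2 : finrank (ZMod 3) (Q283.T3.KT (TT T) (EE T (fe N))) = 2 * r + 1 := by omega
  rw [hr, Nat.add_sub_cancel]
  rw [hr2] at g1
  refine ⟨g1, ?_, ?_⟩
  · have h4 := g3 (2 * r) (by omega)
    have hζ : ((j w : 𝓞 K) : K) ^ 2 + ((j w : 𝓞 K) : K) + 1 = 0 := by
      have h1 : (w : Ei) ^ 2 + w + 1 = 0 := by
        rw [pow_two, Pool.Agent.Y692.QS.w_sq]; ring
      have h2 := congrArg (fun z => ((j z : 𝓞 K) : K)) h1
      simp only [map_add, map_pow, map_one, map_zero] at h2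
      exact h2
    have hNQ : ((N : ℕ) : ℚ) ≠ 0 := Nat.cast_ne_zero.2 h0
    have h5 := rank_Q hζ hNQ
    rw [map_natCast] at h5
    omega
  · rw [htriv, ← hns, hr]
    omega

/-- the corank of a number -/
noncomputable def rr (N : ℕ) : ℕ := finrank (ZMod 3) (KT N.primeFactors (fe N)) - 1

theorem sel_N (K : Type) [Field K] [NumberField K] (j : Ei ≃+* 𝓞 K) {N : ℕ} (hC : Cls N) :
    (SelK ((N : ℕ) : K)).ncard = 3 ^ (2 * rr N + 1) ∧
    finrank ℤ (ED ((N : ℕ) : ℚ)).toAffine.Point ≤ 2 * rr N ∧ (rr N = 0 ↔ Triv3 N) :=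
  sel_T K j hC (Finset.Subset.refl _) fun _ h h' => absurd h h'

theorem pow_inj {a b : ℕ} (h : 3 ^ (2 * a + 1) = 3 ^ (2 * b + 1)) : a = b := by
  have := Nat.pow_right_injective (le_refl 2 |>.trans (by norm_num : 2 ≤ 3)) h
  omega

theorem rr_eq {N : ℕ} (hC : Cls N) {T : Finset ℕ} (hsub : N.primeFactors ⊆ T)
    (hT1 : ∀ u ∈ T, u ∉ N.primeFactors → u.Prime ∧ u % 3 = 1) :
    finrank (ZMod 3) (KT T (fe N)) - 1 = rr N := by
  haveI : IsCyclotomicExtension {3} ℚ (CyclotomicField 3 ℚ) :=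
    CyclotomicField.isCyclotomicExtension 3 ℚ
  obtain ⟨⟨j, -⟩, -⟩ := Pool.Agent.Y455.CTK.jex (CyclotomicField 3 ℚ)
  have h1 := (sel_T (CyclotomicField 3 ℚ) j hC hsub hT1).1
  have h2 := (sel_N (CyclotomicField 3 ℚ) j hC).1
  exact pow_inj (h1.symm.trans h2)

/-- **The joint law of the coranks.** -/
theorem law_rr {M : ℕ} (m : Fin M → ℕ) (hm : ∀ k, Adm (m k)) (hs : ∀ k, Squarefree (m k))
    (hi : Function.Injective m) (T : Set (Fin M → ℕ)) :
    Tendsto (fun X : ℕ =>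
      (((SN X).filter fun D => (fun k => rr (D * m k)) ∈ T).card : ℝ) / ((SN X).card : ℝ))
      atTop (nhds (∑' r : T, ∏ k, cq (r.1 k))) := by
  have h := law_S ∅ (WW m) (empty_subset _) (fun k => fe (m k))
    (fun u hu => mem_WW hm hu) (fun k u hu => fe_WW m k u hu)
    (fun k l hkl he => hkl (hi (fe_inj (hm k) (hm l) he))) T
  refine h.congr fun X => ?_
  have e1 := SN_card X (fun D => (fun k => rr (D * m k)) ∈ T)
    (fun S => AV ∅ S ∧ rv (WW m) (fun k => fe (m k)) S ∈ T)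
    fun D hD hcl => by
      have hC : Cls D := (Pool.Agent.Y710.CX.cls_iff hD).2 hcl
      have e : rv (WW m) (fun k => fe (m k)) D.primeFactors = fun k => rr (D * m k) := by
        funext k
        unfold rv
        rw [ex_fe hD (hm k).ne]
        have hC' := cls_mul' hD hC (hm k) (hs k)
        refine rr_eq hC' ?_ ?_
        · rw [Nat.primeFactors_mul hD.ne_zero (hm k).ne]
          exact union_subset_union (Finset.Subset.refl _) (sub_WW m k)
        · intro u hu hu'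
          rw [Nat.primeFactors_mul hD.ne_zero (hm k).ne, mem_union, not_or] at hu'
          rcases mem_union.1 hu with h | h
          · exact absurd h hu'.1
          · exact mem_WW hm h
      rw [e]
      refine ⟨fun h => ⟨?_, h⟩, fun h => h.2⟩
      unfold AV
      exact disjoint_empty_right _
  have e2 : ((SS X).filter (AV ∅)).card = (SN X).card := by
    rw [SN_card', filter_true_of_mem]
    intro S _
    unfold AV
    exact disjoint_empty_right _
  rw [e2]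
  congr 2
  exact (Q283.T3.fcc2 _ _).trans (e1.symm.trans (Q283.T3.fcc2 _ _))

/-- the law of a sequence -/
theorem law_seq {m : ℕ → ℕ} (h : Seq m) : Q283.Bin.Law SN (fun k D => rr (D * m k)) cq := by
  intro M f hf b
  have h1 := law_rr (fun k => m (f k)) (fun k => h.adm _) (fun k => h.sqf _)
    (fun x y hxy => hf (h.inj hxy)) {b}
  have e : ∑' r : ({b} : Set (Fin M → ℕ)), ∏ k, cq (r.1 k) = ∏ k, cq (b k) := by
    rw [tsum_singleton b (fun r : Fin M → ℕ => ∏ k, cq (r k))]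
  rw [e] at h1
  refine h1.congr fun X => ?_
  congr 2
  refine Q283.Bin.fcc fun D _ => ?_
  rw [Set.mem_singleton_iff]
  exact ⟨fun h k => congrFun h k, fun h => funext h⟩

end Q283.Q3B
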