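import Pool.Agent.Q283.Q3.Jq
import Pool.Agent.Y461.CX.C3

/-! The law of the coranks of large square matrices over the field with three elements is a
probability law -/

set_option autoImplicit false

open scoped Classical

namespace Q283.Q3

open Finset Module Filter
open Pool.Agent.Y703.CX (c3)

theorem cq_zero : cq 0 = c3 := by
  have h1 : cq 0 = gq 0 := by
    unfold cq
    simp [Q283.T3.cf]
  rw [h1]
  refine tendsto_nhds_unique prod_tendsto ?_
  rw [tendsto_iff_norm_sub_tendsto_zero]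
  refine squeeze_zero (fun _ => norm_nonneg _) (fun n => ?_)
    (tendsto_pow_atTop_nhds_zero_of_lt_one (by norm_num : (0 : ℝ) ≤ 1 / 3) (by norm_num))
  rw [Real.norm_eq_abs]
  exact Pool.Agent.Y461.CX.t_C3.1 n

section tail
variable (n : ℕ)

/-- the maps -/
noncomputable abbrev Yn : Finset ((Fin n → ZMod 3) →ₗ[ZMod 3] (Fin n → ZMod 3)) :=
  YY (⊥ : Submodule (ZMod 3) (Fin n → ZMod 3)) (⊤ : Submodule (ZMod 3) (Fin n → ZMod 3))

theorem ker_card (Y : (Fin n → ZMod 3) →ₗ[ZMod 3] (Fin n → ZMod 3)) :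
    (univ.filter fun v : Fin n → ZMod 3 => Y v = 0).card = 3 ^ finrank (ZMod 3) (LinearMap.ker Y) := by
  have h1 : Nat.card (LinearMap.ker Y) = 3 ^ finrank (ZMod 3) (LinearMap.ker Y) := by
    rw [Module.natCard_eq_pow_finrank (K := ZMod 3), Nat.card_zmod]
  rw [← h1, ← Set.ncard_coe_finset, ← Nat.card_coe_set_eq]
  simp only [coe_filter, mem_univ, true_and]
  rfl

theorem fib (v : Fin n → ZMod 3) (hv : v ≠ 0) :
    3 ^ n * ((Yn n).filter fun Y => Y v = 0).card = (Yn n).card := by
  have h1 := card_YY (R₀ := (⊤ : Submodule (ZMod 3) (Fin n → ZMod 3)))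
    (W := (⊥ : Submodule (ZMod 3) (Fin n → ZMod 3))) (v := v)
    (fun h => hv ((Submodule.mem_bot _).1 h))
  rw [h1, card_El, finrank_top, finrank_fintype_fun_eq_card, Fintype.card_fin]
  congr 1
  congr 1
  ext Y
  rw [mem_filter, mem_YY, mem_YY]
  constructor
  · rintro ⟨⟨-, h3⟩, h2⟩
    refine ⟨fun w hw => ?_, h3⟩
    rw [bot_sup_eq, Submodule.mem_span_singleton] at hw
    obtain ⟨a, rfl⟩ := hw
    rw [map_smul, h2, smul_zero]
  · rintro ⟨h2, h3⟩
    refine ⟨⟨fun w hw => ?_, h3⟩, h2 v ?_⟩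
    · rw [(Submodule.mem_bot _).1 hw, map_zero]
    · exact Submodule.mem_sup_right (Submodule.mem_span_singleton_self v)

theorem tot : ∑ Y ∈ Yn n, 3 ^ finrank (ZMod 3) (LinearMap.ker Y) ≤ 2 * (Yn n).card := by
  have h1 : ∑ Y ∈ Yn n, 3 ^ finrank (ZMod 3) (LinearMap.ker Y) =
      ∑ v : Fin n → ZMod 3, ((Yn n).filter fun Y => Y v = 0).card := by
    rw [sum_congr rfl fun Y _ => (ker_card n Y).symm]
    simp only [card_filter]
    rw [sum_comm]
  rw [h1, ← add_sum_erase _ _ (mem_univ (0 : Fin n → ZMod 3))]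
  have h2 : ((Yn n).filter fun Y => Y 0 = 0).card ≤ (Yn n).card := card_filter_le _ _
  have h3 : 3 ^ n * ∑ v ∈ univ.erase (0 : Fin n → ZMod 3), ((Yn n).filter fun Y => Y v = 0).card ≤
      3 ^ n * (Yn n).card := by
    rw [mul_sum, sum_congr rfl fun v hv => fib n v (ne_of_mem_erase hv), sum_const, smul_eq_mul]
    refine Nat.mul_le_mul_right _ ?_
    refine (card_erase_le).trans ?_
    rw [card_univ, Fintype.card_fun, ZMod.card, Fintype.card_fin]
  have h4 := Nat.le_of_mul_le_mul_left h3 (by positivity)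
  omega

theorem tail (s : ℕ) : ((Yn n).filter fun Y => s ≤ finrank (ZMod 3) (LinearMap.ker Y)).card * 3 ^ s ≤
    2 * (Yn n).card := by
  refine le_trans ?_ (tot n)
  rw [← smul_eq_mul, ← sum_const]
  refine (sum_le_sum fun Y hY => ?_).trans (sum_le_sum_of_subset (filter_subset _ _))
  exact Nat.pow_le_pow_right (by norm_num) (mem_filter.1 hY).2

end tail

theorem part_sum (s : ℕ) : 1 - 2 / 3 ^ s ≤ ∑ r ∈ range s, cq r ∧ ∑ r ∈ range s, cq r ≤ 1 := by
  have key : ∀ ε : ℝ, 0 < ε → 1 - 2 / 3 ^ s ≤ ∑ r ∈ range s, cq r + s * ε ∧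
      ∑ r ∈ range s, cq r ≤ 1 + s * ε := by
    intro ε hε
    have h0 : ∀ r : ℕ, ∃ N₀ : ℕ, ∀ n, N₀ ≤ n →
        |(((Yn n).filter fun Y => finrank (ZMod 3) (LinearMap.ker Y) = r).card : ℝ) -
          cq r * (Yn n).card| ≤ ε * (Yn n).card := by
      intro r
      obtain ⟨N₀, h⟩ := thmQ 1 (fun _ => r) ε hε
      refine ⟨N₀, fun n hn => ?_⟩
      have h1 := h (Fin n → ZMod 3) (Fin n → ZMod 3) ⊥ ⊤ (fun _ => 0) 0 n
        (fun _ w hw _ => (Submodule.mem_bot _).1 hw)
        (by rw [finrank_top, finrank_fintype_fun_eq_card, Fintype.card_fin])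
        (fun _ => by rw [Submodule.comap_top, finrank_top, finrank_fintype_fun_eq_card,
          Fintype.card_fin])
        (fun k l hkl => absurd (Subsingleton.elim k l) hkl)
        (by rw [finrank_bot]) (by omega)
        (by rw [finrank_fintype_fun_eq_card, Fintype.card_fin])
      have h2 : ((YY (⊥ : Submodule (ZMod 3) (Fin n → ZMod 3)) ⊤).filter fun Y => ∀ k : Fin 1,
          finrank (ZMod 3) (LinearMap.ker ((fun _ => 0 : Fin 1 →
            (Fin n → ZMod 3) →ₗ[ZMod 3] (Fin n → ZMod 3)) k + Y)) = (fun _ => r : Fin 1 → ℕ) k).card =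
          ((Yn n).filter fun Y => finrank (ZMod 3) (LinearMap.ker Y) = r).card := by
        congr 1
        ext Y
        rw [mem_filter, mem_filter]
        refine and_congr_right fun _ => ?_
        constructor
        · intro h
          have h3 := h 0
          rw [zero_add] at h3
          exact h3
        · intro h k
          show finrank (ZMod 3) (LinearMap.ker (0 + Y)) = r
          rw [zero_add]
          exact h
      rw [h2, Fin.prod_univ_one] at h1
      exact h1
    choose N hN using h0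
    set n := (range s).sup N with hn
    have h1 : ∀ r ∈ range s, |(((Yn n).filter fun Y => finrank (ZMod 3) (LinearMap.ker Y) = r).card : ℝ) -
          cq r * (Yn n).card| ≤ ε * (Yn n).card := fun r hr => hN r n (le_sup hr)
    have hpos : (0 : ℝ) < (Yn n).card := by
      have : (0 : (Fin n → ZMod 3) →ₗ[ZMod 3] (Fin n → ZMod 3)) ∈ Yn n := by
        rw [mem_YY]
        exact ⟨fun _ _ => rfl, fun _ => trivial⟩
      exact_mod_cast card_pos.2 ⟨_, this⟩
    have h2 : ∑ r ∈ range s, (((Yn n).filter fun Y => finrank (ZMod 3) (LinearMap.ker Y) = r).card : ℝ) =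
        (((Yn n).filter fun Y => finrank (ZMod 3) (LinearMap.ker Y) < s).card : ℝ) := by
      rw [← Nat.cast_sum, Nat.cast_inj]
      rw [card_eq_sum_card_fiberwise (f := fun Y : (Fin n → ZMod 3) →ₗ[ZMod 3] (Fin n → ZMod 3) =>
        finrank (ZMod 3) (LinearMap.ker Y)) (t := range s) (fun Y hY => by
          rw [mem_coe, mem_filter] at hY
          exact mem_coe.2 (mem_range.2 hY.2))]
      refine sum_congr rfl fun r hr => ?_
      rw [filter_filter]
      congr 1
      ext Y
      rw [mem_filter, mem_filter]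
      have := mem_range.1 hr
      constructor
      · rintro ⟨a, b⟩
        exact ⟨a, by omega, b⟩
      · rintro ⟨a, -, b⟩
        exact ⟨a, b⟩
    have h3 := card_filter_add_card_filter_not (s := Yn n)
      (fun Y => finrank (ZMod 3) (LinearMap.ker Y) < s)
    have h4 := tail n s
    have h5 : ((Yn n).filter fun Y => ¬ finrank (ZMod 3) (LinearMap.ker Y) < s).card =
        ((Yn n).filter fun Y => s ≤ finrank (ZMod 3) (LinearMap.ker Y)).card := by
      congr 1
      ext Y
      rw [mem_filter, mem_filter, not_lt]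
    rw [h5] at h3
    have h3' : (((Yn n).filter fun Y => finrank (ZMod 3) (LinearMap.ker Y) < s).card : ℝ) +
        (((Yn n).filter fun Y => s ≤ finrank (ZMod 3) (LinearMap.ker Y)).card : ℝ) = (Yn n).card := by
      exact_mod_cast h3
    have h4' : (((Yn n).filter fun Y => s ≤ finrank (ZMod 3) (LinearMap.ker Y)).card : ℝ) * 3 ^ s ≤
        2 * (Yn n).card := by
      exact_mod_cast h4
    have h6 : |∑ r ∈ range s, (((Yn n).filter fun Y => finrank (ZMod 3) (LinearMap.ker Y) = r).card : ℝ) -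
        (∑ r ∈ range s, cq r) * (Yn n).card| ≤ s * ε * (Yn n).card := by
      rw [sum_mul, ← sum_sub_distrib]
      refine (abs_sum_le_sum_abs _ _).trans ((sum_le_sum h1).trans (le_of_eq ?_))
      rw [sum_const, card_range, nsmul_eq_mul]
      ring
    rw [h2] at h6
    obtain ⟨h7, h8⟩ := abs_le.1 h6
    have h9 : (((Yn n).filter fun Y => s ≤ finrank (ZMod 3) (LinearMap.ker Y)).card : ℝ) ≤
        2 / 3 ^ s * (Yn n).card := by
      rw [div_mul_eq_mul_div, le_div_iff₀ (by positivity)]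
      exact h4'
    constructor
    · refine le_of_mul_le_mul_right ?_ hpos
      rw [add_mul, sub_mul, one_mul]
      linarith
    · refine le_of_mul_le_mul_right ?_ hpos
      rw [add_mul, one_mul]
      have : (0 : ℝ) ≤ (((Yn n).filter fun Y => s ≤ finrank (ZMod 3) (LinearMap.ker Y)).card : ℝ) :=
        Nat.cast_nonneg _
      linarith
  have hs : (0 : ℝ) < s + 1 := by positivity
  constructor
  · refine le_of_forall_pos_le_add fun ε hε => ?_
    have h := (key (ε / (s + 1)) (by positivity)).1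
    have h2 : s * (ε / (s + 1)) ≤ ε := by
      rw [mul_div_assoc', div_le_iff₀ hs]
      nlinarith
    linarith
  · refine le_of_forall_pos_le_add fun ε hε => ?_
    have h := (key (ε / (s + 1)) (by positivity)).2
    have h2 : s * (ε / (s + 1)) ≤ ε := by
      rw [mul_div_assoc', div_le_iff₀ hs]
      nlinarith
    linarith

/-- **The sum of the law.** -/
theorem sum_cq : HasSum cq 1 := by
  rw [hasSum_iff_tendsto_nat_of_nonneg cq_ge]
  refine tendsto_of_tendsto_of_tendsto_of_le_of_le (g := fun s : ℕ => 1 - 2 / (3 : ℝ) ^ s)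
    (h := fun _ => 1) ?_ tendsto_const_nhds (fun s => (part_sum s).1) fun s => (part_sum s).2
  have h1 : Tendsto (fun s : ℕ => (2 : ℝ) * (1 / 3) ^ s) atTop (nhds (2 * 0)) :=
    (tendsto_pow_atTop_nhds_zero_of_lt_one (by norm_num) (by norm_num)).const_mul 2
  rw [mul_zero] at h1
  have h2 := h1.const_sub 1
  rw [sub_zero] at h2
  refine h2.congr fun s => ?_
  rw [one_div_pow]
  ring

theorem c3_pos : 0 < c3 := Pool.Agent.Y461.CX.t_C3.2.1

/-- the law in closed form -/
theorem cq_eq (r : ℕ) : cq r = c3 * 3 ^ r / ∏ i ∈ range r, ((3 : ℝ) ^ (i + 1) - 1) ^ 2 := by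
  have hp : ∀ i : ℕ, (0 : ℝ) < 3 ^ (i + 1) - 1 := fun i => by
    have : (3 : ℝ) ^ 1 ≤ 3 ^ (i + 1) := pow_le_pow_right₀ (by norm_num) (by omega)
    linarith
  have h0 : gq 0 = c3 := by
    rw [← cq_zero]
    unfold cq
    simp [Q283.T3.cf]
  have h1 := gq_prod r
  rw [h0] at h1
  have h2 : ∏ i ∈ range r, (1 - (1 / 3 : ℝ) ^ (i + 1)) =
      (∏ i ∈ range r, ((3 : ℝ) ^ (i + 1) - 1)) / 3 ^ (r * (r + 1) / 2) := by
    have e : ∀ i, (1 - (1 / 3 : ℝ) ^ (i + 1)) = ((3 : ℝ) ^ (i + 1) - 1) / 3 ^ (i + 1) := by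
      intro i
      rw [one_div_pow]
      field_simp
    rw [prod_congr rfl fun i _ => e i, prod_div_distrib, prod_pow_eq_pow_sum]
    congr 2
    have := Finset.sum_range_id_mul_two (r + 1)
    rw [Finset.sum_range_succ'] at this
    simp only [add_zero, Nat.add_sub_cancel] at this
    rw [← this.trans (mul_comm _ _), Nat.mul_div_cancel _ (by norm_num)]
  have hP : (0 : ℝ) < ∏ i ∈ range r, ((3 : ℝ) ^ (i + 1) - 1) := prod_pos fun i _ => hp i
  have h3 : gq r = c3 * 3 ^ (r * (r + 1) / 2) / ∏ i ∈ range r, ((3 : ℝ) ^ (i + 1) - 1) := by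
    rw [h1, h2]
    field_simp
  unfold cq
  rw [h3, prod_pow]
  have h4 : Q283.T3.cf r = 1 / ∏ i ∈ range r, ((3 : ℝ) ^ (i + 1) - 1) := by
    clear h1 h2 h3 hP
    induction r with
    | zero => simp [Q283.T3.cf]
    | succ r ih =>
      rw [Q283.T3.cf, ih, prod_range_succ, div_div]
  rw [h4]
  have h5 : (3 : ℝ) ^ (r * (r + 1) / 2) = 3 ^ (r * (r - 1) / 2) * 3 ^ r := by
    rw [← pow_add]
    congr 1
    rcases r with _ | r
    · rfl
    · rw [Nat.add_sub_cancel]
      have e1 : (r + 1) * (r + 1 + 1) = (r + 1) * r + (r + 1) * 2 := by ring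
      rw [e1, Nat.add_mul_div_right _ _ (by norm_num)]
  rw [h5]
  field_simp

end Q283.Q3
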