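import Pool.Agent.Q283.Q3.Asyq
import Pool.Agent.Q283.Q3.Sumq
import Pool.Agent.Q283.T3.Wk

/-! The joint law over `ℚ` for the sets of primes, for all sets of vectors -/

set_option autoImplicit false

open scoped Classical

namespace Q283.Q3A

open Finset Module Filter
open Q283.Q3 (cq cq_ge cq_le GG KT mem_KT ex low_V AV sum_cq mem_SS)
open Q283.T3B (scheffe hasSum_pi)
open Pool.Agent.Y703.CX (SS Cl)

/-- the constant solution -/
noncomputable def un (T : Finset ℕ) (e : ℕ → ZMod 3) : T → ZMod 3 := fun p => if e p = 0 then 0 else 1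

theorem un_mem (T : Finset ℕ) (e : ℕ → ZMod 3) : un T e ∈ KT T e := by
  refine mem_KT.2 ⟨fun p hp => if_pos hp, fun p _ => sum_eq_zero fun q _ => ?_⟩
  unfold un
  by_cases h1 : e p = 0
  · rw [h1, zero_mul, zero_mul, zero_mul]
  · by_cases h2 : e q = 0
    · rw [h2, mul_zero, zero_mul, zero_mul]
    · rw [if_neg h1, if_neg h2, sub_self, mul_zero]

theorem un_ne {T : Finset ℕ} {e : ℕ → ZMod 3} (h : ∃ p ∈ T, e p ≠ 0) : un T e ≠ 0 := by
  obtain ⟨p, hp, hne⟩ := h
  intro h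
  have h1 := congrFun h ⟨p, hp⟩
  unfold un at h1
  rw [if_neg hne] at h1
  exact one_ne_zero h1

theorem finrank_ge {T : Finset ℕ} {e : ℕ → ZMod 3} (h : ∃ p ∈ T, e p ≠ 0) :
    1 ≤ finrank (ZMod 3) (KT T e) := by
  have : Nontrivial (KT T e) := ⟨⟨⟨un T e, un_mem T e⟩, 0, fun h' => un_ne h (congrArg Subtype.val h')⟩⟩
  exact Module.finrank_pos

theorem ex_ne {W S : Finset ℕ} (hW : ∀ u ∈ W, u.Prime ∧ u % 3 = 1) {m : ℕ → ZMod 3}
    (hm : ∀ u, u ∉ W → m u = 0) (hS : Cl S) : ∃ p ∈ S ∪ W, ex m S p ≠ 0 := by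
  obtain ⟨q, hq⟩ := card_eq_one.1 hS.2.1
  have hqm : q ∈ S.filter fun p => p % 3 = 2 := by rw [hq]; exact mem_singleton_self _
  rw [mem_filter] at hqm
  refine ⟨q, mem_union_left _ hqm.1, ?_⟩
  unfold ex
  rw [if_pos hqm.1, hm q fun h => by have := (hW q h).2; omega, add_zero]
  exact one_ne_zero

/-- the vector of the coranks -/
noncomputable def rv {M : ℕ} (W : Finset ℕ) (m : Fin M → ℕ → ZMod 3) (S : Finset ℕ) : Fin M → ℕ :=
  fun k => finrank (ZMod 3) (KT (S ∪ W) (ex (m k) S)) - 1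

theorem rv_iff {M : ℕ} {W S : Finset ℕ} (hW : ∀ u ∈ W, u.Prime ∧ u % 3 = 1)
    {m : Fin M → ℕ → ZMod 3} (hm : ∀ k u, u ∉ W → m k u = 0) (hS : Cl S) (r : Fin M → ℕ) :
    GG W m r S ↔ rv W m S = r := by
  have h1 : ∀ k, 1 ≤ finrank (ZMod 3) (KT (S ∪ W) (ex (m k) S)) := fun k =>
    finrank_ge (ex_ne hW (hm k) hS)
  unfold GG rv
  constructor
  · intro h
    funext k
    rw [h k, Nat.add_sub_cancel]
  · intro h k
    have h2 : finrank (ZMod 3) (KT (S ∪ W) (ex (m k) S)) - 1 = r k := congrFun h k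
    have h3 := h1 k
    omega

theorem sum_pi (M : ℕ) : HasSum (fun r : Fin M → ℕ => ∏ k, cq (r k)) 1 := by
  have h := hasSum_pi (M := M) (fun _ => cq) (fun _ => 1) (fun _ => cq_ge) (fun _ => sum_cq)
  rwa [prod_const_one] at h

theorem ne_ev (V : Finset ℕ) (hV : ∀ p ∈ V, p % 3 = 1) :
    ∀ᶠ X : ℕ in atTop, ((SS X).filter (AV V)).Nonempty := by
  obtain ⟨c, X₀, hc, h⟩ := low_V V hV
  filter_upwards [eventually_ge_atTop X₀, eventually_ge_atTop 3] with X h1 h2
  rw [← card_pos]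
  have h3 := h X h1
  have h4 : (0 : ℝ) < c * X * (Real.log X) ^ (-(1 / 2) : ℝ) := by
    have h5 : (0 : ℝ) < X := by exact_mod_cast (by omega : 0 < X)
    have h6 : 0 < Real.log X := Real.log_pos (by exact_mod_cast (by omega : 1 < X))
    positivity
  exact_mod_cast lt_of_lt_of_le h4 h3

/-- **The joint law, for all sets of vectors.** -/
theorem law_S {M : ℕ} (V W : Finset ℕ) (hVW : V ⊆ W) (m : Fin M → ℕ → ZMod 3)
    (hW : ∀ u ∈ W, u.Prime ∧ u % 3 = 1) (hm : ∀ k u, u ∉ W → m k u = 0)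
    (hml : ∀ k l, k ≠ l → m k ≠ m l) (T : Set (Fin M → ℕ)) :
    Tendsto (fun X : ℕ => (((SS X).filter fun S => AV V S ∧ rv W m S ∈ T).card : ℝ) /
      (((SS X).filter (AV V)).card : ℝ)) atTop (nhds (∑' r : T, ∏ k, cq (r.1 k))) := by
  have h := scheffe (fun X : ℕ => (SS X).filter (AV V)) (rv W m)
    (fun r => ∏ k, cq (r k)) (sum_pi M) (ne_ev V fun p hp => (hW p (hVW hp)).2) (fun r => ?_) T
  · refine h.congr fun X => ?_
    rw [filter_filter]
  · refine (t_ASYV r V W hVW m hW hm hml).congr fun X => ?_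
    rw [filter_filter]
    congr 2
    refine Pool.Agent.XLK.fcc fun S hS => ?_
    rw [mem_SS] at hS
    exact and_congr_right fun _ => rv_iff hW hm hS.1 r

/-- the measure of the vectors that vanish exactly on a set -/
theorem meas_A {M : ℕ} (A : Finset (Fin M)) :
    ∑' r : {r : Fin M → ℕ | ∀ k, (r k = 0 ↔ k ∈ A)}, ∏ k, cq (r.1 k) =
      cq 0 ^ A.card * (1 - cq 0) ^ (M - A.card) := by
  have h1 : ∀ k : Fin M, HasSum (fun r : ℕ => if (r = 0 ↔ k ∈ A) then cq r else 0)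
      (if k ∈ A then cq 0 else 1 - cq 0) := by
    intro k
    by_cases hk : k ∈ A
    · rw [if_pos hk]
      have : (fun r : ℕ => if (r = 0 ↔ k ∈ A) then cq r else 0) =
          fun r => if r = 0 then cq 0 else 0 := by
        funext r
        by_cases hr : r = 0
        · subst hr
          simp [hk]
        · simp [hk, hr]
      rw [this]
      exact hasSum_ite_eq 0 (cq 0)
    · rw [if_neg hk]
      have h2 : HasSum (fun r : ℕ => if r = 0 then cq 0 else 0) (cq 0) := hasSum_ite_eq 0 (cq 0)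
      refine (sum_cq.sub h2).congr_fun ?_
      intro r
      by_cases hr : r = 0
      · subst hr
        simp [hk]
      · simp [hk, hr]
  have h2 := hasSum_pi (M := M) (fun k r => if (r = 0 ↔ k ∈ A) then cq r else 0) _
    (fun k r => by
      show 0 ≤ if (r = 0 ↔ k ∈ A) then cq r else 0
      split_ifs
      · exact cq_ge r
      · exact le_rfl) h1
  rw [tsum_subtype {r : Fin M → ℕ | ∀ k, (r k = 0 ↔ k ∈ A)} fun r => ∏ k, cq (r k)]
  have h3 : (fun r : Fin M → ℕ => ({r : Fin M → ℕ | ∀ k, (r k = 0 ↔ k ∈ A)}.indicator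
      fun r => ∏ k, cq (r k)) r) =
      fun r => ∏ k, if (r k = 0 ↔ k ∈ A) then cq (r k) else 0 := by
    funext r
    by_cases hr : ∀ k, (r k = 0 ↔ k ∈ A)
    · rw [Set.indicator_of_mem (show r ∈ {r : Fin M → ℕ | ∀ k, (r k = 0 ↔ k ∈ A)} from hr)]
      exact prod_congr rfl fun k _ => (if_pos (hr k)).symm
    · rw [Set.indicator_of_notMem (show r ∉ {r : Fin M → ℕ | ∀ k, (r k = 0 ↔ k ∈ A)} from hr)]
      obtain ⟨k, hk⟩ := not_forall.1 hr
      exact (prod_eq_zero (mem_univ k) (if_neg hk)).symm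
  rw [h3, h2.tsum_eq, prod_ite, prod_const, prod_const]
  congr 2
  · congr 1
    ext k
    simp
  · have e : (univ.filter fun k : Fin M => k ∉ A) = univ \ A := by
      ext k
      simp
    rw [e, card_sdiff_of_subset (subset_univ A), card_univ, Fintype.card_fin]

end Q283.Q3A
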