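import Pool.Agent.Q283.Q3.Badq
import Pool.Agent.Y461.CX.LOW
import Pool.Agent.Y461.CX.CHE
import Pool.Agent.Y87.CX.Mer

/-! The sets of the class that avoid a finite set of primes, over `ℚ` -/

set_option autoImplicit false

open scoped Classical

namespace Q283.Q3

open Finset Filter
open Pool.Agent.Y703.CX

/-- the set avoids `V` -/
def AV (V S : Finset ℕ) : Prop := Disjoint S V

theorem mem_SS {X : ℕ} {S : Finset ℕ} : S ∈ SS X ↔ Cl S ∧ ∏ p ∈ S, p ≤ X := by
  unfold SS
  rw [mem_filter, mem_powerset]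
  refine ⟨fun h => h.2, fun h => ⟨?_, h⟩⟩
  intro q hq
  rw [mem_range]
  have h1 : q ∣ ∏ p ∈ S, p := Finset.dvd_prod_of_mem _ hq
  have h2 : 0 < ∏ p ∈ S, p := Finset.prod_pos fun p hp => (h.1.1 p hp).1.pos
  have := Nat.le_of_dvd h2 h1
  omega

/-- an auxiliary prime -/
theorem aux_prime (V : Finset ℕ) : ∃ π : ℕ, π.Prime ∧ π ∉ V ∧ π % 9 = 4 := by
  have hu : IsUnit (4 : ZMod 9) := by decide
  obtain ⟨q, hq, hqp, hq9⟩ := Nat.forall_exists_prime_gt_and_eq_mod hu (V.sup id)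
  have h9 : q % 9 = 4 := by
    have h1 : ((q : ℕ) : ZMod 9) = ((4 : ℕ) : ZMod 9) := by rw [hq9]; rfl
    have h2 := (ZMod.natCast_eq_natCast_iff _ _ _).1 h1
    exact h2
  refine ⟨q, hqp, fun h => ?_, h9⟩
  have h1 : id q ≤ V.sup id := le_sup h
  have h2 : V.sup id < q := hq
  have h3 : id q = q := rfl
  omega

/-- the modified set -/
noncomputable def mod9 (π : ℕ) (V S : Finset ℕ) : Finset ℕ :=
  if (∏ ρ ∈ S \ V, ρ) % 9 ≠ 8 then S \ V else if π ∈ S \ V then (S \ V).erase π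
    else insert π (S \ V)

theorem prod_mod {S : Finset ℕ} (hS : ∀ p ∈ S, p % 3 = 1 ∨ p % 3 = 2)
    (h1 : (S.filter fun p => p % 3 = 2).card = 1) : (∏ p ∈ S, p) % 3 = 2 := by
  obtain ⟨q, hq⟩ := card_eq_one.1 h1
  have hqm : q ∈ S.filter fun p => p % 3 = 2 := by rw [hq]; exact mem_singleton_self _
  rw [mem_filter] at hqm
  rw [← mul_prod_erase S _ hqm.1, Nat.mul_mod, hqm.2]
  have h2 : (∏ p ∈ S.erase q, p) % 3 = 1 := by
    apply Pool.Agent.Y461.CX.prod_mod_three
    intro p hp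
    rw [mem_erase] at hp
    rcases hS p hp.2 with h | h
    · exact h
    · exfalso
      have h3 : p ∈ S.filter fun p => p % 3 = 2 := mem_filter.2 ⟨hp.2, h⟩
      rw [hq, mem_singleton] at h3
      exact hp.1 h3
  rw [h2]

theorem filt_two {S T : Finset ℕ} (hT : ∀ p, p % 3 = 2 → (p ∈ T ↔ p ∈ S)) :
    T.filter (fun p => p % 3 = 2) = S.filter fun p => p % 3 = 2 := by
  ext p
  rw [mem_filter, mem_filter]
  constructor
  · rintro ⟨h1, h2⟩
    exact ⟨(hT p h2).1 h1, h2⟩
  · rintro ⟨h1, h2⟩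
    exact ⟨(hT p h2).2 h1, h2⟩

theorem cl_of {S T : Finset ℕ} (hS : Cl S) (hT1 : ∀ p ∈ T, p.Prime ∧ p ≠ 3)
    (hT : ∀ p, p % 3 = 2 → (p ∈ T ↔ p ∈ S)) (h8 : (∏ p ∈ T, p) % 9 ≠ 8) : Cl T := by
  have h1 : (T.filter fun p => p % 3 = 2).card = 1 := by rw [filt_two hT]; exact hS.2.1
  refine ⟨hT1, h1, fun h => ?_, h8⟩
  have h2 := prod_mod (fun p hp => mod3' (hT1 p hp).1 (hT1 p hp).2) h1
  have h3 : (∏ p ∈ T, p) % 9 % 3 = 2 := by rw [Nat.mod_mod_of_dvd _ (by norm_num)]; exact h2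
  rw [h] at h3
  norm_num at h3

theorem low_V (V : Finset ℕ) (hV : ∀ p ∈ V, p % 3 = 1) : ∃ (c : ℝ) (X₀ : ℕ), 0 < c ∧
    ∀ X : ℕ, X₀ ≤ X →
    c * X * (Real.log X) ^ (-(1 / 2) : ℝ) ≤ (((SS X).filter (AV V)).card : ℝ) := by
  obtain ⟨c, X₀, hc, hlow⟩ := Pool.Agent.Y461.CX.t_LOW Pool.Agent.Y87.CX.t_MER
    Pool.Agent.Y461.CX.t_CHE
  obtain ⟨N, hπ, hπV, h4⟩ := aux_prime V
  have hN1 : 1 ≤ N := hπ.one_le
  have hN0 : (0 : ℝ) < N := by exact_mod_cast hN1
  have hN3 : N % 3 = 1 := by omega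
  -- the map
  have key : ∀ Y : ℕ, (SS Y).card ≤ (2 ^ V.card * 3) *
      ((SS (Y * N)).filter (AV V)).card := by
    intro Y
    have hmaps : ∀ S ∈ SS Y, mod9 N V S ∈ (SS (Y * N)).filter (AV V) := by
      intro S hS
      rw [mem_SS] at hS
      obtain ⟨h1, h3⟩ := hS
      have hprod : ∏ ρ ∈ S \ V, ρ ≤ Y := by
        refine le_trans ?_ h3
        exact prod_le_prod_of_subset_of_one_le' sdiff_subset fun u hu _ => (h1.1 u hu).1.one_le
      have hpq : ∀ ρ ∈ S \ V, ρ.Prime ∧ ρ ≠ 3 := fun ρ hρ => h1.1 ρ (sdiff_subset hρ)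
      have hdis : Disjoint (S \ V) V := sdiff_disjoint
      have h2 : ∀ p, p % 3 = 2 → (p ∈ S \ V ↔ p ∈ S) := by
        intro p hp
        rw [Finset.mem_sdiff]
        refine ⟨fun h => h.1, fun h => ⟨h, fun h' => ?_⟩⟩
        have := hV p h'
        omega
      rw [mem_filter, mem_SS]
      unfold AV mod9
      split_ifs with k1 k2
      · exact ⟨⟨cl_of h1 hpq h2 k1, hprod.trans (Nat.le_mul_of_pos_right _ hN1)⟩, hdis⟩
      · refine ⟨⟨cl_of h1 (fun ρ hρ => hpq ρ (mem_of_mem_erase hρ)) (fun p hp => ?_)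
          fun h => ?_, ?_⟩, hdis.mono_left (erase_subset _ _)⟩
        · rw [mem_erase, ← h2 p hp]
          refine ⟨fun h => h.2, fun h => ⟨fun h' => ?_, h⟩⟩
          rw [h'] at hp
          omega
        · rw [not_not, ← mul_prod_erase _ _ k2, Nat.mul_mod, h, h4] at k1
          omega
        · refine le_trans ?_ (hprod.trans (Nat.le_mul_of_pos_right _ hN1))
          exact prod_le_prod_of_subset_of_one_le' (erase_subset _ _) fun u hu _ =>
            (hpq u hu).1.one_le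
      · refine ⟨⟨cl_of h1 (fun ρ hρ => ?_) (fun p hp => ?_) fun h => ?_, ?_⟩, ?_⟩
        · rcases mem_insert.1 hρ with h | h
          · rw [h]
            exact ⟨hπ, fun h3 => by omega⟩
          · exact hpq ρ h
        · rw [mem_insert, ← h2 p hp]
          refine ⟨fun h => h.resolve_left fun h' => ?_, fun h => Or.inr h⟩
          rw [h'] at hp
          omega
        · rw [not_not] at k1
          rw [prod_insert k2, Nat.mul_mod, k1, h4] at h
          omega
        · rw [prod_insert k2, mul_comm]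
          exact Nat.mul_le_mul_right _ hprod
        · rw [disjoint_insert_left]
          exact ⟨hπV, hdis⟩
    refine le_trans (card_le_mul_card_image_of_maps_to hmaps (2 ^ V.card * 3) fun T _ => ?_) le_rfl
    -- the fibres
    have hsub : (SS Y).filter (fun S => mod9 N V S = T) ⊆
        (V.powerset ×ˢ ({T, insert N T, T.erase N} : Finset (Finset ℕ))).image
          fun p => p.1 ∪ p.2 := by
      intro S hS
      rw [mem_filter] at hS
      rw [mem_image]
      refine ⟨(S ∩ V, S \ V), ?_, ?_⟩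
      · rw [mem_product, mem_powerset, mem_insert, mem_insert, mem_singleton]
        refine ⟨inter_subset_right, ?_⟩
        have h5 := hS.2
        unfold mod9 at h5
        split_ifs at h5 with k1 k2
        · exact Or.inl h5
        · right; left
          rw [← h5]
          exact (insert_erase k2).symm
        · right; right
          rw [← h5]
          exact (erase_insert k2).symm
      · show S ∩ V ∪ S \ V = S
        rw [union_comm]
        exact sdiff_union_inter S V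
    refine (card_le_card hsub).trans (card_image_le.trans ?_)
    rw [card_product, card_powerset]
    exact Nat.mul_le_mul_left _ card_le_three
  refine ⟨c / (2 ^ V.card * 3 * (2 * N)), (X₀ + 3) * N, by positivity, fun X hX => ?_⟩
  have hY : X₀ + 3 ≤ X / N := by
    rw [Nat.le_div_iff_mul_le hN1]
    exact hX
  have h1 := hlow (X / N) (by omega)
  have h2 := key (X / N)
  have h3 : ((SS (X / N * N)).filter (AV V)).card ≤
      ((SS X).filter (AV V)).card := by
    refine card_le_card fun S hS => ?_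
    rw [mem_filter, mem_SS] at hS ⊢
    exact ⟨⟨hS.1.1, hS.1.2.trans (Nat.div_mul_le_self _ _)⟩, hS.2⟩
  have h4 : ((SS (X / N)).card : ℝ) ≤ (2 ^ V.card * 3) *
      (((SS X).filter (AV V)).card : ℝ) := by
    exact_mod_cast h2.trans (Nat.mul_le_mul_left _ h3)
  have h5 : (X : ℝ) ≤ 2 * N * ((X / N : ℕ) : ℝ) := by
    have h6 := Nat.lt_mul_div_succ X hN1
    have h7 : X ≤ 2 * N * (X / N) := by
      have : N * (X / N + 1) ≤ N * (2 * (X / N)) := Nat.mul_le_mul_left _ (by omega)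
      calc X ≤ N * (X / N + 1) := h6.le
        _ ≤ N * (2 * (X / N)) := this
        _ = _ := by ring
    exact_mod_cast h7
  have h6 : (Real.log X) ^ (-(1 / 2) : ℝ) ≤ (Real.log ((X / N : ℕ) : ℝ)) ^ (-(1 / 2) : ℝ) := by
    have g0 : (1 : ℝ) < ((X / N : ℕ) : ℝ) := by exact_mod_cast (by omega : 1 < X / N)
    have g1 : 0 < Real.log ((X / N : ℕ) : ℝ) := Real.log_pos g0
    refine Real.rpow_le_rpow_of_nonpos g1 ?_ (by norm_num)
    exact Real.log_le_log (by linarith) (by exact_mod_cast Nat.div_le_self _ _)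
  have h7 : (0 : ℝ) ≤ (Real.log X) ^ (-(1 / 2) : ℝ) :=
    Real.rpow_nonneg (Real.log_natCast_nonneg X) _
  rw [div_mul_eq_mul_div, div_mul_eq_mul_div, div_le_iff₀ (by positivity)]
  calc c * X * (Real.log X) ^ (-(1 / 2) : ℝ) ≤ c * (2 * N * ((X / N : ℕ) : ℝ)) *
        (Real.log ((X / N : ℕ) : ℝ)) ^ (-(1 / 2) : ℝ) := by gcongr
    _ = (2 * N) * (c * ((X / N : ℕ) : ℝ) * (Real.log ((X / N : ℕ) : ℝ)) ^ (-(1 / 2) : ℝ)) := by ring
    _ ≤ (2 * N) * ((2 ^ V.card * 3) * (((SS X).filter (AV V)).card : ℝ)) := by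
        have := h1.trans h4
        gcongr
    _ = _ := by ring

end Q283.Q3
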