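import Pool.Agent.Q283.Q3.Keyq
import Pool.Agent.Q283.Q3.Badq2
import Pool.Agent.Q283.Q3.Lowq
import Pool.Agent.Y703.CX.Fin

/-! The joint law for the sets that avoid given primes, over `ℚ` -/

set_option autoImplicit false

open scoped Classical
open Finset Filter

namespace Q283.Q3A

open Q283.Q3 (cq cq_ge cq_le GG NdM BXM t_KEQ t_BXM t_BADM low_V AV zz_ev)

open Pool.Agent.Y703.CX

/-- the main error term -/
theorem sml_mainW (w : ℕ) {C : ℝ} (hC : 1 ≤ C) : Sml fun X => 3 ^ (2 * w * kk X) *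
    ((9 * (NN X : ℝ) + 9) ^ kk X *
    (3 ^ (3 * kk X ^ 2) * kap C X) * (X * (1 + Real.log X))) := by
  apply sml_of (C := 4 * C) (a := 1) (by norm_num)
  filter_upwards [ev_eL 5600, ev_eL (30 * w)] with X hX hXw
  set l := eL X with hl
  have h0 : 0 < eL X := by linarith
  have h1 : 1 ≤ eL X := by linarith
  have hX0 : (0 : ℝ) ≤ X := Nat.cast_nonneg _
  have hN : 9 * (NN X : ℝ) + 9 ≤ Real.exp (5 * l) := by
    have h2 : (NN X : ℝ) ≤ HH X * Real.log X + 1 := by
      unfold NN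
      push_cast
      have := Nat.floor_le (a := (HH X : ℝ) * Real.log X)
        (mul_nonneg (Nat.cast_nonneg _) (Real.log_natCast_nonneg X))
      linarith
    have h3 : (HH X : ℝ) * Real.log X ≤ 2 * Real.exp (4 * l) := by
      rw [logX_eq h0]
      calc (HH X : ℝ) * Real.exp (eL X) ≤ 2 * Real.exp (3 * eL X) * Real.exp (eL X) :=
            mul_le_mul_of_nonneg_right (HH_le h0) (Real.exp_pos _).le
        _ = 2 * Real.exp (4 * l) := by
            rw [mul_assoc, ← Real.exp_add]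
            congr 2
            rw [hl]
            ring
    have h4 : 1 ≤ Real.exp (4 * l) := one_le_exp (by linarith)
    have h5 : (36 : ℝ) ≤ Real.exp l := by
      have := Real.add_one_le_exp l
      linarith
    have h6 : Real.exp (5 * l) = Real.exp (4 * l) * Real.exp l := by
      rw [← Real.exp_add]; congr 1; ring
    rw [h6]
    nlinarith
  have hkk := kk_le h1
  have hkk0 : (0 : ℝ) ≤ kk X := Nat.cast_nonneg _
  have hA : (9 * (NN X : ℝ) + 9) ^ kk X ≤ Real.exp (55 * l ^ 2) := by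
    calc (9 * (NN X : ℝ) + 9) ^ kk X ≤ (Real.exp (5 * l)) ^ kk X := by gcongr
      _ = Real.exp (kk X * (5 * l)) := (Real.exp_nat_mul _ _).symm
      _ ≤ Real.exp (55 * l ^ 2) := by
          apply Real.exp_le_exp.2
          nlinarith
  have hlog3 : Real.log 3 ≤ 1.1 := by
    have h3 : (3 : ℝ) ≤ Real.exp 1.1 := by
      have h4 : (2.7182818283 : ℝ) < Real.exp 1 := Real.exp_one_gt_d9
      have h5 : (1.105 : ℝ) ≤ Real.exp 0.1 := by
        have := Real.quadratic_le_exp_of_nonneg (x := 0.1) (by norm_num)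
        norm_num at this ⊢
        linarith
      have h6 : Real.exp 1.1 = Real.exp 1 * Real.exp 0.1 := by
        rw [← Real.exp_add]; norm_num
      rw [h6]
      nlinarith
    calc Real.log 3 ≤ Real.log (Real.exp 1.1) := Real.log_le_log (by norm_num) h3
      _ = 1.1 := Real.log_exp _
  have hB : (3 : ℝ) ^ (3 * kk X ^ 2) ≤ Real.exp (400 * l ^ 2) := by
    have e : (3 : ℝ) ^ (3 * kk X ^ 2) = Real.exp ((3 * (kk X : ℝ) ^ 2) * Real.log 3) := by
      rw [mul_comm (3 * (kk X : ℝ) ^ 2) (Real.log 3), Real.exp_mul, Real.exp_log (by norm_num)]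
      rw [← Real.rpow_natCast]
      congr 1
      push_cast
      ring
    rw [e]
    apply Real.exp_le_exp.2
    have h3 : (kk X : ℝ) ^ 2 ≤ 121 * l ^ 2 := by nlinarith
    have h4 : 0 ≤ (kk X : ℝ) ^ 2 := sq_nonneg _
    nlinarith [sq_nonneg l]
  have hD : (3 : ℝ) ^ (2 * w * kk X) ≤ Real.exp (l ^ 2) := by
    have e : (3 : ℝ) ^ (2 * w * kk X) = Real.exp ((2 * w * (kk X : ℝ)) * Real.log 3) := by
      rw [mul_comm (2 * w * (kk X : ℝ)) (Real.log 3), Real.exp_mul, Real.exp_log (by norm_num)]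
      rw [← Real.rpow_natCast]
      congr 1
      push_cast
      ring
    rw [e]
    apply Real.exp_le_exp.2
    have hw0 : (0 : ℝ) ≤ w := Nat.cast_nonneg _
    calc (2 * w * (kk X : ℝ)) * Real.log 3 ≤ (2 * w * (kk X : ℝ)) * 1.1 := by gcongr
      _ ≤ (2 * w * (11 * l)) * 1.1 := by gcongr
      _ ≤ l ^ 2 := by nlinarith
  have hK := kap_le hC h1
  have hLg := one_add_log h0
  have hmain : 3 ^ (2 * w * kk X) * ((9 * (NN X : ℝ) + 9) ^ kk X * (3 ^ (3 * kk X ^ 2) * kap C X) *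
      (X * (1 + Real.log X))) ≤ Real.exp (l ^ 2) * (Real.exp (55 * l ^ 2) * (Real.exp (400 * l ^ 2) *
        (2 * C * Real.exp (-l ^ 3 / 12))) * (X * (2 * Real.exp l))) := by
    have := kap_nonneg hC X
    have : 0 ≤ 1 + Real.log X := by
      have := Real.log_natCast_nonneg X
      linarith
    gcongr
  refine hmain.trans ?_
  have e : Real.exp (l ^ 2) * (Real.exp (55 * l ^ 2) * (Real.exp (400 * l ^ 2) *
        (2 * C * Real.exp (-l ^ 3 / 12))) * (X * (2 * Real.exp l))) =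
      4 * C * (X * Real.exp (l ^ 2 + 55 * l ^ 2 + 400 * l ^ 2 + -l ^ 3 / 12 + l)) := by
    rw [Real.exp_add, Real.exp_add, Real.exp_add, Real.exp_add]
    ring
  rw [e]
  have h9 : l ^ 2 + 55 * l ^ 2 + 400 * l ^ 2 + -l ^ 3 / 12 + l ≤ -1 * l := by
    have h10 : 5600 * l ^ 2 ≤ l ^ 3 := by
      have : l ^ 3 = l * l ^ 2 := by ring
      rw [this]
      exact mul_le_mul_of_nonneg_right hX (sq_nonneg l)
    nlinarith
  have h11 := Real.exp_le_exp.2 h9
  have hC0 : (0 : ℝ) ≤ 4 * C := by linarith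
  gcongr

/-- the sets outside the regular part -/
theorem out_sub2 {W : Finset ℕ} {R : ℕ} (hR : 1 ≤ R) (X z H k : ℕ) :
    SS X \ ((RR X z H k 0).filter fun S => NdM R W (sm z S) (la z S)) ⊆
      (((((SS X).filter fun S => k < S.card) ∪
      ((SS X).filter fun S => S.card ≤ k ∧
        X < (∏ p ∈ sm z S, p) * ∏ p ∈ la z S, XX H (jj H p))) ∪
      ((SS X).filter fun S => ¬ Set.InjOn (jj H) (la z S : Set ℕ))) ∪
      ((SS X).filter fun S => ((la z S).filter fun p => p % 3 = 1).card ≤ (sm z S).card + R)) ∪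
      ((SS X).filter fun S => S.card ≤ k ∧ (¬ NdM R W (sm z S) (la z S) ∧
        R ≤ ((la z S).filter fun p => p % 3 = 1).card)) := by
  intro S hS
  rw [Finset.mem_sdiff, Finset.mem_filter] at hS
  obtain ⟨h1, h2⟩ := hS
  simp only [mem_union, mem_filter]
  by_contra hc
  push Not at hc
  obtain ⟨⟨⟨⟨c1, c2⟩, c3⟩, c4⟩, c5⟩ := hc
  have d1 : S.card ≤ k := c1 h1
  have d2 := c2 h1 d1
  have d3 := c3 h1
  have d4 := c4 h1
  have d5 : NdM R W (sm z S) (la z S) := by
    by_contra h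
    have := c5 h1 d1 h
    omega
  apply h2
  refine ⟨?_, d5⟩
  unfold RR
  rw [mem_filter]
  exact ⟨h1, d3, d1, d2, by omega⟩

theorem c_bounds {M : ℕ} (r : Fin M → ℕ) : 0 ≤ ∏ k, cq (r k) ∧ ∏ k, cq (r k) ≤ 1 :=
  ⟨prod_nonneg fun _ _ => cq_ge _, prod_le_one (fun _ _ => cq_ge _) fun _ _ => cq_le _⟩

theorem abs_sub_le_of {a b n : ℝ} (ha : 0 ≤ a) (han : a ≤ n) (hb : 0 ≤ b) (hbn : b ≤ n) : |a - b| ≤ n := by
  rw [abs_le]
  constructor <;> linarith

/-- the comparison of the counts -/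
theorem cmp (G : Finset ℕ → Prop) (T S : Finset (Finset ℕ)) (hTS : T ⊆ S) (c : ℝ) (hc0 : 0 ≤ c)
    (hc1 : c ≤ 1) :
    |((S.filter G).card : ℝ) - c * (S.card : ℝ)| ≤
      |((T.filter G).card : ℝ) - c * (T.card : ℝ)| + ((S \ T).card : ℝ) := by
  have e1 : ((S.filter G).card : ℝ) = (T.filter G).card + ((S \ T).filter G).card := by
    rw [← Nat.cast_add, ← card_union_of_disjoint, ← filter_union, union_sdiff_of_subset hTS]
    exact disjoint_filter_filter (disjoint_sdiff)
  have e2 : (S.card : ℝ) = T.card + (S \ T).card := by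
    rw [← Nat.cast_add, ← card_union_of_disjoint disjoint_sdiff, union_sdiff_of_subset hTS]
  have h1 : |(((S \ T).filter G).card : ℝ) - c * ((S \ T).card : ℝ)| ≤ ((S \ T).card : ℝ) := by
    have h2 : (((S \ T).filter G).card : ℝ) ≤ ((S \ T).card : ℝ) := by
      exact_mod_cast card_filter_le _ _
    have h3 : (0 : ℝ) ≤ ((S \ T).card : ℝ) := Nat.cast_nonneg _
    exact abs_sub_le_of (Nat.cast_nonneg _) h2 (mul_nonneg hc0 h3)
      (mul_le_of_le_one_left h3 hc1)
  have e3 : ((S.filter G).card : ℝ) - c * (S.card : ℝ) =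
      (((T.filter G).card : ℝ) - c * (T.card : ℝ)) +
      ((((S \ T).filter G).card : ℝ) - c * ((S \ T).card : ℝ)) := by
    rw [e1, e2]; ring
  rw [e3]
  exact (abs_add_le _ _).trans (add_le_add le_rfl h1)

/-- **The joint law for the sets that avoid `V`.** -/
theorem t_ASYV {M : ℕ} (r : Fin M → ℕ)
    (V W : Finset ℕ) (hVW : V ⊆ W) (m : Fin M → ℕ → ZMod 3) (hW : ∀ u ∈ W, u.Prime ∧ u % 3 = 1)
    (hm : ∀ k u, u ∉ W → m k u = 0) (hml : ∀ k l, k ≠ l → m k ≠ m l) :
    Tendsto (fun X : ℕ => (((SS X).filter fun S => AV V S ∧ GG W m r S).card : ℝ) /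
      (((SS X).filter (AV V)).card : ℝ)) atTop
      (nhds (∏ k, cq (r k))) := by
  have hL := Pool.Agent.Y333.CX.t_LAM
  have hC := Pool.Agent.Y388.CX.t_CNT
  have hSIE := Pool.Agent.Y488.CX.t_SIE
  have hW3 : ∀ u ∈ W, u.Prime ∧ u ≠ 3 := fun u hu => ⟨(hW u hu).1, fun h => by
    have := (hW u hu).2
    omega⟩
  obtain ⟨C, hC1, hkey⟩ := t_KEQ hL Pool.Agent.Y261.CX.t_BIL1 Pool.Agent.Y779.CX.t_BIL2
  obtain ⟨c, X₀, hc, hlow⟩ := low_V V fun p hp => (hW p (hVW hp)).2
  obtain ⟨g, hg⟩ : ∃ g : ℝ, g = ∏ k, cq (r k) := ⟨_, rfl⟩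
  have hgb := c_bounds r
  rw [← hg] at hgb ⊢
  rw [Metric.tendsto_nhds]
  intro ε hε
  obtain ⟨R₀, hR₀⟩ := t_BXM Pool.Agent.Y419.CX.t_EQ r (ε / 4) (by linarith)
  set R : ℕ := R₀ + 1 with hR
  have hbx := hR₀ R (by omega) W m hW hm hml
  rw [← hg] at hbx
  obtain ⟨CF, XF, hfew⟩ := Pool.Agent.Y495.CX.Few.t_FEW hSIE R
  obtain ⟨CB, XB, hbad⟩ := t_BADM hL hSIE Pool.Agent.Y495.CX.t_HAL R W hW3
  have s1 := sml_many hC
  have s2 := sml_cut hC
  have s3 := sml_coll hC
  have s4 := sml_rpow hfew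
  have s5 := sml_rpow hbad
  have s6 := sml_mainW W.card hC1
  have s := sml_add (sml_add (sml_add (sml_add (sml_add s1 s2) s3) s4) s5) s6
  have hδ : (0 : ℝ) < c * ε / 4 := by positivity
  obtain ⟨X₁, hX₁⟩ := zz_ev (W.sup id)
  filter_upwards [s (c * ε / 4) hδ, ev_eL 1, eventually_ge_atTop X₀, eventually_ge_atTop X₁]
    with X hX hl hX0 hX1
  have hl0 : 0 < eL X := by linarith
  have hlo := hlow X hX0
  rw [rpow_eL hl0] at hlo
  have hXp := X_pos hl0
  have hXp' : (0 : ℝ) < X := by exact_mod_cast hXp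
  have e0 : (-(1 / 2) * eL X : ℝ) = -(eL X) / 2 := by ring
  rw [e0] at hlo
  set SV := (SS X).filter (AV V) with hSV
  have hSpos : (0 : ℝ) < (SV.card : ℝ) := by
    refine lt_of_lt_of_le ?_ hlo
    positivity
  have hN : (HH X : ℝ) * Real.log X < NN X := by
    unfold NN
    push_cast
    exact Nat.lt_floor_add_one _
  have hWz : ∀ u ∈ W, u ≤ zz X := fun u hu => (le_sup (f := id) hu).trans (hX₁ X hX1)
  have hQ : ∀ S : Finset ℕ, AV V (sm (zz X) S) ↔ AV V S := by
    intro S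
    unfold AV
    constructor
    · intro h
      rw [Finset.disjoint_left] at h ⊢
      intro u hu hv
      refine h ?_ hv
      unfold sm
      rw [mem_filter]
      exact ⟨hu, hWz u (hVW hv)⟩
    · intro h
      exact h.mono_left (filter_subset _ _)
  have hmain := hkey W R (GG W m r) (AV V) g (ε / 4) hbx (by linarith) X (zz X)
    (HH X) (kk X) 0 (NN X) (kap C X) hWz hXp (HH_pos hl0) (zz_pos hl)
    (kap_nonneg hC1 X) (kap_pow hC1 hl) hN
  set T₀ := (RR X (zz X) (HH X) (kk X) 0).filter fun S => NdM R W (sm (zz X) S) (la (zz X) S) with hT₀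
  set T := T₀.filter (AV V) with hT
  have hTG : ((RR X (zz X) (HH X) (kk X) 0).filter
      (fun S => AV V (sm (zz X) S) ∧ NdM R W (sm (zz X) S) (la (zz X) S) ∧ GG W m r S)).card =
      (T.filter (GG W m r)).card := by
    rw [hT, hT₀, filter_filter, filter_filter]
    congr 1
    ext S
    simp only [mem_filter, hQ]
    tauto
  have hTG' : ((RR X (zz X) (HH X) (kk X) 0).filter
      (fun S => AV V (sm (zz X) S) ∧ NdM R W (sm (zz X) S) (la (zz X) S))).card =
      T.card := by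
    rw [hT, hT₀, filter_filter]
    congr 1
    ext S
    simp only [mem_filter, hQ]
    tauto
  rw [hTG, hTG'] at hmain
  have hTS : T ⊆ SV := by
    intro S hS
    rw [hT, hT₀, mem_filter, mem_filter] at hS
    rw [hSV, mem_filter]
    exact ⟨filter_subset _ _ hS.1.1, hS.2⟩
  have hRS : (((RR X (zz X) (HH X) (kk X) 0).filter fun S => AV V (sm (zz X) S)).card : ℝ) ≤
      (SV.card : ℝ) := by
    refine Nat.cast_le.2 (card_le_card fun S hS => ?_)
    rw [mem_filter, hQ] at hS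
    rw [hSV, mem_filter]
    exact ⟨filter_subset _ _ hS.1, hS.2⟩
  have hcmp := cmp (GG W m r) T SV hTS g hgb.1 hgb.2
  have hout0 : SV \ T ⊆ SS X \ T₀ := by
    intro S hS
    rw [Finset.mem_sdiff, hSV, mem_filter, hT, mem_filter, not_and] at hS
    rw [Finset.mem_sdiff]
    exact ⟨hS.1.1, fun h => hS.2 h hS.1.2⟩
  have hout : ((SV \ T).card : ℝ) ≤
      ((((SS X).filter fun S => kk X < S.card).card : ℝ) +
      (((SS X).filter fun S => S.card ≤ kk X ∧
        X < (∏ p ∈ sm (zz X) S, p) * ∏ p ∈ la (zz X) S, XX (HH X) (jj (HH X) p)).card : ℝ) +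
      (((SS X).filter fun S => ¬ Set.InjOn (jj (HH X)) (la (zz X) S : Set ℕ)).card : ℝ) +
      (((SS X).filter fun S => ((la (zz X) S).filter fun p => p % 3 = 1).card ≤
        (sm (zz X) S).card + R).card : ℝ)) +
      (((SS X).filter fun S => S.card ≤ kk X ∧ (¬ NdM R W (sm (zz X) S) (la (zz X) S) ∧
        R ≤ ((la (zz X) S).filter fun p => p % 3 = 1).card)).card : ℝ) := by
    have g := card_le_card (hout0.trans
      (out_sub2 (W := W) (R := R) (by omega) X (zz X) (HH X) (kk X)))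
    have g2 := (g.trans (card_union_le _ _)).trans (Nat.add_le_add_right ((card_union_le _ _).trans
      (Nat.add_le_add_right ((card_union_le _ _).trans
      (Nat.add_le_add_right (card_union_le _ _) _)) _)) _)
    exact_mod_cast g2
  have hfin : ((SS X).filter fun S => AV V S ∧ GG W m r S).card =
      (SV.filter (GG W m r)).card := by
    rw [hSV, filter_filter]
  rw [hfin]
  have htot : |((SV.filter (GG W m r)).card : ℝ) - g * (SV.card : ℝ)| ≤
      ε / 4 * (SV.card : ℝ) + c * ε / 4 * (X * Real.exp (-(eL X) / 2)) := by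
    have g1 : ε / 4 * (((RR X (zz X) (HH X) (kk X) 0).filter fun S =>
        AV V (sm (zz X) S)).card : ℝ) ≤
        ε / 4 * (SV.card : ℝ) := mul_le_mul_of_nonneg_left hRS (by positivity)
    linarith
  rw [Real.dist_eq]
  have e3 : ((SV.filter (GG W m r)).card : ℝ) / (SV.card : ℝ) - g =
      (((SV.filter (GG W m r)).card : ℝ) - g * (SV.card : ℝ)) /
        (SV.card : ℝ) := by
    field_simp
  rw [e3, abs_div, abs_of_pos hSpos, div_lt_iff₀ hSpos]
  refine lt_of_le_of_lt htot ?_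
  have g2 : c * ε / 4 * (X * Real.exp (-(eL X) / 2)) ≤ ε / 4 * (SV.card : ℝ) := by
    calc c * ε / 4 * (X * Real.exp (-(eL X) / 2)) = ε / 4 * (c * X * Real.exp (-(eL X) / 2)) := by
          ring
      _ ≤ _ := mul_le_mul_of_nonneg_left hlo (by linarith)
  have g4 : 0 < ε * (SV.card : ℝ) := by positivity
  linarith

end Q283.Q3A
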