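import Pool.Agent.Q283.Q3.Lq2
import Pool.Agent.Y911.CX.BOX

/-! The count in a box for several masks, over `ℚ` -/

set_option autoImplicit false

open scoped Classical

namespace Q283.Q3

open Finset Module
open Q283.T3 (KS mem_KS Sk mem_Sk_inl mem_Sk_inr fcc2)
open Pool.Agent.Y703.CX (prs lam HB S_EQ)
open Pool.Agent.Y911.CX (lb sum_f im_filter ez0 ez0_coe HB_sub)

/-- the exponents of the product of the primes of `S` and of a mask -/
noncomputable def ex (m : ℕ → ZMod 3) (S : Finset ℕ) (p : ℕ) : ZMod 3 :=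
  (if p ∈ S then 1 else 0) + m p

/-- the solutions of the system with the exponents `e` on the set `T` -/
def KT (T : Finset ℕ) (e : ℕ → ZMod 3) : Submodule (ZMod 3) (T → ZMod 3) where
  carrier := {x | (∀ p : T, e p = 0 → x p = 0) ∧
    ∀ p : T, (p : ℕ) % 3 = 1 → ∑ q : T, e p * e q * lam p q * (x q - x p) = 0}
  add_mem' := by
    rintro x y ⟨h1, h2⟩ ⟨h3, h4⟩
    refine ⟨fun i hi => by rw [Pi.add_apply, h1 i hi, h3 i hi, add_zero], fun i hi => ?_⟩
    have h5 : ∑ q : T, e i * e q * lam i q * ((x + y) q - (x + y) i) =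
        ∑ q : T, e i * e q * lam i q * (x q - x i) + ∑ q : T, e i * e q * lam i q * (y q - y i) := by
      rw [← sum_add_distrib]
      exact sum_congr rfl fun j _ => by simp only [Pi.add_apply]; ring
    rw [h5, h2 i hi, h4 i hi, add_zero]
  zero_mem' := ⟨fun _ _ => rfl, fun i _ => by simp⟩
  smul_mem' := by
    rintro a x ⟨h1, h2⟩
    refine ⟨fun i hi => by rw [Pi.smul_apply, h1 i hi, smul_zero], fun i hi => ?_⟩
    have h5 : ∑ q : T, e i * e q * lam i q * ((a • x) q - (a • x) i) =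
        a * ∑ q : T, e i * e q * lam i q * (x q - x i) := by
      rw [mul_sum]
      exact sum_congr rfl fun j _ => by simp only [Pi.smul_apply, smul_eq_mul]; ring
    rw [h5, h2 i hi, mul_zero]

theorem mem_KT {T : Finset ℕ} {e : ℕ → ZMod 3} {x : T → ZMod 3} :
    x ∈ KT T e ↔ (∀ p : T, e p = 0 → x p = 0) ∧
      ∀ p : T, (p : ℕ) % 3 = 1 → ∑ q : T, e p * e q * lam p q * (x q - x p) = 0 := Iff.rfl

/-- the property of the sets: all the coranks are given -/
def GG {M : ℕ} (W : Finset ℕ) (m : Fin M → ℕ → ZMod 3) (r : Fin M → ℕ) (S : Finset ℕ) : Prop :=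
  ∀ k, finrank (ZMod 3) (KT (S ∪ W) (ex (m k) S)) = r k + 1

/-- the good sets of large primes -/
def NdM (R : ℕ) (W S₀ S₁ : Finset ℕ) : Prop :=
  (∀ v : ℕ → ZMod 3, (∃ u ∈ S₀ ∪ W, u % 3 = 1 ∧ v u ≠ 0) → 2 * (S₀ ∪ W).card + R ≤
    (S₁.filter fun p => p % 3 = 1 ∧
      ∑ u ∈ (S₀ ∪ W).filter (fun u => u % 3 = 1), v u * lam u p ≠ 0).card) ∧
  (∀ w : ℕ → ZMod 3, (∃ u ∈ S₀ ∪ W, w u ≠ 0) → 2 * (S₀ ∪ W).card + R ≤
    (S₁.filter fun p => p % 3 = 1 ∧ ∑ u ∈ S₀ ∪ W, w u * lam p u ≠ 0).card) ∧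
  2 * (S₀ ∪ W).card + R ≤ (S₁.filter fun p => p % 3 = 1).card

/-- the good labels -/
def LN {ι : Type} (R : ℕ) (U : Finset ℕ) (J1 : Finset ι)
    (β : ι → (U → ZMod 3) × (U → ZMod 3)) : Prop :=
  (∀ v : U → ZMod 3, (∃ u : U, (u : ℕ) % 3 = 1 ∧ v u ≠ 0) → 2 * U.card + R ≤
    (J1.filter fun i =>
      ∑ u ∈ univ.filter (fun u : U => (u : ℕ) % 3 = 1), v u * (β i).1 u ≠ 0).card) ∧
  (∀ w : U → ZMod 3, (∃ u, w u ≠ 0) → 2 * U.card + R ≤
    (J1.filter fun i => ∑ u, w u * (β i).2 u ≠ 0).card) ∧ 2 * U.card + R ≤ J1.card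

section one
variable {ι : Type} [Fintype ι] {J1 : Finset ι} {S₀ W : Finset ℕ} {p : ι → ℕ}

theorem ndM_iff {R : ℕ} (hp : Function.Injective p) (hJ : ∀ i, p i % 3 = 1 ↔ i ∈ J1) :
    NdM R W S₀ (univ.image p) ↔ LN R (S₀ ∪ W) J1 (fun i => lb (S₀ ∪ W) (p i)) := by
  have hc : ∀ (T : ℕ → Prop) [DecidablePred T], ((univ.image p).filter fun x => x % 3 = 1 ∧ T x).card =
      (J1.filter fun i => T (p i)).card := by
    intro T _
    rw [im_filter hJ, Finset.card_image_of_injective _ hp]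
  have hc' : ((univ.image p).filter fun x => x % 3 = 1).card = J1.card := by
    have h := hc fun _ => True
    simp only [and_true, Finset.filter_true] at h
    exact h
  unfold NdM LN
  rw [hc']
  refine and_congr ?_ (and_congr_left fun _ => ?_)
  · constructor
    · intro h v hv
      obtain ⟨u, hu1, hu2⟩ := hv
      have h1 := h (ez0 v) ⟨u, u.2, hu1, by rw [ez0_coe]; exact hu2⟩
      rw [hc] at h1
      refine h1.trans (le_of_eq ?_)
      congr 1
      refine Finset.filter_congr fun i _ => ?_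
      rw [sum_f]
      refine not_congr (Eq.congr_left ?_)
      refine Finset.sum_congr rfl fun u _ => ?_
      rw [ez0_coe]
      rfl
    · intro h v hv
      obtain ⟨u, hu0, hu1, hu2⟩ := hv
      have h1 := h (fun u => v u) ⟨⟨u, hu0⟩, hu1, hu2⟩
      rw [hc]
      refine h1.trans (le_of_eq ?_)
      congr 1
      refine Finset.filter_congr fun i _ => ?_
      rw [sum_f]
      rfl
  · constructor
    · intro h w hw
      obtain ⟨u, hu⟩ := hw
      have h1 := h (ez0 w) ⟨u, u.2, by rw [ez0_coe]; exact hu⟩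
      rw [hc] at h1
      refine h1.trans (le_of_eq ?_)
      congr 1
      refine Finset.filter_congr fun i _ => ?_
      rw [← Finset.sum_coe_sort (S₀ ∪ W)]
      refine not_congr (Eq.congr_left ?_)
      refine Finset.sum_congr rfl fun u _ => ?_
      rw [ez0_coe]
      rfl
    · intro h w hw
      obtain ⟨u, hu0, hu⟩ := hw
      have h1 := h (fun u => w u) ⟨⟨u, hu0⟩, hu⟩
      rw [hc]
      refine h1.trans (le_of_eq ?_)
      congr 1
      refine Finset.filter_congr fun i _ => ?_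
      rw [← Finset.sum_coe_sort (S₀ ∪ W)]
      rfl

/-- the enumeration of the primes -/
noncomputable def phi (S₀ W : Finset ℕ) (p : ι → ℕ) :
    ↥(S₀ ∪ W) ⊕ ι → ↥((S₀ ∪ univ.image p) ∪ W)
  | Sum.inl u => ⟨u.1, by
      have := u.2
      simp only [mem_union] at this ⊢
      tauto⟩
  | Sum.inr i => ⟨p i, by
      simp only [mem_union, mem_image, mem_univ, true_and]
      exact Or.inl (Or.inr ⟨i, rfl⟩)⟩

theorem phi_bij (hp : Function.Injective p) (hd : ∀ i, p i ∉ S₀ ∪ W) :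
    Function.Bijective (phi S₀ W p) := by
  constructor
  · rintro (a | a) (b | b) h
    · have h' := congrArg Subtype.val h
      change a.1 = b.1 at h'
      exact congrArg Sum.inl (Subtype.ext h')
    · have h' := congrArg Subtype.val h
      change a.1 = p b at h'
      exact absurd (h' ▸ a.2) (hd b)
    · have h' := congrArg Subtype.val h
      change p a = b.1 at h'
      exact absurd (h' ▸ b.2) (hd a)
    · have h' := congrArg Subtype.val h
      change p a = p b at h'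
      exact congrArg Sum.inr (hp h')
  · rintro ⟨x, hx⟩
    by_cases h : x ∈ S₀ ∪ W
    · exact ⟨Sum.inl ⟨x, h⟩, rfl⟩
    · simp only [mem_union, mem_image, mem_univ, true_and] at hx h
      obtain ⟨i, hi⟩ : ∃ i, p i = x := by tauto
      exact ⟨Sum.inr i, Subtype.ext hi⟩

/-- the value of a place -/
def vl (p : ι → ℕ) : ↥(S₀ ∪ W) ⊕ ι → ℕ
  | Sum.inl u => u
  | Sum.inr i => p i

theorem finrank_KT (hp : Function.Injective p) (hd : ∀ i, p i ∉ S₀ ∪ W)
    {m : ℕ → ZMod 3} (hm : ∀ u, u ∉ W → m u = 0) {ks : ↥(S₀ ∪ W) ⊕ ι}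
    (hk : ∀ i : ↥(S₀ ∪ W) ⊕ ι, vl p i % 3 = 1 ↔ i ≠ ks) :
    finrank (ZMod 3) (KT ((S₀ ∪ univ.image p) ∪ W) (ex m (S₀ ∪ univ.image p))) =
      finrank (ZMod 3) (KS (cc ks (fun u : ↥(S₀ ∪ W) => ex m S₀ u) (fun u v : ↥(S₀ ∪ W) => lam u v)
        (fun (u : ↥(S₀ ∪ W)) l => lam u (p l)) (fun k (u : ↥(S₀ ∪ W)) => lam (p k) u)
        (Pool.Agent.Y703.CX.ext fun e : prs J1 => lam (p e.1.1) (p e.1.2)))
        (Sk ι (fun u : ↥(S₀ ∪ W) => ex m S₀ u))) ∨ ¬ (∀ l, l ∈ J1 ↔ (Sum.inr l : ↥(S₀ ∪ W) ⊕ ι) ≠ ks) := by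
  by_cases hks : ∀ l, l ∈ J1 ↔ (Sum.inr l : ↥(S₀ ∪ W) ⊕ ι) ≠ ks
  swap
  · exact Or.inr hks
  left
  obtain ⟨E, hE⟩ : ∃ E : ↥(S₀ ∪ W) ⊕ ι ≃ ↥((S₀ ∪ univ.image p) ∪ W), ∀ i, E i = phi S₀ W p i :=
    ⟨Equiv.ofBijective _ (phi_bij hp hd), fun _ => rfl⟩
  have hE0 : ∀ i, ((E i : ↥((S₀ ∪ univ.image p) ∪ W)) : ℕ) = vl p i := fun i => by
    rw [hE]
    rcases i with i | i <;> rfl
  have hE1 : ∀ u, ((E (Sum.inl u) : ↥((S₀ ∪ univ.image p) ∪ W)) : ℕ) = u := fun u => by
    rw [hE]; rfl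
  have hE2 : ∀ k, ((E (Sum.inr k) : ↥((S₀ ∪ univ.image p) ∪ W)) : ℕ) = p k := fun u => by
    rw [hE]; rfl
  obtain ⟨e, he⟩ : ∃ e, e = ex m (S₀ ∪ univ.image p) := ⟨_, rfl⟩
  obtain ⟨c, hc⟩ : ∃ c, c = cc ks (fun u : ↥(S₀ ∪ W) => ex m S₀ u)
        (fun u v : ↥(S₀ ∪ W) => lam u v)
        (fun (u : ↥(S₀ ∪ W)) l => lam u (p l)) (fun k (u : ↥(S₀ ∪ W)) => lam (p k) u)
        (Pool.Agent.Y703.CX.ext fun e : prs J1 => lam (p e.1.1) (p e.1.2)) := ⟨_, rfl⟩
  rw [← he, ← hc]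
  have e1 : ∀ u : ↥(S₀ ∪ W), e u = ex m S₀ u := by
    intro u
    rw [he]
    unfold ex
    congr 1
    by_cases h : u.1 ∈ S₀
    · rw [if_pos h, if_pos (mem_union_left _ h)]
    · rw [if_neg h, if_neg]
      rw [mem_union, mem_image]
      rintro (h1 | ⟨i, -, hi⟩)
      · exact h h1
      · exact hd i (hi ▸ u.2)
  have e2 : ∀ i, e (p i) = 1 := by
    intro i
    rw [he]
    unfold ex
    rw [if_pos (mem_union_right _ (mem_image_of_mem _ (mem_univ _))),
      hm _ fun h => hd i (mem_union_right _ h), add_zero]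
  have key : ∀ (x : ↥((S₀ ∪ univ.image p) ∪ W) → ZMod 3) (i j : ↥(S₀ ∪ W) ⊕ ι), i ≠ ks →
      e (E i) * e (E j) * lam (E i) (E j) * (x (E j) - x (E i)) = c i j * (x (E j) - x (E i)) := by
    intro x i j hik
    rcases i with u | k <;> rcases j with v | l
    · rw [hE1, hE1, e1, e1, hc]
      unfold cc
      rw [if_neg hik]
      rfl
    · rw [hE1, hE2, e1, e2, mul_one, hc]
      unfold cc
      rw [if_neg hik]
      rfl
    · rw [hE1, hE2, e1, e2, one_mul, hc]
      unfold cc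
      rw [if_neg hik]
      rfl
    · rw [hE2, hE2, e2, e2, one_mul, one_mul]
      by_cases hlk : l = k
      · rw [hlk, sub_self, mul_zero, mul_zero]
      congr 1
      rw [hc]
      unfold cc
      rw [if_neg hik]
      show lam (p k) (p l) = Pool.Agent.Y703.CX.ext (fun e : prs J1 => lam (p e.1.1) (p e.1.2)) k l
      unfold Pool.Agent.Y703.CX.ext
      have hm : (k, l) ∈ prs J1 := by
        unfold prs
        rw [Finset.mem_filter]
        exact ⟨Finset.mem_univ _, (hks k).2 hik, hlk⟩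
      rw [dif_pos hm]
  have key2 : ∀ i : ↥(S₀ ∪ W) ⊕ ι, e (E i) = 0 ↔ i ∉ Sk ι (fun u : ↥(S₀ ∪ W) => ex m S₀ u) := by
    intro i
    rcases i with u | k
    · rw [mem_Sk_inl, not_not, hE1, e1]
    · rw [hE2, e2]
      exact ⟨fun h => absurd h one_ne_zero, fun h => absurd mem_Sk_inr h⟩
  have h0 := LinearEquiv.finrank_map_eq (LinearEquiv.funCongrLeft (ZMod 3) (ZMod 3) E)
    (KT ((S₀ ∪ univ.image p) ∪ W) e)
  rw [← h0]
  have h1 : (KT ((S₀ ∪ univ.image p) ∪ W) e).map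
      (LinearEquiv.funCongrLeft (ZMod 3) (ZMod 3) E : _ →ₗ[ZMod 3] _) =
      KS c (Sk ι fun u : ↥(S₀ ∪ W) => ex m S₀ u) := by
    ext y
    rw [Submodule.mem_map]
    constructor
    · rintro ⟨x, hx, rfl⟩
      rw [mem_KT] at hx
      rw [mem_KS]
      refine ⟨fun i hi => hx.1 (E i) ((key2 i).2 hi), fun i => ?_⟩
      by_cases hik : i = ks
      · refine sum_eq_zero fun j _ => ?_
        rw [hik, hc, cc_ks, zero_mul]
      · have h2 := hx.2 (E i) (by rw [hE0]; exact (hk i).2 hik)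
        rw [← h2, ← Equiv.sum_comp E]
        exact sum_congr rfl fun j _ => (key x i j hik).symm
    · intro hy
      rw [mem_KS] at hy
      refine ⟨fun t => y (E.symm t), ?_, ?_⟩
      · rw [mem_KT]
        constructor
        · intro π hπ
          obtain ⟨i, rfl⟩ := E.surjective π
          rw [E.symm_apply_apply]
          exact hy.1 i ((key2 i).1 hπ)
        · intro π hπ
          obtain ⟨i, rfl⟩ := E.surjective π
          rw [hE0] at hπ
          have hik := (hk i).1 hπ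
          rw [← hy.2 i, ← Equiv.sum_comp E]
          refine sum_congr rfl fun j _ => ?_
          rw [key (fun t => y (E.symm t)) i j hik, E.symm_apply_apply, E.symm_apply_apply]
      · funext i
        show y (E.symm (E i)) = y i
        rw [E.symm_apply_apply]
  rw [h1]

end one

/-- the statement for the boxes -/
def BXM (W : Finset ℕ) (R : ℕ) (G : Finset ℕ → Prop) (c δ : ℝ) : Prop :=
  ∀ (ι : Type) [Fintype ι] (J1 : Finset ι)
  (C : ι → Finset ℕ) (X : ι → ℕ) (κ : ℝ) (S₀ : Finset ℕ), 0 ≤ κ → (∀ i, (C i).card ≤ X i) →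
  HB J1 C X κ → (∀ u ∈ S₀, u.Prime ∧ u ≠ 3) →
  (∀ i, ∀ p ∈ C i, p.Prime ∧ p ∉ S₀ ∪ W ∧ (i ∈ J1 → p % 3 = 1) ∧ (i ∉ J1 → p % 3 = 2)) →
  (∀ i l, i ≠ l → Disjoint (C i) (C l)) →
  (S₀.filter fun p => p % 3 = 2).card + (univ \ J1).card = 1 →
  |(((Fintype.piFinset C).filter fun p => NdM R W S₀ (univ.image p) ∧
      G (S₀ ∪ univ.image p)).card : ℝ) -
      c * (((Fintype.piFinset C).filter fun p => NdM R W S₀ (univ.image p)).card : ℝ)| ≤
    δ * (((Fintype.piFinset C).filter fun p => NdM R W S₀ (univ.image p)).card : ℝ) +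
    3 ^ (2 * (S₀ ∪ W).card * Fintype.card ι + (prs J1).card) * (κ * ∏ j, (X j : ℝ))

theorem mod3' {p : ℕ} (hp : p.Prime) (h3 : p ≠ 3) : p % 3 = 1 ∨ p % 3 = 2 := by
  have : ¬ 3 ∣ p := fun h => h3 ((Nat.prime_dvd_prime_iff_eq Nat.prime_three hp).1 h).symm
  omega

/-- **The count in a box.** -/
theorem t_BXM (hEQ : S_EQ) {M : ℕ} (r : Fin M → ℕ) (δ : ℝ) (hδ : 0 < δ) : ∃ R : ℕ,
    ∀ R' : ℕ, R ≤ R' → ∀ (W : Finset ℕ) (m : Fin M → ℕ → ZMod 3), (∀ u ∈ W, u.Prime ∧ u % 3 = 1) →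
    (∀ k u, u ∉ W → m k u = 0) → (∀ k l, k ≠ l → m k ≠ m l) →
    BXM W R' (GG W m r) (∏ k, cq (r k)) δ := by
  obtain ⟨R, hR⟩ := t_LAQ M r δ hδ
  refine ⟨R + 1, ?_⟩
  intro R' hR' W m hW hm hml ι _ J1 C X κ S₀ hκ hCX hHB hS₀ hC hdis hcard
  obtain ⟨c, hc⟩ : ∃ c : ℝ, c = ∏ k, cq (r k) := ⟨_, rfl⟩
  obtain ⟨E, hE⟩ : ∃ E : ℝ, E = 3 ^ (prs J1).card * (κ * ∏ j, (X j : ℝ)) := ⟨_, rfl⟩
  have hE0 : 0 ≤ E := by
    rw [hE]
    exact mul_nonneg (by positivity)
      (mul_nonneg hκ (Finset.prod_nonneg fun j _ => by positivity))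
  have hU : ∀ u ∈ S₀ ∪ W, u.Prime ∧ u ≠ 3 := fun u hu => (mem_union.1 hu).elim (hS₀ u)
    fun h => ⟨(hW u h).1, fun h3 => by have := (hW u h).2; omega⟩
  -- facts on tuples
  have hinj : ∀ p ∈ Fintype.piFinset C, Function.Injective p := by
    intro p hp i j hij
    rw [Fintype.mem_piFinset] at hp
    by_contra hne
    have h1 := Finset.disjoint_left.1 (hdis i j hne) (hp i)
    rw [hij] at h1
    exact h1 (hp j)
  have hJ : ∀ p ∈ Fintype.piFinset C, ∀ i, p i % 3 = 1 ↔ i ∈ J1 := by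
    intro p hp i
    rw [Fintype.mem_piFinset] at hp
    obtain ⟨-, -, h1, h2⟩ := hC i _ (hp i)
    constructor
    · intro h
      by_contra h3
      have := h2 h3
      omega
    · exact h1
  have hd : ∀ p ∈ Fintype.piFinset C, ∀ i, p i ∉ S₀ ∪ W := by
    intro p hp i
    rw [Fintype.mem_piFinset] at hp
    exact (hC i _ (hp i)).2.1
  have hml' : ∀ k l, k ≠ l → (fun u : ↥(S₀ ∪ W) => ex (m k) S₀ u) ≠
      fun u : ↥(S₀ ∪ W) => ex (m l) S₀ u := by
    intro k l hkl h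
    apply hml k l hkl
    funext u
    by_cases hu : u ∈ W
    · have h1 := congrFun h ⟨u, mem_union_right _ hu⟩
      unfold ex at h1
      exact add_left_cancel h1
    · rw [hm k u hu, hm l u hu]
  -- the special index
  obtain ⟨ks, hks, hku⟩ : ∃ ks : ↥(S₀ ∪ W) ⊕ ι, (∀ l, l ∈ J1 ↔ Sum.inr l ≠ ks) ∧
      ∀ u : ↥(S₀ ∪ W), (u : ℕ) % 3 = 1 ↔ Sum.inl u ≠ ks := by
    have hW2 : ∀ u : ↥(S₀ ∪ W), (u : ℕ) % 3 = 2 → (u : ℕ) ∈ S₀.filter fun p => p % 3 = 2 := by
      intro u hu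
      rcases mem_union.1 u.2 with h | h
      · exact mem_filter.2 ⟨h, hu⟩
      · have := (hW _ h).2
        omega
    rcases Nat.eq_zero_or_pos (univ \ J1).card with h0 | h0
    · have h1 : (S₀.filter fun p => p % 3 = 2).card = 1 := by omega
      obtain ⟨u₀, hu₀⟩ := card_eq_one.1 h1
      have hu₁ : u₀ ∈ S₀.filter fun p => p % 3 = 2 := by rw [hu₀]; exact mem_singleton_self _
      rw [mem_filter] at hu₁
      refine ⟨Sum.inl ⟨u₀, mem_union_left _ hu₁.1⟩, fun l => ?_, fun u => ?_⟩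
      · refine ⟨fun _ => by simp, fun _ => ?_⟩
        rw [card_eq_zero] at h0
        by_contra hl
        have : l ∈ univ \ J1 := mem_sdiff.2 ⟨mem_univ _, hl⟩
        rw [h0] at this
        exact notMem_empty _ this
      · have h2 := mod3' (hU u u.2).1 (hU u u.2).2
        constructor
        · intro h h'
          have h3 := congrArg Subtype.val (Sum.inl_injective h')
          change (u : ℕ) = u₀ at h3
          rw [h3] at h
          omega
        · intro h
          by_contra h3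
          have h4 : (u : ℕ) % 3 = 2 := by omega
          have h5 := hW2 u h4
          rw [hu₀, mem_singleton] at h5
          exact h (congrArg Sum.inl (Subtype.ext h5))
    · obtain ⟨l₀, hl₀⟩ := card_pos.1 h0
      have h1 : (univ \ J1).card ≤ 1 := by omega
      rw [card_le_one] at h1
      have h2 : S₀.filter (fun p => p % 3 = 2) = ∅ := by
        rw [← card_eq_zero]
        omega
      refine ⟨Sum.inr l₀, fun l => ?_, fun u => ?_⟩
      · constructor
        · intro h h'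
          have h3 := Sum.inr_injective h'
          rw [h3] at h
          exact (mem_sdiff.1 hl₀).2 h
        · intro h
          by_contra h3
          exact h (congrArg Sum.inr (h1 l (mem_sdiff.2 ⟨mem_univ _, h3⟩) l₀ hl₀))
      · refine ⟨fun _ => by simp, fun _ => ?_⟩
        have h3 := mod3' (hU u u.2).1 (hU u u.2).2
        by_contra h4
        have h5 := hW2 u (by omega)
        rw [h2] at h5
        exact notMem_empty _ h5
  have hku' : ∀ u : ↥(S₀ ∪ W), Sum.inl u = ks → (u : ℕ) ∉ W := by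
    intro u hu h
    have h1 := (hW _ h).2
    exact (hku u).1 h1 hu
  have hkuS : ∀ u : ↥(S₀ ∪ W), Sum.inl u = ks → (u : ℕ) ∈ S₀ := by
    intro u hu
    exact (mem_union.1 u.2).resolve_right (hku' u hu)
  -- the part with given labels
  have h1 : ∀ β : ι → (↥(S₀ ∪ W) → ZMod 3) × (↥(S₀ ∪ W) → ZMod 3), LN R' (S₀ ∪ W) J1 β →
      |(((Fintype.piFinset C).filter fun p => (fun i => lb (S₀ ∪ W) (p i)) = β ∧
          GG W m r (S₀ ∪ univ.image p)).card : ℝ) -
        c * (((Fintype.piFinset C).filter fun p => (fun i => lb (S₀ ∪ W) (p i)) = β).card : ℝ)| ≤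
      δ * (((Fintype.piFinset C).filter fun p => (fun i => lb (S₀ ∪ W) (p i)) = β).card : ℝ) +
        E := by
    intro β hβ
    obtain ⟨C', hC'⟩ : ∃ C' : ι → Finset ℕ, C' = fun i => (C i).filter fun q =>
      lb (S₀ ∪ W) q = β i := ⟨_, rfl⟩
    have hpi : (Fintype.piFinset C).filter (fun p => (fun i => lb (S₀ ∪ W) (p i)) = β) =
        Fintype.piFinset C' := by
      ext p
      simp only [Finset.mem_filter, Fintype.mem_piFinset, hC']
      constructor
      · rintro ⟨h2, h3⟩ i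
        exact ⟨h2 i, congrFun h3 i⟩
      · intro h2
        exact ⟨fun i => (h2 i).1, funext fun i => (h2 i).2⟩
    have hcU : Fintype.card ↥(S₀ ∪ W) = (S₀ ∪ W).card := Fintype.card_coe _
    have h2 := hR ↥(S₀ ∪ W) ι ks J1 (fun k (u : ↥(S₀ ∪ W)) => ex (m k) S₀ u)
      (fun u v => lam u v) (fun u l => (β l).1 u) (fun k u => (β k).2 u) hks
      (fun k u hu => by
        show ex (m k) S₀ u ≠ 0
        unfold ex
        rw [if_pos (hkuS u hu), hm k _ (hku' u hu), add_zero]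
        exact one_ne_zero)
      (fun v hv hv0 => by
        obtain ⟨u, hu⟩ := Function.ne_iff.1 hv0
        have h3 : (u : ℕ) % 3 = 1 := by
          rw [hku u]
          intro h
          exact hu (hv u h)
        have h4 := hβ.1 v ⟨u, h3, hu⟩
        have h5 : 0 < (J1.filter fun i => ∑ u ∈ univ.filter (fun u : ↥(S₀ ∪ W) => (u : ℕ) % 3 = 1),
            v u * (β i).1 u ≠ 0).card := by omega
        obtain ⟨l, hl⟩ := card_pos.1 h5
        rw [mem_filter] at hl
        refine ⟨l, hl.1, fun h => hl.2 (Eq.trans ?_ h)⟩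
        rw [sum_filter]
        refine sum_congr rfl fun u _ => ?_
        by_cases h6 : (u : ℕ) % 3 = 1
        · rw [if_pos h6]
        · rw [if_neg h6]
          have h7 : Sum.inl u = ks := by
            by_contra h8
            exact h6 ((hku u).2 h8)
          rw [hv u h7, zero_mul])
      (fun w hw => by
        obtain ⟨u, hu⟩ := Function.ne_iff.1 hw
        have h3 := hβ.2.1 w ⟨u, hu⟩
        rw [hcU]
        omega) (by rw [hcU]; have := hβ.2.2; omega) hml'
    obtain ⟨Q, hQ⟩ : ∃ Q : (prs J1 → ZMod 3) → Prop, Q = fun α =>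
        ∀ k, finrank (ZMod 3) (KS (cc ks (fun (u : ↥(S₀ ∪ W)) => ex (m k) S₀ u)
          (fun u v : ↥(S₀ ∪ W) => lam u v) (fun (u : ↥(S₀ ∪ W)) l => (β l).1 u)
          (fun k (u : ↥(S₀ ∪ W)) => (β k).2 u)
          (Pool.Agent.Y703.CX.ext α)) (Sk ι (fun (u : ↥(S₀ ∪ W)) => ex (m k) S₀ u))) = r k + 1 :=
      ⟨_, rfl⟩
    have h3 := hEQ ι J1 C' X κ hκ
      (fun i => (Finset.card_le_card (by rw [hC']; exact Finset.filter_subset _ _)).trans (hCX i))
      (by rw [hC']; exact HB_sub hHB fun i q => lb (S₀ ∪ W) q = β i) Q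
    have h4 : ((Fintype.piFinset C).filter fun p => (fun i => lb (S₀ ∪ W) (p i)) = β ∧
        GG W m r (S₀ ∪ univ.image p)) = ((Fintype.piFinset C').filter fun p =>
          Q fun e => lam (p e.1.1) (p e.1.2)) := by
      rw [← hpi, Finset.filter_filter]
      refine Finset.filter_congr fun p hp => ?_
      refine and_congr_right fun hl => ?_
      subst hl
      rw [hQ]
      unfold GG
      refine forall_congr' fun k => ?_
      have hk : ∀ i : ↥(S₀ ∪ W) ⊕ ι, vl p i % 3 = 1 ↔ i ≠ ks := by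
        intro i
        rcases i with u | l
        · exact hku u
        · rw [← hks l]
          exact hJ p hp l
      rw [(finrank_KT (J1 := J1) (hinj p hp) (hd p hp) (hm k) hk).resolve_right (not_not.2 hks)]
      exact Iff.rfl
    have h5 : (((Fintype.piFinset C').card : ℕ) : ℝ) = ∏ j, ((C' j).card : ℝ) := by
      rw [Fintype.card_piFinset]
      push_cast
      rfl
    rw [h4, hpi, h5]
    rw [← hE] at h3
    obtain ⟨n, hn⟩ : ∃ n : ℝ, n = (((Fintype.piFinset C').filter fun p =>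
          Q fun e => lam (p e.1.1) (p e.1.2)).card : ℝ) := ⟨_, rfl⟩
    obtain ⟨q, hq⟩ : ∃ q : ℝ, q = ((univ.filter Q).card : ℝ) / 3 ^ (prs J1).card := ⟨_, rfl⟩
    obtain ⟨P, hP⟩ : ∃ P : ℝ, P = ∏ j, ((C' j).card : ℝ) := ⟨_, rfl⟩
    have hP0 : 0 ≤ P := by
      rw [hP]
      exact Finset.prod_nonneg fun j _ => by positivity
    have h2' : |q - c| ≤ δ := by
      rw [hq, hQ, hc]
      refine le_trans (le_of_eq ?_) h2
      rw [fcc2]
    rw [← hn, ← hq, ← hP] at h3
    rw [← hn, ← hP]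
    have h6 : |n - c * P| ≤ |n - q * P| + |q - c| * P := by
      have h7 : n - c * P = (n - q * P) + (q - c) * P := by ring
      have h8 : |(q - c) * P| = |q - c| * P := by rw [abs_mul, abs_of_nonneg hP0]
      rw [h7, ← h8]
      exact abs_add_le _ _
    have h7 : |q - c| * P ≤ δ * P := mul_le_mul_of_nonneg_right h2' hP0
    linarith
  -- sum over the labels
  obtain ⟨LL, hLL⟩ : ∃ LL : Finset (ι → (↥(S₀ ∪ W) → ZMod 3) × (↥(S₀ ∪ W) → ZMod 3)),
    LL = univ.filter (fun β => LN R' (S₀ ∪ W) J1 β) := ⟨_, rfl⟩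
  have hfib : ∀ T : (ι → ℕ) → Prop,
      (((Fintype.piFinset C).filter fun p => NdM R' W S₀ (univ.image p) ∧ T p).card : ℝ) =
      ∑ β ∈ LL, (((Fintype.piFinset C).filter fun p =>
        (fun i => lb (S₀ ∪ W) (p i)) = β ∧ T p).card : ℝ) := by
    intro T
    rw [Finset.card_eq_sum_card_fiberwise (f := fun (p : ι → ℕ) (i : ι) => lb (S₀ ∪ W) (p i))
      (t := LL) (by
        intro p hp
        rw [Finset.mem_coe, Finset.mem_filter] at hp
        rw [Finset.mem_coe, hLL, Finset.mem_filter]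
        exact ⟨Finset.mem_univ _, (ndM_iff (hinj p hp.1) (hJ p hp.1)).1 hp.2.1⟩)]
    push_cast
    refine Finset.sum_congr rfl fun β hβ => ?_
    rw [hLL, Finset.mem_filter] at hβ
    congr 2
    ext p
    simp only [Finset.mem_filter]
    constructor
    · rintro ⟨⟨h3, h4, h4'⟩, h5⟩
      exact ⟨h3, h5, h4'⟩
    · rintro ⟨h3, h4, h5⟩
      refine ⟨⟨h3, ?_, h5⟩, h4⟩
      rw [ndM_iff (hinj p h3) (hJ p h3), h4]
      exact hβ.2
  have hf1 := hfib fun p => GG W m r (S₀ ∪ univ.image p)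
  have hf2 := hfib fun _ => True
  simp only [and_true] at hf2
  rw [hf1, hf2, Finset.mul_sum, ← Finset.sum_sub_distrib, ← hc]
  refine (Finset.abs_sum_le_sum_abs _ _).trans ?_
  refine (Finset.sum_le_sum fun β hβ => h1 β (by
    rw [hLL] at hβ
    exact (Finset.mem_filter.1 hβ).2)).trans ?_
  rw [Finset.sum_add_distrib, ← Finset.mul_sum, Finset.sum_const, nsmul_eq_mul]
  have h5 : ((LL.card : ℕ) : ℝ) ≤ 3 ^ (2 * (S₀ ∪ W).card * Fintype.card ι) := by
    have h6 : LL.card ≤ Fintype.card (ι → (↥(S₀ ∪ W) → ZMod 3) × (↥(S₀ ∪ W) → ZMod 3)) :=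
      Finset.card_le_univ _
    rw [Fintype.card_fun, Fintype.card_prod, Fintype.card_fun, ZMod.card, Fintype.card_coe,
      ← pow_add, ← two_mul, ← pow_mul] at h6
    exact_mod_cast h6
  have h6 := mul_le_mul_of_nonneg_right h5 hE0
  rw [pow_add, mul_assoc, ← hE]
  linarith

end Q283.Q3
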