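import Pool.Agent.Q283.Q3.Lnq
import Pool.Agent.Q283.MC.Cf
import Pool.Agent.Q283.MC.Ind

/-! The joint law over `ℚ` for multipliers that are not cube-free -/

set_option autoImplicit false

open scoped Classical

namespace Q283.Q3N

open Finset Module Filter
open Pool.Agent.Y703.CX (lam LamP SS Cl c3)
open Pool.Agent.Y703.CT (Cls NoSplit Base Triv3 fin_all)
open Pool.Agent.Y710.CX (card_eq cls_iff)
open Q283.Q3 (KT mem_KT ex AV mem_SS cq cq_zero low_V)
open Q283.Q3A (rv law_S meas_A finrank_ge ex_ne)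
open Q283.TQ (Bs)
open Q283.MC (exists_cf cf_bs)

/-- `1` modulo `9`, all prime divisors `1` modulo `3` -/
def Mul3 (R : ℕ) : Prop := R % 9 = 1 ∧ ∀ p : ℕ, p.Prime → p ∣ R → p % 3 = 1

theorem Mul3.ne {R : ℕ} (h : Mul3 R) : R ≠ 0 := by
  rintro rfl
  have := h.1
  omega

/-- the cube-free part of `n` is in the class and does not split -/
def G3 (n : ℕ) : Prop := ∃ N c : ℕ, n = N * c ^ 3 ∧ Cls N ∧ NoSplit N

theorem fe_mul {a b : ℕ} (ha : a ≠ 0) (hb : b ≠ 0) (p : ℕ) : fe (a * b) p = fe a p + fe b p := by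
  unfold fe
  rw [Nat.factorization_mul ha hb, Finsupp.add_apply, Nat.cast_add]

theorem fe_pow {a : ℕ} (n p : ℕ) : fe (a ^ n) p = n * fe a p := by
  unfold fe
  rw [Nat.factorization_pow, Finsupp.smul_apply, smul_eq_mul, Nat.cast_mul]

theorem fe_cube (a p : ℕ) : fe (a ^ 3) p = 0 := by
  rw [fe_pow]
  have : ((3 : ℕ) : ZMod 3) = 0 := by decide
  rw [this, zero_mul]

theorem fe_one (p : ℕ) : fe 1 p = 0 := by
  unfold fe
  rw [Nat.factorization_one, Finsupp.zero_apply, Nat.cast_zero]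

theorem fe_prod {k : ℕ} (d : Fin k → ℕ) (hd : ∀ j, d j ≠ 0) (e : Fin k → ZMod 3) (p : ℕ) :
    fe (∏ j, d j ^ (e j).val) p = ∑ j, e j * fe (d j) p := by
  have key : ∀ s : Finset (Fin k), fe (∏ j ∈ s, d j ^ (e j).val) p = ∑ j ∈ s, e j * fe (d j) p := by
    intro s
    induction s using Finset.induction_on with
    | empty => rw [prod_empty, sum_empty, fe_one]
    | insert a s ha ih =>
      rw [prod_insert ha, sum_insert ha, fe_mul (pow_ne_zero _ (hd a))
        (prod_ne_zero_iff.2 fun j _ => pow_ne_zero _ (hd j)), ih, fe_pow, ZMod.natCast_zmod_val]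
  exact key univ

theorem cube_of_fe {n : ℕ} (hn : n ≠ 0) (h : ∀ p, fe n p = 0) : ∃ c : ℕ, n = c ^ 3 := by
  obtain ⟨D, c, h1, h2⟩ := exists_cf n hn
  have hD : D ≠ 0 := by
    rintro rfl
    rw [zero_mul] at h1
    exact hn h1
  have hc : c ≠ 0 := by
    rintro rfl
    rw [zero_pow (by norm_num), mul_zero] at h1
    exact hn h1
  have h3 : D = 1 := by
    by_contra hne
    obtain ⟨p, hp, hpD⟩ := Nat.exists_prime_and_dvd hne
    have h4 := h p
    rw [h1, fe_mul hD (pow_ne_zero 3 hc), fe_cube, add_zero] at h4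
    unfold fe at h4
    have h5 := (hp.dvd_iff_one_le_factorization hD).1 hpD
    have h6 : D.factorization p < 3 := by
      by_contra h7
      exact h2 p hp ((pow_dvd_pow p (by omega)).trans (Nat.ordProj_dvd D p))
    generalize D.factorization p = a at *
    interval_cases a <;> exact absurd h4 (by decide)
  exact ⟨c, by rw [h1, h3, one_mul]⟩

/-- the criterion for the cube-free part -/
theorem ns_gen (h : LamP) {D m N c : ℕ} (hD : Squarefree D) (hm : m ≠ 0) (hC : Cls N)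
    (hN : D * m = N * c ^ 3) {W : Finset ℕ} (hW : m.primeFactors ⊆ W) :
    finrank (ZMod 3) (KT (D.primeFactors ∪ W) (ex (fe m) D.primeFactors)) = 1 ↔ NoSplit N := by
  have hb := hC.1
  have hc : c ≠ 0 := by
    rintro rfl
    rw [zero_pow (by norm_num), mul_zero] at hN
    exact mul_ne_zero hD.ne_zero hm hN
  obtain ⟨q, hq, -, hqD, -⟩ := hC.2.2.2
  have hqm : q ∈ N.primeFactors := Nat.mem_primeFactors.2 ⟨hq, hqD, hb.1⟩
  have he : ex (fe m) D.primeFactors = fe N := by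
    rw [ex_fe hD hm, hN]
    funext p
    rw [fe_mul hb.1 (pow_ne_zero 3 hc), fe_cube, add_zero]
  rw [he]
  have hsub : ∀ p, fe N p ≠ 0 → (p ∈ D.primeFactors ∪ W ↔ p ∈ N.primeFactors) := by
    intro p hp
    rw [fe_ne hb] at hp
    refine ⟨fun _ => hp, fun _ => ?_⟩
    have h1 : p ∈ (D * m).primeFactors := by
      rw [hN]
      exact Nat.primeFactors_mono (dvd_mul_right _ _) (mul_ne_zero hb.1 (pow_ne_zero 3 hc)) hp
    rw [Nat.primeFactors_mul hD.ne_zero hm, mem_union] at h1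
    exact mem_union.2 (h1.imp id fun h => hW h)
  have hqe : fe N q ≠ 0 := (fe_ne hb).2 hqm
  rw [rk_iff ⟨q, (hsub q hqe).2 hqm, hqe⟩, gx_congr hsub]
  exact ⟨nosplit_of_gx h hb ⟨q, hqm⟩, gx_of_nosplit h hb⟩

/-- the cube-free part is in the class -/
theorem exists_cls {D R : ℕ} (hC : Cls D) (hR : Mul3 R) :
    ∃ N c : ℕ, D * R = N * c ^ 3 ∧ Cls N := by
  obtain ⟨N, c, h1, h2, h3, -⟩ := cf_bs (N := D) (R := R) ⟨hC.1, hC.2.2.2⟩ hR.ne hR.2
  have h9 : N % 9 = D % 9 := by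
    rw [h3, Nat.mul_mod, hR.1, mul_one, Nat.mod_mod]
  exact ⟨N, c, h1, h2.1, by rw [h9]; exact hC.2.1, by rw [h9]; exact hC.2.2.1, h2.2⟩

theorem g3_iff {D R : ℕ} (hD : Squarefree D) (hC : Cls D) (hR : Mul3 R) {W : Finset ℕ}
    (hW : R.primeFactors ⊆ W) :
    G3 (D * R) ↔ finrank (ZMod 3) (KT (D.primeFactors ∪ W) (ex (fe R) D.primeFactors)) = 1 := by
  have hl := Pool.Agent.Y333.CX.t_LAM
  constructor
  · rintro ⟨N, c, h1, h2, h3⟩
    exact (ns_gen hl hD hR.ne h2 h1 hW).2 h3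
  · intro h
    obtain ⟨N, c, h1, h2⟩ := exists_cls hC hR
    exact ⟨N, c, h1, h2, (ns_gen hl hD hR.ne h2 h1 hW).1 h⟩

theorem mem_WW' {M : ℕ} {m : Fin M → ℕ} (hm : ∀ k, Mul3 (m k)) {u : ℕ} (hu : u ∈ WW m) :
    u.Prime ∧ u % 3 = 1 := by
  unfold WW at hu
  rw [mem_biUnion] at hu
  obtain ⟨k, -, hk⟩ := hu
  have hp := Nat.prime_of_mem_primeFactors hk
  exact ⟨hp, (hm k).2 u hp (Nat.dvd_of_mem_primeFactors hk)⟩

/-- **The joint law for general multipliers.** -/
theorem law_R {M : ℕ} (R : Fin M → ℕ) (hR : ∀ k, Mul3 (R k))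
    (hne : ∀ k l, k ≠ l → fe (R k) ≠ fe (R l)) (A : Finset (Fin M)) :
    Tendsto (fun X : ℕ =>
      (((SN X).filter fun D => ∀ k, G3 (D * R k) ↔ k ∈ A).card : ℝ) / ((SN X).card : ℝ))
      atTop (nhds (c3 ^ A.card * (1 - c3) ^ (M - A.card))) := by
  have h := law_S ∅ (WW R) (empty_subset _) (fun k => fe (R k))
    (fun u hu => mem_WW' hR hu) (fun k u hu => fe_WW R k u hu)
    (fun k l hkl he => hne k l hkl he) {r | ∀ k, (r k = 0 ↔ k ∈ A)}
  have h2 := meas_A A
  rw [cq_zero] at h2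
  rw [h2] at h
  refine h.congr fun X => ?_
  have e1 := SN_card X (fun D => ∀ k, G3 (D * R k) ↔ k ∈ A)
    (fun S => AV ∅ S ∧ rv (WW R) (fun k => fe (R k)) S ∈ {r : Fin M → ℕ | ∀ k, (r k = 0 ↔ k ∈ A)})
    fun D hD hcl => by
      show (_ ↔ AV ∅ D.primeFactors ∧ ∀ k, (rv (WW R) (fun k => fe (R k)) D.primeFactors k = 0 ↔ k ∈ A))
      rw [and_iff_right (show AV ∅ D.primeFactors from disjoint_empty_right _)]
      refine forall_congr' fun k => ?_
      have hC : Cls D := (cls_iff hD).2 hcl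
      rw [g3_iff hD hC (hR k) (sub_WW R k)]
      have hge := finrank_ge (ex_ne (W := WW R) (fun u hu => mem_WW' hR hu) (fe_WW R k) hcl)
      unfold rv
      have e : finrank (ZMod 3) (KT (D.primeFactors ∪ WW R) (ex (fe (R k)) D.primeFactors)) = 1 ↔
          finrank (ZMod 3) (KT (D.primeFactors ∪ WW R) (ex (fe (R k)) D.primeFactors)) - 1 = 0 := by
        omega
      rw [e]
  have e2 : (SN X).card = ((SS X).filter (AV ∅)).card := by
    rw [SN_card', filter_true_of_mem fun S _ => show AV ∅ S from disjoint_empty_right _]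
  rw [e2]
  exact congrArg₂ (fun a b : ℕ => (a : ℝ) / (b : ℝ)) ((Q283.T3.fcc2 _ _).trans (e1.symm.trans
    (Q283.T3.fcc2 _ _))) rfl

/-- the law for all members of a finite family -/
theorem law_fam {ι : Type} [Fintype ι] (R : ι → ℕ) (hR : ∀ i, Mul3 (R i))
    (hne : ∀ i j, i ≠ j → fe (R i) ≠ fe (R j)) :
    Tendsto (fun X : ℕ =>
      (((SN X).filter fun D => ∀ i, G3 (D * R i)).card : ℝ) / ((SN X).card : ℝ))
      atTop (nhds (c3 ^ Fintype.card ι)) := by
  set E := Fintype.equivFin ι with hE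
  have h := law_R (fun k => R (E.symm k)) (fun k => hR _)
    (fun k l hkl => hne _ _ fun h => hkl (E.symm.injective h)) univ
  rw [card_univ, Fintype.card_fin, Nat.sub_self, pow_zero, mul_one] at h
  refine h.congr fun X => ?_
  congr 2
  refine Pool.Agent.XLK.fcc fun D _ => ?_
  constructor
  · intro h i
    have := (h (E i)).2 (mem_univ _)
    rwa [Equiv.symm_apply_apply] at this
  · exact fun h k => ⟨fun _ => mem_univ _, fun _ => h _⟩

/-- the products of the powers are multipliers -/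
theorem mul3_prod {k : ℕ} {d : Fin k → ℕ} (hd : ∀ j, Mul3 (d j)) (e : Fin k → ZMod 3) :
    Mul3 (∏ j, d j ^ (e j).val) := by
  refine ⟨Q283.MC.mod_prod _ _ _ fun j => (hd j).1, fun p hp h => ?_⟩
  obtain ⟨j, -, hj⟩ := (hp.prime.dvd_finsetProd_iff _).1 h
  exact (hd j).2 p hp (hp.dvd_of_dvd_pow hj)

theorem fe_ne_of_ind {k : ℕ} {d : Fin k → ℕ} (hd : ∀ j, Mul3 (d j))
    (hind : Q283.MC.Ind d) {e e' : Fin k → ZMod 3} (hne : e ≠ e') :
    fe (∏ j, d j ^ (e j).val) ≠ fe (∏ j, d j ^ (e' j).val) := by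
  intro h
  have hd0 : ∀ j, d j ≠ 0 := fun j => (hd j).ne
  have h1 : ∀ p, fe (∏ j, d j ^ ((e - e') j).val) p = 0 := by
    intro p
    rw [fe_prod d hd0]
    have h2 := congrFun h p
    rw [fe_prod d hd0, fe_prod d hd0] at h2
    simp only [Pi.sub_apply, sub_mul]
    rw [sum_sub_distrib, h2, sub_self]
  obtain ⟨c, hc⟩ := cube_of_fe (prod_ne_zero_iff.2 fun j _ => pow_ne_zero _ (hd0 j)) h1
  exact hind (e - e') (sub_ne_zero.2 hne) c hc

end Q283.Q3N
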