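import Pool.Agent.Q283.Q3.Lq

/-! The linear algebra over `ℚ`: the law of the coranks of several systems with a common random
part, continued -/

set_option autoImplicit false
set_option linter.unusedSectionVars false

open scoped Classical

namespace Q283.Q3

open Finset Module
open Q283.T3 (row row_apply KS mem_KS dg Sk mem_Sk_inl mem_Sk_inr W0 mem_W0 finrank_W0 fcc2)
open Pool.Agent.Y703.CX (prs)

section main
variable {U J : Type} [Fintype U] [Fintype J] {ks : U ⊕ J} {e e' : U → ZMod 3}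
  {A : U → U → ZMod 3} {B : U → J → ZMod 3} {C : J → U → ZMod 3} {J1 : Finset J}

/-- the fixed part of the map of a mask -/
noncomputable def B0 (ks : U ⊕ J) (e : U → ZMod 3) (A : U → U → ZMod 3) (B : U → J → ZMod 3)
    (C : J → U → ZMod 3) : (U ⊕ J → ZMod 3) →ₗ[ZMod 3] (U ⊕ J → ZMod 3) :=
  Lq (cc ks e A B C 0) (dg (Sk J e) ks)

theorem row_inr (k : J) (hk : Sum.inr k ≠ ks) (x : U ⊕ J → ZMod 3) :
    ∑ i, cc ks e A B C 0 (Sum.inr k) i * (x i - x (Sum.inr k)) =
      ∑ u, e u * C k u * (x (Sum.inl u) - x (Sum.inr k)) := by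
  rw [Fintype.sum_sum_type]
  have h : ∑ l : J, cc ks e A B C 0 (Sum.inr k) (Sum.inr l) * (x (Sum.inr l) - x (Sum.inr k)) = 0 :=
    sum_eq_zero fun l _ => by
      unfold cc
      rw [if_neg hk]
      simp only [c0, Pi.zero_apply, zero_mul]
  rw [h, add_zero]
  refine sum_congr rfl fun u _ => ?_
  unfold cc
  rw [if_neg hk]
  rfl

theorem dg_inr (k : J) (hk : Sum.inr k ≠ ks) : dg (Sk J e) ks (Sum.inr k : U ⊕ J) = 0 := by
  unfold dg
  rw [if_neg]
  rintro (h | h)
  · exact h mem_Sk_inr
  · exact hk h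

theorem dg_ks : dg (Sk J e) ks ks = 1 := by
  unfold dg
  rw [if_pos (Or.inr rfl)]

theorem dg_out {i : U ⊕ J} (h : i ∉ Sk J e) : dg (Sk J e) ks i = 1 := by
  unfold dg
  rw [if_pos (Or.inl h)]

theorem B0_apply (x : U ⊕ J → ZMod 3) (i : U ⊕ J) : B0 ks e A B C x i =
    ∑ j, cc ks e A B C 0 i j * (x j - x i) + dg (Sk J e) ks i * x i := Lq_apply _ _ _ _

theorem nd_B0 (hks : ∀ l, l ∈ J1 ↔ Sum.inr l ≠ ks) (hJ : J1.Nonempty)
    (he : ∀ u, Sum.inl u = ks → e u ≠ 0)
    (hC : ∀ w : U → ZMod 3, w ≠ 0 → ∃ k ∈ J1, ∑ u, w u * C k u ≠ 0) :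
    Nd (B0 ks e A B C) (W0 U J) := by
  intro w hw h0
  have h1 : ∀ i, ∑ j, cc ks e A B C 0 i j * (w j - w i) + dg (Sk J e) ks i * w i = 0 := by
    intro i
    rw [← B0_apply, h0]
    rfl
  obtain ⟨k₀, hk₀⟩ := hJ
  have h2 : w ks = 0 := by
    have h3 := h1 ks
    rw [sum_eq_zero fun j _ => by rw [cc_ks, zero_mul], zero_add, dg_ks, one_mul] at h3
    exact h3
  have h3 : (fun u => e u * (w (Sum.inl u) - w (Sum.inr k₀))) = 0 := by
    by_contra hne
    obtain ⟨k, hk, h4⟩ := hC _ hne
    have h5 := h1 (Sum.inr k)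
    rw [row_inr k ((hks k).1 hk), dg_inr k ((hks k).1 hk), zero_mul, add_zero, hw k k₀] at h5
    refine h4 (Eq.trans ?_ h5)
    exact sum_congr rfl fun u _ => by ring
  have h4 : w (Sum.inr k₀) = 0 := by
    rcases hh : ks with u | l
    · have h5 : e u * (w (Sum.inl u) - w (Sum.inr k₀)) = 0 := congrFun h3 u
      have h6 := (mul_eq_zero.1 h5).resolve_left (he u hh.symm)
      rw [← hh, h2, zero_sub, neg_eq_zero] at h6
      exact h6
    · rw [hw k₀ l, ← hh, h2]
  funext i
  rw [Pi.zero_apply]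
  rcases i with u | j
  · by_cases hu : e u = 0
    · have h6 : (Sum.inl u : U ⊕ J) ∉ Sk J e := by rw [mem_Sk_inl, not_not]; exact hu
      have h5 := h1 (Sum.inl u)
      rw [sum_eq_zero fun i _ => by rw [cc_zero _ _ h6, zero_mul], zero_add, dg_out h6, one_mul] at h5
      exact h5
    · have h6 : e u * (w (Sum.inl u) - w (Sum.inr k₀)) = 0 := congrFun h3 u
      rw [h4, sub_zero] at h6
      exact (mul_eq_zero.1 h6).resolve_left hu
  · rw [hw j k₀, h4]

/-- the rows outside of the random part -/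
def Cr (J1 : Finset J) : Set (U ⊕ J) := {i | ∀ k ∈ J1, i ≠ Sum.inr k}

theorem finrank_comap (hks : ∀ l, l ∈ J1 ↔ Sum.inr l ≠ ks)
    (hB : ∀ v : U → ZMod 3, (∀ u, Sum.inl u = ks → v u = 0) → v ≠ 0 →
      ∃ l ∈ J1, ∑ u, v u * B u l ≠ 0) :
    finrank (ZMod 3) ((RZ U J1).comap (B0 ks e A B C)) = J1.card := by
  let P : (U ⊕ J → ZMod 3) →ₗ[ZMod 3] ((Cr (U := U) J1) → ZMod 3) :=
    { toFun := fun y i => y i
      map_add' := fun x y => rfl
      map_smul' := fun a x => rfl }
  have hker : (RZ U J1).comap (B0 ks e A B C) = LinearMap.ker (P.comp (B0 ks e A B C)) := by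
    ext x
    rw [Submodule.mem_comap, LinearMap.mem_ker, mem_RZ]
    constructor
    · intro h
      funext i
      exact h i i.2
    · intro h i hi
      exact congrFun h ⟨i, hi⟩
  have hsurj : LinearMap.range (P.comp (B0 ks e A B C)) = ⊤ := by
    by_contra hne
    obtain ⟨f, hf0, hf⟩ := Submodule.exists_le_ker_of_lt_top _ (lt_top_iff_ne_top.2 hne)
    set v : Cr (U := U) J1 → ZMod 3 := fun i => f (Pi.single i 1) with hv
    have hfv : ∀ y, f y = ∑ i, y i * v i := by
      intro y
      conv_lhs => rw [← Finset.univ_sum_single y]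
      rw [map_sum]
      refine sum_congr rfl fun i _ => ?_
      rw [hv]
      show f (Pi.single i (y i)) = y i * f (Pi.single i 1)
      rw [← smul_eq_mul, ← map_smul, ← Pi.single_smul', smul_eq_mul, mul_one]
    have hx : ∀ x : U ⊕ J → ZMod 3, ∑ i : Cr (U := U) J1, B0 ks e A B C x i * v i = 0 := by
      intro x
      have h1 : f (P.comp (B0 ks e A B C) x) = 0 := hf ⟨x, rfl⟩
      rw [hfv] at h1
      exact h1
    have hin : ∀ u : U, (Sum.inl u : U ⊕ J) ∈ Cr (U := U) J1 := fun u k _ => by simp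
    -- the large columns
    have h1 : (fun u => if Sum.inl u = ks then 0 else e u * v ⟨Sum.inl u, hin u⟩) = 0 := by
      by_contra h2
      obtain ⟨l, hl, h3⟩ := hB _ (fun u hu => if_pos hu) h2
      apply h3
      have hlk := (hks l).1 hl
      have h4 := hx (Pi.single (Sum.inr l) 1)
      have h5 : ∀ i : Cr (U := U) J1, B0 ks e A B C (Pi.single (Sum.inr l) 1) i =
          cc ks e A B C 0 i (Sum.inr l) := by
        rintro ⟨i, hi⟩
        have hne : i ≠ Sum.inr l := hi l hl
        show B0 ks e A B C (Pi.single (Sum.inr l) 1) i = cc ks e A B C 0 i (Sum.inr l)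
        rw [B0_apply, Pi.single_eq_of_ne hne, mul_zero, add_zero, sum_eq_single (Sum.inr l)]
        · rw [Pi.single_eq_same, sub_zero, mul_one]
        · intro j _ hj
          rw [Pi.single_eq_of_ne hj, sub_zero, mul_zero]
        · intro h
          exact absurd (mem_univ _) h
      rw [sum_congr rfl fun i _ => by rw [h5 i]] at h4
      refine Eq.trans ?_ h4
      refine sum_bij_ne_zero (fun u _ _ => ⟨Sum.inl u, hin u⟩) (fun _ _ _ => mem_univ _)
        (fun u _ _ u' _ _ h => Sum.inl_injective (congrArg Subtype.val h)) ?_ ?_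
      · rintro ⟨i, hi⟩ _ hne
        rcases i with u | j
        · refine ⟨u, mem_univ _, ?_, rfl⟩
          intro h6
          apply hne
          show cc ks e A B C 0 (Sum.inl u) (Sum.inr l) * v ⟨Sum.inl u, hin u⟩ = 0
          rw [← h6]
          unfold cc
          by_cases h7 : (Sum.inl u : U ⊕ J) = ks
          · rw [if_pos h7, if_pos h7, zero_mul, zero_mul]
          · rw [if_neg h7, if_neg h7]
            simp only [c0]
            ring
        · exfalso
          apply hne
          have h6 : (Sum.inr j : U ⊕ J) = ks := by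
            by_contra h7
            exact hi j ((hks j).2 h7) rfl
          have h7 : cc ks e A B C 0 (Sum.inr j) (Sum.inr l) = 0 := by rw [h6, cc_ks]
          show cc ks e A B C 0 (Sum.inr j) (Sum.inr l) * _ = 0
          rw [h7, zero_mul]
      · intro u _ _
        show (if Sum.inl u = ks then 0 else e u * v ⟨Sum.inl u, hin u⟩) * B u l =
          cc ks e A B C 0 (Sum.inl u) (Sum.inr l) * v ⟨Sum.inl u, hin u⟩
        unfold cc
        by_cases h7 : (Sum.inl u : U ⊕ J) = ks
        · rw [if_pos h7, if_pos h7, zero_mul, zero_mul]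
        · rw [if_neg h7, if_neg h7]
          simp only [c0]
          ring
    -- the diagonal
    have h2 : ∀ i : Cr (U := U) J1, (i : U ⊕ J) ≠ ks → v i = 0 := by
      rintro ⟨i, hi⟩ hne
      rcases i with u | j
      · by_cases hu : e u = 0
        · have h6 : (Sum.inl u : U ⊕ J) ∉ Sk J e := by rw [mem_Sk_inl, not_not]; exact hu
          have h4 := hx (Pi.single (Sum.inl u) 1)
          rw [sum_eq_single ⟨Sum.inl u, hi⟩] at h4
          · have h5 : B0 ks e A B C (Pi.single (Sum.inl u) 1) (Sum.inl u) = 1 := by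
              rw [B0_apply, Pi.single_eq_same, mul_one, dg_out h6,
                sum_eq_zero fun j _ => by rw [cc_zero _ _ h6, zero_mul], zero_add]
            have h7 : B0 ks e A B C (Pi.single (Sum.inl u) 1)
              ((⟨Sum.inl u, hi⟩ : Cr (U := U) J1) : U ⊕ J) = 1 := h5
            rw [h7, one_mul] at h4
            exact h4
          · rintro ⟨j, hj⟩ _ hji
            have hji' : j ≠ Sum.inl u := fun h => hji (Subtype.ext h)
            have h5 : B0 ks e A B C (Pi.single (Sum.inl u) 1) j = 0 := by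
              rw [B0_apply, Pi.single_eq_of_ne hji', mul_zero, add_zero]
              refine sum_eq_zero fun i _ => ?_
              by_cases h8 : i = Sum.inl u
              · rw [h8, cc_zero' _ _ h6, zero_mul]
              · rw [Pi.single_eq_of_ne h8, sub_zero, mul_zero]
            show B0 ks e A B C (Pi.single (Sum.inl u) 1) j * v ⟨j, hj⟩ = 0
            rw [h5, zero_mul]
          · intro h
            exact absurd (mem_univ _) h
        · have h3 := congrFun h1 u
          simp only [Pi.zero_apply] at h3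
          rw [if_neg hne] at h3
          exact (mul_eq_zero.1 h3).resolve_left hu
      · exfalso
        exact hi j ((hks j).2 hne) rfl
    have hks' : ks ∈ Cr (U := U) J1 := fun k hk h => (hks k).1 hk h.symm
    have h3 : v ⟨ks, hks'⟩ = 0 := by
      have h4 := hx (Pi.single ks 1)
      rw [sum_eq_single ⟨ks, hks'⟩] at h4
      · have h5 : B0 ks e A B C (Pi.single ks 1) ((⟨ks, hks'⟩ : Cr (U := U) J1) : U ⊕ J) = 1 := by
          show B0 ks e A B C (Pi.single ks 1) ks = 1
          rw [B0_apply, Pi.single_eq_same, mul_one, dg_ks,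
            sum_eq_zero fun j _ => by rw [cc_ks, zero_mul], zero_add]
        rw [h5, one_mul] at h4
        exact h4
      · rintro ⟨j, hj⟩ _ hji
        rw [h2 ⟨j, hj⟩ fun h => hji (Subtype.ext h), mul_zero]
      · intro h
        exact absurd (mem_univ _) h
    apply hf0
    refine LinearMap.ext fun y => ?_
    rw [hfv, LinearMap.zero_apply]
    refine sum_eq_zero fun i _ => ?_
    by_cases h : (i : U ⊕ J) = ks
    · have h4 : i = ⟨ks, hks'⟩ := Subtype.ext h
      rw [h4, h3, mul_zero]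
    · rw [h2 i h, mul_zero]
  have h1 := LinearMap.finrank_range_add_finrank_ker (P.comp (B0 ks e A B C))
  rw [← hker, hsurj, finrank_top, finrank_fintype_fun_eq_card, finrank_fintype_fun_eq_card] at h1
  -- the same for the coordinates
  have h2 := LinearMap.finrank_range_add_finrank_ker P
  have h3 : LinearMap.range P = ⊤ := by
    rw [LinearMap.range_eq_top]
    intro y
    refine ⟨fun i => if h : i ∈ Cr (U := U) J1 then y ⟨i, h⟩ else 0, ?_⟩
    funext i
    show (if h : (i : U ⊕ J) ∈ Cr (U := U) J1 then y ⟨i, h⟩ else 0) = y i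
    rw [dif_pos i.2]
  have h4 : LinearMap.ker P = RZ U J1 := by
    ext x
    rw [LinearMap.mem_ker, mem_RZ]
    constructor
    · intro h i hi
      exact congrFun h ⟨i, hi⟩
    · intro h
      funext i
      exact h i i.2
  rw [h3, h4, finrank_top, finrank_fintype_fun_eq_card, finrank_fintype_fun_eq_card,
    finrank_RZ] at h2
  omega

/-- the space of the functions on which the maps of two masks agree -/
def NN (e e' : U → ZMod 3) (C : J → U → ZMod 3) (J1 : Finset J) :
    Submodule (ZMod 3) (U ⊕ J → ZMod 3) where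
  carrier := {x | ∀ k ∈ J1, ∑ u, (e u - e' u) * C k u * (x (Sum.inl u) - x (Sum.inr k)) = 0}
  add_mem' := by
    intro x y hx hy j hj
    have h5 : ∑ u, (e u - e' u) * C j u * ((x + y) (Sum.inl u) - (x + y) (Sum.inr j)) =
        ∑ u, (e u - e' u) * C j u * (x (Sum.inl u) - x (Sum.inr j)) +
        ∑ u, (e u - e' u) * C j u * (y (Sum.inl u) - y (Sum.inr j)) := by
      rw [← sum_add_distrib]
      exact sum_congr rfl fun j _ => by simp only [Pi.add_apply]; ring
    rw [h5, hx j hj, hy j hj, add_zero]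
  zero_mem' := fun j _ => by simp
  smul_mem' := by
    intro a x hx j hj
    have h5 : ∑ u, (e u - e' u) * C j u * ((a • x) (Sum.inl u) - (a • x) (Sum.inr j)) =
        a * ∑ u, (e u - e' u) * C j u * (x (Sum.inl u) - x (Sum.inr j)) := by
      rw [mul_sum]
      exact sum_congr rfl fun j _ => by simp only [Pi.smul_apply, smul_eq_mul]; ring
    rw [h5, hx j hj, mul_zero]

theorem finrank_NN (e e' : U → ZMod 3) (C : J → U → ZMod 3) (J1 : Finset J) :
    finrank (ZMod 3) (NN e e' C J1) ≤
    Fintype.card U + (univ.filter fun k => ¬ (k ∈ J1 ∧ ∑ u, (e u - e' u) * C k u ≠ 0)).card := by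
  set S : Finset J := univ.filter fun k => ¬ (k ∈ J1 ∧ ∑ u, (e u - e' u) * C k u ≠ 0) with hS
  let g : NN e e' C J1 →ₗ[ZMod 3] (U → ZMod 3) × (S → ZMod 3) :=
    { toFun := fun x => (fun u => (x : U ⊕ J → ZMod 3) (Sum.inl u), fun j => (x : U ⊕ J → ZMod 3) (Sum.inr j))
      map_add' := fun x y => rfl
      map_smul' := fun a x => rfl }
  have hg : Function.Injective g := by
    rw [← LinearMap.ker_eq_bot, LinearMap.ker_eq_bot']
    rintro ⟨x, hx⟩ h
    apply Subtype.ext
    have h1 : ∀ u, x (Sum.inl u) = 0 := fun u => congrFun (congrArg Prod.fst h) u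
    have h2 : ∀ j : S, x (Sum.inr j) = 0 := fun j => congrFun (congrArg Prod.snd h) j
    funext i
    rcases i with u | j
    · exact h1 u
    · show x (Sum.inr j) = 0
      by_cases hj : j ∈ S
      · exact h2 ⟨j, hj⟩
      · rw [hS, mem_filter, not_and, not_not] at hj
        obtain ⟨hj1, hj2⟩ := hj (mem_univ _)
        have h3 := hx j hj1
        have h4 : ∑ u, (e u - e' u) * C j u * (x (Sum.inl u) - x (Sum.inr j)) =
            -(x (Sum.inr j)) * ∑ u, (e u - e' u) * C j u := by
          rw [mul_sum]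
          exact sum_congr rfl fun u _ => by rw [h1]; ring
        rw [h4] at h3
        exact neg_eq_zero.1 ((mul_eq_zero.1 h3).resolve_right hj2)
  have h1 := LinearMap.finrank_le_finrank_of_injective hg
  rwa [finrank_prod, finrank_fintype_fun_eq_card, finrank_fintype_fun_eq_card,
    Fintype.card_coe] at h1

theorem finrank_JJ0 (hks : ∀ l, l ∈ J1 ↔ Sum.inr l ≠ ks) (k₀ : J) :
    finrank (ZMod 3) (JJ (B0 ks e A B C) (B0 ks e' A B C) (W0 U J) (RZ U J1)) ≤
    Fintype.card U + 1 + (Fintype.card U +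
      (univ.filter fun k => ¬ (k ∈ J1 ∧ ∑ u, (e u - e' u) * C k u ≠ 0)).card) := by
  set J' := JJ (B0 ks e A B C) (B0 ks e' A B C) (W0 U J) (RZ U J1) with hJ'
  let g : J' →ₗ[ZMod 3] W0 U J :=
    { toFun := fun p => ⟨(p : (U ⊕ J → ZMod 3) × (U ⊕ J → ZMod 3)).1 - (p : (U ⊕ J → ZMod 3) × (U ⊕ J → ZMod 3)).2, p.2.1⟩
      map_add' := fun p q => by
        apply Subtype.ext
        show (p : (U ⊕ J → ZMod 3) × (U ⊕ J → ZMod 3)).1 + (q : (U ⊕ J → ZMod 3) × (U ⊕ J → ZMod 3)).1 -
          ((p : (U ⊕ J → ZMod 3) × (U ⊕ J → ZMod 3)).2 + (q : (U ⊕ J → ZMod 3) × (U ⊕ J → ZMod 3)).2) =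
          ((p : (U ⊕ J → ZMod 3) × (U ⊕ J → ZMod 3)).1 - (p : (U ⊕ J → ZMod 3) × (U ⊕ J → ZMod 3)).2) +
          ((q : (U ⊕ J → ZMod 3) × (U ⊕ J → ZMod 3)).1 - (q : (U ⊕ J → ZMod 3) × (U ⊕ J → ZMod 3)).2)
        abel
      map_smul' := fun a p => by
        apply Subtype.ext
        show a • (p : (U ⊕ J → ZMod 3) × (U ⊕ J → ZMod 3)).1 - a • (p : (U ⊕ J → ZMod 3) × (U ⊕ J → ZMod 3)).2 =
          a • ((p : (U ⊕ J → ZMod 3) × (U ⊕ J → ZMod 3)).1 - (p : (U ⊕ J → ZMod 3) × (U ⊕ J → ZMod 3)).2)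
        rw [smul_sub] }
  have h1 := LinearMap.finrank_range_add_finrank_ker g
  have h2 : finrank (ZMod 3) (LinearMap.range g) ≤ Fintype.card U + 1 :=
    (Submodule.finrank_le _).trans (finrank_W0 k₀)
  have h3 : finrank (ZMod 3) (LinearMap.ker g) ≤ finrank (ZMod 3) (NN e e' C J1) := by
    have h4 : ∀ z : LinearMap.ker g, (((z : J') : (U ⊕ J → ZMod 3) × (U ⊕ J → ZMod 3))).1 ∈ NN e e' C J1 := by
      rintro ⟨⟨p, hp⟩, hz⟩ j hj
      have h5 : p.1 = p.2 := by
        have h6 := congrArg Subtype.val (LinearMap.mem_ker.1 hz)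
        exact sub_eq_zero.1 h6
      have h6 := hp.2.1
      rw [← h5] at h6
      show ∑ u, (e u - e' u) * C j u * (p.1 (Sum.inl u) - p.1 (Sum.inr j)) = 0
      have hjk := (hks j).1 hj
      have h7 := congrFun h6 (Sum.inr j)
      rw [B0_apply, B0_apply, row_inr j hjk, row_inr j hjk, dg_inr j hjk, dg_inr j hjk] at h7
      have h9 := add_right_cancel h7
      rw [← sub_eq_zero, ← sum_sub_distrib] at h9
      rw [← h9]
      exact sum_congr rfl fun u _ => by ring
    refine LinearMap.finrank_le_finrank_of_injective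
      (f := LinearMap.codRestrict (NN e e' C J1) ((LinearMap.fst (ZMod 3) (U ⊕ J → ZMod 3) (U ⊕ J → ZMod 3)).comp
        (J'.subtype.comp (LinearMap.ker g).subtype)) h4) ?_
    rintro ⟨⟨p, hp⟩, hz⟩ ⟨⟨q, hq⟩, hz'⟩ h
    have h5 : p.1 = q.1 := congrArg Subtype.val h
    have h6 : p.1 = p.2 := sub_eq_zero.1 (congrArg Subtype.val (LinearMap.mem_ker.1 hz))
    have h7 : q.1 = q.2 := sub_eq_zero.1 (congrArg Subtype.val (LinearMap.mem_ker.1 hz'))
    apply Subtype.ext
    apply Subtype.ext
    exact Prod.ext h5 (by rw [← h6, ← h7, h5])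
  have h4 := finrank_NN e e' C J1
  omega

end main

/-- **LAQ** -/
theorem t_LAQ (M : ℕ) (r : Fin M → ℕ) (ε : ℝ) (hε : 0 < ε) : ∃ R : ℕ,
    ∀ (U J : Type) [Fintype U] [Fintype J] (ks : U ⊕ J) (J1 : Finset J)
    (e : Fin M → U → ZMod 3) (A : U → U → ZMod 3) (B : U → J → ZMod 3) (C : J → U → ZMod 3),
    (∀ l, l ∈ J1 ↔ Sum.inr l ≠ ks) → (∀ k u, Sum.inl u = ks → e k u ≠ 0) →
    (∀ v : U → ZMod 3, (∀ u, Sum.inl u = ks → v u = 0) → v ≠ 0 →
      ∃ l ∈ J1, ∑ u, v u * B u l ≠ 0) →
    (∀ w : U → ZMod 3, w ≠ 0 → 2 * Fintype.card U + R ≤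
      (J1.filter fun k => ∑ u, w u * C k u ≠ 0).card) →
    2 * Fintype.card U + R ≤ J1.card → (∀ k l, k ≠ l → e k ≠ e l) →
    |((univ.filter fun α : prs J1 → ZMod 3 => ∀ k,
        finrank (ZMod 3) (KS (cc ks (e k) A B C (Pool.Agent.Y703.CX.ext α)) (Sk J (e k))) =
          r k + 1).card : ℝ) / 3 ^ (prs J1).card - ∏ k, cq (r k)| ≤ ε := by
  obtain ⟨R, hR⟩ := thmQ M r ε hε
  refine ⟨R + 2, ?_⟩
  intro U J _ _ ks J1 e A B C hks hes hB hC hJ he
  have hJ0 : 0 < J1.card := by omega
  obtain ⟨k₀, hk₀⟩ := card_pos.1 hJ0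
  have hV : finrank (ZMod 3) (U ⊕ J → ZMod 3) = Fintype.card U + Fintype.card J := by
    rw [finrank_fintype_fun_eq_card, Fintype.card_sum]
  have hW := finrank_W0 (U := U) k₀
  have hcardJ : J1.card ≤ Fintype.card J := card_le_univ _
  have hcardJ' : Fintype.card J ≤ J1.card + 1 := by
    have h1 : (univ \ J1).card ≤ 1 := by
      rw [card_le_one]
      intro a ha b hb
      rw [mem_sdiff] at ha hb
      have h2 : Sum.inr a = ks := by
        by_contra h
        exact ha.2 ((hks a).2 h)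
      have h3 : Sum.inr b = ks := by
        by_contra h
        exact hb.2 ((hks b).2 h)
      exact Sum.inr_injective (h2.trans h3.symm)
    have h2 := card_sdiff_add_card_eq_card (subset_univ J1)
    rw [card_univ] at h2
    omega
  have key := hR (U ⊕ J → ZMod 3) (U ⊕ J → ZMod 3) (W0 U J) (RZ U J1)
    (fun k => B0 ks (e k) A B C) (J1.card - R) J1.card
    (fun k => nd_B0 hks ⟨k₀, hk₀⟩ (hes k) (fun w hw => by
      have h1 := hC w hw
      have h2 : 0 < (J1.filter fun k => ∑ u, w u * C k u ≠ 0).card := by omega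
      obtain ⟨k, hk⟩ := card_pos.1 h2
      rw [mem_filter] at hk
      exact ⟨k, hk.1, hk.2⟩))
    finrank_RZ (fun k => finrank_comap hks hB)
    (fun k l hkl => by
      have h1 := finrank_JJ0 (e := e k) (e' := e l) (A := A) (B := B) (C := C) hks k₀
      have h2 := hC (e k - e l) (sub_ne_zero.2 (he k l hkl))
      have h3 := Finset.card_filter_add_card_filter_not (s := (univ : Finset J))
        (fun j => j ∈ J1 ∧ ∑ u, (e k u - e l u) * C j u ≠ 0)
      have h4 : (J1.filter fun j => ∑ u, (e k - e l) u * C j u ≠ 0).card =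
          (univ.filter fun j => j ∈ J1 ∧ ∑ u, (e k u - e l u) * C j u ≠ 0).card := by
        congr 1
        ext j
        simp only [mem_filter, mem_univ, true_and, Pi.sub_apply]
      rw [h4] at h2
      rw [card_univ] at h3
      omega) (by omega) (by omega) (by rw [hV]; omega)
  have hpos : (0 : ℝ) < 3 ^ (prs J1).card := by positivity
  rw [card_YYW] at key
  push_cast at key
  have h1 : ((YY (W0 U J) (RZ U J1)).filter fun Y => ∀ k,
      finrank (ZMod 3) (LinearMap.ker (B0 ks (e k) A B C + Y)) = r k).card =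
      (univ.filter fun α : prs J1 → ZMod 3 => ∀ k,
        finrank (ZMod 3) (KS (cc ks (e k) A B C (Pool.Agent.Y703.CX.ext α)) (Sk J (e k))) =
          r k + 1).card := by
    have hf := card_fill (U := U) (J := J) (J1 := J1)
      (fun Y => ∀ k, finrank (ZMod 3) (LinearMap.ker (B0 ks (e k) A B C + Y)) = r k)
    refine Eq.trans (fcc2 _ _) (hf.symm.trans ?_)
    congr 1
    ext α
    simp only [mem_filter, mem_univ, true_and]
    refine forall_congr' fun k => ?_
    have h2 : B0 ks (e k) A B C + YA U α =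
        Lq (cc ks (e k) A B C (Pool.Agent.Y703.CX.ext α)) (dg (Sk J (e k)) ks) := by
      unfold B0 YA
      rw [Lq_add, cc_add hks]
    have h3 : ks ∈ Sk J (e k) := by
      rcases hh : ks with u | l
      · rw [mem_Sk_inl]
        exact hes k u hh.symm
      · exact mem_Sk_inr
    rw [h2, finrank_KSq (c := cc ks (e k) A B C (Pool.Agent.Y703.CX.ext α))
      (fun i j h => cc_zero i j h) (fun i j h => cc_zero' i j h) h3 cc_ks]
    omega
  rw [h1] at key
  rw [div_sub' hpos.ne', abs_div, abs_of_pos hpos, div_le_iff₀ hpos, mul_comm _ (∏ k, cq (r k))]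
  exact key

end Q283.Q3
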