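import Pool.Agent.Q283.Q3.Fld

/-! The law of large numbers for the fields -/

set_option autoImplicit false

open scoped Classical

namespace Q283.Q3N

open Finset Module Filter
open Pool.Agent.Y703.CX (c3)
open Pool.Agent.Y703.CT (Cls NoSplit Triv3)

theorem ne_GS : ∀ᶠ X : ℕ in atTop, (GS X).Nonempty := by
  filter_upwards [(tendsto_order.1 law_one).1 0 c3_pos'] with X hX
  rw [← card_pos]
  by_contra h2
  have h3 : ((SN X).filter fun D => G3 D).card = 0 := by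
    unfold GS at h2
    omega
  rw [h3, Nat.cast_zero, zero_div] at hX
  exact lt_irrefl _ hX

theorem hdiv (P : ℕ → Prop) (a : ℝ) (hP : ∀ D, P D → G3 D)
    (hP2 : Tendsto (fun X : ℕ => (((SN X).filter fun D => P D).card : ℝ) / ((SN X).card : ℝ)) atTop
        (nhds a)) :
    Tendsto (fun X : ℕ => (((GS X).filter fun D => P D).card : ℝ) / ((GS X).card : ℝ)) atTop
        (nhds (a / c3)) := by
  have hgs : ∀ X, ((GS X).filter fun D => P D).card = ((SN X).filter fun D => P D).card := by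
    intro X
    unfold GS
    rw [filter_filter]
    exact Pool.Agent.XLK.fcc fun D _ => ⟨fun h => h.2, fun h => ⟨hP D h, h⟩⟩
  refine (hP2.div law_one c3_pos'.ne').congr' ?_
  filter_upwards [ne_SN] with X hX
  have h1 : ((SN X).card : ℝ) ≠ 0 := by exact_mod_cast hX.card_pos.ne'
  rw [hgs X, Pi.div_apply, div_div_div_cancel_right₀ h1]
  rfl

theorem pw (N : ℕ) : 3 ^ N = 3 ^ N - 1 + 1 := by
  have := Nat.pos_of_ne_zero (pow_ne_zero N (show (3 : ℕ) ≠ 0 by norm_num))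
  omega

theorem gs_one {d : ℕ → ℕ} (hd : ∀ j, Mul3 (d j)) (h : Indep d) (N b : ℕ) :
    Tendsto (fun X : ℕ => (((GS X).filter fun D => AllG (fun i => d (bl N b i)) D).card : ℝ) /
      ((GS X).card : ℝ)) atTop (nhds (c3 ^ (3 ^ N - 1))) := by
  have h1 := hdiv (fun D => AllG (fun i => d (bl N b i)) D) _
      (fun D (hD : AllG (fun i => d (bl N b i)) D) => allG_G3 hD) (law_b hd h N b)
  have h2 : c3 ^ 3 ^ N / c3 = c3 ^ (3 ^ N - 1) := by
    rw [div_eq_iff c3_pos'.ne', ← pow_succ, ← pw]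
  rw [h2] at h1
  exact h1

theorem gs_two {d : ℕ → ℕ} (hd : ∀ j, Mul3 (d j)) (h : Indep d) (N b b' : ℕ) (hb : b ≠ b') :
    Tendsto (fun X : ℕ => (((GS X).filter fun D => AllG (fun i => d (bl N b i)) D ∧
      AllG (fun i => d (bl N b' i)) D).card : ℝ) /
      ((GS X).card : ℝ)) atTop (nhds (c3 ^ (3 ^ N - 1) * c3 ^ (3 ^ N - 1))) := by
  have h1 := hdiv (fun D => AllG (fun i => d (bl N b i)) D ∧ AllG (fun i => d (bl N b' i)) D) _
      (fun D (hD : AllG (fun i => d (bl N b i)) D ∧ AllG (fun i => d (bl N b' i)) D) =>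
        allG_G3 hD.1) ((law_bb hd h N b b' hb).congr fun X =>
          congrArg (fun n : ℕ => (n : ℝ) / ((SN X).card : ℝ)) (Q283.T3.fcc2 _ _))
  have h2 : c3 ^ (3 ^ N + (3 ^ N - 1)) / c3 = c3 ^ (3 ^ N - 1) * c3 ^ (3 ^ N - 1) := by
    have h4 : 3 ^ N + (3 ^ N - 1) = (3 ^ N - 1) + (3 ^ N - 1) + 1 := by
      have := pw N
      omega
    rw [div_eq_iff c3_pos'.ne', h4, pow_succ, pow_add]
  rw [h2] at h1
  exact h1.congr fun X => congrArg (fun n : ℕ => (n : ℝ) / ((GS X).card : ℝ)) (Q283.T3.fcc2 _ _)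

/-- **The law of large numbers for the blocks.** -/
theorem lln_fields {d : ℕ → ℕ} (hd : ∀ j, Mul3 (d j)) (h : Indep d) (N n : ℕ) (hn : 0 < n)
    (ε : ℝ) (hε : 0 < ε) (δ : ℝ) (hδ : 0 < δ) :
    ∀ᶠ X in atTop, (((GS X).filter fun D =>
        ε ≤ |(((range n).filter fun b => AllG (fun i => d (bl N b i)) D).card : ℝ) / n -
          c3 ^ (3 ^ N - 1)|).card : ℝ) / ((GS X).card : ℝ) ≤
      c3 ^ (3 ^ N - 1) * (1 - c3 ^ (3 ^ N - 1)) / (ε ^ 2 * n) + δ :=
  Q283.T3N.lln GS (fun b D => AllG (fun i => d (bl N b i)) D) _ ne_GS (gs_one hd h N)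
    (gs_two hd h N) n hn ε hε δ hδ

end Q283.Q3N
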