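import Mathlib

/-! The linear system over `ℚ(ω)` for the rational numbers: the two parts for the complex conjugation -/

set_option autoImplicit false

open scoped Classical

namespace Q283.Q3B

open Finset Module

/-- the field with three elements -/
abbrev F : Type := ZMod 3

/-- the solutions of the Laplacian system, equations for the rows in `R` -/
def KL {J : Type} [Fintype J] (e : J → F) (β : J → J → F) (R : J → Prop) : Submodule F (J → F) where
  carrier := {x | (∀ i, e i = 0 → x i = 0) ∧
    ∀ i, R i → ∑ j, e i * e j * β i j * (x j - x i) = 0}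
  add_mem' := by
    rintro x y ⟨h1, h2⟩ ⟨h3, h4⟩
    refine ⟨fun i hi => by rw [Pi.add_apply, h1 i hi, h3 i hi, add_zero], fun i hR => ?_⟩
    have h5 : ∑ j, e i * e j * β i j * ((x + y) j - (x + y) i) =
        ∑ j, e i * e j * β i j * (x j - x i) + ∑ j, e i * e j * β i j * (y j - y i) := by
      rw [← sum_add_distrib]
      exact sum_congr rfl fun j _ => by simp only [Pi.add_apply]; ring
    rw [h5, h2 i hR, h4 i hR, add_zero]
  zero_mem' := ⟨fun i _ => rfl, fun i _ => sum_eq_zero fun j _ => by simp⟩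
  smul_mem' := by
    rintro c x ⟨h1, h2⟩
    refine ⟨fun i hi => by rw [Pi.smul_apply, h1 i hi, smul_zero], fun i hR => ?_⟩
    have h5 : ∑ j, e i * e j * β i j * ((c • x) j - (c • x) i) =
        c * ∑ j, e i * e j * β i j * (x j - x i) := by
      rw [mul_sum]
      exact sum_congr rfl fun j _ => by simp only [Pi.smul_apply, smul_eq_mul]; ring
    rw [h5, h2 i hR, mul_zero]

theorem mem_KL {J : Type} [Fintype J] {e : J → F} {β : J → J → F} {R : J → Prop} {x : J → F} :
    x ∈ KL e β R ↔ (∀ i, e i = 0 → x i = 0) ∧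
      ∀ i, R i → ∑ j, e i * e j * β i j * (x j - x i) = 0 := Iff.rfl

/-- transport of the system -/
theorem finrank_congr {J J' : Type} [Fintype J] [Fintype J'] (σ : J' ≃ J) {e : J → F} {e' : J' → F}
    {β : J → J → F} {β' : J' → J' → F} {R : J → Prop} {R' : J' → Prop}
    (he : ∀ i, e' i = e (σ i)) (hβ : ∀ i j, R' i → i ≠ j → β' i j = β (σ i) (σ j))
    (hR : ∀ i, R' i ↔ R (σ i)) : finrank F (KL e' β' R') = finrank F (KL e β R) := by
  have key : ∀ x : J → F, x ∈ KL e β R ↔ (x ∘ σ) ∈ KL e' β' R' := by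
    intro x
    rw [mem_KL, mem_KL]
    have hs : ∀ i, R' i → ∑ j, e' i * e' j * β' i j * ((x ∘ σ) j - (x ∘ σ) i) =
        ∑ j, e (σ i) * e j * β (σ i) j * (x j - x (σ i)) := by
      intro i hi
      rw [← Equiv.sum_comp σ fun j => e (σ i) * e j * β (σ i) j * (x j - x (σ i))]
      refine sum_congr rfl fun j _ => ?_
      rw [he, he]
      by_cases hij : i = j
      · subst hij
        simp only [Function.comp, sub_self, mul_zero]
      · rw [hβ i j hi hij]
        rfl
    constructor
    · rintro ⟨h1, h2⟩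
      refine ⟨fun i hi => h1 _ (by rw [← he]; exact hi), fun i hi => ?_⟩
      rw [hs i hi]
      exact h2 _ ((hR i).1 hi)
    · rintro ⟨h1, h2⟩
      refine ⟨fun i hi => ?_, fun i hi => ?_⟩
      · have h3 := h1 (σ.symm i) (by rw [he, Equiv.apply_symm_apply]; exact hi)
        simpa [Function.comp] using h3
      · have h4 : R' (σ.symm i) := (hR _).2 (by rw [Equiv.apply_symm_apply]; exact hi)
        have h3 := h2 (σ.symm i) h4
        rw [hs _ h4, Equiv.apply_symm_apply] at h3
        exact h3
  refine LinearEquiv.finrank_eq ?_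
  refine
    { toFun := fun x => ⟨x.1 ∘ σ.symm, (key _).2 (by
        have : (x.1 ∘ σ.symm) ∘ σ = x.1 := by
          funext i
          simp [Function.comp]
        rw [this]
        exact x.2)⟩
      invFun := fun x => ⟨x.1 ∘ σ, (key _).1 x.2⟩
      left_inv := fun x => Subtype.ext (by funext i; simp [Function.comp])
      right_inv := fun x => Subtype.ext (by funext i; simp [Function.comp])
      map_add' := fun x y => rfl
      map_smul' := fun c x => rfl }

section abs

variable {I : Type} [Fintype I] (e : I → F) (a b : I → I → F) (c : I → F) (q d : F)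

/-- the exponents over `ℚ(ω)` -/
def eK : I ⊕ (I ⊕ Unit) → F
  | Sum.inl i => e i
  | Sum.inr (Sum.inl i) => e i
  | Sum.inr (Sum.inr _) => q

/-- the symbols over `ℚ(ω)` -/
def bK : I ⊕ (I ⊕ Unit) → I ⊕ (I ⊕ Unit) → F
  | Sum.inl i, Sum.inl j => a i j
  | Sum.inl i, Sum.inr (Sum.inl j) => b i j
  | Sum.inl i, Sum.inr (Sum.inr _) => c i
  | Sum.inr (Sum.inl i), Sum.inl j => - b i j
  | Sum.inr (Sum.inl i), Sum.inr (Sum.inl j) => - a i j
  | Sum.inr (Sum.inl i), Sum.inr (Sum.inr _) => - c i
  | Sum.inr (Sum.inr _), Sum.inl j => c j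
  | Sum.inr (Sum.inr _), Sum.inr (Sum.inl j) => - c j
  | Sum.inr (Sum.inr _), Sum.inr (Sum.inr _) => d

/-- the exponents over `ℚ` -/
def eQ : I ⊕ Unit → F
  | Sum.inl i => e i
  | Sum.inr _ => q

/-- the symbols over `ℚ` -/
def bQ : I ⊕ Unit → I ⊕ Unit → F
  | Sum.inl i, Sum.inl j => a i j + b i j
  | Sum.inl i, Sum.inr _ => c i
  | Sum.inr _, _ => d

/-- the rows over `ℚ` -/
def rQ : I ⊕ Unit → Prop
  | Sum.inl _ => True
  | Sum.inr _ => False

/-- the matrix of the system over `ℚ` -/
noncomputable def MA : Matrix I (I ⊕ Unit) F := Matrix.of fun i j => match j with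
  | Sum.inl j => if i = j then (if e i = 0 then 1 else
      -(∑ k ∈ univ.erase i, e i * e k * (a i k + b i k) + e i * q * c i)) else
        e i * e j * (a i j + b i j)
  | Sum.inr _ => e i * q * c i

theorem MA_row (s : I ⊕ Unit → F) (i : I) : (MA e a b c q).mulVec s i =
    if e i = 0 then s (Sum.inl i) else
      ∑ j, e i * e j * (a i j + b i j) * (s (Sum.inl j) - s (Sum.inl i)) +
        e i * q * c i * (s (Sum.inr ()) - s (Sum.inl i)) := by
  have h0 : (MA e a b c q).mulVec s i = ∑ j, MA e a b c q i (Sum.inl j) * s (Sum.inl j) +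
      MA e a b c q i (Sum.inr ()) * s (Sum.inr ()) := by
    unfold Matrix.mulVec dotProduct
    rw [Fintype.sum_sum_type]
    congr 1
    simp
  rw [h0, ← add_sum_erase univ _ (mem_univ i)]
  have h1 : ∑ j ∈ univ.erase i, MA e a b c q i (Sum.inl j) * s (Sum.inl j) =
      ∑ j ∈ univ.erase i, e i * e j * (a i j + b i j) * s (Sum.inl j) := by
    refine sum_congr rfl fun j hj => ?_
    have : MA e a b c q i (Sum.inl j) = e i * e j * (a i j + b i j) := by
      unfold MA
      rw [Matrix.of_apply]
      simp only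
      rw [if_neg (ne_of_mem_erase hj).symm]
    rw [this]
  have h2 : MA e a b c q i (Sum.inr ()) = e i * q * c i := rfl
  have h3 : MA e a b c q i (Sum.inl i) = if e i = 0 then 1 else
      -(∑ k ∈ univ.erase i, e i * e k * (a i k + b i k) + e i * q * c i) := by
    unfold MA
    rw [Matrix.of_apply]
    exact if_pos rfl
  rw [h1, h2, h3]
  by_cases he : e i = 0
  · rw [if_pos he, if_pos he, he]
    simp
  · rw [if_neg he, if_neg he]
    rw [← add_sum_erase univ (fun j => e i * e j * (a i j + b i j) *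
      (s (Sum.inl j) - s (Sum.inl i))) (mem_univ i)]
    rw [sub_self, mul_zero, zero_add]
    simp only [mul_sub]
    rw [sum_sub_distrib, ← sum_mul]
    ring

theorem ker_Q (hq : q ≠ 0) :
    KL (eQ e q) (bQ a b c d) rQ = LinearMap.ker (MA e a b c q).mulVecLin := by
  have hrow : ∀ (s : I ⊕ Unit → F) (i : I), ∑ j, eQ e q (Sum.inl i) * eQ e q j *
      bQ a b c d (Sum.inl i) j * (s j - s (Sum.inl i)) =
      ∑ j, e i * e j * (a i j + b i j) * (s (Sum.inl j) - s (Sum.inl i)) +
        e i * q * c i * (s (Sum.inr ()) - s (Sum.inl i)) := by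
    intro s i
    rw [Fintype.sum_sum_type]
    congr 1
    simp [eQ, bQ]
  ext s
  rw [mem_KL, LinearMap.mem_ker, Matrix.mulVecLin_apply]
  constructor
  · rintro ⟨h1, h2⟩
    funext i
    rw [MA_row, Pi.zero_apply]
    by_cases he : e i = 0
    · rw [if_pos he]
      exact h1 (Sum.inl i) he
    · rw [if_neg he, ← hrow s i]
      exact h2 (Sum.inl i) trivial
  · intro h
    have h' : ∀ i, (MA e a b c q).mulVec s i = 0 := fun i => congrFun h i
    refine ⟨?_, ?_⟩
    · rintro (i | u) hi
      · have h1 := h' i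
        rw [MA_row, if_pos (show e i = 0 from hi)] at h1
        exact h1
      · exact absurd hi hq
    · rintro (i | u) hi
      · rw [hrow]
        by_cases he : e i = 0
        · simp [he]
        · have h1 := h' i
          rw [MA_row, if_neg he] at h1
          exact h1
      · exact absurd hi id

/-- the transposed system -/
theorem MA_col (hab : ∀ i j, i ≠ j → a j i = a i j) (hb : ∀ i j, i ≠ j → b j i = - b i j)
    (hbi : ∀ i, b i i = 0) (t : I → F) (j : I) : (MA e a b c q).transpose.mulVec t (Sum.inl j) =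
    if e j = 0 then t j else
      ∑ i, e j * e i * ((a j i - b j i) * t i - (a j i + b j i) * t j) - e j * q * c j * t j := by
  have h0 : (MA e a b c q).transpose.mulVec t (Sum.inl j) = ∑ i, MA e a b c q i (Sum.inl j) * t i := rfl
  rw [h0, ← add_sum_erase univ _ (mem_univ j)]
  have h1 : ∑ i ∈ univ.erase j, MA e a b c q i (Sum.inl j) * t i =
      ∑ i ∈ univ.erase j, e j * e i * (a j i - b j i) * t i := by
    refine sum_congr rfl fun i hi => ?_
    have hne := ne_of_mem_erase hi
    have : MA e a b c q i (Sum.inl j) = e j * e i * (a j i - b j i) := by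
      unfold MA
      rw [Matrix.of_apply]
      simp only
      rw [if_neg hne, hab i j hne, hb i j hne]
      ring
    rw [this]
  have h3 : MA e a b c q j (Sum.inl j) = if e j = 0 then 1 else
      -(∑ k ∈ univ.erase j, e j * e k * (a j k + b j k) + e j * q * c j) := by
    unfold MA
    rw [Matrix.of_apply]
    exact if_pos rfl
  rw [h1, h3]
  by_cases he : e j = 0
  · rw [if_pos he, if_pos he, he]
    simp
  · rw [if_neg he, if_neg he]
    rw [← add_sum_erase univ (fun i => e j * e i * ((a j i - b j i) * t i - (a j i + b j i) * t j))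
      (mem_univ j), hbi j]
    have h4 : e j * e j * ((a j j - 0) * t j - (a j j + 0) * t j) = 0 := by ring
    rw [h4, zero_add]
    simp only [mul_sub, ← mul_assoc]
    rw [sum_sub_distrib, ← sum_mul]
    ring

theorem MA_last (t : I → F) (u : Unit) : (MA e a b c q).transpose.mulVec t (Sum.inr u) =
    ∑ i, e i * q * c i * t i := rfl

/-- the rank of the transposed system -/
theorem rk_T (hq : q ≠ 0) : finrank F (KL (eQ e q) (bQ a b c d) rQ) =
    finrank F (LinearMap.ker (MA e a b c q).transpose.mulVecLin) + 1 := by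
  rw [ker_Q e a b c q d hq]
  have h1 := LinearMap.finrank_range_add_finrank_ker (MA e a b c q).mulVecLin
  have h2 := LinearMap.finrank_range_add_finrank_ker (MA e a b c q).transpose.mulVecLin
  have h3 : (MA e a b c q).transpose.rank = (MA e a b c q).rank := Matrix.rank_transpose _
  unfold Matrix.rank at h3
  rw [finrank_fintype_fun_eq_card, Fintype.card_sum, Fintype.card_unit] at h1
  rw [finrank_fintype_fun_eq_card] at h2
  omega

/-- the rows of the system over `ℚ(ω)` -/
theorem row1 (x : I ⊕ (I ⊕ Unit) → F) (i : I) :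
    ∑ j, eK e q (Sum.inl i) * eK e q j * bK a b c d (Sum.inl i) j * (x j - x (Sum.inl i)) =
    ∑ j, e i * e j * a i j * (x (Sum.inl j) - x (Sum.inl i)) +
    (∑ j, e i * e j * b i j * (x (Sum.inr (Sum.inl j)) - x (Sum.inl i)) +
      e i * q * c i * (x (Sum.inr (Sum.inr ())) - x (Sum.inl i))) := by
  rw [Fintype.sum_sum_type, Fintype.sum_sum_type]
  congr 2
  simp [eK, bK]

theorem row2 (x : I ⊕ (I ⊕ Unit) → F) (i : I) :
    ∑ j, eK e q (Sum.inr (Sum.inl i)) * eK e q j * bK a b c d (Sum.inr (Sum.inl i)) j *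
      (x j - x (Sum.inr (Sum.inl i))) =
    ∑ j, e i * e j * (- b i j) * (x (Sum.inl j) - x (Sum.inr (Sum.inl i))) +
    (∑ j, e i * e j * (- a i j) * (x (Sum.inr (Sum.inl j)) - x (Sum.inr (Sum.inl i))) +
      e i * q * (- c i) * (x (Sum.inr (Sum.inr ())) - x (Sum.inr (Sum.inl i)))) := by
  rw [Fintype.sum_sum_type, Fintype.sum_sum_type]
  congr 2
  simp [eK, bK]

theorem row3 (x : I ⊕ (I ⊕ Unit) → F) :
    ∑ j, eK e q (Sum.inr (Sum.inr ())) * eK e q j * bK a b c d (Sum.inr (Sum.inr ())) j *
      (x j - x (Sum.inr (Sum.inr ()))) =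
    ∑ i, e i * q * c i * (x (Sum.inl i) - x (Sum.inr (Sum.inl i))) := by
  rw [Fintype.sum_sum_type, Fintype.sum_sum_type]
  have h1 : ∑ j : Unit, eK e q (Sum.inr (Sum.inr ())) * eK e q (Sum.inr (Sum.inr j)) *
      bK a b c d (Sum.inr (Sum.inr ())) (Sum.inr (Sum.inr j)) *
      (x (Sum.inr (Sum.inr j)) - x (Sum.inr (Sum.inr ()))) = 0 := by
    simp
  rw [h1, add_zero, ← sum_add_distrib]
  refine sum_congr rfl fun i _ => ?_
  show q * e i * c i * (x (Sum.inl i) - x (Sum.inr (Sum.inr ()))) +
    q * e i * (-c i) * (x (Sum.inr (Sum.inl i)) - x (Sum.inr (Sum.inr ()))) = _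
  ring

/-- the symmetric part -/
def sy (x : I ⊕ (I ⊕ Unit) → F) : I ⊕ Unit → F
  | Sum.inl i => x (Sum.inl i) + x (Sum.inr (Sum.inl i))
  | Sum.inr u => 2 * x (Sum.inr (Sum.inr u))

/-- the antisymmetric part -/
def an (x : I ⊕ (I ⊕ Unit) → F) (i : I) : F := x (Sum.inl i) - x (Sum.inr (Sum.inl i))

/-- **The decomposition.** -/
theorem mem_iff (hab : ∀ i j, i ≠ j → a j i = a i j) (hb : ∀ i j, i ≠ j → b j i = - b i j)
    (hbi : ∀ i, b i i = 0) (hq : q ≠ 0) (x : I ⊕ (I ⊕ Unit) → F) :
    x ∈ KL (eK e q) (bK a b c d) (fun _ => True) ↔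
      (MA e a b c q).mulVec (sy x) = 0 ∧ (MA e a b c q).transpose.mulVec (an x) = 0 := by
  -- the two combinations of the rows
  have hS : ∀ i, (∑ j, eK e q (Sum.inl i) * eK e q j * bK a b c d (Sum.inl i) j * (x j - x (Sum.inl i))) -
      (∑ j, eK e q (Sum.inr (Sum.inl i)) * eK e q j * bK a b c d (Sum.inr (Sum.inl i)) j *
      (x j - x (Sum.inr (Sum.inl i)))) =
      ∑ j, e i * e j * (a i j + b i j) * (sy x (Sum.inl j) - sy x (Sum.inl i)) +
        e i * q * c i * (sy x (Sum.inr ()) - sy x (Sum.inl i)) := by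
    intro i
    rw [row1, row2]
    have e1 : ∑ j, e i * e j * (a i j + b i j) * (sy x (Sum.inl j) - sy x (Sum.inl i)) =
        ∑ j, e i * e j * a i j * (x (Sum.inl j) - x (Sum.inl i)) +
        ∑ j, e i * e j * b i j * (x (Sum.inr (Sum.inl j)) - x (Sum.inl i)) -
        (∑ j, e i * e j * (- b i j) * (x (Sum.inl j) - x (Sum.inr (Sum.inl i))) +
        ∑ j, e i * e j * (- a i j) * (x (Sum.inr (Sum.inl j)) - x (Sum.inr (Sum.inl i)))) := by
      rw [← sum_add_distrib, ← sum_add_distrib, ← sum_sub_distrib]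
      refine sum_congr rfl fun j _ => ?_
      simp only [sy]
      ring
    rw [e1]
    simp only [sy]
    ring
  have hT : ∀ i, (∑ j, eK e q (Sum.inl i) * eK e q j * bK a b c d (Sum.inl i) j * (x j - x (Sum.inl i))) +
      (∑ j, eK e q (Sum.inr (Sum.inl i)) * eK e q j * bK a b c d (Sum.inr (Sum.inl i)) j *
      (x j - x (Sum.inr (Sum.inl i)))) =
      ∑ j, e i * e j * ((a i j - b i j) * an x j - (a i j + b i j) * an x i) - e i * q * c i * an x i := by
    intro i
    rw [row1, row2]
    have e1 : ∑ j, e i * e j * ((a i j - b i j) * an x j - (a i j + b i j) * an x i) =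
        ∑ j, e i * e j * a i j * (x (Sum.inl j) - x (Sum.inl i)) +
        ∑ j, e i * e j * b i j * (x (Sum.inr (Sum.inl j)) - x (Sum.inl i)) +
        (∑ j, e i * e j * (- b i j) * (x (Sum.inl j) - x (Sum.inr (Sum.inl i))) +
        ∑ j, e i * e j * (- a i j) * (x (Sum.inr (Sum.inl j)) - x (Sum.inr (Sum.inl i)))) := by
      rw [← sum_add_distrib, ← sum_add_distrib, ← sum_add_distrib]
      refine sum_congr rfl fun j _ => ?_
      simp only [an]
      ring
    rw [e1]
    simp only [an]
    ring
  have hinv : ∀ u v : F, (u = 0 ∧ v = 0) ↔ (u - v = 0 ∧ u + v = 0) := by decide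
  rw [mem_KL]
  constructor
  · rintro ⟨h1, h2⟩
    constructor
    · funext i
      rw [MA_row, Pi.zero_apply]
      by_cases he : e i = 0
      · rw [if_pos he]
        have g1 : x (Sum.inl i) = 0 := h1 (Sum.inl i) he
        have g2 : x (Sum.inr (Sum.inl i)) = 0 := h1 (Sum.inr (Sum.inl i)) he
        simp only [sy]
        rw [g1, g2, add_zero]
      · rw [if_neg he, ← hS, h2 _ trivial, h2 _ trivial, sub_zero]
    · funext j
      rcases j with i | u
      · rw [MA_col e a b c q hab hb hbi, Pi.zero_apply]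
        by_cases he : e i = 0
        · rw [if_pos he]
          have g1 : x (Sum.inl i) = 0 := h1 (Sum.inl i) he
          have g2 : x (Sum.inr (Sum.inl i)) = 0 := h1 (Sum.inr (Sum.inl i)) he
          unfold an
          rw [g1, g2, sub_zero]
        · rw [if_neg he, ← hT, h2 _ trivial, h2 _ trivial, add_zero]
      · rw [MA_last, Pi.zero_apply]
        have h3 := h2 (Sum.inr (Sum.inr ())) trivial
        rw [row3] at h3
        exact h3
  · rintro ⟨h1, h2⟩
    have h1' : ∀ i, (MA e a b c q).mulVec (sy x) i = 0 := fun i => congrFun h1 i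
    have h2' : ∀ j, (MA e a b c q).transpose.mulVec (an x) j = 0 := fun j => congrFun h2 j
    have hz : ∀ i, e i = 0 → x (Sum.inl i) = 0 ∧ x (Sum.inr (Sum.inl i)) = 0 := by
      intro i he
      have g1 := h1' i
      rw [MA_row, if_pos he] at g1
      have g2 := h2' (Sum.inl i)
      rw [MA_col e a b c q hab hb hbi, if_pos he] at g2
      exact (hinv _ _).2 ⟨g2, g1⟩
    constructor
    · rintro (i | (i | u)) hi
      · exact (hz i hi).1
      · exact (hz i hi).2
      · exact absurd hi hq
    · have hboth : ∀ i, (∑ j, eK e q (Sum.inl i) * eK e q j * bK a b c d (Sum.inl i) j *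
          (x j - x (Sum.inl i))) = 0 ∧
          (∑ j, eK e q (Sum.inr (Sum.inl i)) * eK e q j * bK a b c d (Sum.inr (Sum.inl i)) j *
            (x j - x (Sum.inr (Sum.inl i)))) = 0 := by
        intro i
        rw [hinv, hS, hT]
        by_cases he : e i = 0
        · rw [he]
          simp
        · have g1 := h1' i
          rw [MA_row, if_neg he] at g1
          have g2 := h2' (Sum.inl i)
          rw [MA_col e a b c q hab hb hbi, if_neg he] at g2
          exact ⟨g1, g2⟩
      rintro (i | (i | u)) _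
      · exact (hboth i).1
      · exact (hboth i).2
      · have g := h2' (Sum.inr u)
        rw [MA_last] at g
        rw [show u = () from rfl, row3]
        exact g

/-- the change of the coordinates -/
noncomputable def chg : (I ⊕ (I ⊕ Unit) → F) ≃ₗ[F] (I ⊕ Unit → F) × (I → F) where
  toFun x := (sy x, an x)
  invFun y := fun j => match j with
    | Sum.inl i => 2 * (y.1 (Sum.inl i) + y.2 i)
    | Sum.inr (Sum.inl i) => 2 * (y.1 (Sum.inl i) - y.2 i)
    | Sum.inr (Sum.inr u) => 2 * y.1 (Sum.inr u)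
  left_inv x := by
    have h1 : ∀ u v : F, 2 * ((u + v) + (u - v)) = u := by decide
    have h2 : ∀ u v : F, 2 * ((u + v) - (u - v)) = v := by decide
    have h3 : ∀ u : F, 2 * (2 * u) = u := by decide
    funext j
    rcases j with i | (i | u)
    · exact h1 _ _
    · exact h2 _ _
    · exact h3 _
  right_inv y := by
    have h1 : ∀ u v : F, 2 * (u + v) + 2 * (u - v) = u := by decide
    have h2 : ∀ u v : F, 2 * (u + v) - 2 * (u - v) = v := by decide
    have h3 : ∀ u : F, 2 * (2 * u) = u := by decide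
    refine Prod.ext (funext fun j => ?_) (funext fun i => ?_)
    · rcases j with i | u
      · exact h1 _ _
      · exact h3 _
    · exact h2 _ _
  map_add' x y := by
    refine Prod.ext (funext fun j => ?_) (funext fun i => ?_)
    · rcases j with i | u
      · simp only [sy, Pi.add_apply, Prod.mk_add_mk]; ring
      · simp only [sy, Pi.add_apply, Prod.mk_add_mk]; ring
    · simp only [an, Pi.add_apply, Prod.mk_add_mk]; ring
  map_smul' r x := by
    refine Prod.ext (funext fun j => ?_) (funext fun i => ?_)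
    · rcases j with i | u
      · simp only [sy, Pi.smul_apply, Prod.smul_mk, smul_eq_mul, RingHom.id_apply]; ring
      · simp only [sy, Pi.smul_apply, Prod.smul_mk, smul_eq_mul, RingHom.id_apply]; ring
    · simp only [an, Pi.smul_apply, Prod.smul_mk, smul_eq_mul, RingHom.id_apply]; ring

/-- **The ranks over `ℚ(ω)` and over `ℚ`.** -/
theorem main_abs (hab : ∀ i j, i ≠ j → a j i = a i j) (hb : ∀ i j, i ≠ j → b j i = - b i j)
    (hbi : ∀ i, b i i = 0) (hq : q ≠ 0) (d' : F) :
    finrank F (KL (eK e q) (bK a b c d) (fun _ => True)) + 1 =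
      2 * finrank F (KL (eQ e q) (bQ a b c d') rQ) := by
  have h1 : finrank F (KL (eK e q) (bK a b c d) (fun _ => True)) =
      finrank F (LinearMap.ker (MA e a b c q).mulVecLin) +
      finrank F (LinearMap.ker (MA e a b c q).transpose.mulVecLin) := by
    rw [← Module.finrank_prod]
    have k1 := fun x : KL (eK e q) (bK a b c d) (fun _ => True) =>
      (mem_iff e a b c q d hab hb hbi hq x.1).1 x.2
    have k2 : ∀ y : (I ⊕ Unit → F) × (I → F),
        sy (chg.symm y) = y.1 ∧ an (chg.symm y) = y.2 := by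
      intro y
      have h2 : (sy (chg.symm y), an (chg.symm y)) = (y.1, y.2) := chg.right_inv y
      rwa [Prod.mk.injEq] at h2
    have k3 : ∀ y : LinearMap.ker (MA e a b c q).mulVecLin ×
        LinearMap.ker (MA e a b c q).transpose.mulVecLin,
        chg.symm (y.1.1, y.2.1) ∈ KL (eK e q) (bK a b c d) (fun _ => True) := by
      intro y
      refine (mem_iff e a b c q d hab hb hbi hq _).2 ?_
      rw [(k2 (y.1.1, y.2.1)).1, (k2 (y.1.1, y.2.1)).2]
      exact ⟨y.1.2, y.2.2⟩
    have k4 : ∀ x y : I ⊕ (I ⊕ Unit) → F, sy (x + y) = sy x + sy y ∧ an (x + y) = an x + an y := by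
      intro x y
      have h2 : (sy (x + y), an (x + y)) = (sy x + sy y, an x + an y) := map_add chg x y
      rwa [Prod.mk.injEq] at h2
    have k5 : ∀ (r : F) (x : I ⊕ (I ⊕ Unit) → F), sy (r • x) = r • sy x ∧ an (r • x) = r • an x := by
      intro r x
      have h2 : (sy (r • x), an (r • x)) = (r • sy x, r • an x) := map_smul chg r x
      rwa [Prod.mk.injEq] at h2
    exact LinearEquiv.finrank_eq
      { toFun := fun x => (⟨sy x.1, (k1 x).1⟩, ⟨an x.1, (k1 x).2⟩)
        invFun := fun y => ⟨chg.symm (y.1.1, y.2.1), k3 y⟩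
        left_inv := fun x => Subtype.ext (chg.left_inv x.1)
        right_inv := fun y => Prod.ext (Subtype.ext (k2 (y.1.1, y.2.1)).1)
          (Subtype.ext (k2 (y.1.1, y.2.1)).2)
        map_add' := fun x y => Prod.ext (Subtype.ext (k4 x.1 y.1).1) (Subtype.ext (k4 x.1 y.1).2)
        map_smul' := fun r x => Prod.ext (Subtype.ext (k5 r x.1).1) (Subtype.ext (k5 r x.1).2) }
  have h2 := rk_T e a b c q d' hq
  rw [ker_Q e a b c q d' hq] at h2 ⊢
  omega

end abs

end Q283.Q3B
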