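import Pool.Agent.Q283.Q3.Boxq
import Pool.Agent.Y37.CX.Bad
import Pool.Agent.Y703.CX.Asy

/-! Few sets have degenerate labels, for several masks over `ℚ` (after `Pool.Agent.Y37.CX.Fam` and
`Pool.Agent.Y37.CX.Bad` of helper37) -/

set_option autoImplicit false
set_option linter.unusedVariables false

open scoped Classical

namespace Q283.Q3

open Finset
open Pool.Agent.Y692.QS (Ei)
open Pool.Agent.Y715.T.RecG (Pq)
open Pool.Agent.Y699.E (ez PS nrm lg xab sum_le_inj ez_zero one_le_lg lg_mono)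
open Pool.Agent.Y703.CX
open Pool.Agent.Y37.CX

/-- the family of the possible large parts -/
noncomputable def famM (n : ℕ) (A B : Ei) (Y : ℕ) : Finset (Finset ℕ) :=
  (range (Y + 1)).powerset.filter fun T => (∀ p ∈ T, p.Prime ∧ p ≠ 3) ∧
    (T.filter fun p => p % 3 = 2).card ≤ 1 ∧
    (T.filter fun p => p % 3 = 1 ∧ Exc A B p).card ≤ n ∧ ∏ p ∈ T, p ≤ Y

/-- at most `n` primes -/
noncomputable def VV (n Y : ℕ) : Finset (Finset ℕ) :=
  ((Icc 1 Y).filter Nat.Prime).powerset.filter fun S => S.card ≤ n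

theorem sum_VV (n Y : ℕ) : ∑ S ∈ VV n Y, (1 : ℝ) / ((∏ p ∈ S, p : ℕ) : ℝ) ≤
    45 ^ n * Real.exp (1 / 45 * Pm Y) := by
  have h1 : ∀ S ∈ VV n Y, (1 : ℝ) / ((∏ p ∈ S, p : ℕ) : ℝ) ≤
      45 ^ n * ∏ p ∈ S, (1 / 45 * (1 / (p : ℝ))) := by
    intro S hS
    unfold VV at hS
    rw [mem_filter] at hS
    rw [prod_mul_distrib, prod_const, prod_div_distrib, prod_const_one]
    push_cast
    have h2 : (1 : ℝ) ≤ 45 ^ n * (1 / 45) ^ S.card := by
      rw [one_div_pow, mul_one_div, le_div_iff₀ (by positivity), one_mul]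
      exact pow_le_pow_right₀ (by norm_num) hS.2
    have h3 : (0 : ℝ) ≤ 1 / ∏ p ∈ S, (p : ℝ) := by positivity
    calc (1 : ℝ) / ∏ p ∈ S, (p : ℝ) = 1 * (1 / ∏ p ∈ S, (p : ℝ)) := (one_mul _).symm
      _ ≤ (45 ^ n * (1 / 45) ^ S.card) * (1 / ∏ p ∈ S, (p : ℝ)) :=
          mul_le_mul_of_nonneg_right h2 h3
      _ = _ := by ring
  refine (sum_le_sum h1).trans ?_
  rw [← mul_sum]
  refine mul_le_mul_of_nonneg_left ?_ (by positivity)
  calc ∑ S ∈ VV n Y, ∏ p ∈ S, (1 / 45 * (1 / (p : ℝ))) ≤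
        ∑ S ∈ ((Icc 1 Y).filter Nat.Prime).powerset, ∏ p ∈ S, (1 / 45 * (1 / (p : ℝ))) := by
        refine sum_le_sum_of_subset_of_nonneg (filter_subset _ _) fun S _ _ => ?_
        exact prod_nonneg fun _ _ => by positivity
    _ = ∏ p ∈ (Icc 1 Y).filter Nat.Prime, (1 + 1 / 45 * (1 / (p : ℝ))) := by rw [prod_one_add]
    _ ≤ ∏ p ∈ (Icc 1 Y).filter Nat.Prime, Real.exp (1 / 45 * (1 / (p : ℝ))) := by
        refine prod_le_prod (fun _ _ => by positivity) fun p _ => ?_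
        rw [add_comm]
        exact Real.add_one_le_exp _
    _ = Real.exp (1 / 45 * Pm Y) := by
        rw [← Real.exp_sum]
        unfold Pm
        rw [mul_sum]

theorem mem_VV {n Y : ℕ} {S : Finset ℕ} (hc : S.card ≤ n) (hp : ∀ p ∈ S, p.Prime ∧ p ≤ Y) :
    S ∈ VV n Y := by
  unfold VV
  rw [mem_filter, mem_powerset]
  refine ⟨fun p hp' => ?_, hc⟩
  obtain ⟨h1, h2⟩ := hp p hp'
  rw [mem_filter, mem_Icc]
  exact ⟨⟨h1.pos, h2⟩, h1⟩

/-- the logarithmic sum over the family -/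
theorem fam_sumM (n : ℕ) (A B : Ei) (Y : ℕ) :
    ∑ T ∈ famM n A B Y, (1 : ℝ) / ((∏ p ∈ T, p : ℕ) : ℝ) ≤
      ((1 + Pm Y) * (45 ^ n * Real.exp (1 / 45 * Pm Y))) *
        ∑ S ∈ HD A B Y, (1 : ℝ) / ((∏ p ∈ S, p : ℕ) : ℝ) := by
  have e : ((1 + Pm Y) * ∑ S ∈ VV n Y, (1 : ℝ) / ((∏ p ∈ S, p : ℕ) : ℝ)) *
        ∑ S ∈ HD A B Y, (1 : ℝ) / ((∏ p ∈ S, p : ℕ) : ℝ) =
      ∑ x ∈ UU Y ×ˢ (VV n Y ×ˢ HD A B Y), (1 : ℝ) / ((∏ p ∈ x.1, p : ℕ) : ℝ) *
        (1 / ((∏ p ∈ x.2.1, p : ℕ) : ℝ) * (1 / ((∏ p ∈ x.2.2, p : ℕ) : ℝ))) := by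
    rw [sum_product]
    simp_rw [← mul_sum]
    rw [← sum_mul, sum_UU, sum_product]
    simp_rw [← mul_sum]
    rw [← sum_mul]
    ring
  have hS0 : 0 ≤ ∑ S ∈ HD A B Y, (1 : ℝ) / ((∏ p ∈ S, p : ℕ) : ℝ) :=
    sum_nonneg fun _ _ => by positivity
  have hP0 : 0 ≤ 1 + Pm Y := by have := Pm_nonneg Y; linarith
  refine le_trans ?_ (mul_le_mul_of_nonneg_right (mul_le_mul_of_nonneg_left (sum_VV n Y) hP0) hS0)
  rw [e]
  refine sum_le_inj (fun T => (T.filter (fun p => p % 3 = 2),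
    (T.filter (fun p => p % 3 = 1 ∧ Exc A B p), T.filter (fun p => p % 3 = 1 ∧ ¬ Exc A B p))))
    ?_ ?_ ?_ ?_
  · intro T hT
    rw [famM, mem_filter, mem_powerset] at hT
    obtain ⟨h1, h2, h3, h4, h5⟩ := hT
    have hpr : ∀ p ∈ T, p.Prime := fun p hp => (h2 p hp).1
    have hle : ∀ p ∈ T, p ≤ Y := fun p hp => by
      have := mem_range.1 (h1 hp); omega
    rw [mem_product, mem_product]
    refine ⟨mem_UU h3 fun p hp => ?_, mem_VV h4 fun p hp => ?_, ?_⟩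
    · exact ⟨hpr p (mem_filter.1 hp).1, hle p (mem_filter.1 hp).1⟩
    · exact ⟨hpr p (mem_filter.1 hp).1, hle p (mem_filter.1 hp).1⟩
    · rw [HD, mem_filter, mem_powerset]
      refine ⟨(filter_subset _ _).trans h1, fun p hp => ?_,
        (prod_sub_le (filter_subset _ _) hpr).trans h5⟩
      obtain ⟨k1, k2, k3⟩ := mem_filter.1 hp
      unfold Exc at k3
      rw [not_not] at k3
      exact ⟨hpr p k1, k2, k3.1, k3.2⟩
  · intro S hS T hT h
    rw [famM, mem_filter] at hS hT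
    simp only [Prod.mk.injEq] at h
    obtain ⟨h1, h2, h3⟩ := h
    have key : ∀ S : Finset ℕ, (∀ p ∈ S, p.Prime ∧ p ≠ 3) → ∀ p, p ∈ S ↔
        p ∈ S.filter (fun p => p % 3 = 2) ∨ p ∈ S.filter (fun p => p % 3 = 1 ∧ Exc A B p) ∨
          p ∈ S.filter (fun p => p % 3 = 1 ∧ ¬ Exc A B p) := by
      intro S hS p
      simp only [mem_filter]
      constructor
      · intro hp
        rcases Pool.Agent.Y37.CX.mod3 (hS p hp).1 (hS p hp).2 with h | h
        · by_cases hE : Exc A B p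
          · exact Or.inr (Or.inl ⟨hp, h, hE⟩)
          · exact Or.inr (Or.inr ⟨hp, h, hE⟩)
        · exact Or.inl ⟨hp, h⟩
      · rintro (h | h | h) <;> exact h.1
    ext p
    rw [key S hS.2.1, key T hT.2.1, h1, h2, h3]
  · intro T hT
    rw [famM, mem_filter, mem_powerset] at hT
    obtain ⟨h1, h2, h3, h4, h5⟩ := hT
    apply le_of_eq
    have e1 : ∏ p ∈ T, p = (∏ p ∈ T.filter (fun p => p % 3 = 2), p) *
        ((∏ p ∈ T.filter (fun p => p % 3 = 1 ∧ Exc A B p), p) *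
          ∏ p ∈ T.filter (fun p => p % 3 = 1 ∧ ¬ Exc A B p), p) := by
      rw [← prod_filter_mul_prod_filter_not T (fun p => p % 3 = 2)]
      congr 1
      rw [← prod_filter_mul_prod_filter_not (T.filter fun p => ¬ p % 3 = 2) (fun p => Exc A B p)]
      rw [filter_filter, filter_filter]
      congr 1
      · refine prod_congr (filter_congr fun p hp => ?_) fun _ _ => rfl
        have := Pool.Agent.Y37.CX.mod3 (h2 p hp).1 (h2 p hp).2
        constructor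
        · rintro ⟨a, b⟩; exact ⟨by omega, b⟩
        · rintro ⟨a, b⟩; exact ⟨by omega, b⟩
      · refine prod_congr (filter_congr fun p hp => ?_) fun _ _ => rfl
        have := Pool.Agent.Y37.CX.mod3 (h2 p hp).1 (h2 p hp).2
        constructor
        · rintro ⟨a, b⟩; exact ⟨by omega, b⟩
        · rintro ⟨a, b⟩; exact ⟨by omega, b⟩
    simp only
    rw [e1]
    push_cast
    rw [one_div_mul_one_div, one_div_mul_one_div]
  · intro x _
    positivity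

/-- the size of the family -/
theorem fam_cardM (n : ℕ) {C₁ C₂ : ℝ} (h11 : 1 ≤ C₁)
    (hSIE : ∀ (Y : ℕ) (L : Finset (Finset ℕ)), 1 ≤ Y →
      (∀ S ∈ L, (∀ p ∈ S, p.Prime) ∧ ∏ p ∈ S, p ≤ Y) → (∀ S ∈ L, ∀ T, T ⊆ S → T ∈ L) →
      (L.card : ℝ) * Real.log Y ≤ C₁ * Y * ∑ S ∈ L, (1 : ℝ) / ((∏ p ∈ S, p : ℕ) : ℝ))
    (hHAL : ∀ (A B : Ei) (T : ℕ), PS A → PS B → A ≠ B → 2 ≤ T →
      ∑ S ∈ HD A B T, (1 : ℝ) / ((∏ p ∈ S, p : ℕ) : ℝ) ≤
        C₂ * (lg (nrm A * nrm B)) ^ (1 / 6 : ℝ) * (Real.log T) ^ (1 / 3 : ℝ))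
    {A B : Ei} (hA : PS A) (hB : PS B) (hAB : A ≠ B) {Y : ℕ} (hY : 2 ≤ Y) :
    ((famM n A B Y).card : ℝ) * Real.log Y ≤ C₁ * Y *
      (((1 + Pm Y) * (45 ^ n * Real.exp (1 / 45 * Pm Y))) *
      (C₂ * (lg (nrm A * nrm B)) ^ (1 / 6 : ℝ) * (Real.log Y) ^ (1 / 3 : ℝ))) := by
  have h1 := hSIE Y (famM n A B Y) (by omega) (by
    intro S hS
    rw [famM, mem_filter] at hS
    exact ⟨fun p hp => (hS.2.1 p hp).1, hS.2.2.2.2⟩) (by
    intro S hS T hTS
    rw [famM, mem_filter, mem_powerset] at hS ⊢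
    obtain ⟨h1, h2, h3, h4, h5⟩ := hS
    refine ⟨hTS.trans h1, fun p hp => h2 p (hTS hp), ?_, ?_, ?_⟩
    · exact (card_le_card (filter_subset_filter _ hTS)).trans h3
    · exact (card_le_card (filter_subset_filter _ hTS)).trans h4
    · exact (prod_sub_le hTS fun p hp => (h2 p hp).1).trans h5)
  refine h1.trans (mul_le_mul_of_nonneg_left ((fam_sumM n A B Y).trans ?_) (by positivity))
  have := Pm_nonneg Y
  exact mul_le_mul_of_nonneg_left (hHAL A B Y hA hB hAB hY) (by positivity)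

/-! ### degenerate labels -/

theorem notNdM (hL : LamP) {R : ℕ} {W S T : Finset ℕ} (hS : ∀ u ∈ S ∪ W, u.Prime ∧ u ≠ 3)
    (hT : ∀ p ∈ T, p.Prime ∧ p ≠ 3) (hd : Disjoint (S ∪ W) T) (h : ¬ NdM R W S T)
    (hf : R ≤ (T.filter fun p => p % 3 = 1).card) :
    ∃ (b : Bool) (v : ℕ → ZMod 3), (∃ u ∈ Sf b (S ∪ W), v u ≠ 0) ∧
      (T.filter fun p => p % 3 = 1 ∧
        Exc (AA (Sf b (S ∪ W)) (Pf b v)) (AA (Sf b (S ∪ W)) (Qf b v)) p).card ≤
          2 * (S ∪ W).card + R := by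
  obtain ⟨U, hU⟩ : ∃ U, U = S ∪ W := ⟨_, rfl⟩
  unfold NdM at h
  rw [← hU] at hS hd h ⊢
  rw [not_and_or, not_and_or] at h
  rcases h with h | h | h
  · push Not at h
    obtain ⟨v, ⟨u, hu, hu1, hv⟩, h2⟩ := h
    refine ⟨true, v, ⟨u, ?_, hv⟩, ?_⟩
    · unfold Sf
      rw [if_pos rfl, mem_filter]
      exact ⟨hu, hu1⟩
    · refine (card_le_card ?_).trans h2.le
      intro p hp
      rw [mem_filter] at hp ⊢
      refine ⟨hp.1, hp.2.1, fun h0 => hp.2.2 ?_⟩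
      have hpS : p ∉ U := fun h' => disjoint_left.1 hd h' hp.1
      obtain ⟨e1, e2⟩ := xab_val hL hS true v (hT p hp.1).1 hp.2.1 hpS
      simp only [if_true] at e1 e2
      have e3 : Sf true U = U.filter (fun u => u % 3 = 1) := by unfold Sf; rw [if_pos rfl]
      rw [e3] at e1 e2 ⊢
      rw [h0, ez_zero] at e1 e2
      exact ⟨e1, e2⟩
  · push Not at h
    obtain ⟨v, ⟨u, hu, hv⟩, h2⟩ := h
    have e3 : Sf false U = U := by unfold Sf; rw [if_neg (by simp)]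
    refine ⟨false, v, ⟨u, by rw [e3]; exact hu, hv⟩, ?_⟩
    refine (card_le_card ?_).trans h2.le
    intro p hp
    rw [mem_filter] at hp ⊢
    refine ⟨hp.1, hp.2.1, fun h0 => hp.2.2 ?_⟩
    have hpS : p ∉ U := fun h' => disjoint_left.1 hd h' hp.1
    obtain ⟨e1, e2⟩ := xab_val hL hS false v (hT p hp.1).1 hp.2.1 hpS
    rw [e3] at e1 e2 ⊢
    simp only [Bool.false_eq_true, if_false] at e1 e2
    rw [h0, ez_zero] at e1
    have h4 : ∑ u ∈ U, v u * -lam p u = 0 := by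
      simp only [mul_neg, sum_neg_distrib, h0, neg_zero]
    rw [h4, ez_zero] at e2
    exact ⟨e1, e2⟩
  · rw [not_le] at h
    have hne : U.Nonempty := by
      by_contra h'
      rw [not_nonempty_iff_eq_empty] at h'
      rw [h', card_empty] at h
      omega
    obtain ⟨u, hu⟩ := hne
    have e3 : Sf false U = U := by unfold Sf; rw [if_neg (by simp)]
    refine ⟨false, fun _ => 1, ⟨u, by rw [e3]; exact hu, one_ne_zero⟩, ?_⟩
    refine (card_le_card ?_).trans h.le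
    intro p hp
    rw [mem_filter] at hp ⊢
    exact ⟨hp.1, hp.2.1⟩

/-- the number of sets with given small part -/
theorem fiberM (hL : LamP) (R X z : ℕ) {W S₀ : Finset ℕ} (hS₀ : ∀ u ∈ S₀, u.Prime ∧ u ≠ 3)
    (hW : ∀ u ∈ W, u.Prime ∧ u ≠ 3) (hWz : ∀ u ∈ W, u ≤ z) :
    ((SS X).filter fun S => (¬ NdM R W (sm z S) (la z S) ∧
      R ≤ ((la z S).filter fun p => p % 3 = 1).card) ∧ sm z S = S₀).card ≤
      ∑ t : Bool × (↥(S₀ ∪ W) → ZMod 3), if ∃ u ∈ Sf t.1 (S₀ ∪ W), xt (S₀ ∪ W) t.2 u ≠ 0 then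
        (famM (2 * (S₀ ∪ W).card + R) (AA (Sf t.1 (S₀ ∪ W)) (Pf t.1 (xt (S₀ ∪ W) t.2)))
          (AA (Sf t.1 (S₀ ∪ W)) (Qf t.1 (xt (S₀ ∪ W) t.2))) (X / ∏ p ∈ S₀, p)).card else 0 := by
  rw [← sum_filter]
  refine le_trans ?_ Finset.card_biUnion_le
  apply Finset.card_le_card_of_injOn (fun S => la z S)
  · intro S hS
    rw [mem_coe, mem_filter, SS, mem_filter, mem_powerset] at hS
    obtain ⟨⟨h1, ⟨h2, h3, -, -⟩, h4⟩, ⟨h5, hf⟩, h6⟩ := hS
    have hla : ∀ p ∈ la z S, p.Prime ∧ p ≠ 3 := fun p hp => h2 p (mem_filter.1 hp).1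
    have hsm : ∀ p ∈ sm z S ∪ W, p.Prime ∧ p ≠ 3 := fun p hp => (mem_union.1 hp).elim
      (fun h => h2 p (mem_filter.1 h).1) (hW p)
    have hd : Disjoint (sm z S ∪ W) (la z S) := by
      rw [disjoint_union_left]
      refine ⟨disjoint_filter_filter_not _ _ _, ?_⟩
      rw [disjoint_left]
      intro u hu hu'
      exact (mem_filter.1 hu').2 (hWz u hu)
    obtain ⟨b, v, ⟨u, hu, hv⟩, h7⟩ := notNdM hL hsm hla hd h5 hf
    rw [h6] at hu h7
    obtain ⟨e1, e2⟩ := AA_xt b (S₀ ∪ W) v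
    rw [mem_coe, mem_biUnion]
    refine ⟨(b, fun u => v u), ?_, ?_⟩
    · rw [mem_filter]
      refine ⟨mem_univ _, u, hu, ?_⟩
      simp only
      unfold xt
      rw [dif_pos (mem_Sf hu)]
      exact hv
    · simp only
      rw [e1, e2, famM, mem_filter, mem_powerset]
      have hN : 0 < ∏ p ∈ S₀, p := prod_pos_of fun p hp => (hS₀ p hp).1
      have hprod : ∏ p ∈ la z S, p ≤ X / ∏ p ∈ S₀, p := by
        rw [Nat.le_div_iff_mul_le hN, mul_comm, ← h6]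
        have : (∏ p ∈ sm z S, p) * ∏ p ∈ la z S, p = ∏ p ∈ S, p :=
          prod_filter_mul_prod_filter_not _ _ _
        rw [this]
        exact h4
      refine ⟨sub_range (fun p hp => (hla p hp).1) hprod, hla, ?_, h7, hprod⟩
      rw [← h3]
      exact card_le_card (filter_subset_filter _ (filter_subset _ _))
  · intro S hS T hT h
    rw [mem_coe, mem_filter] at hS hT
    simp only at h
    have key : ∀ S : Finset ℕ, sm z S ∪ la z S = S := fun S => filter_union_filter_not_eq _ _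
    rw [← key S, ← key T, hS.2.2, hT.2.2, h]

/-- the parameters, for large `X` -/
theorem paramsM (a : ℕ) (c : ℝ) : ∃ X₀ : ℕ, ∀ X : ℕ, X₀ ≤ X → 3 ≤ X ∧ 2 ≤ Real.log (Real.log X) ∧
    1 < Real.log X ∧ 33 * Real.log (Real.log X) ^ 4 + 3 ≤ Real.log X ∧
    Real.log (Real.log X) ^ a * (1 + (Real.log (Real.log X) + c)) ≤ Real.log X ^ (1 / 45 : ℝ) := by
  have h0 : Filter.Tendsto (fun X : ℕ => Real.log (Real.log (X : ℝ))) Filter.atTop Filter.atTop :=
    Real.tendsto_log_atTop.comp (Real.tendsto_log_atTop.comp tendsto_natCast_atTop_atTop)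
  have hf : ∀ᶠ t : ℝ in Filter.atTop, t ^ a * (1 + (t + c)) ≤ Real.exp (t / 45) := by
    filter_upwards [ev_pow (a + 1) (show (0 : ℝ) < 3 by norm_num) (show (0 : ℝ) < 45 by norm_num),
      Filter.eventually_ge_atTop 1, Filter.eventually_ge_atTop |c|] with t h1 h2 h3
    refine le_trans ?_ h1
    have h4 : 1 + (t + c) ≤ 3 * t := by
      have := (abs_le.1 h3).2
      have := le_abs_self c
      linarith
    calc t ^ a * (1 + (t + c)) ≤ t ^ a * (3 * t) := by gcongr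
      _ = 3 * t ^ (a + 1) := by rw [pow_succ]; ring
  have h1 := h0.eventually hf
  have h2 := h0.eventually (ev_pow 4 (show (0 : ℝ) < 36 by norm_num) (show (0 : ℝ) < 1 by norm_num))
  have h3 := h0.eventually (Filter.eventually_ge_atTop (2 : ℝ))
  have h4 := (Real.tendsto_log_atTop.comp tendsto_natCast_atTop_atTop).eventually
    (Filter.eventually_gt_atTop (1 : ℝ))
  obtain ⟨X₀, hX⟩ := Filter.eventually_atTop.1
    (((h1.and h2).and (h3.and h4)).and (Filter.eventually_ge_atTop 3))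
  refine ⟨X₀, fun X hX0 => ?_⟩
  obtain ⟨⟨⟨k1, k2⟩, k3, k4⟩, k5⟩ := hX X hX0
  simp only [Function.comp] at k4
  have hpos : 0 < Real.log (X : ℝ) := by linarith
  have e1 : Real.exp (Real.log (Real.log (X : ℝ))) = Real.log X := Real.exp_log hpos
  refine ⟨k5, k3, k4, ?_, ?_⟩
  · rw [div_one, e1] at k2
    have : (1 : ℝ) ≤ Real.log (Real.log (X : ℝ)) ^ 4 := one_le_pow₀ (by linarith)
    linarith
  · refine k1.trans (le_of_eq ?_)
    rw [Real.rpow_def_of_pos hpos]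
    congr 1
    ring

theorem zz_ev (n : ℕ) : ∃ X₁ : ℕ, ∀ X, X₁ ≤ X → n ≤ zz X := by
  have h : Filter.Tendsto (fun X : ℕ => Real.exp ((eL X) ^ 3)) Filter.atTop Filter.atTop :=
    Real.tendsto_exp_atTop.comp ((Filter.tendsto_pow_atTop (by norm_num)).comp eL_tendsto)
  obtain ⟨X₁, hX₁⟩ := Filter.eventually_atTop.1 (h.eventually (Filter.eventually_ge_atTop (n : ℝ)))
  exact ⟨X₁, fun X hX => Nat.le_floor (hX₁ X hX)⟩

theorem kk_ev (n : ℕ) : ∃ X₁ : ℕ, ∀ X, X₁ ≤ X → n ≤ kk X := by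
  obtain ⟨X₁, hX₁⟩ := Filter.eventually_atTop.1 (ev_eL (n : ℝ))
  refine ⟨X₁, fun X hX => ?_⟩
  have h1 := hX₁ X hX
  have h2 := kk_ge X
  have h3 : (0 : ℝ) ≤ n := Nat.cast_nonneg n
  have h4 : (n : ℝ) ≤ kk X := by linarith
  exact_mod_cast h4

end Q283.Q3
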