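import Pool.Agent.Q283.T3.Pol

/-! The constants of the law of the corank of a large square matrix over the field with three
elements -/

set_option autoImplicit false

namespace Q283.Q3

open Finset Filter Topology
open Q283.T3 (cf cf_pos cf_le_one pm1 ff ff_le)

/-- the terms of the series -/
noncomputable def hh (r j : ℕ) : ℝ := cf j * (3 ^ (r * j))⁻¹

theorem hh_pos (r j : ℕ) : 0 < hh r j := mul_pos (cf_pos j) (by positivity)

theorem hh_succ (r j : ℕ) : hh r (j + 1) = hh r j * (1 / (3 ^ r * (3 ^ (j + 1) - 1))) := by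
  unfold hh
  have h1 := pm1 j
  have h2 : (3 : ℝ) ^ (j + 1) - 1 ≠ 0 := by linarith
  rw [show cf (j + 1) = cf j / (3 ^ (j + 1) - 1) from rfl, mul_add, mul_one, pow_add (3 : ℝ) (r * j)]
  have h3 : (3 : ℝ) ^ (r * j) ≠ 0 := by positivity
  field_simp

theorem hh_fac (r j : ℕ) : 1 / ((3 : ℝ) ^ r * (3 ^ (j + 1) - 1)) ≤ 1 / 2 := by
  have h1 := pm1 j
  have h2 : (1 : ℝ) ≤ 3 ^ r := one_le_pow₀ (by norm_num)
  rw [div_le_div_iff₀ (by nlinarith) (by norm_num)]
  nlinarith

theorem hh_fac0 (r j : ℕ) : 0 ≤ 1 / ((3 : ℝ) ^ r * (3 ^ (j + 1) - 1)) := by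
  have h1 := pm1 j
  have h2 : (0 : ℝ) < 3 ^ r := by positivity
  have : (0 : ℝ) < 3 ^ r * (3 ^ (j + 1) - 1) := mul_pos h2 (by linarith)
  positivity

theorem hh_anti (r : ℕ) : Antitone (hh r) := by
  refine antitone_nat_of_succ_le fun j => ?_
  rw [hh_succ]
  exact mul_le_of_le_one_right (hh_pos r j).le ((hh_fac r j).trans (by norm_num))

theorem hh_zero (r : ℕ) : hh r 0 = 1 := by simp [hh, cf]

theorem hh_le (r j : ℕ) : hh r j ≤ (1 / 2) ^ j := by
  induction j with
  | zero => rw [hh_zero]; simp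
  | succ j ih =>
    rw [hh_succ, pow_succ (1 / 2 : ℝ)]
    exact mul_le_mul ih (hh_fac r j) (hh_fac0 r j) (by positivity)

theorem hh_le_one (r j : ℕ) : hh r j ≤ 1 := by
  have := hh_anti r (Nat.zero_le j)
  rwa [hh_zero] at this

theorem hh_tendsto (r : ℕ) : Tendsto (hh r) atTop (𝓝 0) := by
  refine squeeze_zero (fun j => (hh_pos _ _).le) (hh_le r) ?_
  exact tendsto_pow_atTop_nhds_zero_of_lt_one (by norm_num) (by norm_num)

theorem exists_g (r : ℕ) :
    ∃ g : ℝ, Tendsto (fun n => ∑ i ∈ range n, (-1) ^ i * hh r i) atTop (𝓝 g) :=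
  (hh_anti r).tendsto_alternating_series_of_tendsto_zero (hh_tendsto r)

/-- the sum of the series -/
noncomputable def gq (r : ℕ) : ℝ := Classical.choose (exists_g r)

theorem gq_tendsto (r : ℕ) : Tendsto (fun n => ∑ i ∈ range n, (-1) ^ i * hh r i) atTop (𝓝 (gq r)) :=
  Classical.choose_spec (exists_g r)

theorem gq_ge (r : ℕ) : 0 ≤ gq r := by
  have h1 := (hh_anti r).alternating_series_le_tendsto (gq_tendsto r) 0
  simpa using h1

theorem gq_le (r : ℕ) : gq r ≤ 1 := by
  have h1 := (hh_anti r).tendsto_le_alternating_series (gq_tendsto r) 0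
  simpa [hh_zero] using h1

theorem gq_ge' (r : ℕ) : 1 - (1 / 3) ^ r ≤ gq r := by
  have h1 := (hh_anti r).alternating_series_le_tendsto (gq_tendsto r) 1
  rw [show 2 * 1 = 2 from rfl, Finset.sum_range_succ, Finset.sum_range_one, hh_zero] at h1
  have h2 : hh r 1 ≤ (1 / 3) ^ r := by
    rw [hh_succ, hh_zero, one_mul]
    have h2 : (1 : ℝ) ≤ 3 ^ r := one_le_pow₀ (by norm_num)
    rw [div_pow, one_pow]
    apply one_div_le_one_div_of_le (by positivity)
    norm_num
  norm_num at h1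
  linarith

theorem gq_rec (r : ℕ) : gq r = (1 - (1 / 3) ^ (r + 1)) * gq (r + 1) := by
  have key : ∀ n, ∑ i ∈ range (n + 1), (-1) ^ i * hh r i =
      ∑ i ∈ range (n + 1), (-1) ^ i * hh (r + 1) i -
        (1 / 3) ^ (r + 1) * ∑ i ∈ range n, (-1) ^ i * hh (r + 1) i := by
    intro n
    induction n with
    | zero => simp [hh_zero]
    | succ n ih =>
      rw [Finset.sum_range_succ, ih, Finset.sum_range_succ _ (n + 1), Finset.sum_range_succ _ n]
      have e1 : hh r (n + 1) = hh (r + 1) (n + 1) + (1 / 3) ^ (r + 1) * hh (r + 1) n := by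
        unfold hh
        have h1 := pm1 n
        have h2 : (3 : ℝ) ^ (n + 1) - 1 ≠ 0 := by linarith
        rw [show cf (n + 1) = cf n / (3 ^ (n + 1) - 1) from rfl]
        have h3 : (3 : ℝ) ^ ((r + 1) * (n + 1)) = 3 ^ (r * (n + 1)) * 3 ^ (n + 1) := by
          rw [← pow_add]; congr 1; ring
        have h4 : (3 : ℝ) ^ ((r + 1) * n) * 3 ^ (r + 1) = 3 ^ (r * (n + 1)) * 3 ^ (n + 1) := by
          rw [← pow_add, ← pow_add]; congr 1; ring
        have h5 : (3 : ℝ) ^ ((r + 1) * n) = 3 ^ (r * (n + 1)) * 3 ^ (n + 1) / 3 ^ (r + 1) := by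
          rw [eq_div_iff (by positivity)]
          exact h4
        rw [h3, h5, div_pow, one_pow]
        field_simp
        ring
      rw [e1, pow_succ (-1 : ℝ) n]
      ring
  have h1 := (gq_tendsto r).comp (tendsto_add_atTop_nat 1)
  have h2 := ((gq_tendsto (r + 1)).comp (tendsto_add_atTop_nat 1)).sub
    ((gq_tendsto (r + 1)).const_mul ((1 / 3) ^ (r + 1)))
  have h3 := tendsto_nhds_unique h1 (h2.congr fun n => (key n).symm)
  rw [h3]
  ring

theorem gq_prod (n : ℕ) : gq 0 = (∏ i ∈ range n, (1 - (1 / 3 : ℝ) ^ (i + 1))) * gq n := by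
  induction n with
  | zero => simp
  | succ n ih => rw [ih, Finset.prod_range_succ, gq_rec n]; ring

theorem prod_tendsto : Tendsto (fun n => ∏ i ∈ range n, (1 - (1 / 3 : ℝ) ^ (i + 1))) atTop
    (𝓝 (gq 0)) := by
  have h1 : Tendsto gq atTop (𝓝 1) := by
    refine tendsto_of_tendsto_of_tendsto_of_le_of_le (g := fun r => 1 - (1 / 3 : ℝ) ^ r) ?_
      tendsto_const_nhds gq_ge' gq_le
    have := (tendsto_pow_atTop_nhds_zero_of_lt_one (by norm_num : (0 : ℝ) ≤ 1 / 3)
      (by norm_num)).const_sub 1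
    simpa using this
  have h2 : Tendsto (fun n => gq 0 / gq n) atTop (𝓝 (gq 0 / 1)) :=
    tendsto_const_nhds.div h1 one_ne_zero
  rw [div_one] at h2
  refine h2.congr' ?_
  filter_upwards [eventually_ge_atTop 1] with n hn
  have h3 : 0 < gq n := by
    have h4 := gq_ge' n
    have h5 : (1 / 3 : ℝ) ^ n ≤ (1 / 3) ^ 1 :=
      pow_le_pow_of_le_one (by norm_num) (by norm_num) hn
    norm_num at h4 h5
    linarith
  rw [div_eq_iff h3.ne']
  exact gq_prod n

end Q283.Q3
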