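import Pool.Agent.Q283.T3.Cmp
import Pool.Agent.Q283.Q3.Pq

/-! Linear maps over the field with three elements which vanish on a subspace and have values in a
subspace (after `Pool.Agent.Q283.T3.Cmp`) -/

set_option autoImplicit false

namespace Q283.Q3

open Finset Module
open Q283.T3 (ij finrank_sup finrank_sup_span card_comb card_LI exists_l)

variable {V R : Type} [AddCommGroup V] [Module (ZMod 3) V] [AddCommGroup R] [Module (ZMod 3) R]

/-- all maps -/
@[instance_reducible] noncomputable def Fm [Finite V] [Finite R] : Fintype (V →ₗ[ZMod 3] R) :=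
  haveI : Finite (V →ₗ[ZMod 3] R) := Finite.of_injective
    (fun (B : V →ₗ[ZMod 3] R) (x : V) => B x) (fun _ _ h => LinearMap.ext fun x => congrFun h x)
  Fintype.ofFinite _

/-- injective on `W` -/
def Nd (B : V →ₗ[ZMod 3] R) (W : Submodule (ZMod 3) V) : Prop :=
  ∀ w ∈ W, B w = 0 → w = 0

open Classical in
/-- the maps which vanish on `W` and have values in `R₀` -/
noncomputable def YY [Finite V] [Finite R] (W : Submodule (ZMod 3) V) (R₀ : Submodule (ZMod 3) R) :
    Finset (V →ₗ[ZMod 3] R) :=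
  Fm.elems.filter fun Y => (∀ w ∈ W, Y w = 0) ∧ ∀ x, Y x ∈ R₀

theorem mem_YY [Finite V] [Finite R] {W : Submodule (ZMod 3) V} {R₀ : Submodule (ZMod 3) R}
    {Y : V →ₗ[ZMod 3] R} : Y ∈ YY W R₀ ↔ (∀ w ∈ W, Y w = 0) ∧ ∀ x, Y x ∈ R₀ := by
  classical
  unfold YY
  rw [Finset.mem_filter]
  exact ⟨fun h => h.2, fun h => ⟨Fm.complete Y, h⟩⟩

variable [Finite V] [Finite R]

open Classical in
/-- the elements of a subspace -/
noncomputable def El (R₀ : Submodule (ZMod 3) R) : Finset R :=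
  (Fintype.ofFinite R).elems.filter fun x => x ∈ R₀

theorem mem_El {R₀ : Submodule (ZMod 3) R} {x : R} : x ∈ El R₀ ↔ x ∈ R₀ := by
  classical
  unfold El
  rw [Finset.mem_filter]
  exact ⟨fun h => h.2, fun h => ⟨(Fintype.ofFinite R).complete x, h⟩⟩

theorem card_El (R₀ : Submodule (ZMod 3) R) : (El R₀).card = 3 ^ finrank (ZMod 3) R₀ := by
  have hfin : Module.Finite (ZMod 3) R := Module.Finite.of_finite
  have h1 : (El R₀).card = Nat.card R₀ := by
    have h2 : ((El R₀ : Finset R) : Set R) = (R₀ : Set R) := by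
      ext x
      rw [Finset.mem_coe, mem_El]
      rfl
    rw [← Set.ncard_coe_finset, h2]
    rfl
  rw [h1, Module.natCard_eq_pow_finrank (K := ZMod 3), Nat.card_zmod]

/-- a map with given value -/
theorem exists_row {W : Submodule (ZMod 3) V} {R₀ : Submodule (ZMod 3) R} {v : V} (hv : v ∉ W)
    {ρ : R} (hρ : ρ ∈ R₀) : ∃ Y : V →ₗ[ZMod 3] R, Y ∈ YY W R₀ ∧ Y v = ρ := by
  obtain ⟨l, hlW, hlv⟩ := exists_l hv
  refine ⟨l.smulRight ρ, mem_YY.2 ⟨fun w hw => ?_, fun x => ?_⟩, ?_⟩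
  · rw [LinearMap.smulRight_apply, hlW w hw, zero_smul]
  · rw [LinearMap.smulRight_apply]
    exact R₀.smul_mem _ hρ
  · rw [LinearMap.smulRight_apply, hlv, one_smul]

open Classical in
theorem card_cond {W : Submodule (ZMod 3) V} {R₀ : Submodule (ZMod 3) R} {j : ℕ} (v : Fin j → V)
    {Y₀ : V →ₗ[ZMod 3] R} (hY₀ : Y₀ ∈ YY W R₀) (p : (V →ₗ[ZMod 3] R) → Prop) :
    ((YY W R₀).filter fun Y => p Y ∧ ∀ i, Y (v i) = Y₀ (v i)).card =
      ((YY (W ⊔ Submodule.span (ZMod 3) (Set.range v)) R₀).filter fun Y => p (Y₀ + Y)).card := by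
  have hY0 := mem_YY.1 hY₀
  symm
  refine Finset.card_bij' (fun Y _ => Y₀ + Y) (fun Y _ => Y - Y₀) ?_ ?_
    (fun Y _ => add_sub_cancel_left Y₀ Y) (fun Y _ => add_sub_cancel Y₀ Y)
  · intro Y hY
    rw [Finset.mem_filter, mem_YY] at hY
    obtain ⟨⟨h1, h2⟩, h3⟩ := hY
    rw [Finset.mem_filter, mem_YY]
    refine ⟨⟨fun w hw => ?_, fun x => ?_⟩, h3, fun i => ?_⟩
    · rw [LinearMap.add_apply, hY0.1 w hw, h1 w (Submodule.mem_sup_left hw), add_zero]
    · rw [LinearMap.add_apply]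
      exact R₀.add_mem (hY0.2 x) (h2 x)
    · rw [LinearMap.add_apply, h1 _ (Submodule.mem_sup_right (Submodule.subset_span ⟨i, rfl⟩)),
        add_zero]
  · intro Y hY
    rw [Finset.mem_filter, mem_YY] at hY
    obtain ⟨⟨h1, h2⟩, h3, h4⟩ := hY
    rw [Finset.mem_filter, mem_YY]
    refine ⟨⟨?_, fun x => ?_⟩, (congrArg p (add_sub_cancel Y₀ Y)).mpr h3⟩
    · have h5 : W ⊔ Submodule.span (ZMod 3) (Set.range v) ≤ LinearMap.ker (Y - Y₀) := by
        refine sup_le (fun w hw => ?_) (Submodule.span_le.2 ?_)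
        · rw [LinearMap.mem_ker, LinearMap.sub_apply, hY0.1 w hw, h1 w hw, sub_zero]
        · rintro x ⟨i, rfl⟩
          rw [SetLike.mem_coe, LinearMap.mem_ker, LinearMap.sub_apply, h4 i, sub_self]
      exact fun w hw => LinearMap.mem_ker.1 (h5 hw)
    · rw [LinearMap.sub_apply]
      exact R₀.sub_mem (h2 x) (hY0.2 x)

open Classical in
theorem card_YY {W : Submodule (ZMod 3) V} {R₀ : Submodule (ZMod 3) R} {v : V} (hv : v ∉ W) :
    (YY W R₀).card = (El R₀).card * (YY (W ⊔ Submodule.span (ZMod 3) {v}) R₀).card := by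
  rw [Finset.card_eq_sum_card_fiberwise (f := fun Y : V →ₗ[ZMod 3] R => Y v)
    (t := El R₀) (by
      intro Y hY
      exact mem_El.2 ((mem_YY.1 hY).2 v))]
  rw [← smul_eq_mul, ← Finset.sum_const]
  refine Finset.sum_congr rfl fun ρ hρ => ?_
  obtain ⟨Y₀, h1, h2⟩ := exists_row hv (mem_El.1 hρ)
  have h3 := card_cond (j := 1) (fun _ => v) h1 (fun _ => True)
  simp only [Finset.filter_true, true_and, Set.range_const] at h3
  rw [← h3, ← h2]
  congr 1
  ext Y
  simp

theorem card_YY_eq (R₀ : Submodule (ZMod 3) R) (s : ℕ) : ∀ W : Submodule (ZMod 3) V,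
    finrank (ZMod 3) W + s = finrank (ZMod 3) V →
    (YY W R₀).card = (3 ^ finrank (ZMod 3) R₀) ^ s := by
  have hfin : Module.Finite (ZMod 3) V := Module.Finite.of_finite
  induction s with
  | zero =>
    intro W h
    have h1 : W = ⊤ := Submodule.eq_top_of_finrank_eq (by simpa using h)
    have h2 : YY W R₀ = {0} := by
      ext Y
      rw [mem_YY, Finset.mem_singleton, h1]
      constructor
      · rintro ⟨h3, -⟩
        exact LinearMap.ext fun x => by rw [h3 x trivial]; rfl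
      · rintro rfl
        exact ⟨fun _ _ => rfl, fun _ => R₀.zero_mem⟩
    rw [h2]
    rfl
  | succ s ih =>
    intro W h
    obtain ⟨v, hv⟩ : ∃ v, v ∉ W := by
      by_contra hc
      push Not at hc
      have h1 : W = ⊤ := eq_top_iff.2 fun x _ => hc x
      rw [h1, finrank_top] at h
      omega
    rw [card_YY hv, card_El, ih _ (finrank_sup hv h), pow_succ]
    ring

theorem exists_form {B : V →ₗ[ZMod 3] R} {W U : Submodule (ZMod 3) V} {R₀ : Submodule (ZMod 3) R}
    (hd : ∀ x ∈ U, x ∈ W → x = 0) (hN : ∀ u ∈ U, B u ∈ R₀) :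
    ∃ Y₀ ∈ YY W R₀, ∀ u ∈ U, Y₀ u = -B u := by
  have hinj : LinearMap.ker (W.mkQ.comp U.subtype) = ⊥ := by
    rw [LinearMap.ker_eq_bot']
    rintro ⟨x, hx⟩ h
    apply Subtype.ext
    apply hd x hx
    simpa using h
  obtain ⟨g, hg⟩ := LinearMap.exists_leftInverse_of_injective _ hinj
  set π : V →ₗ[ZMod 3] V := U.subtype.comp (g.comp W.mkQ) with hπ
  have hπW : ∀ w ∈ W, π w = 0 := by
    intro w hw
    have : W.mkQ w = 0 := by simpa using hw
    rw [hπ, LinearMap.comp_apply, LinearMap.comp_apply, this, map_zero, map_zero]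
  have hπU : ∀ u ∈ U, π u = u := by
    intro u hu
    have := congrArg (fun z : U →ₗ[ZMod 3] U => ((z ⟨u, hu⟩ : U) : V)) hg
    exact this
  have hπm : ∀ x, π x ∈ U := fun x => (g (W.mkQ x)).2
  refine ⟨-(B.comp π), mem_YY.2 ⟨fun w hw => ?_, fun x => ?_⟩, fun u hu => ?_⟩
  · rw [LinearMap.neg_apply, LinearMap.comp_apply, hπW w hw, map_zero, neg_zero]
  · rw [LinearMap.neg_apply, LinearMap.comp_apply]
    exact R₀.neg_mem (hN _ (hπm x))
  · rw [LinearMap.neg_apply, LinearMap.comp_apply, hπU u hu]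

omit [Finite V] [Finite R] in
theorem add_eq_zero_iff' {B Y : V →ₗ[ZMod 3] R} {x : V} : (B + Y) x = 0 ↔ Y x = -B x := by
  rw [LinearMap.add_apply]
  constructor
  · intro h
    exact eq_neg_of_add_eq_zero_right h
  · intro h
    rw [h, add_neg_cancel]

end Q283.Q3
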