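import Pool.Agent.Q283.Q3.Esq

/-! Several linear maps which are completed by the same random map: the joint law of the coranks
(after `Pool.Agent.Q283.T3.Jt`) -/

set_option autoImplicit false

namespace Q283.Q3

open Finset Module Filter Topology
open Q283.T3 (ij finrank_sup finrank_sup_span card_comb card_LI exists_l cf cf_pos cf_le_one qq
  qq_odd qq_even ij_self)

section jj
variable {V R : Type} [AddCommGroup V] [Module (ZMod 3) V] [AddCommGroup R] [Module (ZMod 3) R]

/-- the obstruction to the independence -/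
def JJ (B B' : V →ₗ[ZMod 3] R) (W : Submodule (ZMod 3) V) (R₀ : Submodule (ZMod 3) R) :
    Submodule (ZMod 3) (V × V) where
  carrier := {p | p.1 - p.2 ∈ W ∧ B p.1 = B' p.2 ∧ B p.1 ∈ R₀}
  add_mem' := by
    rintro p q ⟨h1, h2, h3⟩ ⟨h4, h5, h6⟩
    refine ⟨?_, ?_, ?_⟩
    · rw [Prod.fst_add, Prod.snd_add, show p.1 + q.1 - (p.2 + q.2) = (p.1 - p.2) + (q.1 - q.2) by
        abel]
      exact W.add_mem h1 h4
    · rw [Prod.fst_add, Prod.snd_add, map_add, map_add, h2, h5]
    · rw [Prod.fst_add, map_add]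
      exact R₀.add_mem h3 h6
  zero_mem' := by
    refine ⟨?_, ?_, ?_⟩
    · rw [Prod.fst_zero, Prod.snd_zero, sub_zero]
      exact W.zero_mem
    · rw [Prod.fst_zero, Prod.snd_zero, map_zero, map_zero]
    · rw [Prod.fst_zero, map_zero]
      exact R₀.zero_mem
  smul_mem' := by
    rintro c p ⟨h1, h2, h3⟩
    refine ⟨?_, ?_, ?_⟩
    · rw [Prod.smul_fst, Prod.smul_snd, ← smul_sub]
      exact W.smul_mem c h1
    · rw [Prod.smul_fst, Prod.smul_snd, map_smul, map_smul, h2]
    · rw [Prod.smul_fst, map_smul]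
      exact R₀.smul_mem c h3

theorem mem_JJ {B B' : V →ₗ[ZMod 3] R} {W : Submodule (ZMod 3) V} {R₀ : Submodule (ZMod 3) R}
    {p : V × V} : p ∈ JJ B B' W R₀ ↔ p.1 - p.2 ∈ W ∧ B p.1 = B' p.2 ∧ B p.1 ∈ R₀ := Iff.rfl

theorem finrank_JJ [Finite V] [Finite R] {B B' Y₀ : V →ₗ[ZMod 3] R}
    {W : Submodule (ZMod 3) V} {R₀ : Submodule (ZMod 3) R} (hY : Y₀ ∈ YY W R₀) {j : ℕ}
    (v : Fin j → V) :
    finrank (ZMod 3) (JJ (B + Y₀) (B' + Y₀) (W ⊔ Submodule.span (ZMod 3) (Set.range v)) R₀) ≤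
      finrank (ZMod 3) (JJ B B' W R₀) + j := by
  have hfin : Module.Finite (ZMod 3) V := Module.Finite.of_finite
  have hY' := mem_YY.1 hY
  set U := Submodule.span (ZMod 3) (Set.range v) with hU
  set J' := JJ (B + Y₀) (B' + Y₀) (W ⊔ U) R₀ with hJ'
  set f : (V × V) →ₗ[ZMod 3] V ⧸ W :=
    W.mkQ.comp (LinearMap.fst (ZMod 3) V V - LinearMap.snd (ZMod 3) V V) with hf
  set g : J' →ₗ[ZMod 3] V ⧸ W := f.comp J'.subtype with hg
  have h1 := LinearMap.finrank_range_add_finrank_ker g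
  have h2 : finrank (ZMod 3) (LinearMap.range g) ≤ j := by
    have h3 : LinearMap.range g ≤ Submodule.span (ZMod 3) (Set.range fun i => W.mkQ (v i)) := by
      rintro _ ⟨⟨p, hp⟩, rfl⟩
      have h4 := (mem_JJ.1 hp).1
      have h5 : W.mkQ (p.1 - p.2) ∈ (W ⊔ U).map W.mkQ := ⟨_, h4, rfl⟩
      rw [Submodule.map_sup] at h5
      have h6 : W.map W.mkQ = ⊥ := by
        rw [Submodule.eq_bot_iff]
        rintro _ ⟨w, hw, rfl⟩
        simpa using hw
      rw [h6, bot_sup_eq, hU, Submodule.map_span, ← Set.range_comp] at h5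
      exact h5
    have h7 := Submodule.finrank_mono h3
    have h8 := finrank_range_le_card (R := ZMod 3) (fun i : Fin j => W.mkQ (v i))
    rw [Fintype.card_fin] at h8
    exact h7.trans h8
  have h3 : finrank (ZMod 3) (LinearMap.ker g) ≤ finrank (ZMod 3) (JJ B B' W R₀) := by
    have h4 : ∀ z : LinearMap.ker g, ((z : J') : V × V) ∈ JJ B B' W R₀ := by
      rintro ⟨⟨p, hp⟩, hz⟩
      have h5 := mem_JJ.1 hp
      have h6 : p.1 - p.2 ∈ W := by
        have : W.mkQ (p.1 - p.2) = 0 := LinearMap.mem_ker.1 hz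
        rw [Submodule.mkQ_apply, Submodule.Quotient.mk_eq_zero] at this
        exact this
      have h7 : Y₀ p.1 = Y₀ p.2 := by
        rw [← sub_eq_zero, ← map_sub, hY'.1 _ h6]
      rw [mem_JJ]
      refine ⟨h6, ?_, ?_⟩
      · have h8 := h5.2.1
        rw [LinearMap.add_apply, LinearMap.add_apply, h7] at h8
        exact add_right_cancel h8
      · have h8 := R₀.sub_mem h5.2.2 (hY'.2 p.1)
        rwa [LinearMap.add_apply, add_sub_cancel_right] at h8
    refine LinearMap.finrank_le_finrank_of_injective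
      (f := LinearMap.codRestrict (JJ B B' W R₀) (J'.subtype.comp (LinearMap.ker g).subtype) h4) ?_
    intro z z' h
    have h5 := congrArg (fun q : JJ B B' W R₀ => (q : V × V)) h
    apply Subtype.ext
    apply Subtype.ext
    exact h5
  omega

theorem nd_JJ [Finite V] [Finite R] {B B' Y₀ : V →ₗ[ZMod 3] R} {W : Submodule (ZMod 3) V}
    {R₀ : Submodule (ZMod 3) R} (hN : Nd B' W) (hY : Y₀ ∈ YY W R₀) {U : Submodule (ZMod 3) V}
    (hU : ∀ u ∈ U, Y₀ u = -B u) (hUW : ∀ u ∈ U, B u ∈ R₀)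
    (hgood : ∀ u ∈ U, u ≠ 0 → ∀ b, (u, b) ∉ JJ B B' W R₀) : Nd (B' + Y₀) (W ⊔ U) := by
  have hY' := mem_YY.1 hY
  intro x hx hx0
  obtain ⟨w, hw, u, hu, rfl⟩ := Submodule.mem_sup.1 hx
  rw [add_eq_zero_iff', map_add, hY'.1 w hw, zero_add, hU u hu, neg_inj] at hx0
  by_cases h0 : u = 0
  · rw [h0, map_zero, add_zero] at hx0
    rw [h0, add_zero]
    exact hN w hw hx0.symm
  · exfalso
    refine hgood u hu h0 (w + u) (mem_JJ.2 ⟨?_, hx0, hUW u hu⟩)
    show u - (w + u) ∈ W
    rw [show u - (w + u) = -w by abel]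
    exact W.neg_mem hw

end jj

/-- the law -/
noncomputable def cq (r : ℕ) : ℝ := cf r / 3 ^ (r * (r - 1) / 2) * gq r

theorem cq_ge (r : ℕ) : 0 ≤ cq r := mul_nonneg (div_nonneg (cf_pos r).le (by positivity)) (gq_ge r)

theorem cf_div_le (r : ℕ) : cf r / 3 ^ (r * (r - 1) / 2) ≤ 1 := by
  rw [div_le_one (by positivity)]
  exact (cf_le_one r).trans (one_le_pow₀ (by norm_num))

theorem cf_div_pos (r : ℕ) : 0 < cf r / 3 ^ (r * (r - 1) / 2) := div_pos (cf_pos r) (by positivity)

theorem cq_le (r : ℕ) : cq r ≤ 1 := mul_le_one₀ (cf_div_le r) (gq_ge r) (gq_le r)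

open Classical in
theorem sum_qq {V R : Type} [AddCommGroup V] [Module (ZMod 3) V] [Fintype V] [AddCommGroup R]
    [Module (ZMod 3) R] {𝒴 : Finset (V →ₗ[ZMod 3] R)} {B : V →ₗ[ZMod 3] R} {γ N δ : ℝ}
    (hN : 0 ≤ N) {r I : ℕ}
    (h : ∀ j ≤ r + I, |∑ Y ∈ 𝒴, ij j (3 ^ finrank (ZMod 3) (LinearMap.ker (B + Y))) -
      γ * N| ≤ N * δ) (hδ : 0 ≤ δ) :
    |∑ Y ∈ 𝒴, qq r I (3 ^ finrank (ZMod 3) (LinearMap.ker (B + Y))) -
      γ * (cf r / 3 ^ (r * (r - 1) / 2)) * (∑ j ∈ range (I + 1), (-1) ^ j * hh r j) * N| ≤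
        N * ((I + 1) * δ) := by
  set t : ℝ := 3 ^ (r * (r - 1) / 2) with ht
  have ht0 : 0 < t := by positivity
  have hcr := cf_pos r
  have hct : cf r / t ≤ 1 := cf_div_le r
  have hct0 : 0 < cf r / t := cf_div_pos r
  have hs : ij r (3 ^ r) = t / cf r := ij_self r
  have h1 : ∑ Y ∈ 𝒴, qq r I (3 ^ finrank (ZMod 3) (LinearMap.ker (B + Y))) =
      ∑ j ∈ range (I + 1), (-1) ^ j * hh r j * (cf r / t) *
        ∑ Y ∈ 𝒴, ij (r + j) (3 ^ finrank (ZMod 3) (LinearMap.ker (B + Y))) := by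
    unfold qq hh
    rw [hs]
    simp only [Finset.sum_div, Finset.mul_sum]
    rw [Finset.sum_comm]
    refine Finset.sum_congr rfl fun j _ => Finset.sum_congr rfl fun Y _ => ?_
    field_simp
  have h2 : γ * (cf r / t) * (∑ j ∈ range (I + 1), (-1) ^ j * hh r j) * N =
      ∑ j ∈ range (I + 1), (-1) ^ j * hh r j * (cf r / t) * (γ * N) := by
    rw [Finset.mul_sum, Finset.sum_mul]
    refine Finset.sum_congr rfl fun j _ => ?_
    ring
  rw [h1, h2, ← Finset.sum_sub_distrib]
  refine (Finset.abs_sum_le_sum_abs _ _).trans ?_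
  have h3 : ∀ j ∈ range (I + 1), |(-1) ^ j * hh r j * (cf r / t) *
      ∑ Y ∈ 𝒴, ij (r + j) (3 ^ finrank (ZMod 3) (LinearMap.ker (B + Y))) -
      (-1) ^ j * hh r j * (cf r / t) * (γ * N)| ≤ N * δ := by
    intro j hj
    rw [Finset.mem_range] at hj
    have h4 := h (r + j) (by omega)
    have h5 : 0 ≤ hh r j * (cf r / t) := mul_nonneg (hh_pos r j).le hct0.le
    have h5' : hh r j * (cf r / t) ≤ 1 := mul_le_one₀ (hh_le_one r j) hct0.le hct
    rw [← mul_sub, abs_mul]
    have h6 : |(-1) ^ j * hh r j * (cf r / t)| = hh r j * (cf r / t) := by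
      have e : (-1) ^ j * hh r j * (cf r / t) = (-1) ^ j * (hh r j * (cf r / t)) := by ring
      rw [e, abs_mul, abs_pow, abs_neg, abs_one, one_pow, one_mul, abs_of_nonneg h5]
    rw [h6]
    refine (mul_le_mul_of_nonneg_left h4 h5).trans ?_
    exact mul_le_of_le_one_left (mul_nonneg hN hδ) h5'
  refine (Finset.sum_le_sum h3).trans (le_of_eq ?_)
  rw [Finset.sum_const, Finset.card_range, nsmul_eq_mul]
  push_cast
  ring

open Classical in
/-- **The joint law of the coranks** -/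
theorem thmQ (M : ℕ) : ∀ (r : Fin M → ℕ) (ε : ℝ), 0 < ε → ∃ N₀ : ℕ, ∀ (V R : Type)
    [AddCommGroup V] [Module (ZMod 3) V] [Fintype V] [AddCommGroup R] [Module (ZMod 3) R] [Finite R]
    (W : Submodule (ZMod 3) V) (R₀ : Submodule (ZMod 3) R)
    (B : Fin M → V →ₗ[ZMod 3] R) (d t : ℕ), (∀ k, Nd (B k) W) →
    finrank (ZMod 3) R₀ = t → (∀ k, finrank (ZMod 3) (R₀.comap (B k)) = t) →
    (∀ k l, k ≠ l → finrank (ZMod 3) (JJ (B k) (B l) W R₀) ≤ d) → finrank (ZMod 3) W ≤ d →
    d + N₀ ≤ t → t ≤ finrank (ZMod 3) V →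
    |(((YY W R₀).filter fun Y => ∀ k, finrank (ZMod 3) (LinearMap.ker (B k + Y)) = r k).card : ℝ) -
      (∏ k, cq (r k)) * (YY W R₀).card| ≤ ε * (YY W R₀).card := by
  induction M with
  | zero =>
    intro r ε hε
    refine ⟨0, ?_⟩
    intro V R _ _ _ _ _ _ W R₀ B d t _ _ _ _ _ _ _
    have h1 : ((YY W R₀).filter fun Y => ∀ k : Fin 0,
        finrank (ZMod 3) (LinearMap.ker (B k + Y)) = r k) = YY W R₀ :=
      Finset.filter_true_of_mem fun Y _ k => k.elim0
    rw [h1, Finset.univ_eq_empty, Finset.prod_empty, one_mul, sub_self, abs_zero]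
    positivity
  | succ M ih =>
    intro r ε hε
    set r₀ : ℕ := r 0 with hr₀
    obtain ⟨n₀, hn₀⟩ := (Metric.tendsto_atTop.1 (gq_tendsto r₀)) (ε / 3) (by positivity)
    set J : ℕ := 2 * n₀ + 1 with hJ
    set L : ℕ := r₀ + J + 1 with hL
    set η : ℝ := ε / (3 * (J + 2)) with hη
    have hη0 : 0 < η := by positivity
    obtain ⟨R₁, hR₁⟩ := ih (fun k => r k.succ) η hη0
    obtain ⟨R₂, hR₂⟩ : ∃ R₂ : ℕ, ((M : ℝ) + 1) * 3 ^ L * (J + 2) * 3 / ε < 3 ^ R₂ :=
      pow_unbounded_of_one_lt _ (by norm_num)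
    refine ⟨R₁ + R₂ + 2 * L, ?_⟩
    intro V R _ _ _ _ _ _ W R₀ B d t hNd ht hNn hJJ hWd hR htV
    have hfin : Module.Finite (ZMod 3) V := Module.Finite.of_finite
    have hfinR : Module.Finite (ZMod 3) R := Module.Finite.of_finite
    obtain ⟨s, hs⟩ : ∃ s, finrank (ZMod 3) W + s = finrank (ZMod 3) V :=
      ⟨_, Nat.add_sub_cancel' (Submodule.finrank_le W)⟩
    obtain ⟨G, hG⟩ : ∃ G : (V →ₗ[ZMod 3] R) → Prop,
        ∀ Y, G Y ↔ ∀ k : Fin M, finrank (ZMod 3) (LinearMap.ker (B k.succ + Y)) = r k.succ :=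
      ⟨_, fun _ => Iff.rfl⟩
    set γ : ℝ := ∏ k : Fin M, cq (r k.succ) with hγ
    have hγ0 : 0 ≤ γ := Finset.prod_nonneg fun k _ => cq_ge _
    have hγ1 : γ ≤ 1 := Finset.prod_le_one (fun k _ => cq_ge _) fun k _ => cq_le _
    set N : ℝ := ((YY W R₀).card : ℝ) with hNdef
    have hN0 : 0 ≤ N := Nat.cast_nonneg _
    -- the exceptional set
    set Z : Finset V := (univ.filter fun x => x ∈ W) ∪
      (univ : Finset (Fin M)).biUnion fun k =>
        (univ.filter fun p : V × V => p ∈ JJ (B 0) (B k.succ) W R₀).image Prod.fst with hZ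
    have hcard : ∀ (E : Type) [AddCommGroup E] [Module (ZMod 3) E] [Fintype E]
        (S : Submodule (ZMod 3) E), (univ.filter fun x => x ∈ S).card = 3 ^ finrank (ZMod 3) S := by
      intro E _ _ _ S
      have hfinE : Module.Finite (ZMod 3) E := Module.Finite.of_finite
      have h1 : (univ.filter fun x => x ∈ S).card = Nat.card S := by
        rw [Nat.card_eq_fintype_card, ← Fintype.card_coe]
        exact Fintype.card_congr (Equiv.subtypeEquivRight fun x => by simp)
      rw [h1, Module.natCard_eq_pow_finrank (K := ZMod 3), Nat.card_zmod]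
    have hZc : Z.card ≤ (M + 1) * 3 ^ d := by
      have h1 : (univ.filter fun x => x ∈ W).card ≤ 3 ^ d := by
        rw [hcard V W]
        exact Nat.pow_le_pow_right (by norm_num) hWd
      have h2 : ((univ : Finset (Fin M)).biUnion fun k =>
          (univ.filter fun p : V × V => p ∈ JJ (B 0) (B k.succ) W R₀).image Prod.fst).card ≤
          M * 3 ^ d := by
        refine Finset.card_biUnion_le.trans ?_
        have h3 : ∀ k ∈ (univ : Finset (Fin M)), ((univ.filter fun p : V × V =>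
            p ∈ JJ (B 0) (B k.succ) W R₀).image Prod.fst).card ≤ 3 ^ d := by
          intro k _
          refine Finset.card_image_le.trans ?_
          rw [hcard (V × V) (JJ (B 0) (B k.succ) W R₀)]
          exact Nat.pow_le_pow_right (by norm_num) (hJJ 0 k.succ (Fin.succ_ne_zero k).symm)
        refine (Finset.sum_le_sum h3).trans (le_of_eq ?_)
        rw [Finset.sum_const, Finset.card_univ, Fintype.card_fin, smul_eq_mul]
      refine (Finset.card_union_le _ _).trans ?_
      rw [add_mul, one_mul]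
      omega
    set δ : ℝ := η + Z.card * 3 ^ L / 3 ^ t with hδ
    have hδ0 : 0 ≤ δ := by positivity
    -- the estimate
    have hest : ∀ j ≤ L, |∑ Y ∈ (YY W R₀).filter G,
        ij j (3 ^ finrank (ZMod 3) (LinearMap.ker (B 0 + Y))) - γ * N| ≤ N * δ := by
      intro j hj
      have h1 := est (hNd 0) ht (hNn 0) hs G (γ := γ) (ε := η) hγ0 hγ1 hη0.le (j := j) (by omega) Z
        (fun w hw => Finset.mem_union_left _ (Finset.mem_filter.2 ⟨Finset.mem_univ _, hw⟩)) ?_
      · refine h1.trans ?_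
        apply mul_le_mul_of_nonneg_left _ hN0
        rw [hδ]
        have h2 : (3 : ℝ) ^ j ≤ 3 ^ L := pow_le_pow_right₀ (by norm_num) hj
        gcongr
      · intro v hvN hLI hvZ hd Y₀ hY₀ hY₀U
        have hY' := mem_YY.1 hY₀
        have hUW : ∀ u ∈ Submodule.span (ZMod 3) (Set.range v), B 0 u ∈ R₀ := by
          intro u hu
          have : Submodule.span (ZMod 3) (Set.range v) ≤ R₀.comap (B 0) := by
            rw [Submodule.span_le]
            rintro x ⟨i, rfl⟩
            exact hvN i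
          exact this hu
        have hfr := finrank_sup_span hLI hd
        have h2 := hR₁ V R (W ⊔ Submodule.span (ZMod 3) (Set.range v)) R₀
          (fun k => B k.succ + Y₀) (d + j) t
          (fun k => ?_) ht (fun k => ?_) (fun k l hkl => ?_) (by omega) (by omega) htV
        · have h3 : ((YY (W ⊔ Submodule.span (ZMod 3) (Set.range v)) R₀).filter
              fun Y => G (Y₀ + Y)) =
              (YY (W ⊔ Submodule.span (ZMod 3) (Set.range v)) R₀).filter
              fun Y => ∀ k : Fin M,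
                finrank (ZMod 3) (LinearMap.ker (B k.succ + Y₀ + Y)) = r k.succ := by
            ext Y
            simp only [Finset.mem_filter, hG]
            refine and_congr_right fun _ => forall_congr' fun k => ?_
            rw [add_assoc]
          rw [h3]
          exact h2
        · refine nd_JJ (hNd k.succ) hY₀ hY₀U hUW ?_
          intro u hu hu0 b hb
          obtain ⟨c, rfl⟩ := (Submodule.mem_span_range_iff_exists_fun (ZMod 3)).1 hu
          refine hvZ c (fun hc => hu0 (by rw [hc]; simp)) ?_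
          rw [hZ]
          refine Finset.mem_union_right _ (Finset.mem_biUnion.2 ⟨k, Finset.mem_univ _, ?_⟩)
          exact Finset.mem_image.2 ⟨_, Finset.mem_filter.2 ⟨Finset.mem_univ _, hb⟩, rfl⟩
        · have h3 : R₀.comap (B k.succ + Y₀) = R₀.comap (B k.succ) := by
            ext x
            rw [Submodule.mem_comap, Submodule.mem_comap, LinearMap.add_apply]
            exact (Submodule.add_mem_iff_left R₀ (hY'.2 x))
          rw [h3]
          exact hNn k.succ
        · have h3 := finrank_JJ (B := B k.succ) (B' := B l.succ) hY₀ v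
          have h4 := hJJ k.succ l.succ (fun h => hkl (Fin.succ_injective _ h))
          omega
    have hδ' : (J + 2) * δ ≤ 2 * ε / 3 := by
      have h1 : ((J : ℝ) + 2) * η = ε / 3 := by
        rw [hη]
        field_simp
      have h2 : (Z.card : ℝ) * 3 ^ L / 3 ^ t ≤ (M + 1) * 3 ^ L / 3 ^ R₂ := by
        rw [div_le_div_iff₀ (by positivity) (by positivity)]
        have h3 : (Z.card : ℝ) ≤ (M + 1) * 3 ^ d := by exact_mod_cast hZc
        have h4 : (3 : ℝ) ^ d * 3 ^ R₂ ≤ 3 ^ t := by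
          rw [← pow_add]
          exact pow_le_pow_right₀ (by norm_num) (by omega)
        calc (Z.card : ℝ) * 3 ^ L * 3 ^ R₂ ≤ (M + 1) * 3 ^ d * 3 ^ L * 3 ^ R₂ := by
              gcongr
          _ = (M + 1) * 3 ^ L * (3 ^ d * 3 ^ R₂) := by ring
          _ ≤ _ := by gcongr
      have h3 : ((J : ℝ) + 2) * ((M + 1) * 3 ^ L / 3 ^ R₂) ≤ ε / 3 := by
        rw [← mul_div_assoc, div_le_div_iff₀ (by positivity) (by norm_num)]
        rw [div_lt_iff₀ hε] at hR₂
        nlinarith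
      have h4 : ((J : ℝ) + 2) * δ = (J + 2) * η + (J + 2) * (Z.card * 3 ^ L / 3 ^ t) := by
        rw [hδ]
        ring
      have h5 : ((J : ℝ) + 2) * (Z.card * 3 ^ L / 3 ^ t) ≤ ε / 3 :=
        (mul_le_mul_of_nonneg_left h2 (by positivity)).trans h3
      rw [h4, h1]
      linarith
    -- the count
    have hcnt : (((YY W R₀).filter fun Y => ∀ k,
        finrank (ZMod 3) (LinearMap.ker (B k + Y)) = r k).card : ℝ) =
        ∑ Y ∈ (YY W R₀).filter G,
          (if finrank (ZMod 3) (LinearMap.ker (B 0 + Y)) = r₀ then (1 : ℝ) else 0) := by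
      rw [← Finset.sum_filter, Finset.sum_const, nsmul_eq_mul, mul_one, Finset.filter_filter]
      congr 2
      ext Y
      simp only [Finset.mem_filter, hG]
      rw [Fin.forall_fin_succ, and_comm (a := finrank (ZMod 3) _ = r 0)]
    have hsum : ∀ n, n₀ ≤ n → |∑ i ∈ range n, (-1) ^ i * hh r₀ i - gq r₀| ≤ ε / 3 := by
      intro n hn
      have := hn₀ n hn
      rw [Real.dist_eq] at this
      exact this.le
    have hprod : ∏ k : Fin (M + 1), cq (r k) = cf r₀ / 3 ^ (r₀ * (r₀ - 1) / 2) * gq r₀ * γ := by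
      rw [Fin.prod_univ_succ]
      rfl
    obtain ⟨a, ha⟩ : ∃ a : ℝ, a = cf r₀ / 3 ^ (r₀ * (r₀ - 1) / 2) := ⟨_, rfl⟩
    have ha0 : 0 < a := by rw [ha]; exact cf_div_pos r₀
    have ha1 : a ≤ 1 := by rw [ha]; exact cf_div_le r₀
    rw [← ha] at hprod
    have hmain : ∀ I, I ≤ J + 1 → n₀ ≤ I + 1 →
        |∑ Y ∈ (YY W R₀).filter G, qq r₀ I (3 ^ finrank (ZMod 3) (LinearMap.ker (B 0 + Y))) -
          a * gq r₀ * γ * N| ≤ ε * N := by
      intro I hI hI'
      have h1 := sum_qq (γ := γ) (N := N) (δ := δ) hN0 (r := r₀) (I := I)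
        (fun j hj => hest j (by omega)) hδ0
      rw [← ha] at h1
      have h2 := hsum (I + 1) hI'
      have h3 : |γ * a * (∑ j ∈ range (I + 1), (-1) ^ j * hh r₀ j) * N - a * gq r₀ * γ * N| ≤
          ε / 3 * N := by
        have h4 : γ * a * (∑ j ∈ range (I + 1), (-1) ^ j * hh r₀ j) * N - a * gq r₀ * γ * N =
            (γ * a) * ((∑ j ∈ range (I + 1), (-1) ^ j * hh r₀ j) - gq r₀) * N := by
          ring
        have h5 : 0 ≤ γ * a := mul_nonneg hγ0 ha0.le
        have h6 : γ * a ≤ 1 := mul_le_one₀ hγ1 ha0.le ha1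
        rw [h4, abs_mul, abs_mul, abs_of_nonneg hN0, abs_of_nonneg h5]
        apply mul_le_mul_of_nonneg_right _ hN0
        calc (γ * a) * |(∑ j ∈ range (I + 1), (-1) ^ j * hh r₀ j) - gq r₀| ≤ 1 * (ε / 3) :=
              mul_le_mul h6 h2 (abs_nonneg _) zero_le_one
          _ = _ := one_mul _
      have h5 : N * (((I : ℝ) + 1) * δ) ≤ N * (2 * ε / 3) := by
        apply mul_le_mul_of_nonneg_left _ hN0
        refine le_trans ?_ hδ'
        apply mul_le_mul_of_nonneg_right _ hδ0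
        have : (I : ℝ) ≤ J + 1 := by exact_mod_cast hI
        linarith
      have h6 := abs_sub_le
        (∑ Y ∈ (YY W R₀).filter G, qq r₀ I (3 ^ finrank (ZMod 3) (LinearMap.ker (B 0 + Y))))
        (γ * a * (∑ j ∈ range (I + 1), (-1) ^ j * hh r₀ j) * N) (a * gq r₀ * γ * N)
      have h7 := h1.trans h5
      linarith
    have hlo := hmain J (by omega) (by omega)
    have hhi := hmain (J + 1) le_rfl (by omega)
    have hJo : Odd J := ⟨n₀, hJ⟩
    have hJe : Even (J + 1) := hJo.add_one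
    have h1 : ∑ Y ∈ (YY W R₀).filter G, qq r₀ J (3 ^ finrank (ZMod 3) (LinearMap.ker (B 0 + Y))) ≤
        ∑ Y ∈ (YY W R₀).filter G,
          (if finrank (ZMod 3) (LinearMap.ker (B 0 + Y)) = r₀ then (1 : ℝ) else 0) :=
      Finset.sum_le_sum fun Y _ => qq_odd hJo _ _
    have h2 : ∑ Y ∈ (YY W R₀).filter G,
          (if finrank (ZMod 3) (LinearMap.ker (B 0 + Y)) = r₀ then (1 : ℝ) else 0) ≤
        ∑ Y ∈ (YY W R₀).filter G, qq r₀ (J + 1) (3 ^ finrank (ZMod 3) (LinearMap.ker (B 0 + Y))) :=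
      Finset.sum_le_sum fun Y _ => qq_even hJe _ _
    rw [hcnt, hprod]
    rw [abs_le] at hlo hhi ⊢
    constructor <;> linarith

end Q283.Q3
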