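import Pool.Agent.Q283.Q3.Abs
import Pool.Agent.Q283.Q3.Boxq
import Pool.Agent.Q283.T3.Box
import Pool.Agent.Y37.CX.Sym

/-! The systems over `ℚ` and over `ℚ(ω)` for the same set of rational primes -/

set_option autoImplicit false
set_option linter.unusedSectionVars false
set_option linter.unusedVariables false

open scoped Classical

namespace Q283.Q3B

open Finset Module
open Pool.Agent.Y692.QS (Ei nr)
open Pool.Agent.Y715.T.Rec (cs)
open Pool.Agent.Y715.T.RecG (Pq cs_neg)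
open Pool.Agent.Y703.CX (lam LamP pp)
open Pool.Agent.Y37.CX (QQ pq_star cs_star sep pp_facts QQ_dvd)

/-- the primary primes above the primes of `T` -/
noncomputable def TT (T : Finset ℕ) : Finset Ei := T.biUnion QQ

section

variable {T : Finset ℕ} (hL : LamP) (hT : ∀ u ∈ T, u.Prime ∧ u ≠ 3) {q : ℕ} (hq : q ∈ T)
  (hq2 : q % 3 = 2) (hqu : ∀ u ∈ T, u % 3 = 2 → u = q)

include hL hT

theorem QQ_one {u : ℕ} (h : u % 3 = 1) : QQ u = {pp u, star (pp u)} := by
  unfold QQ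
  rw [if_pos h]

omit hL hT in
theorem QQ_two {u : ℕ} (h : u % 3 = 2) : QQ u = {-(u : Ei)} := by
  unfold QQ
  rw [if_neg (by omega)]

omit hL in
theorem mod_cases {u : ℕ} (hu : u ∈ T) : u % 3 = 1 ∨ u % 3 = 2 := by
  obtain ⟨h1, h2⟩ := hT u hu
  have : ¬ 3 ∣ u := fun h => h2 ((Nat.prime_dvd_prime_iff_eq Nat.prime_three h1).1 h).symm
  omega

/-- primes above different rational primes are different -/
theorem QQ_ne {u v : ℕ} (hu : u ∈ T) (hv : v ∈ T) (hne : u ≠ v) {π ρ : Ei} (hπ : π ∈ QQ u)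
    (hρ : ρ ∈ QQ v) : π ≠ ρ := by
  rintro rfl
  obtain ⟨h1, h2⟩ := QQ_dvd hL (hT u hu).1 (hT u hu).2 π hπ
  obtain ⟨h3, h4⟩ := QQ_dvd hL (hT v hv).1 (hT v hv).2 π hρ
  exact sep h1 (hT u hu).1 (hT v hv).1 hne h2 h4

theorem QQ_nd {u v : ℕ} (hu : u ∈ T) (hv : v ∈ T) (hne : u ≠ v) {π ρ : Ei} (hπ : π ∈ QQ u)
    (hρ : ρ ∈ QQ v) : ¬ π ∣ ρ := by
  intro hd
  obtain ⟨h1, h2⟩ := QQ_dvd hL (hT u hu).1 (hT u hu).2 π hπ
  obtain ⟨h3, h4⟩ := QQ_dvd hL (hT v hv).1 (hT v hv).2 ρ hρ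
  exact sep h1 (hT u hu).1 (hT v hv).1 hne h2 (hd.trans h4)

/-- the index set -/
abbrev II (T : Finset ℕ) : Type := {p : ℕ // p ∈ T ∧ p % 3 = 1}

omit hL hT in
noncomputable instance instII (T : Finset ℕ) : Fintype (II T) :=
  Fintype.ofInjective (fun i : II T => (⟨i.1, i.2.1⟩ : T)) fun i j h =>
    Subtype.ext (congrArg (fun x : T => x.1) h)

/-- the map for the rational primes -/
def fQ (hq : q ∈ T) : II T ⊕ Unit → T
  | Sum.inl i => ⟨i.1, i.2.1⟩
  | Sum.inr _ => ⟨q, hq⟩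

include hq2 hqu in
omit hL in
theorem fQ_bij : Function.Bijective (fQ (T := T) hq) := by
  constructor
  · rintro (i | u) (j | v) h
    · exact congrArg Sum.inl (Subtype.ext (congrArg (fun x : T => x.1) h))
    · exfalso
      have h1 : (i.1 : ℕ) = q := congrArg (fun x : T => x.1) h
      have := i.2.2
      omega
    · exfalso
      have h1 : q = (j.1 : ℕ) := congrArg (fun x : T => x.1) h
      have := j.2.2
      omega
    · rfl
  · rintro ⟨u, hu⟩
    rcases mod_cases hT hu with h | h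
    · exact ⟨Sum.inl ⟨u, hu, h⟩, rfl⟩
    · exact ⟨Sum.inr (), Subtype.ext (hqu u hu h).symm⟩

theorem mem_TT1 {u : ℕ} (hu : u ∈ T) (h : u % 3 = 1) : pp u ∈ TT T :=
  mem_biUnion.2 ⟨u, hu, by rw [QQ_one hL hT h]; exact mem_insert_self _ _⟩

theorem mem_TT2 {u : ℕ} (hu : u ∈ T) (h : u % 3 = 1) : star (pp u) ∈ TT T :=
  mem_biUnion.2 ⟨u, hu, by rw [QQ_one hL hT h]; exact mem_insert_of_mem (mem_singleton_self _)⟩

omit hL hT in
theorem mem_TT3 {u : ℕ} (hu : u ∈ T) (h : u % 3 = 2) : -(u : Ei) ∈ TT T :=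
  mem_biUnion.2 ⟨u, hu, by rw [QQ_two h]; exact mem_singleton_self _⟩

/-- the map for the primes of `ℤ[ω]` -/
noncomputable def fK : II T ⊕ (II T ⊕ Unit) → TT T
  | Sum.inl i => ⟨pp i.1, mem_TT1 hL hT i.2.1 i.2.2⟩
  | Sum.inr (Sum.inl i) => ⟨star (pp i.1), mem_TT2 hL hT i.2.1 i.2.2⟩
  | Sum.inr (Sum.inr _) => ⟨-(q : Ei), mem_TT3 hq hq2⟩

include hqu in
theorem fK_bij : Function.Bijective (fK hL hT hq hq2) := by
  have hmem1 : ∀ i : II T, pp i.1 ∈ QQ i.1 := fun i => by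
    rw [QQ_one hL hT i.2.2]; exact mem_insert_self _ _
  have hmem2 : ∀ i : II T, star (pp i.1) ∈ QQ i.1 := fun i => by
    rw [QQ_one hL hT i.2.2]; exact mem_insert_of_mem (mem_singleton_self _)
  have hmem3 : -(q : Ei) ∈ QQ q := by rw [QQ_two hq2]; exact mem_singleton_self _
  have hqi : ∀ i : II T, i.1 ≠ q := fun i h => by have := i.2.2; omega
  have hself : ∀ i : II T, pp i.1 ≠ star (pp i.1) := fun i =>
    (pp_facts hL (hT _ i.2.1).1 i.2.2).2.2.2.2
  constructor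
  · rintro (i | i | u) (j | j | v) h
    · by_cases hij : i = j
      · rw [hij]
      · exact absurd (congrArg Subtype.val h) (QQ_ne hL hT i.2.1 j.2.1
          (fun h => hij (Subtype.ext h)) (hmem1 i) (hmem1 j))
    · exfalso
      by_cases hij : i = j
      · subst hij
        exact hself i (congrArg Subtype.val h)
      · exact absurd (congrArg Subtype.val h) (QQ_ne hL hT i.2.1 j.2.1
          (fun h => hij (Subtype.ext h)) (hmem1 i) (hmem2 j))
    · exact absurd (congrArg Subtype.val h) (QQ_ne hL hT i.2.1 hq (hqi i) (hmem1 i) hmem3)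
    · exfalso
      by_cases hij : i = j
      · subst hij
        exact hself i (congrArg Subtype.val h).symm
      · exact absurd (congrArg Subtype.val h) (QQ_ne hL hT i.2.1 j.2.1
          (fun h => hij (Subtype.ext h)) (hmem2 i) (hmem1 j))
    · by_cases hij : i = j
      · rw [hij]
      · exact absurd (congrArg Subtype.val h) (QQ_ne hL hT i.2.1 j.2.1
          (fun h => hij (Subtype.ext h)) (hmem2 i) (hmem2 j))
    · exact absurd (congrArg Subtype.val h) (QQ_ne hL hT i.2.1 hq (hqi i) (hmem2 i) hmem3)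
    · exact absurd (congrArg Subtype.val h).symm (QQ_ne hL hT j.2.1 hq (hqi j) (hmem1 j) hmem3)
    · exact absurd (congrArg Subtype.val h).symm (QQ_ne hL hT j.2.1 hq (hqi j) (hmem2 j) hmem3)
    · rfl
  · rintro ⟨π, hπ⟩
    obtain ⟨u, hu, hπu⟩ := mem_biUnion.1 hπ
    rcases mod_cases hT hu with h | h
    · rw [QQ_one hL hT h, mem_insert, mem_singleton] at hπu
      rcases hπu with rfl | rfl
      · exact ⟨Sum.inl ⟨u, hu, h⟩, rfl⟩
      · exact ⟨Sum.inr (Sum.inl ⟨u, hu, h⟩), rfl⟩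
    · rw [QQ_two h, mem_singleton] at hπu
      subst hπu
      refine ⟨Sum.inr (Sum.inr ()), Subtype.ext ?_⟩
      show -(q : Ei) = -(u : Ei)
      rw [hqu u hu h]

end

/-! ### the symbols -/

section sym

variable (hL : LamP)

include hL

/-- the symbol of the conjugate -/
theorem cs_self {p : ℕ} (hp : p.Prime) (h1 : p % 3 = 1) : cs (pp p) (star (pp p)) = 0 := by
  obtain ⟨k1, k2, k3, k4, k5⟩ := pp_facts hL hp h1
  have hnd : ¬ pp p ∣ star (pp p) := by
    intro hd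
    exact k5 (Pool.Agent.Y350.CT.eq_of_dvd k2 k1 hd)
  have e1 := Pool.Agent.Y688.XK.cs_symm k1 k2
  have e2 := cs_star k1 hnd
  rw [star_star] at e2
  rw [← e1] at e2
  have : ∀ a : ZMod 3, a = -a → a = 0 := by decide
  exact this _ e2

theorem cs_self' {p : ℕ} (hp : p.Prime) (h1 : p % 3 = 1) : cs (star (pp p)) (pp p) = 0 := by
  obtain ⟨k1, k2, k3, k4, k5⟩ := pp_facts hL hp h1
  rw [← Pool.Agent.Y688.XK.cs_symm k1 k2]
  exact cs_self hL hp h1

end sym

/-- **The rank over `ℚ(ω)` and the rank over `ℚ`.** -/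
theorem finrank_K (hL : LamP) {T : Finset ℕ} (hT : ∀ u ∈ T, u.Prime ∧ u ≠ 3) {q : ℕ} (hq : q ∈ T)
    (hq2 : q % 3 = 2) (hqu : ∀ u ∈ T, u % 3 = 2 → u = q) {E : Ei → ZMod 3} {e : ℕ → ZMod 3}
    (hE : ∀ u ∈ T, ∀ π ∈ QQ u, E π = e u) (heq : e q ≠ 0) :
    finrank (ZMod 3) (Q283.T3.KT (TT T) E) + 1 = 2 * finrank (ZMod 3) (Q283.Q3.KT T e) := by
  have hmem1 : ∀ i : II T, pp i.1 ∈ QQ i.1 := fun i => by
    rw [QQ_one hL hT i.2.2]; exact mem_insert_self _ _
  have hmem2 : ∀ i : II T, star (pp i.1) ∈ QQ i.1 := fun i => by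
    rw [QQ_one hL hT i.2.2]; exact mem_insert_of_mem (mem_singleton_self _)
  have hmem3 : -(q : Ei) ∈ QQ q := by rw [QQ_two hq2]; exact mem_singleton_self _
  have hqi : ∀ i : II T, i.1 ≠ q := fun i h => by have := i.2.2; omega
  have hstq : star (-(q : Ei)) = -(q : Ei) := by rw [star_neg, star_natCast]
  -- the two systems in the general form
  have h1 : Q283.T3.KT (TT T) E = KL (fun π : TT T => E π) (fun π ρ : TT T => cs π ρ)
      (fun _ => True) := by
    ext x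
    rw [Q283.T3.mem_KT, mem_KL]
    exact and_congr Iff.rfl ⟨fun h i _ => h i, fun h i => h i trivial⟩
  have h2 : Q283.Q3.KT T e = KL (fun p : T => e p) (fun p r : T => lam p r)
      (fun p : T => (p : ℕ) % 3 = 1) := by
    ext x
    rw [Q283.Q3.mem_KT, mem_KL]
  rw [h1, h2]
  obtain ⟨a, ha⟩ : ∃ a : II T → II T → F, ∀ i j, a i j = cs (pp i.1) (pp j.1) := ⟨_, fun _ _ => rfl⟩
  obtain ⟨b, hb⟩ : ∃ b : II T → II T → F, ∀ i j, b i j = cs (pp i.1) (star (pp j.1)) :=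
    ⟨_, fun _ _ => rfl⟩
  obtain ⟨c, hc⟩ : ∃ c : II T → F, ∀ i, c i = cs (pp i.1) (-(q : Ei)) := ⟨_, fun _ => rfl⟩
  have hne : ∀ {i j : II T}, i ≠ j → i.1 ≠ j.1 := fun h h' => h (Subtype.ext h')
  have hndq : ∀ i : II T, ¬ pp i.1 ∣ -(q : Ei) := fun i =>
    QQ_nd hL hT i.2.1 hq (hqi i) (hmem1 i) hmem3
  have hlamq : ∀ i : II T, lam i.1 q = c i := by
    intro i
    rw [hc]
    unfold lam
    obtain ⟨k1, -⟩ := pp_facts hL (hT _ i.2.1).1 i.2.2
    rw [show (-(q : Ei)) = -((q : ℕ) : Ei) from rfl, cs_neg k1.prime k1.norm]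
    intro hd
    exact hndq i ((dvd_neg).2 hd)
  have hab : ∀ i j, i ≠ j → a j i = a i j := by
    intro i j hij
    rw [ha, ha]
    exact (hL.rec1 i.1 j.1 (hT _ i.2.1).1 i.2.2 (hT _ j.2.1).1 j.2.2 (hne hij)).2.2.2.1
  have hbs : ∀ i j, i ≠ j → b j i = - b i j := by
    intro i j hij
    rw [hb, hb]
    have e1 := (hL.rec1 i.1 j.1 (hT _ i.2.1).1 i.2.2 (hT _ j.2.1).1 j.2.2 (hne hij)).2.2.2.2
    have e2 := (hL.rec1 j.1 i.1 (hT _ j.2.1).1 j.2.2 (hT _ i.2.1).1 i.2.2 (hne hij).symm).2.2.1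
    rw [e1] at e2
    rw [e2, neg_neg]
  have hbi : ∀ i, b i i = 0 := fun i => by
    rw [hb]
    exact cs_self hL (hT _ i.2.1).1 i.2.2
  have key := main_abs (fun i : II T => e i.1) a b c (e q) (cs (-(q : Ei)) (-(q : Ei))) hab hbs hbi heq
    (lam q q)
  have k1 := finrank_congr (Equiv.ofBijective _ (fK_bij hL hT hq hq2 hqu))
    (e := fun π : TT T => E π) (e' := eK (fun i : II T => e i.1) (e q))
    (β := fun π ρ : TT T => cs π ρ) (β' := bK a b c (cs (-(q : Ei)) (-(q : Ei))))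
    (R := fun _ => True) (R' := fun _ => True) ?_ ?_ ?_
  have k2 := finrank_congr (Equiv.ofBijective _ (fQ_bij hT hq hq2 hqu))
    (e := fun p : T => e p) (e' := eQ (fun i : II T => e i.1) (e q))
    (β := fun p r : T => lam p r) (β' := bQ a b c (lam q q))
    (R := fun p : T => (p : ℕ) % 3 = 1) (R' := rQ) ?_ ?_ ?_
  · rw [← k1, ← k2]
    exact key
  · rintro (i | u)
    · rfl
    · rfl
  · rintro (i | u) (j | v) hR hij
    · have hij' : i ≠ j := fun h => hij (congrArg Sum.inl h)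
      show a i j + b i j = lam i.1 j.1
      rw [(hL.rec1 i.1 j.1 (hT _ i.2.1).1 i.2.2 (hT _ j.2.1).1 j.2.2 (hne hij')).1, ha, hb]
    · exact (hlamq i).symm
    · exact absurd hR id
    · exact absurd hR id
  · rintro (i | u)
    · exact ⟨fun _ => i.2.2, fun _ => trivial⟩
    · refine ⟨fun h => absurd h id, fun h => ?_⟩
      exfalso
      have : q % 3 = 1 := h
      omega
  · rintro (i | i | u)
    · exact (hE i.1 i.2.1 _ (hmem1 i)).symm
    · exact (hE i.1 i.2.1 _ (hmem2 i)).symm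
    · exact (hE q hq _ hmem3).symm
  · rintro (i | i | u) (j | j | v) - hij
    · exact ha i j
    · exact hb i j
    · exact hc i
    · by_cases h : i = j
      · subst h
        show - b i i = cs (star (pp i.1)) (pp i.1)
        rw [hbi, neg_zero, cs_self' hL (hT _ i.2.1).1 i.2.2]
      · show - b i j = cs (star (pp i.1)) (pp j.1)
        rw [hb, (hL.rec1 i.1 j.1 (hT _ i.2.1).1 i.2.2 (hT _ j.2.1).1 j.2.2 (hne h)).2.2.1]
    · have h : i ≠ j := fun h => hij (by rw [h])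
      show - a i j = cs (star (pp i.1)) (star (pp j.1))
      rw [ha]
      refine (cs_star (pp_facts hL (hT _ i.2.1).1 i.2.2).1 ?_).symm
      exact QQ_nd hL hT i.2.1 j.2.1 (hne h) (hmem1 i) (hmem1 j)
    · show - c i = cs (star (pp i.1)) (-(q : Ei))
      rw [hc]
      have e1 := cs_star (pp_facts hL (hT _ i.2.1).1 i.2.2).1 (hndq i)
      rw [hstq] at e1
      exact e1.symm
    · show c j = cs (-(q : Ei)) (pp j.1)
      rw [← hlamq j]
      exact (hL.rec2 j.1 q (hT _ j.2.1).1 j.2.2 (hT _ hq).1 hq2).2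
    · show - c j = cs (-(q : Ei)) (star (pp j.1))
      have e1 := cs_star (hL.rec2 j.1 q (hT _ j.2.1).1 j.2.2 (hT _ hq).1 hq2).1
        (QQ_nd hL hT hq j.2.1 (hqi j).symm hmem3 (hmem1 j))
      rw [hstq] at e1
      rw [e1, ← hlamq j, (hL.rec2 j.1 q (hT _ j.2.1).1 j.2.2 (hT _ hq).1 hq2).2]
    · exact absurd rfl hij
  · exact fun i => Iff.rfl

end Q283.Q3B
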