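import Pool.Agent.Q286.EQ.MW
import Pool.Agent.Y696.CTK.Stm

/-! The rank over `ℚ(ω)` is at least twice the rank over `ℚ` -/

set_option autoImplicit false

open scoped Classical

namespace Q283.Q3B

open Module WeierstrassCurve
open Pool.Agent.Y696.CTK (ED)
open Pool.Agent.Y700 (VR)

theorem rk_double {V M : Type} [AddCommGroup V] [AddCommGroup M] [Module.Finite ℤ M]
    (f g : V →+ M) (h : ∀ P Q, f P + g Q = 0 → 3 • P = 0 ∧ 3 • Q = 0) :
    2 * finrank ℤ V ≤ finrank ℤ M := by
  obtain ⟨v, hv⟩ := exists_linearIndependent_of_le_finrank (R := ℤ) (M := V) (le_refl (finrank ℤ V))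
  have key : LinearIndependent ℤ (Sum.elim (fun i => f (v i)) (fun i => g (v i))) := by
    rw [Fintype.linearIndependent_iff] at hv ⊢
    intro c hc
    rw [Fintype.sum_sum_type] at hc
    have h1 : f (∑ i, c (Sum.inl i) • v i) + g (∑ i, c (Sum.inr i) • v i) = 0 := by
      rw [map_sum, map_sum]
      simp only [map_zsmul]
      exact hc
    obtain ⟨h2, h3⟩ := h _ _ h1
    have h4 := hv (fun i => 3 * c (Sum.inl i)) (by
      have e : ∑ i, (3 * c (Sum.inl i)) • v i = 3 • ∑ i, c (Sum.inl i) • v i := by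
        rw [Finset.smul_sum]
        refine Finset.sum_congr rfl fun i _ => ?_
        rw [mul_smul]
        exact (natCast_zsmul (c (Sum.inl i) • v i) 3)
      rw [e, h2])
    have h5 := hv (fun i => 3 * c (Sum.inr i)) (by
      have e : ∑ i, (3 * c (Sum.inr i)) • v i = 3 • ∑ i, c (Sum.inr i) • v i := by
        rw [Finset.smul_sum]
        refine Finset.sum_congr rfl fun i _ => ?_
        rw [mul_smul]
        exact (natCast_zsmul (c (Sum.inr i) • v i) 3)
      rw [e, h3])
    rintro (i | i)
    · have := h4 i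
      omega
    · have := h5 i
      omega
  have h6 := key.fintype_card_le_finrank
  rw [Fintype.card_sum, Fintype.card_fin] at h6
  omega

theorem exists_map {K : Type} [Field K] [NumberField K] (W : WeierstrassCurve ℚ)
    (W1 : WeierstrassCurve ℚ) (W2 : WeierstrassCurve K) (h1 : W.baseChange ℚ = W1)
    (h2 : W.baseChange K = W2) : ∃ f : W1.toAffine.Point →+ W2.toAffine.Point,
      ∀ x y h, ∃ h', f (.some x y h) = .some (algebraMap ℚ K x) (algebraMap ℚ K y) h' := by
  subst h1 h2
  exact ⟨Affine.Point.map (Algebra.ofId ℚ K), fun x y h => ⟨_, rfl⟩⟩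

theorem ed_map {K : Type} [Field K] [NumberField K] (N : ℚ) :
    (ED N).baseChange K = ED (algebraMap ℚ K N) := by
  unfold ED
  apply WeierstrassCurve.ext <;> simp

theorem ed_self (N : ℚ) : (ED N).baseChange ℚ = ED N := by
  apply WeierstrassCurve.ext <;> rfl

theorem ed_delta {F : Type} [Field F] (N : F) : (ED N).Δ = -27 * N ^ 4 := by
  simp only [ED, WeierstrassCurve.Δ, WeierstrassCurve.b₂, WeierstrassCurve.b₄,
    WeierstrassCurve.b₆, WeierstrassCurve.b₈]
  ring

/-- points of order three -/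
theorem three_tors {F : Type} [Field F] [DecidableEq F] {N : F} (hN : N ≠ 0) {y : F}
    (h : (ED N).toAffine.Nonsingular 0 y) : 3 • (Affine.Point.some 0 y h : (ED N).toAffine.Point) = 0 := by
  have h1 : y ^ 2 + N * y = 0 := by
    have := (Affine.equation_iff ..).1 h.1
    simp only [ED] at this
    linear_combination this
  have hY : y ≠ (ED N).toAffine.negY 0 y := by
    simp only [Affine.negY, ED]
    intro h2
    have h3 : N * N = 0 := by
      have h4 : 2 * y = -N := by linear_combination h2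
      have h5 : 4 * (y ^ 2 + N * y) = 0 := by rw [h1, mul_zero]
      have h6 : 4 * (y ^ 2 + N * y) = (2 * y) ^ 2 + 2 * N * (2 * y) := by ring
      rw [h6, h4] at h5
      linear_combination -h5
    exact hN (mul_self_eq_zero.1 h3)
  have hs : (ED N).toAffine.slope 0 0 y y = 0 := by
    rw [Affine.slope_of_Y_ne rfl hY]
    simp [ED]
  have h2 : (Affine.Point.some 0 y h : (ED N).toAffine.Point) + Affine.Point.some 0 y h =
      - Affine.Point.some 0 y h := by
    rw [Affine.Point.add_self_of_Y_ne hY, Affine.Point.neg_some]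
    simp only [Affine.Point.some.injEq]
    rw [hs]
    constructor
    · simp [Affine.addX, ED]
    · simp [Affine.addY, Affine.negAddY, Affine.addX, ED, Affine.negY]
  have h3 : 3 • (Affine.Point.some 0 y h : (ED N).toAffine.Point) =
      (Affine.Point.some 0 y h + Affine.Point.some 0 y h) + Affine.Point.some 0 y h := by
    rw [succ_nsmul, two_nsmul]
  rw [h3, h2, neg_add_cancel]

theorem no_root (x : ℚ) : x ^ 2 + x + 1 ≠ 0 := by
  intro h
  nlinarith [sq_nonneg (2 * x + 1)]

/-- **Twice the rank over `ℚ`.** -/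
theorem rank_Q {K : Type} [Field K] [NumberField K] {ζ : K} (hζ : ζ ^ 2 + ζ + 1 = 0) {N : ℚ}
    (hN : N ≠ 0) : 2 * finrank ℤ (ED N).toAffine.Point ≤
      finrank ℤ (ED (algebraMap ℚ K N)).toAffine.Point := by
  have hNK : algebraMap ℚ K N ≠ 0 := (map_ne_zero _).2 hN
  have hΔ : (ED (algebraMap ℚ K N)).Δ ≠ 0 := by
    rw [ed_delta]
    exact mul_ne_zero (by norm_num) (pow_ne_zero 4 hNK)
  have hfg := Pool.Agent.Q286.EQ.mordell_weil K _ hΔ
  rw [← Module.Finite.iff_addGroup_fg] at hfg
  obtain ⟨f, hf⟩ := exists_map (K := K) (ED N) _ _ (ed_self N) (ed_map N)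
  have hζ3 : ζ ^ 3 = 1 := by linear_combination (ζ - 1) * hζ
  have hζ0 : ζ ≠ 0 := by
    rintro rfl
    norm_num at hζ
  have hvr : VR (ED (algebraMap ℚ K N)) (ED (algebraMap ℚ K N)) ζ 0 0 0 := by
    refine ⟨hζ0, ?_, ?_, ?_, ?_, ?_⟩ <;> simp [ED, hζ3]
  refine rk_double f ((hvr.equiv hΔ).toAddMonoidHom.comp f) fun P Q h => ?_
  have hz2 : ∀ x x' : ℚ, algebraMap ℚ K x = ζ ^ 2 * algebraMap ℚ K x' → x' = 0 := by
    intro x x' h1
    by_contra h2
    have h3 : algebraMap ℚ K x' ≠ 0 := (map_ne_zero _).2 h2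
    have h4 : ζ ^ 2 = algebraMap ℚ K (x / x') := by
      rw [map_div₀, eq_div_iff h3, h1]
    have h5 : ζ = algebraMap ℚ K (-1 - x / x') := by
      rw [map_sub, map_neg, map_one, ← h4]
      linear_combination hζ
    have h6 : algebraMap ℚ K ((-1 - x / x') ^ 2 + (-1 - x / x') + 1) = 0 := by
      rw [map_add, map_add, map_pow, ← h5, map_one, hζ]
    exact no_root _ ((map_eq_zero _).1 h6)
  rcases Q with _ | ⟨x', y', h'⟩
  · have e1 : f P = 0 := by
      have e2 : ((hvr.equiv hΔ).toAddMonoidHom.comp f) (Affine.Point.zero) = 0 := map_zero _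
      rw [e2, add_zero] at h
      exact h
    rcases P with _ | ⟨x, y, hp⟩
    · exact ⟨nsmul_zero 3, nsmul_zero 3⟩
    · obtain ⟨h1, h2⟩ := hf x y hp
      rw [h2] at e1
      exact absurd e1 (Affine.Point.some_ne_zero _)
  · obtain ⟨k1, k2⟩ := hf x' y' h'
    have e2 : ((hvr.equiv hΔ).toAddMonoidHom.comp f) (Affine.Point.some x' y' h') =
        hvr.fn hΔ (f (Affine.Point.some x' y' h')) := rfl
    rw [e2, k2, VR.fn_some] at h
    rcases P with _ | ⟨x, y, hp⟩
    · have e3 : f Affine.Point.zero = 0 := map_zero _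
      rw [e3, zero_add] at h
      exact absurd h (Affine.Point.some_ne_zero _)
    · obtain ⟨l1, l2⟩ := hf x y hp
      rw [l2, add_eq_zero_iff_eq_neg, Affine.Point.neg_some, Affine.Point.some.injEq, add_zero] at h
      have hx' := hz2 x x' h.1
      have hx : x = 0 := by
        have h8 := h.1
        rw [hx', map_zero, mul_zero] at h8
        exact (map_eq_zero _).1 h8
      subst hx' hx
      exact ⟨three_tors hN hp, three_tors hN h'⟩

end Q283.Q3B
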