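import Pool.Agent.Q283.Q3.Boxq
import Pool.Agent.Y710.CX.NS

/-! The criterion `NoSplit` for cube-free numbers in terms of the linear system (after
`Pool.Agent.Y710.CX.NS` of helper710) -/

set_option autoImplicit false

open scoped Classical

namespace Q283.Q3N

open Finset Module
open Pool.Agent.Y703.CX (lam LamP)
open Pool.Agent.Y703.CT (Cls NoSplit Base)
open Pool.Agent.Y710.CX (lam_one cube_two)
open Q283.Q3 (KT mem_KT ex)

/-- the exponents modulo three -/
noncomputable def fe (N p : ℕ) : ZMod 3 := (N.factorization p : ZMod 3)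

theorem lam_pow (h : LamP) {p n : ℕ} (hp : p.Prime) (hp1 : p % 3 = 1) (hn : ¬ p ∣ n) (k : ℕ) :
    lam p (n ^ k) = k * lam p n := by
  induction k with
  | zero => rw [pow_zero, lam_one h hp hp1, Nat.cast_zero, zero_mul]
  | succ k ih =>
    rw [pow_succ, h.mul p _ _ hp hp1 (fun h' => hn (hp.dvd_of_dvd_pow h')) hn, ih]
    push_cast
    ring

theorem lam_prodp (h : LamP) {p : ℕ} (hp : p.Prime) (hp1 : p % 3 = 1) (f : ℕ → ℕ) (T : Finset ℕ)
    (hT : ∀ q ∈ T, q.Prime) (hpT : p ∉ T) :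
    ¬ p ∣ ∏ q ∈ T, q ^ f q ∧ lam p (∏ q ∈ T, q ^ f q) = ∑ q ∈ T, (f q : ZMod 3) * lam p q := by
  induction T using Finset.induction_on with
  | empty =>
    rw [prod_empty, sum_empty]
    exact ⟨fun h' => hp.one_lt.ne' (Nat.dvd_one.1 h'), lam_one h hp hp1⟩
  | insert a T ha ih =>
    rw [Finset.prod_insert ha, Finset.sum_insert ha]
    obtain ⟨h1, h2⟩ := ih (fun q hq => hT q (mem_insert_of_mem hq))
      fun hq => hpT (mem_insert_of_mem hq)
    have h3 : ¬ p ∣ a := by
      intro h4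
      have := (Nat.prime_dvd_prime_iff_eq hp (hT a (mem_insert_self _ _))).1 h4
      exact hpT (this ▸ mem_insert_self _ _)
    have h4 : ¬ p ∣ a ^ f a := fun h' => h3 (hp.dvd_of_dvd_pow h')
    refine ⟨fun h' => (hp.dvd_mul.1 h').elim h4 h1, ?_⟩
    rw [h.mul p _ _ hp hp1 h4 h1, lam_pow h hp hp1 h3, h2]

/-- the product of the part with label `i` -/
noncomputable def dd (N : ℕ) (c : ℕ → ZMod 3) (i : ZMod 3) : ℕ :=
  ∏ q ∈ N.primeFactors.filter fun q => c q = i, q ^ N.factorization q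

theorem prod_dd {N : ℕ} (hN : N ≠ 0) (c : ℕ → ZMod 3) : ∏ i, dd N c i = N := by
  unfold dd
  rw [Finset.prod_fiberwise N.primeFactors c fun q => q ^ N.factorization q]
  exact Nat.prod_factorization_pow_eq_self hN

theorem lam_dd (h : LamP) {N : ℕ} (c : ℕ → ZMod 3) {p : ℕ}
    (hp : p.Prime) (hp1 : p % 3 = 1) :
    ¬ p ∣ dd N c (c p + 1) * dd N c (c p + 2) ^ 2 ∧
    lam p (dd N c (c p + 1) * dd N c (c p + 2) ^ 2) =
      ∑ q ∈ N.primeFactors, (c q - c p) * (fe N q * lam p q) := by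
  have n1 : c p + 1 ≠ c p := by
    have : ∀ a : ZMod 3, a + 1 ≠ a := by decide
    exact this _
  have n2 : c p + 2 ≠ c p := by
    have : ∀ a : ZMod 3, a + 2 ≠ a := by decide
    exact this _
  have hpr : ∀ i, ∀ q ∈ N.primeFactors.filter (fun q => c q = i), q.Prime := fun i q hq =>
    Nat.prime_of_mem_primeFactors (mem_filter.1 hq).1
  obtain ⟨d1, l1⟩ := lam_prodp h hp hp1 N.factorization
    (N.primeFactors.filter fun q => c q = c p + 1) (hpr _) fun h' => n1 (mem_filter.1 h').2.symm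
  obtain ⟨d2, l2⟩ := lam_prodp h hp hp1 N.factorization
    (N.primeFactors.filter fun q => c q = c p + 2) (hpr _) fun h' => n2 (mem_filter.1 h').2.symm
  have d1' : ¬ p ∣ dd N c (c p + 1) := d1
  have d2' : ¬ p ∣ dd N c (c p + 2) := d2
  have l1' : lam p (dd N c (c p + 1)) = _ := l1
  have l2' : lam p (dd N c (c p + 2)) = _ := l2
  have d22 : ¬ p ∣ dd N c (c p + 2) ^ 2 := fun h => d2' (hp.dvd_of_dvd_pow h)
  refine ⟨fun h => (hp.dvd_mul.1 h).elim d1' d22, ?_⟩
  rw [h.mul p _ _ hp hp1 d1' d22, sq, h.mul p _ _ hp hp1 d2' d2', l1', l2']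
  rw [Finset.sum_filter, Finset.sum_filter, ← Finset.sum_add_distrib, ← Finset.sum_add_distrib]
  refine Finset.sum_congr rfl fun q _ => ?_
  have key : ∀ a i l : ZMod 3, (if a = i + 1 then l else 0) +
      ((if a = i + 2 then l else 0) + (if a = i + 2 then l else 0)) = (a - i) * l := by decide
  exact key _ _ _

/-- all solutions are constant on the support -/
def Gx (T : Finset ℕ) (e : ℕ → ZMod 3) : Prop :=
  ∀ c : ℕ → ZMod 3, (∀ p ∈ T, p % 3 = 1 → e p ≠ 0 → ∑ q ∈ T, (c q - c p) * (e q * lam p q) = 0) →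
    ∀ p ∈ T, ∀ q ∈ T, e p ≠ 0 → e q ≠ 0 → c p = c q

theorem gx_congr {T T' : Finset ℕ} {e : ℕ → ZMod 3} (h : ∀ p, e p ≠ 0 → (p ∈ T ↔ p ∈ T')) :
    Gx T e ↔ Gx T' e := by
  have key : ∀ T T' : Finset ℕ, (∀ p, e p ≠ 0 → (p ∈ T ↔ p ∈ T')) → Gx T e → Gx T' e := by
    intro T T' h hT c hc p hp q hq h1 h2
    refine hT c (fun p hp hp1 hpe => ?_) p ((h p h1).2 hp) q ((h q h2).2 hq) h1 h2
    rw [← hc p ((h p hpe).1 hp) hp1 hpe]
    have h3 : ∀ S : Finset ℕ, ∑ q ∈ S, (c q - c p) * (e q * lam p q) =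
        ∑ q ∈ S.filter (fun q => e q ≠ 0), (c q - c p) * (e q * lam p q) := by
      intro S
      rw [sum_filter]
      refine sum_congr rfl fun q _ => ?_
      by_cases hq : e q = 0
      · rw [if_neg (not_not.2 hq), hq, zero_mul, mul_zero]
      · rw [if_pos hq]
    rw [h3 T, h3 T']
    congr 1
    ext q
    rw [mem_filter, mem_filter]
    constructor
    · rintro ⟨a, b⟩
      exact ⟨(h q b).1 a, b⟩
    · rintro ⟨a, b⟩
      exact ⟨(h q b).2 a, b⟩
  exact ⟨key T T' h, key T' T fun p hp => (h p hp).symm⟩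

/-- the dimension of the solutions is one -/
theorem rk_iff {T : Finset ℕ} {e : ℕ → ZMod 3} (hne : ∃ p ∈ T, e p ≠ 0) :
    finrank (ZMod 3) (KT T e) = 1 ↔ Gx T e := by
  obtain ⟨p₀, hp₀, he₀⟩ := hne
  set u : T → ZMod 3 := fun p => if e p = 0 then 0 else 1 with hu
  have hum : u ∈ KT T e := by
    refine mem_KT.2 ⟨fun p hp => if_pos hp, fun p _ => sum_eq_zero fun q _ => ?_⟩
    by_cases h1 : e p = 0
    · rw [h1, zero_mul, zero_mul, zero_mul]
    · by_cases h2 : e q = 0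
      · rw [h2, mul_zero, zero_mul, zero_mul]
      · rw [hu]
        simp only
        rw [if_neg h1, if_neg h2, sub_self, mul_zero]
  have hu0 : (⟨u, hum⟩ : KT T e) ≠ 0 := by
    intro h
    have h1 : u ⟨p₀, hp₀⟩ = 0 := congrFun (congrArg Subtype.val h) ⟨p₀, hp₀⟩
    have h2 : u ⟨p₀, hp₀⟩ = 1 := if_neg he₀
    rw [h2] at h1
    exact one_ne_zero h1
  rw [finrank_eq_one_iff_of_nonzero' _ hu0]
  -- extension of the solutions
  have key : ∀ (x : T → ZMod 3) (c : ℕ → ZMod 3), (∀ p : T, e p ≠ 0 → c p = x p) → ∀ p : T, e p ≠ 0 →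
      (∑ q : T, e p * e q * lam p q * (x q - x p) =
        e p * ∑ q ∈ T, (c q - c p) * (e q * lam p q)) := by
    intro x c hc p hp
    rw [mul_sum, ← Finset.sum_coe_sort T fun q => e p * ((c q - c p) * (e q * lam p q))]
    refine sum_congr rfl fun q _ => ?_
    by_cases hq : e q = 0
    · rw [hq]; ring
    · rw [hc q hq, hc p hp]; ring
  constructor
  · intro h c hc p hp q hq h1 h2
    have hx : (fun p : T => if e p = 0 then 0 else c p) ∈ KT T e := by
      refine mem_KT.2 ⟨fun p hp => if_pos hp, fun p hp1 => ?_⟩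
      by_cases hpe : e p = 0
      · exact sum_eq_zero fun q _ => by rw [hpe]; ring
      · rw [key (fun p : T => if e p = 0 then 0 else c p) c (fun p hp => (if_neg hp).symm) p hpe,
          hc p p.2 hp1 hpe, mul_zero]
    obtain ⟨a, ha⟩ := h ⟨_, hx⟩
    have h3 : ∀ p (hp : p ∈ T), e p ≠ 0 → c p = a := by
      intro p hp hpe
      have h4 := congrFun (congrArg Subtype.val ha) ⟨p, hp⟩
      have h5 : a * u ⟨p, hp⟩ = if e p = 0 then 0 else c p := h4
      rw [if_neg hpe] at h5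
      rw [← h5, hu]
      simp only
      rw [if_neg hpe, mul_one]
    rw [h3 p hp h1, h3 q hq h2]
  · intro h x
    set c : ℕ → ZMod 3 := fun p => if hp : p ∈ T then x.1 ⟨p, hp⟩ else 0 with hc
    have hcx : ∀ p : T, c p = x.1 p := fun p => dif_pos p.2
    refine ⟨x.1 ⟨p₀, hp₀⟩, Subtype.ext (funext fun p => ?_)⟩
    show x.1 ⟨p₀, hp₀⟩ * u p = x.1 p
    by_cases hp : e p = 0
    · rw [x.2.1 p hp]
      have : u p = 0 := if_pos hp
      rw [this, mul_zero]
    · have h1 : u p = 1 := if_neg hp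
      rw [h1, mul_one, ← hcx, ← hcx]
      refine h c (fun p hp hp1 hpe => ?_) p₀ hp₀ p p.2 he₀ hp
      have h2 := x.2.2 ⟨p, hp⟩ hp1
      rw [key x.1 c (fun p _ => hcx p) ⟨p, hp⟩ hpe] at h2
      exact (mul_eq_zero.1 h2).resolve_left hpe

theorem fe_ne {N : ℕ} (hN : Base N) {p : ℕ} : fe N p ≠ 0 ↔ p ∈ N.primeFactors := by
  unfold fe
  rw [← Nat.support_factorization, Finsupp.mem_support_iff]
  have h1 : N.factorization p ≤ 2 := by
    by_contra h
    by_cases hp : p.Prime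
    · exact hN.2.2 p hp ((pow_dvd_pow p (by omega)).trans (Nat.ordProj_dvd N p))
    · rw [Nat.factorization_eq_zero_of_not_prime _ hp] at h
      omega
  have h2 : ∀ n : ℕ, n ≤ 2 → (((n : ℕ) : ZMod 3) ≠ 0 ↔ n ≠ 0) := by
    intro n hn
    interval_cases n <;> decide
  exact h2 _ h1

theorem gx_of_nosplit (h : LamP) {N : ℕ} (hb : Base N)
    (hn : NoSplit N) : Gx N.primeFactors (fe N) := by
  intro c hc
  have hN : N ≠ 0 := hb.1
  have hcase : ∀ p ∈ N.primeFactors, p % 3 = 1 ∨ p % 3 = 2 := by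
    intro p hp
    refine Q283.Q3.mod3' (Nat.prime_of_mem_primeFactors hp) fun h3 => ?_
    rw [h3] at hp
    exact hb.2.1 (Nat.dvd_of_mem_primeFactors hp)
  have hmem : ∀ (i : ZMod 3) (p : ℕ), p.Prime → p ∣ dd N c i → p ∈ N.primeFactors ∧ c p = i := by
    intro i p hp hd
    unfold dd at hd
    obtain ⟨q, hq, hpq⟩ := (hp.prime.dvd_finsetProd_iff _).1 hd
    have h1 := hp.dvd_of_dvd_pow hpq
    rw [mem_filter] at hq
    rw [(Nat.prime_dvd_prime_iff_eq hp (Nat.prime_of_mem_primeFactors hq.1)).1 h1]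
    exact hq
  have hA : ∀ i j : ZMod 3, i ≠ j → Nat.Coprime (dd N c i) (dd N c j) := by
    intro i j hij
    refine Nat.coprime_of_dvd fun p hp h1 h2 => ?_
    have e1 := (hmem _ p hp h1).2
    have e2 := (hmem _ p hp h2).2
    exact hij (e1.symm.trans e2)
  have hB : ∀ (i : ZMod 3) (p : ℕ), p.Prime → p ∣ dd N c i →
      ∃ x : ℤ, (p : ℤ) ∣ (dd N c (i + 1) : ℤ) * (dd N c (i + 2) : ℤ) ^ 2 - x ^ 3 := by
    intro i p hp hd
    obtain ⟨hpS, hcp⟩ := hmem i p hp hd
    rcases hcase p hpS with h1 | h2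
    · obtain ⟨k1, k2⟩ := lam_dd h (N := N) c hp h1
      rw [hcp] at k1 k2
      have k3 := hc p hpS h1 ((fe_ne hb).2 hpS)
      rw [hcp] at k3
      rw [k3] at k2
      have := (h.cube p _ hp h1 k1).1 k2
      push_cast at this
      exact this
    · exact cube_two hp h2 _
  have hC := hn (dd N c) (prod_dd hN c) hA hB
  obtain ⟨i, hi⟩ := hC
  have hall : ∀ p ∈ N.primeFactors, c p = i := by
    intro p hp
    by_contra hne
    have h1 := hi (c p) hne
    have hpp := Nat.prime_of_mem_primeFactors hp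
    have h2 : p ∣ dd N c (c p) := by
      unfold dd
      refine Dvd.dvd.trans ?_ (Finset.dvd_prod_of_mem _ (Finset.mem_filter.2 ⟨hp, rfl⟩))
      refine dvd_pow_self p ?_
      exact (hpp.factorization_pos_of_dvd hN (Nat.dvd_of_mem_primeFactors hp)).ne'
    rw [h1] at h2
    exact hpp.one_lt.ne' (Nat.dvd_one.1 h2)
  intro p hp q hq _ _
  rw [hall p hp, hall q hq]

theorem nosplit_of_gx (h : LamP) {N : ℕ} (hb : Base N) (hne : N.primeFactors.Nonempty)
    (hg : Gx N.primeFactors (fe N)) : NoSplit N := by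
  intro d hd hcop hcube
  have hN : N ≠ 0 := hb.1
  have hS : ∀ q ∈ N.primeFactors, q.Prime := fun q hq => Nat.prime_of_mem_primeFactors hq
  -- the labels
  have hex : ∀ p ∈ N.primeFactors, ∃ i : ZMod 3, p ∣ d i := by
    intro p hp
    have h1 : p ∣ ∏ i, d i := by
      rw [hd]
      exact Nat.dvd_of_mem_primeFactors hp
    obtain ⟨i, -, hi⟩ := ((hS p hp).prime.dvd_finsetProd_iff _).1 h1
    exact ⟨i, hi⟩
  have huniq : ∀ p : ℕ, p.Prime → ∀ i j : ZMod 3, p ∣ d i → p ∣ d j → i = j := by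
    intro p hp i j h1 h2
    by_contra hne
    have h3 : p ∣ Nat.gcd (d i) (d j) := Nat.dvd_gcd h1 h2
    rw [Nat.Coprime.gcd_eq_one (hcop i j hne)] at h3
    exact hp.one_lt.ne' (Nat.dvd_one.1 h3)
  obtain ⟨c, hc⟩ : ∃ c : ℕ → ZMod 3, ∀ p ∈ N.primeFactors, p ∣ d (c p) := by
    refine ⟨fun p => if hp : ∃ i : ZMod 3, p ∣ d i then hp.choose else 0, fun p hp => ?_⟩
    have := hex p hp
    simp only [this, dif_pos]
    exact this.choose_spec
  have hd0 : ∀ i, d i ≠ 0 := fun i h0 => hN (by rw [← hd]; exact prod_eq_zero (mem_univ i) h0)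
  have hdD : ∀ i, d i ∣ N := fun i => by
    rw [← hd]
    exact Finset.dvd_prod_of_mem _ (Finset.mem_univ i)
  have hdd : ∀ i, dd N c i = d i := by
    intro i
    unfold dd
    conv_rhs => rw [← Nat.prod_factorization_pow_eq_self (hd0 i)]
    have e1 : (d i).primeFactors = N.primeFactors.filter fun q => c q = i := by
      ext p
      rw [Finset.mem_filter, Nat.mem_primeFactors, Nat.mem_primeFactors]
      constructor
      · rintro ⟨hp, hpd, -⟩
        have hpm : p ∈ N.primeFactors := Nat.mem_primeFactors.2 ⟨hp, hpd.trans (hdD i), hN⟩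
        exact ⟨⟨hp, hpd.trans (hdD i), hN⟩, huniq p hp _ _ (hc p hpm) hpd⟩
      · rintro ⟨⟨hp, hpD, -⟩, rfl⟩
        exact ⟨hp, hc p (Nat.mem_primeFactors.2 ⟨hp, hpD, hN⟩), hd0 _⟩
    rw [Finsupp.prod, Nat.support_factorization, e1]
    refine prod_congr rfl fun q hq => ?_
    rw [mem_filter] at hq
    congr 1
    have hq' := hS q hq.1
    -- the factorization of the product
    have h1 : N.factorization q = ∑ j, (d j).factorization q := by
      rw [← hd, Nat.factorization_prod (fun j _ => hd0 j), Finsupp.finsetSum_apply]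
    rw [h1, sum_eq_single i]
    · intro j _ hj
      refine Nat.factorization_eq_zero_of_not_dvd fun h' => hj ?_
      have h2 : q ∣ d i := by
        rw [← hq.2]
        exact hc q hq.1
      exact huniq q hq' j i h' h2
    · intro h'
      exact absurd (mem_univ i) h'
  have hsol : ∀ p ∈ N.primeFactors, p % 3 = 1 → fe N p ≠ 0 →
      ∑ q ∈ N.primeFactors, (c q - c p) * (fe N q * lam p q) = 0 := by
    intro p hp hp1 _
    obtain ⟨k1, k2⟩ := lam_dd h (N := N) c (hS p hp) hp1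
    rw [← k2]
    rw [h.cube p _ (hS p hp) hp1 k1, hdd, hdd]
    have := hcube (c p) p (hS p hp) (hc p hp)
    push_cast
    exact this
  have hconst := hg c hsol
  obtain ⟨q, hqm⟩ := hne
  refine ⟨c q, fun j hj => ?_⟩
  by_contra hne
  obtain ⟨p, hp, hpd⟩ := Nat.exists_prime_and_dvd hne
  have hpm : p ∈ N.primeFactors := Nat.mem_primeFactors.2 ⟨hp, hpd.trans (hdD j), hN⟩
  have h1 := huniq p hp _ _ (hc p hpm) hpd
  rw [hconst p hpm q hqm ((fe_ne hb).2 hpm) ((fe_ne hb).2 hqm)] at h1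
  exact hj h1.symm

/-- the exponents of a product -/
theorem ex_fe {D m : ℕ} (hD : Squarefree D) (hm : m ≠ 0) :
    ex (fe m) D.primeFactors = fe (D * m) := by
  funext p
  unfold ex fe
  rw [Nat.factorization_mul hD.ne_zero hm, Finsupp.add_apply, Nat.cast_add]
  congr 1
  by_cases h : p ∈ D.primeFactors
  · rw [if_pos h]
    have h1 := hD.natFactorization_le_one p
    have h2 := (Nat.prime_of_mem_primeFactors h).factorization_pos_of_dvd hD.ne_zero
      (Nat.dvd_of_mem_primeFactors h)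
    have h3 : D.factorization p = 1 := by omega
    rw [h3, Nat.cast_one]
  · rw [if_neg h]
    rw [← Nat.support_factorization, Finsupp.mem_support_iff, not_not] at h
    rw [h, Nat.cast_zero]

/-- **The criterion for a product.** -/
theorem ns_iff (h : LamP) {D m : ℕ} (hD : Squarefree D) (hm : m ≠ 0) (hC : Cls (D * m))
    {W : Finset ℕ} (hW : m.primeFactors ⊆ W) :
    finrank (ZMod 3) (KT (D.primeFactors ∪ W) (ex (fe m) D.primeFactors)) = 1 ↔ NoSplit (D * m) := by
  have hb := hC.1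
  obtain ⟨q, hq, -, hqD, -⟩ := hC.2.2.2
  have hqm : q ∈ (D * m).primeFactors := Nat.mem_primeFactors.2 ⟨hq, hqD, hb.1⟩
  rw [ex_fe hD hm]
  have hsub : ∀ p, fe (D * m) p ≠ 0 → (p ∈ D.primeFactors ∪ W ↔ p ∈ (D * m).primeFactors) := by
    intro p hp
    rw [fe_ne hb] at hp
    refine ⟨fun _ => hp, fun _ => ?_⟩
    rw [Nat.primeFactors_mul hD.ne_zero hm, mem_union] at hp
    exact mem_union.2 (hp.imp id fun h => hW h)
  have hqe : fe (D * m) q ≠ 0 := (fe_ne hb).2 hqm
  rw [rk_iff ⟨q, (hsub q hqe).2 hqm, hqe⟩, gx_congr hsub]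
  exact ⟨nosplit_of_gx h hb ⟨q, hqm⟩, gx_of_nosplit h hb⟩

end Q283.Q3N
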