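import Pool.Agent.Q283.Q3.Lawq
import Pool.Agent.Q283.Q3.Nsq
import Pool.Agent.Y703.CT.T1d

/-! The joint law over `ℚ` for the numbers `D` -/

set_option autoImplicit false

open scoped Classical

namespace Q283.Q3N

open Finset Module Filter
open Pool.Agent.Y703.CX (lam LamP SS Cl c3)
open Pool.Agent.Y703.CT (Cls NoSplit Base Triv3 fin_all)
open Pool.Agent.Y710.CX (card_eq cls_iff)
open Q283.Q3 (KT mem_KT ex AV mem_SS cq cq_zero low_V)
open Q283.Q3A (rv law_S meas_A finrank_ge ex_ne)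

/-- the admissible multipliers: `1` modulo `9`, cube-free, all prime divisors `1` modulo `3` -/
def Adm (m : ℕ) : Prop := m % 9 = 1 ∧ ∀ p : ℕ, p.Prime → p ∣ m → p % 3 = 1 ∧ ¬ p ^ 3 ∣ m

theorem Adm.ne {m : ℕ} (h : Adm m) : m ≠ 0 := by
  rintro rfl
  have := h.1
  omega

theorem Adm.le {m : ℕ} (h : Adm m) (p : ℕ) : m.factorization p ≤ 2 := by
  by_contra h3
  by_cases hp : p.Prime
  · by_cases hd : p ∣ m
    · exact (h.2 p hp hd).2 ((pow_dvd_pow p (by omega)).trans (Nat.ordProj_dvd m p))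
    · rw [Nat.factorization_eq_zero_of_not_dvd hd] at h3
      omega
  · rw [Nat.factorization_eq_zero_of_not_prime _ hp] at h3
    omega

theorem fe_inj {m m' : ℕ} (h : Adm m) (h' : Adm m') (he : fe m = fe m') : m = m' := by
  refine Nat.eq_of_factorization_eq h.ne h'.ne fun p => ?_
  have h1 := congrFun he p
  unfold fe at h1
  have h2 := h.le p
  have h3 := h'.le p
  generalize m.factorization p = a at *
  generalize m'.factorization p = b at *
  interval_cases a <;> interval_cases b <;> first | rfl | exact absurd h1 (by decide)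

theorem cls_mul {D m : ℕ} (hC : Cls D) (hm : Adm m) (hc : D.Coprime m) :
    Cls (D * m) := by
  obtain ⟨⟨h0, h3, hcub⟩, h91, h98, q, hq, hq2, hqD, hqu⟩ := hC
  have h9 : (D * m) % 9 = D % 9 := by
    rw [Nat.mul_mod, hm.1, mul_one, Nat.mod_mod]
  refine ⟨⟨mul_ne_zero h0 hm.ne, ?_, ?_⟩, by rw [h9]; exact h91, by rw [h9]; exact h98,
    q, hq, hq2, hqD.trans (dvd_mul_right _ _), ?_⟩
  · intro h
    rcases (Nat.Prime.dvd_mul Nat.prime_three).1 h with h | h
    · exact h3 h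
    · have := hm.1
      omega
  · intro p hp h
    by_cases hpD : p ∣ D
    · have hpm : Nat.Coprime (p ^ 3) m := by
        refine Nat.Coprime.pow_left 3 ((Nat.Prime.coprime_iff_not_dvd hp).2 fun h' => ?_)
        exact Nat.Prime.one_lt hp |>.ne' (Nat.dvd_one.1 (hc ▸ Nat.dvd_gcd hpD h'))
      exact hcub p hp (hpm.dvd_of_dvd_mul_right h)
    · have hpD' : Nat.Coprime (p ^ 3) D :=
        Nat.Coprime.pow_left 3 ((Nat.Prime.coprime_iff_not_dvd hp).2 hpD)
      have h1 : p ^ 3 ∣ m := hpD'.dvd_of_dvd_mul_left h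
      exact (hm.2 p hp ((dvd_pow_self p (by norm_num)).trans h1)).2 h1
  · intro p hp h hne
    rcases (Nat.Prime.dvd_mul hp).1 h with h | h
    · exact hqu p hp h hne
    · exact (hm.2 p hp h).1

/-- the primes of the multipliers -/
noncomputable def WW {M : ℕ} (m : Fin M → ℕ) : Finset ℕ := univ.biUnion fun k => (m k).primeFactors

theorem sub_WW {M : ℕ} (m : Fin M → ℕ) (k : Fin M) : (m k).primeFactors ⊆ WW m :=
  subset_biUnion_of_mem (fun k => (m k).primeFactors) (mem_univ k)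

theorem mem_WW {M : ℕ} {m : Fin M → ℕ} (hm : ∀ k, Adm (m k)) {u : ℕ} (hu : u ∈ WW m) :
    u.Prime ∧ u % 3 = 1 := by
  unfold WW at hu
  rw [mem_biUnion] at hu
  obtain ⟨k, -, hk⟩ := hu
  have hp := Nat.prime_of_mem_primeFactors hk
  exact ⟨hp, ((hm k).2 u hp (Nat.dvd_of_mem_primeFactors hk)).1⟩

theorem fe_WW {M : ℕ} (m : Fin M → ℕ) (k : Fin M) (u : ℕ) (hu : u ∉ WW m) : fe (m k) u = 0 := by
  have h1 : u ∉ (m k).primeFactors := fun h => hu (sub_WW m k h)
  rw [← Nat.support_factorization, Finsupp.mem_support_iff, not_not] at h1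
  unfold fe
  rw [h1, Nat.cast_zero]

theorem av_iff {M : ℕ} {m : Fin M → ℕ} (hm : ∀ k, Adm (m k)) {D : ℕ} (hD : D ≠ 0) :
    AV (WW m) D.primeFactors ↔ ∀ k, D.Coprime (m k) := by
  unfold AV WW
  rw [Finset.disjoint_biUnion_right]
  constructor
  · intro h k
    exact (Nat.disjoint_primeFactors hD (hm k).ne).1 (h k (mem_univ k))
  · intro h k _
    exact (Nat.disjoint_primeFactors hD (hm k).ne).2 (h k)

/-- **The joint law.** -/
theorem law_N {M : ℕ} (m : Fin M → ℕ) (hm : ∀ k, Adm (m k)) (hi : Function.Injective m)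
    (A : Finset (Fin M)) :
    Tendsto (fun X : ℕ =>
      (((Icc 1 X).filter fun D => Squarefree D ∧ Cls D ∧ (∀ k, D.Coprime (m k)) ∧
        ∀ k, NoSplit (D * m k) ↔ k ∈ A).card : ℝ) /
      (((Icc 1 X).filter fun D => Squarefree D ∧ Cls D ∧ ∀ k, D.Coprime (m k)).card : ℝ))
      atTop (nhds (c3 ^ A.card * (1 - c3) ^ (M - A.card))) := by
  have hlam := Pool.Agent.Y333.CX.t_LAM
  have h := law_S (WW m) (WW m) (Finset.Subset.refl _) (fun k => fe (m k))
    (fun u hu => mem_WW hm hu) (fun k u hu => fe_WW m k u hu)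
    (fun k l hkl he => hkl (hi (fe_inj (hm k) (hm l) he))) {r | ∀ k, (r k = 0 ↔ k ∈ A)}
  have h2 := meas_A A
  rw [cq_zero] at h2
  rw [h2] at h
  refine h.congr fun X => ?_
  have e1 := card_eq X (fun D => (∀ k, D.Coprime (m k)) ∧ ∀ k, NoSplit (D * m k) ↔ k ∈ A)
    (fun S => AV (WW m) S ∧ rv (WW m) (fun k => fe (m k)) S ∈ {r : Fin M → ℕ | ∀ k, (r k = 0 ↔ k ∈ A)})
    fun D hD hcl => by
      show (_ ↔ AV (WW m) D.primeFactors ∧ ∀ k, (rv (WW m) (fun k => fe (m k)) D.primeFactors k = 0 ↔ k ∈ A))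
      rw [av_iff hm hD.ne_zero]
      refine and_congr_right fun hc => ?_
      refine forall_congr' fun k => ?_
      have hC : Cls D := (cls_iff hD).2 hcl
      rw [← ns_iff hlam hD (hm k).ne (cls_mul hC (hm k) (hc k)) (sub_WW m k)]
      have hge := finrank_ge (ex_ne (W := WW m) (fun u hu => mem_WW hm hu) (fe_WW m k) hcl)
      unfold rv
      have e : finrank (ZMod 3) (KT (D.primeFactors ∪ WW m) (ex (fe (m k)) D.primeFactors)) = 1 ↔
          finrank (ZMod 3) (KT (D.primeFactors ∪ WW m) (ex (fe (m k)) D.primeFactors)) - 1 = 0 := by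
        omega
      rw [e]
  have e2 := card_eq X (fun D => ∀ k, D.Coprime (m k)) (fun S => AV (WW m) S)
    fun D hD _ => (av_iff hm hD.ne_zero).symm
  refine congrArg₂ (fun a b : ℕ => (a : ℝ) / (b : ℝ)) ((Q283.T3.fcc2 _ _).trans (e1.symm.trans (Q283.T3.fcc2 _ _)))
    ((Q283.T3.fcc2 _ _).trans (e2.symm.trans (Q283.T3.fcc2 _ _)))

/-- the lower bound -/
theorem low_N {M : ℕ} (m : Fin M → ℕ) (hm : ∀ k, Adm (m k)) : ∃ (c : ℝ) (X₀ : ℕ), 0 < c ∧
    ∀ X : ℕ, X₀ ≤ X → c * (X / Real.sqrt (Real.log X)) ≤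
      (((Icc 1 X).filter fun D => Squarefree D ∧ Cls D ∧ ∀ k, D.Coprime (m k)).card : ℝ) := by
  obtain ⟨c, X₀, hc, h⟩ := low_V (WW m) fun p hp => (mem_WW hm hp).2
  refine ⟨c, max X₀ 3, hc, fun X hX => ?_⟩
  have e2 := card_eq X (fun D => ∀ k, D.Coprime (m k)) (fun S => AV (WW m) S)
    fun D hD _ => (av_iff hm hD.ne_zero).symm
  have e3 : ((Icc 1 X).filter fun D => Squarefree D ∧ Cls D ∧ ∀ k, D.Coprime (m k)).card =
      ((SS X).filter (AV (WW m))).card :=
    (Q283.T3.fcc2 _ _).trans (e2.trans (Q283.T3.fcc2 _ _))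
  rw [e3]
  refine le_trans (le_of_eq ?_) (h X (le_trans (le_max_left _ _) hX))
  have h3 : 0 < Real.log X := Real.log_pos (by
    have := le_trans (le_max_right X₀ 3) hX
    exact_mod_cast (by omega : 1 < X))
  rw [Real.rpow_neg h3.le, ← Real.sqrt_eq_rpow, mul_assoc]
  rfl

/-- the criterion -/
theorem triv_iff {N : ℕ} (hC : Cls N) : Triv3 N ↔ NoSplit N := by
  obtain ⟨-, f, -, u, -, -, -, h2⟩ := fin_all hC
  exact h2

end Q283.Q3N
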