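import Pool.Agent.Q283.Q3.Kq
import Pool.Agent.Q283.Q3.Kr
import Pool.Agent.Q283.Q3.Natq
import Pool.Agent.Q283.T3.Trn2
import Pool.Agent.Y696.CTK.Fin

/-! The Selmer group over `ℚ(ω)` of the twists by rational numbers, and the rank over `ℚ` -/

set_option autoImplicit false
set_option linter.unusedSectionVars false

open scoped Classical

namespace Q283.Q3B

open Finset Module NumberField
open Pool.Agent.Y692.QS (Ei nr w)
open Pool.Agent.Y715.T.Rec (cs)
open Pool.Agent.Y715.T.RecG (Pq)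
open Pool.Agent.Y703.CT (Dt pD Ker ClsE Tw Sel1 ShK MwK a_ne descK Cls NoSplit Triv3)
open Pool.Agent.Y715.T.Gi Pool.Agent.Y715.T.Nr Pool.Agent.Y715.T.Df Pool.Agent.Y715.T.Ell
open Pool.Agent.XL6 (KerV SelH SelK sel_card selK_card rk_le rank_le)
open Pool.Agent.Y696.CTK (ED Tri Parts TrfData parts)
open Pool.Agent.Y155.CT (a_mul a_cont)
open Q283.T3B (JT dt_of pD_eq card_ker kerV_ge kerV_three tw_div)
open Pool.Agent.Y703.CX (lam LamP pp)
open Pool.Agent.Y37.CX (QQ pp_facts QQ_dvd)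
open Q283.Q3N (Adm fe ex_fe ns_iff cls_mul triv_iff)

section main

variable {K : Type} [Field K] [NumberField K]

/-- **The Selmer group, the rank, the triviality, from a decomposition.** -/
theorem main_E (P : Parts) (j : Ei ≃+* 𝓞 K) {z x : Ei} (hz : z ≠ 0) {T : Finset Ei}
    {e : Ei → ZMod 3} (hTq : ∀ π ∈ T, Pq π) (hx0 : x ≠ 0)
    (hDm : z = x ^ 3 * ∏ π ∈ T, π ^ (e π).val)
    (hE9 : ¬ (9 : ℤ) ∣ nr (∏ π ∈ T, π ^ (e π).val) - 1) :
    (SelK (j z : K)).ncard = 3 ^ finrank (ZMod 3) (Q283.T3.KT T e) ∧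
    1 ≤ finrank (ZMod 3) (Q283.T3.KT T e) ∧
    (∀ r : ℕ, finrank (ZMod 3) (Q283.T3.KT T e) ≤ r + 1 →
      finrank ℤ (ED (j z : K)).toAffine.Point ≤ 2 * r) ∧
    (finrank (ZMod 3) (Q283.T3.KT T e) = 1 ↔ Tri (j z)) := by
  have hdt := dt_of (e := e) hTq
  rw [← pD_eq (T := T) (e := e)] at hDm hE9
  have hJ : Nonempty (JT T e) := by
    by_contra hn
    rw [not_nonempty_iff] at hn
    apply hE9
    unfold pD
    rw [Finset.univ_eq_empty, Finset.prod_empty, Pool.Agent.Y692.QS.nr_one, sub_self]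
    exact dvd_zero _
  have hsc : ∀ (i₀ : QB) (hi : i₀ ^ 2 + i₀ + 1 = 0) (u : QB) (a : GK i₀ → ZMod 3),
      Tw hi z u a → (SelH hi a).ncard = 3 ^ finrank (ZMod 3) (Q283.T3.KT T e) := by
    intro i₀ hi u a hTw
    exact (sel_card hdt hE9 (tw_div hx0 hDm hTw)).trans card_ker
  have hge : 1 ≤ finrank (ZMod 3) (Q283.T3.KT T e) := by
    have h1 := kerV_ge (π := fun t : JT T e => (t.1.1 : Ei)) (e := fun t => e t.1)
    rw [card_ker] at h1
    by_contra h2
    have h3 : finrank (ZMod 3) (Q283.T3.KT T e) = 0 := by omega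
    rw [h3, pow_zero] at h1
    omega
  obtain ⟨ee, i₀, hi, u, a, Ψ, g, hdata⟩ := P.trf K j _ hz
  have hTw := hdata.1
  have hTw' := tw_div hx0 hDm hTw
  have h1 := hsc i₀ hi u a hTw
  have hane := a_ne hdt hTw'
  refine ⟨(selK_card hz hdata).trans h1, hge, fun r hr => ?_, ?_⟩
  · have hfin : (SelH hi a).Finite := Set.finite_of_ncard_ne_zero (by rw [h1]; positivity)
    refine (rk_le hz hdata).trans (rank_le (a_mul hz hTw) (a_cont hz hTw) hane hfin ?_)
    rw [h1]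
    exact Nat.pow_le_pow_right (by norm_num) hr
  · constructor
    · intro hf
      have hk : Ker (fun t : JT T e => (t.1.1 : Ei)) (fun t => e t.1) := by
        rw [← kerV_three, card_ker, hf, pow_one]
      exact ⟨(P.mwt P.trf K j _ hz fun i₀ hi u a hT => (descK hdt hk hE9 (tw_div hx0 hDm hT)).2).1,
        P.sht P.trf K j _ hz fun i₀ hi u a hT => (descK hdt hk hE9 (tw_div hx0 hDm hT)).1⟩
    · rintro ⟨k1, k2⟩
      have hM := P.mwc K j _ hz ee i₀ hi u a Ψ g hdata hane k1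
      have hS := P.shc P.plc K j _ hz ee i₀ hi u a Ψ g hdata k2
      have hsel := Pool.Agent.H70CT.t_SHC _ hz i₀ hi u a hTw hane hS hM
      have hsub : SelH hi a ⊆ Set.range (fun c : ZMod 3 => fun σ => c * a σ) := by
        rintro h ⟨b1, b2, b3⟩
        obtain ⟨c, hc⟩ := hsel h b1 b2 b3
        exact ⟨c, (funext hc).symm⟩
      have h3 : (SelH hi a).ncard ≤ 3 := by
        refine (Set.ncard_le_ncard hsub (Set.toFinite _)).trans ?_
        rw [← Set.image_univ]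
        refine (Set.ncard_image_le (Set.toFinite _)).trans ?_
        rw [Set.ncard_univ, Nat.card_zmod]
      rw [h1] at h3
      by_contra h4
      have h5 : 2 ≤ finrank (ZMod 3) (Q283.T3.KT T e) := by omega
      have h6 := Nat.pow_le_pow_right (n := 3) (by norm_num) h5
      omega

end main

/-! ### The decomposition of a rational number -/

/-- the exponents on the primes of `ℤ[ω]` -/
noncomputable def EE (T : Finset ℕ) (e : ℕ → ZMod 3) (π : Ei) : ZMod 3 :=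
  if h : ∃ u ∈ T, π ∈ QQ u then e h.choose else 0

theorem EE_eq (hL : LamP) {T : Finset ℕ} (hT : ∀ u ∈ T, u.Prime ∧ u ≠ 3) (e : ℕ → ZMod 3)
    {u : ℕ} (hu : u ∈ T) {π : Ei} (hπ : π ∈ QQ u) : EE T e π = e u := by
  have h : ∃ u ∈ T, π ∈ QQ u := ⟨u, hu, hπ⟩
  unfold EE
  rw [dif_pos h]
  obtain ⟨h1, h2⟩ := h.choose_spec
  by_contra hne
  have hne' : h.choose ≠ u := fun h' => hne (by rw [h'])
  exact QQ_ne hL hT h1 hu hne' h2 hπ rfl

theorem prod_QQ_one (hL : LamP) {u : ℕ} (hu : u.Prime) (hu3 : u ≠ 3) :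
    ∃ s : Ei, s ^ 2 = 1 ∧ (u : Ei) = s * ∏ π ∈ QQ u, π := by
  have hm : u % 3 = 1 ∨ u % 3 = 2 := by
    have : ¬ 3 ∣ u := fun h => hu3 ((Nat.prime_dvd_prime_iff_eq Nat.prime_three hu).1 h).symm
    omega
  rcases hm with h | h
  · obtain ⟨k1, k2, k3, k4, k5⟩ := pp_facts hL hu h
    refine ⟨1, one_pow 2, ?_⟩
    unfold QQ
    rw [if_pos h, prod_insert (by rw [mem_singleton]; exact k5), prod_singleton, one_mul,
      Pool.Agent.Y692.QS.mul_star, (hL.ex u hu h).2]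
    simp
  · refine ⟨-1, by ring, ?_⟩
    rw [QQ_two h, prod_singleton]
    ring

/-- the decomposition -/
theorem dec_N (hL : LamP) {N : ℕ} (hN : N ≠ 0) {T : Finset ℕ} (hT : ∀ u ∈ T, u.Prime ∧ u ≠ 3)
    (hsub : N.primeFactors ⊆ T) : ∃ x : Ei, x ≠ 0 ∧ (N : Ei) = x ^ 3 *
      ∏ π ∈ TT T, π ^ (EE T (fe N) π).val := by
  have h1 : (N : Ei) = ∏ u ∈ T, (u : Ei) ^ N.factorization u := by
    have h2 : N = ∏ u ∈ T, u ^ N.factorization u := by
      refine (Nat.prod_factorization_pow_eq_self hN).symm.trans ?_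
      refine prod_subset hsub fun u _ hu => ?_
      rw [Finsupp.mem_support_iff, not_not] at hu
      show u ^ N.factorization u = 1
      rw [hu, pow_zero]
    conv_lhs => rw [h2]
    push_cast
    rfl
  have h2 : ∏ π ∈ TT T, π ^ (EE T (fe N) π).val = ∏ u ∈ T, (∏ π ∈ QQ u, π) ^ (fe N u).val := by
    unfold TT
    rw [prod_biUnion]
    · refine prod_congr rfl fun u hu => ?_
      rw [← prod_pow]
      exact prod_congr rfl fun π hπ => by rw [EE_eq hL hT _ hu hπ]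
    · intro u hu v hv huv
      refine disjoint_left.2 fun π h3 h4 => ?_
      exact QQ_ne hL hT hu hv huv h3 h4 rfl
  have hs := fun u : T => prod_QQ_one hL (hT u u.2).1 (hT u u.2).2
  choose s hs1 hs2 using hs
  obtain ⟨S, hS⟩ : ∃ S : ℕ → Ei, S = fun u => if h : u ∈ T then s ⟨u, h⟩ else 1 := ⟨_, rfl⟩
  have hS1 : ∀ u ∈ T, S u ^ 2 = 1 ∧ (u : Ei) = S u * ∏ π ∈ QQ u, π := by
    intro u hu
    rw [hS]
    simp only
    rw [dif_pos hu]
    exact ⟨hs1 _, hs2 ⟨u, hu⟩⟩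
  refine ⟨∏ u ∈ T, ((u : Ei) ^ (N.factorization u / 3) * S u ^ (fe N u).val), ?_, ?_⟩
  · refine prod_ne_zero_iff.2 fun u hu => mul_ne_zero (pow_ne_zero _ ?_) (pow_ne_zero _ ?_)
    · intro h
      have h3 : nr (u : Ei) = 0 := by rw [h]; decide
      rw [Pool.Agent.Y692.QS.nr_nat] at h3
      have h4 : (0 : ℤ) < u := by exact_mod_cast (hT u hu).1.pos
      nlinarith
    · intro h
      have h3 := (hS1 u hu).1
      rw [h] at h3
      exact absurd h3 (by decide)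
  · rw [h1, h2, ← prod_pow, ← prod_mul_distrib]
    refine prod_congr rfl fun u hu => ?_
    obtain ⟨h3, h4⟩ := hS1 u hu
    have h5 : (fe N u).val = N.factorization u % 3 := by
      unfold fe
      rw [ZMod.val_natCast]
    have h6 : ((u : Ei)) ^ N.factorization u =
        ((u : Ei) ^ (N.factorization u / 3)) ^ 3 * (u : Ei) ^ (N.factorization u % 3) := by
      rw [← pow_mul, ← pow_add]
      congr 1
      omega
    have h7 : (u : Ei) ^ (N.factorization u % 3) =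
        (S u ^ (N.factorization u % 3)) ^ 3 * (∏ π ∈ QQ u, π) ^ (N.factorization u % 3) := by
      conv_lhs => rw [h4]
      rw [mul_pow]
      congr 1
      have : S u ^ (N.factorization u % 3 * 3) = S u ^ (N.factorization u % 3) := by
        rw [mul_comm, pow_mul]
        congr 1
        have e : S u ^ 3 = S u ^ 2 * S u := by ring
        rw [e, h3, one_mul]
      rw [← pow_mul, this]
    rw [h5, h6, h7]
    ring

/-- the norms -/
theorem nr9 {N : ℕ} (h3 : ¬ 3 ∣ N) (h91 : N % 9 ≠ 1) (h98 : N % 9 ≠ 8) {x E : Ei}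
    (h : (N : Ei) = x ^ 3 * E) : ¬ (9 : ℤ) ∣ nr E - 1 := by
  intro hd
  have h1 := congrArg nr h
  have e1 : ∀ a b : Ei, nr (a * b) = nr a * nr b := fun a b => Pool.Agent.Y692.QS.nr_mul a b
  have e2 : nr (x ^ 3) = nr x ^ 3 := by
    rw [pow_succ, pow_two, e1, e1]; ring
  rw [Pool.Agent.Y692.QS.nr_nat, e1, e2] at h1
  obtain ⟨c, hc⟩ := hd
  have hc1 : nr E = 1 + 9 * c := by linarith
  rw [hc1] at h1
  generalize nr x = y at h1
  have h2 : (N : ℤ) ^ 2 - y ^ 3 = 9 * (y ^ 3 * c) := by linear_combination h1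
  have h4 : (((N : ℤ) ^ 2 - y ^ 3 : ℤ) : ZMod 9) = 0 := by
    rw [h2]
    push_cast
    rw [show (9 : ZMod 9) = 0 from rfl, zero_mul]
  push_cast at h4
  have h5 : (N : ZMod 9) = ((N % 9 : ℕ) : ZMod 9) := (ZMod.natCast_mod N 9).symm
  rw [h5] at h4
  have h6 : N % 9 < 9 := Nat.mod_lt _ (by norm_num)
  have h7 : ¬ 3 ∣ N % 9 := by omega
  generalize N % 9 = n at h4 h6 h7 h91 h98
  have key : ∀ n : Fin 9, ∀ y : ZMod 9, ¬ 3 ∣ n.val → n.val ≠ 1 → n.val ≠ 8 →
      ((n.val : ℕ) : ZMod 9) ^ 2 - y ^ 3 ≠ 0 := by decide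
  exact key ⟨n, h6⟩ (y : ZMod 9) h7 h91 h98 h4

/-- **The Selmer group and the rank.** -/
theorem sel_Q (K : Type) [Field K] [NumberField K] (j : Ei ≃+* 𝓞 K) {D m : ℕ} (hD : Squarefree D)
    (hC : Cls D) (hm : Adm m) (hc : D.Coprime m) {W : Finset ℕ} (hW : m.primeFactors ⊆ W)
    (hW1 : ∀ u ∈ W, u.Prime ∧ u % 3 = 1) :
    (SelK ((D * m : ℕ) : K)).ncard =
      3 ^ (2 * (finrank (ZMod 3) (Q283.Q3.KT (D.primeFactors ∪ W) (Q283.Q3.ex (fe m) D.primeFactors)) - 1)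
        + 1) ∧
    finrank ℤ (ED ((D * m : ℕ) : ℚ)).toAffine.Point ≤
      2 * (finrank (ZMod 3) (Q283.Q3.KT (D.primeFactors ∪ W) (Q283.Q3.ex (fe m) D.primeFactors)) - 1) ∧
    (finrank (ZMod 3) (Q283.Q3.KT (D.primeFactors ∪ W) (Q283.Q3.ex (fe m) D.primeFactors)) - 1 = 0 ↔
      Triv3 (D * m)) ∧
    1 ≤ finrank (ZMod 3) (Q283.Q3.KT (D.primeFactors ∪ W) (Q283.Q3.ex (fe m) D.primeFactors)) := by
  have hL := Pool.Agent.Y333.CX.t_LAM
  obtain ⟨T, hTdef⟩ : ∃ T, T = D.primeFactors ∪ W := ⟨_, rfl⟩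
  have hCm := cls_mul hC hm hc
  have hns := ns_iff hL hD hm.ne hCm hW
  have hex := ex_fe hD hm.ne
  rw [← hTdef, hex] at hns ⊢
  obtain ⟨⟨h0, h3, hcub⟩, h91, h98, q, hq, hq2, hqD, hqu⟩ := hC
  obtain ⟨⟨h0', h3', hcub'⟩, h91', h98', -⟩ := hCm
  have hT : ∀ u ∈ T, u.Prime ∧ u ≠ 3 := by
    intro u hu
    rw [hTdef] at hu
    rcases mem_union.1 hu with h | h
    · refine ⟨Nat.prime_of_mem_primeFactors h, ?_⟩
      rintro rfl
      exact h3 (Nat.dvd_of_mem_primeFactors h)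
    · refine ⟨(hW1 u h).1, ?_⟩
      rintro rfl
      have := (hW1 3 h).2
      omega
  have hqT : q ∈ T := by
    rw [hTdef]
    exact mem_union_left _ (Nat.mem_primeFactors.2 ⟨hq, hqD, h0⟩)
  have hqu' : ∀ u ∈ T, u % 3 = 2 → u = q := by
    intro u hu h2
    by_contra hne
    rw [hTdef] at hu
    rcases mem_union.1 hu with h | h
    · have := hqu u (Nat.prime_of_mem_primeFactors h) (Nat.dvd_of_mem_primeFactors h) hne
      omega
    · have := (hW1 u h).2
      omega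
  have hsub : (D * m).primeFactors ⊆ T := by
    rw [Nat.primeFactors_mul h0 hm.ne, hTdef]
    exact union_subset_union (Finset.Subset.refl _) hW
  have hqm : ¬ q ∣ m := by
    intro h
    have := (hm.2 q hq h).1
    omega
  have heq : fe (D * m) q ≠ 0 := by
    unfold fe
    rw [Nat.factorization_mul h0 hm.ne, Finsupp.add_apply, Nat.factorization_eq_zero_of_not_dvd hqm,
      add_zero]
    have h1 := hD.natFactorization_le_one q
    have h2 := hq.factorization_pos_of_dvd h0 hqD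
    have h3 : D.factorization q = 1 := by omega
    rw [h3]
    decide
  obtain ⟨x, hx, hdec⟩ := dec_N hL h0' hT hsub
  have hk := finrank_K hL hT hqT hq2 hqu' (E := EE T (fe (D * m))) (e := fe (D * m))
    (fun u hu π hπ => EE_eq hL hT _ hu hπ) heq
  have hTq : ∀ π ∈ TT T, Pq π := by
    intro π hπ
    obtain ⟨u, hu, h⟩ := mem_biUnion.1 hπ
    exact (QQ_dvd hL (hT u hu).1 (hT u hu).2 π h).1
  have hz : ((D * m : ℕ) : Ei) ≠ 0 := by
    intro h
    have h3 : nr ((D * m : ℕ) : Ei) = 0 := by rw [h]; decide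
    rw [Pool.Agent.Y692.QS.nr_nat] at h3
    have h4 : (0 : ℤ) < (D * m : ℕ) := by exact_mod_cast Nat.pos_of_ne_zero h0'
    nlinarith
  obtain ⟨g1, g2, g3, g4⟩ := main_E (K := K) parts j hz hTq hx hdec (nr9 h3' h91' h98' hdec)
  have hjz : ((j ((D * m : ℕ) : Ei) : 𝓞 K) : K) = ((D * m : ℕ) : K) := by
    rw [map_natCast]
    exact map_natCast (algebraMap (𝓞 K) K) _
  rw [hjz] at g1 g3
  obtain ⟨r, hr⟩ : ∃ r, finrank (ZMod 3) (Q283.Q3.KT T (fe (D * m))) = r + 1 :=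
    ⟨finrank (ZMod 3) (Q283.Q3.KT T (fe (D * m))) - 1, by omega⟩
  have hr2 : finrank (ZMod 3) (Q283.T3.KT (TT T) (EE T (fe (D * m)))) = 2 * r + 1 := by omega
  rw [hr, Nat.add_sub_cancel]
  rw [hr2] at g1
  refine ⟨g1, ?_, ?_, by omega⟩
  · have h4 := g3 (2 * r) (by omega)
    have hζ : ((j w : 𝓞 K) : K) ^ 2 + ((j w : 𝓞 K) : K) + 1 = 0 := by
      have h1 : (w : Ei) ^ 2 + w + 1 = 0 := by
        rw [pow_two, Pool.Agent.Y692.QS.w_sq]; ring
      have h2 := congrArg (fun z => ((j z : 𝓞 K) : K)) h1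
      simp only [map_add, map_pow, map_one, map_zero] at h2
      exact h2
    have hNQ : ((D * m : ℕ) : ℚ) ≠ 0 := Nat.cast_ne_zero.2 h0'
    have h5 := rank_Q hζ hNQ
    rw [map_natCast] at h5
    omega
  · rw [triv_iff (cls_mul ⟨⟨h0, h3, hcub⟩, h91, h98, q, hq, hq2, hqD, hqu⟩ hm hc), ← hns, hr]
    omega

end Q283.Q3B
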