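import Pool.Agent.Q283.Q3.Jq
import Pool.Agent.Q283.T3.LB
import Pool.Agent.Y703.CX.Stm

/-! The linear algebra over `ℚ`: the law of the coranks of several systems with a common random
part -/

set_option autoImplicit false
set_option linter.unusedSectionVars false

open scoped Classical

namespace Q283.Q3

open Finset Module
open Q283.T3 (row row_apply KS mem_KS dg Sk mem_Sk_inl mem_Sk_inr W0 mem_W0 finrank_W0 fcc2)
open Pool.Agent.Y703.CX (prs)

section lap
variable {ι : Type} [Fintype ι]

/-- the map of the Laplacian -/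
noncomputable def Lq (c : ι → ι → ZMod 3) (δ : ι → ZMod 3) : (ι → ZMod 3) →ₗ[ZMod 3] (ι → ZMod 3) :=
  LinearMap.pi fun i => row c δ i

theorem Lq_apply (c : ι → ι → ZMod 3) (δ : ι → ZMod 3) (x : ι → ZMod 3) (i : ι) :
    Lq c δ x i = ∑ j, c i j * (x j - x i) + δ i * x i := by
  unfold Lq
  rw [LinearMap.pi_apply, row_apply]

theorem Lq_add (c c' : ι → ι → ZMod 3) (δ : ι → ZMod 3) : Lq c δ + Lq c' 0 = Lq (c + c') δ := by
  refine LinearMap.ext fun x => funext fun i => ?_
  rw [LinearMap.add_apply, Pi.add_apply, Lq_apply, Lq_apply, Lq_apply]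
  have h : ∑ j, (c + c') i j * (x j - x i) = ∑ j, c i j * (x j - x i) + ∑ j, c' i j * (x j - x i) := by
    rw [← sum_add_distrib]
    exact sum_congr rfl fun j _ => by simp only [Pi.add_apply]; ring
  rw [h]
  simp only [Pi.zero_apply]
  ring

theorem mem_kerLq {c : ι → ι → ZMod 3} {δ : ι → ZMod 3} {x : ι → ZMod 3} :
    x ∈ LinearMap.ker (Lq c δ) ↔ ∀ i, ∑ j, c i j * (x j - x i) + δ i * x i = 0 := by
  rw [LinearMap.mem_ker]
  constructor
  · intro h i
    rw [← Lq_apply, h]
    rfl
  · intro h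
    funext i
    rw [Lq_apply, h i]
    rfl

theorem finrank_KSq {c : ι → ι → ZMod 3} {S : Finset ι} (hS : ∀ i j, i ∉ S → c i j = 0)
    (hS2 : ∀ i j, j ∉ S → c i j = 0) {j₀ : ι} (hj : j₀ ∈ S) (h0 : ∀ j, c j₀ j = 0) :
    finrank (ZMod 3) (KS c S) = finrank (ZMod 3) (LinearMap.ker (Lq c (dg S j₀))) + 1 := by
  set g : KS c S →ₗ[ZMod 3] (ZMod 3) := (LinearMap.proj j₀ : (ι → ZMod 3) →ₗ[ZMod 3] (ZMod 3)).comp (KS c S).subtype with hg
  have h1 := LinearMap.finrank_range_add_finrank_ker g
  have hone : (fun i => if i ∈ S then (1 : (ZMod 3)) else 0) ∈ KS c S := by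
    refine ⟨fun i hi => if_neg hi, fun i => sum_eq_zero fun j _ => ?_⟩
    by_cases hi : i ∈ S
    · by_cases hj' : j ∈ S
      · show c i j * ((if j ∈ S then (1 : (ZMod 3)) else 0) - (if i ∈ S then (1 : (ZMod 3)) else 0)) = 0
        rw [if_pos hi, if_pos hj', sub_self, mul_zero]
      · rw [hS2 i j hj', zero_mul]
    · rw [hS i j hi, zero_mul]
  have h2 : finrank (ZMod 3) (LinearMap.range g) = 1 := by
    have h3 : LinearMap.range g = ⊤ := by
      rw [LinearMap.range_eq_top]
      intro a
      refine ⟨a • ⟨_, hone⟩, ?_⟩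
      rw [map_smul, hg, LinearMap.comp_apply]
      show a • (if j₀ ∈ S then (1 : (ZMod 3)) else 0) = a
      rw [if_pos hj, smul_eq_mul, mul_one]
    rw [h3, finrank_top, finrank_self]
  have h3 : finrank (ZMod 3) (LinearMap.ker g) = finrank (ZMod 3) (LinearMap.ker (Lq c (dg S j₀))) := by
    have h4 : (LinearMap.ker g).map (KS c S).subtype = LinearMap.ker (Lq c (dg S j₀)) := by
      ext x
      rw [Submodule.mem_map, mem_kerLq]
      constructor
      · rintro ⟨⟨x, hx⟩, h0, rfl⟩
        intro i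
        have h5 : x j₀ = 0 := h0
        show ∑ j, c i j * (x j - x i) + dg S j₀ i * x i = 0
        rw [hx.2 i, zero_add]
        unfold dg
        split_ifs with h6
        · rcases h6 with h6 | h6
          · rw [hx.1 i h6, mul_zero]
          · rw [h6, h5, mul_zero]
        · rw [zero_mul]
      · intro h
        have h5 : ∀ i, i ∉ S → x i = 0 := by
          intro i hi
          have h6 := h i
          rw [sum_eq_zero fun j _ => by rw [hS i j hi, zero_mul], zero_add] at h6
          unfold dg at h6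
          rw [if_pos (Or.inl hi), one_mul] at h6
          exact h6
        have h6 : x j₀ = 0 := by
          have h6 := h j₀
          rw [sum_eq_zero fun j _ => by rw [h0 j, zero_mul], zero_add] at h6
          unfold dg at h6
          rw [if_pos (Or.inr rfl), one_mul] at h6
          exact h6
        refine ⟨⟨x, h5, fun i => ?_⟩, h6, rfl⟩
        have h7 := h i
        by_cases h9 : i ∈ S
        · by_cases h10 : i = j₀
          · rw [h10]
            exact sum_eq_zero fun j _ => by rw [h0 j, zero_mul]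
          · unfold dg at h7
            rw [if_neg (by tauto), zero_mul, add_zero] at h7
            exact h7
        · exact sum_eq_zero fun j _ => by rw [hS i j h9, zero_mul]
    rw [← h4]
    exact (Submodule.equivMapOfInjective (KS c S).subtype (KS c S).injective_subtype _).finrank_eq
  omega

end lap

section blk
variable {U J : Type} [Fintype U] [Fintype J]

/-- the weights of the block system -/
def c0 (e : U → ZMod 3) (A : U → U → ZMod 3) (B : U → J → ZMod 3) (C : J → U → ZMod 3)
    (R : J → J → ZMod 3) : U ⊕ J → U ⊕ J → ZMod 3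
  | Sum.inl u, Sum.inl v => e u * e v * A u v
  | Sum.inl u, Sum.inr l => e u * B u l
  | Sum.inr k, Sum.inl v => e v * C k v
  | Sum.inr k, Sum.inr l => R k l

/-- the weights without the row `ks` -/
noncomputable def cc (ks : U ⊕ J) (e : U → ZMod 3) (A : U → U → ZMod 3) (B : U → J → ZMod 3)
    (C : J → U → ZMod 3) (R : J → J → ZMod 3) (i j : U ⊕ J) : ZMod 3 :=
  if i = ks then 0 else c0 e A B C R i j

variable {ks : U ⊕ J} {e e' : U → ZMod 3} {A : U → U → ZMod 3} {B : U → J → ZMod 3}
  {C : J → U → ZMod 3} {R : J → J → ZMod 3} {J1 : Finset J}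

theorem cc_ks (j : U ⊕ J) : cc ks e A B C R ks j = 0 := if_pos rfl

theorem cc_zero (i j : U ⊕ J) (h : i ∉ Sk J e) : cc ks e A B C R i j = 0 := by
  unfold cc
  split_ifs
  · rfl
  rcases i with i | i
  · rw [mem_Sk_inl, not_not] at h
    rcases j with j | j <;> simp only [c0, h, zero_mul]
  · exact absurd mem_Sk_inr h

theorem cc_zero' (i j : U ⊕ J) (h : j ∉ Sk J e) : cc ks e A B C R i j = 0 := by
  unfold cc
  split_ifs
  · rfl
  rcases j with j | j
  · rw [mem_Sk_inl, not_not] at h
    rcases i with i | i <;> simp only [c0, h, zero_mul, mul_zero]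
  · exact absurd mem_Sk_inr h

/-- the random part -/
noncomputable def YA (U : Type) [Fintype U] (a : prs J1 → ZMod 3) :
    (U ⊕ J → ZMod 3) →ₗ[ZMod 3] (U ⊕ J → ZMod 3) :=
  Lq (c0 (0 : U → ZMod 3) 0 0 0 (Pool.Agent.Y703.CX.ext a)) 0

theorem ext_out (a : prs J1 → ZMod 3) {k : J} (l : J) (h : k ∉ J1) :
    Pool.Agent.Y703.CX.ext a k l = 0 := by
  unfold Pool.Agent.Y703.CX.ext
  rw [dif_neg]
  unfold prs
  rw [mem_filter]
  exact fun h' => h h'.2.1

theorem cc_add (hks : ∀ l, l ∈ J1 ↔ Sum.inr l ≠ ks) (a : prs J1 → ZMod 3) :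
    cc ks e A B C 0 + c0 0 0 0 0 (Pool.Agent.Y703.CX.ext a) =
      cc ks e A B C (Pool.Agent.Y703.CX.ext a) := by
  funext i j
  rw [Pi.add_apply, Pi.add_apply]
  unfold cc
  by_cases h : i = ks
  · rw [if_pos h, if_pos h, zero_add]
    rcases i with i | i
    · rcases j with j | j <;> simp [c0]
    · rcases j with j | j
      · simp [c0]
      · exact ext_out a j fun h' => (hks i).1 h' h
  · rw [if_neg h, if_neg h]
    rcases i with i | i <;> rcases j with j | j <;> simp [c0]

/-- the values of the random part -/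
def RZ (U : Type) (J1 : Finset J) : Submodule (ZMod 3) (U ⊕ J → ZMod 3) where
  carrier := {y | ∀ i, (∀ k ∈ J1, i ≠ Sum.inr k) → y i = 0}
  add_mem' := fun {x y} hx hy i hi => by rw [Pi.add_apply, hx i hi, hy i hi, add_zero]
  zero_mem' := fun _ _ => rfl
  smul_mem' := fun c x hx i hi => by rw [Pi.smul_apply, hx i hi, smul_zero]

theorem mem_RZ {y : U ⊕ J → ZMod 3} :
    y ∈ RZ U J1 ↔ ∀ i, (∀ k ∈ J1, i ≠ Sum.inr k) → y i = 0 := Iff.rfl

theorem finrank_RZ : finrank (ZMod 3) (RZ U J1) = J1.card := by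
  let g : RZ U J1 ≃ₗ[ZMod 3] (J1 → ZMod 3) :=
    { toFun := fun y k => (y : U ⊕ J → ZMod 3) (Sum.inr k)
      map_add' := fun x y => rfl
      map_smul' := fun a x => rfl
      invFun := fun z => ⟨fun i => match i with
        | Sum.inl _ => 0
        | Sum.inr k => if h : k ∈ J1 then z ⟨k, h⟩ else 0, by
          intro i hi
          rcases i with i | i
          · rfl
          · show (if h : i ∈ J1 then z ⟨i, h⟩ else 0) = 0
            rw [dif_neg fun h => hi i h rfl]⟩
      left_inv := fun y => by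
        apply Subtype.ext
        funext i
        rcases i with i | i
        · exact (y.2 (Sum.inl i) fun k _ => by simp).symm
        · show (if h : i ∈ J1 then _ else 0) = _
          by_cases h : i ∈ J1
          · rw [dif_pos h]
          · rw [dif_neg h]
            exact (y.2 (Sum.inr i) fun k hk h' => h (Sum.inr_injective h' ▸ hk)).symm
      right_inv := fun z => by
        funext k
        show (if h : (k : J) ∈ J1 then z ⟨k, h⟩ else 0) = z k
        rw [dif_pos k.2] }
  rw [g.finrank_eq, finrank_fintype_fun_eq_card, Fintype.card_coe]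

theorem YA_mem (a : prs J1 → ZMod 3) : YA U a ∈ YY (W0 U J) (RZ U J1) := by
  refine mem_YY.2 ⟨fun w hw => ?_, fun x => ?_⟩
  · refine LinearMap.mem_ker.1 (mem_kerLq.2 fun i => ?_)
    rw [Pi.zero_apply, zero_mul, add_zero]
    refine sum_eq_zero fun j _ => ?_
    rcases i with i | i <;> rcases j with j | j <;> simp only [c0, Pi.zero_apply, zero_mul]
    rw [hw j i, sub_self, mul_zero]
  · intro i hi
    unfold YA
    rw [Lq_apply, Pi.zero_apply, zero_mul, add_zero]
    refine sum_eq_zero fun j _ => ?_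
    rcases i with i | i
    · rcases j with j | j <;> simp only [c0, Pi.zero_apply, zero_mul]
    · rcases j with j | j
      · simp only [c0, Pi.zero_apply, zero_mul]
      · simp only [c0]
        rw [ext_out a j fun h => hi i h rfl, zero_mul]

theorem YA_apply (a : prs J1 → ZMod 3) {k l : J} (h : l ≠ k) :
    YA U a (Pi.single (Sum.inr l) 1) (Sum.inr k) = Pool.Agent.Y703.CX.ext a k l := by
  unfold YA
  rw [Lq_apply, Pi.zero_apply, zero_mul, add_zero, sum_eq_single (Sum.inr l)]
  · rw [Pi.single_eq_same, Pi.single_eq_of_ne (fun h' => h (Sum.inr_injective h').symm), sub_zero,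
      mul_one]
    rfl
  · intro u _ hu
    rw [Pi.single_eq_of_ne hu, Pi.single_eq_of_ne (fun h' => h (Sum.inr_injective h').symm),
      sub_zero, mul_zero]
  · intro h'
    exact absurd (mem_univ _) h'

theorem YA_inj : Function.Injective (fun a : prs J1 → ZMod 3 => YA U a) := by
  intro a b hab
  funext e
  have he : e.1.1 ∈ J1 ∧ e.1.2 ≠ e.1.1 := by
    have := e.2
    unfold prs at this
    exact (mem_filter.1 this).2
  have hab' : YA U a = YA U b := hab
  have h1 : YA U a (Pi.single (Sum.inr e.1.2) 1) (Sum.inr e.1.1) =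
      YA U b (Pi.single (Sum.inr e.1.2) 1) (Sum.inr e.1.1) := by
    rw [hab']
  rw [YA_apply a he.2, YA_apply b he.2] at h1
  have h2 : (e.1.1, e.1.2) ∈ prs J1 := e.2
  unfold Pool.Agent.Y703.CX.ext at h1
  rw [dif_pos h2, dif_pos h2] at h1
  exact h1

theorem YA_surj {Y : (U ⊕ J → ZMod 3) →ₗ[ZMod 3] (U ⊕ J → ZMod 3)}
    (hY : Y ∈ YY (W0 U J) (RZ U J1)) : ∃ a : prs J1 → ZMod 3, YA U a = Y := by
  obtain ⟨h0, hs⟩ := mem_YY.1 hY
  refine ⟨fun e => Y (Pi.single (Sum.inr e.1.2) 1) (Sum.inr e.1.1), ?_⟩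
  obtain ⟨a, ha⟩ : ∃ a : prs J1 → ZMod 3, a = fun e => Y (Pi.single (Sum.inr e.1.2) 1)
    (Sum.inr e.1.1) := ⟨_, rfl⟩
  rw [← ha]
  obtain ⟨h0', hs'⟩ := mem_YY.1 (YA_mem (U := U) a)
  have hl : ∀ v : U, (Pi.single (Sum.inl v) 1 : U ⊕ J → ZMod 3) ∈ W0 U J := by
    intro v i l
    rw [Pi.single_eq_of_ne (by simp), Pi.single_eq_of_ne (by simp)]
  have hne : ∀ k ∈ J1, ∀ l : J, l ≠ k → YA U a (Pi.single (Sum.inr l) 1) (Sum.inr k) =
      Y (Pi.single (Sum.inr l) 1) (Sum.inr k) := by
    intro k hk l h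
    rw [YA_apply a h]
    unfold Pool.Agent.Y703.CX.ext
    have hm : (k, l) ∈ prs J1 := by
      unfold prs
      rw [mem_filter]
      exact ⟨mem_univ _, hk, h⟩
    rw [dif_pos hm, ha]
  refine (Pi.basisFun (ZMod 3) (U ⊕ J)).ext fun w => ?_
  rw [Pi.basisFun_apply]
  rcases w with w | i
  · rw [h0' _ (hl w), h0 _ (hl w)]
  · funext q
    by_cases hq : ∀ k ∈ J1, q ≠ Sum.inr k
    · rw [hs' _ q hq, hs _ q hq]
    · push Not at hq
      obtain ⟨k, hk, rfl⟩ := hq
      by_cases h : i = k
      · subst h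
        have h1 : (Pi.single (Sum.inr i) 1 : U ⊕ J → ZMod 3) + ∑ j ∈ univ.erase i,
            (Pi.single (Sum.inr j) 1 : U ⊕ J → ZMod 3) ∈ W0 U J := by
          rw [Finset.add_sum_erase _ (fun j => (Pi.single (Sum.inr j) 1 : U ⊕ J → ZMod 3))
            (Finset.mem_univ i)]
          have h2 : ∀ j : J, (∑ k : J, (Pi.single (Sum.inr k) 1 : U ⊕ J → ZMod 3)) (Sum.inr j) = 1 := by
            intro j
            rw [Finset.sum_apply, Finset.sum_eq_single j]
            · rw [Pi.single_eq_same]
            · intro k _ hk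
              rw [Pi.single_eq_of_ne (fun h' => hk (Sum.inr_injective h').symm)]
            · intro h'
              exact absurd (Finset.mem_univ _) h'
          intro j k
          rw [h2, h2]
        have key : ∀ Z : (U ⊕ J → ZMod 3) →ₗ[ZMod 3] (U ⊕ J → ZMod 3),
            (∀ w ∈ W0 U J, Z w = 0) → Z (Pi.single (Sum.inr i) 1) (Sum.inr i) =
            -∑ j ∈ univ.erase i, Z (Pi.single (Sum.inr j) 1) (Sum.inr i) := by
          intro Z hZ2
          have h3 := congrFun (hZ2 _ h1) (Sum.inr i)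
          rw [map_add, map_sum, Pi.add_apply, Finset.sum_apply] at h3
          exact eq_neg_of_add_eq_zero_left h3
        rw [key _ h0', key _ h0]
        congr 1
        refine Finset.sum_congr rfl fun j hj => ?_
        exact hne i hk j (Finset.ne_of_mem_erase hj)
      · exact hne k hk i h

/-- the correspondence of the events -/
theorem card_fill (P : ((U ⊕ J → ZMod 3) →ₗ[ZMod 3] (U ⊕ J → ZMod 3)) → Prop) :
    (univ.filter fun a : prs J1 → ZMod 3 => P (YA U a)).card =
      ((YY (W0 U J) (RZ U J1)).filter P).card := by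
  refine Finset.card_bij (fun a _ => YA U a) (fun a ha => ?_)
      (fun a _ b _ h => YA_inj h) (fun Y hY => ?_)
  · rw [Finset.mem_filter] at ha ⊢
    exact ⟨YA_mem a, ha.2⟩
  · rw [Finset.mem_filter] at hY
    obtain ⟨a, ha⟩ := YA_surj hY.1
    refine ⟨a, Finset.mem_filter.2 ⟨Finset.mem_univ a, ?_⟩, ha⟩
    rw [ha]
    exact hY.2

theorem card_YYW : (YY (W0 U J) (RZ U J1)).card = 3 ^ (prs J1).card := by
  have h := card_fill (U := U) (J := J) (J1 := J1) fun _ => True
  rw [Finset.filter_true, Finset.filter_true] at h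
  rw [← h, Finset.card_univ, Fintype.card_fun, ZMod.card, Fintype.card_coe]

end blk

end Q283.Q3
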